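import Pool.Agent.Helper16_FineB.Wedge51

/-!
FACT: the energy products of the wedge functions.
-/

namespace Pool.Agent.H16F.B.H51

open MeasureTheory Complex Filter Topology Pool.Agent.H16Iso Pool.Agent.H62T Pool.Agent.H16F
open scoped ENNReal NNReal ContDiff

/-! ### Injectivity of the sine transform -/

/-- a finite-measure argument: an integrable function on the line with zero Fourier transform
vanishes -/
lemma fourier_inj (e : ℝ ≃ᵐ ℝ) {F : ℝ → ℝ} (hF : Integrable F volume) (mF : Measurable F)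
    (h : ∀ t : ℝ, ∫ x, (F x : ℂ) * Complex.exp (t * (e x : ℝ) * I) = 0) : F =ᵐ[volume] 0 := by
  set μ : Measure ℝ := volume.withDensity fun x => ENNReal.ofReal (F x) with hμ
  set ν : Measure ℝ := volume.withDensity fun x => ENNReal.ofReal (-F x) with hν
  have fin1 : ∫⁻ x, ENNReal.ofReal (F x) ≠ ⊤ := hF.lintegral_lt_top.ne
  have fin2 : ∫⁻ x, ENNReal.ofReal (-F x) ≠ ⊤ := hF.neg.lintegral_lt_top.ne
  have i1 : IsFiniteMeasure μ := isFiniteMeasure_withDensity fin1
  have i2 : IsFiniteMeasure ν := isFiniteMeasure_withDensity fin2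
  have hc : charFun (μ.map e) = charFun (ν.map e) := by
    ext t
    have me : Measurable fun x : ℝ => Complex.exp (t * (e x : ℝ) * I) := by
      have : Measurable fun x : ℝ => e x := e.measurable
      fun_prop
    have m1 : Measurable fun x : ℝ => (ENNReal.ofReal (F x)).toReal := by fun_prop
    have m2 : Measurable fun x : ℝ => (ENNReal.ofReal (-F x)).toReal := by fun_prop
    rw [charFun_apply_real, charFun_apply_real, integral_map_equiv, integral_map_equiv]
    rw [hμ, hν, integral_withDensity_eq_integral_toReal_smul (by fun_prop) (by simp),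
      integral_withDensity_eq_integral_toReal_smul (by fun_prop) (by simp), ← sub_eq_zero,
      ← integral_sub]
    · rw [← h t]
      refine integral_congr_ae (ae_of_all _ fun x => ?_)
      simp only
      rw [← sub_smul]
      have e : (ENNReal.ofReal (F x)).toReal - (ENNReal.ofReal (-F x)).toReal = F x := by
        rw [ENNReal.toReal_ofReal', ENNReal.toReal_ofReal']
        exact max_zero_sub_max_neg_zero_eq_self _
      rw [e, Complex.real_smul]
    · refine Integrable.mono hF ?_ (ae_of_all _ fun x => ?_)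
      · exact (m1.smul me).aestronglyMeasurable
      · rw [norm_smul, show Complex.exp (↑t * ↑(e x) * I) = Complex.exp (((t * e x : ℝ) : ℂ) * I) by
          push_cast; rfl, Complex.norm_exp_ofReal_mul_I, mul_one, ENNReal.toReal_ofReal',
          Real.norm_of_nonneg (le_max_right _ _)]
        exact max_le (le_abs_self _) (abs_nonneg _)
    · refine Integrable.mono hF ?_ (ae_of_all _ fun x => ?_)
      · exact (m2.smul me).aestronglyMeasurable
      · rw [norm_smul, show Complex.exp (↑t * ↑(e x) * I) = Complex.exp (((t * e x : ℝ) : ℂ) * I) by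
          push_cast; rfl, Complex.norm_exp_ofReal_mul_I, mul_one, ENNReal.toReal_ofReal',
          Real.norm_of_nonneg (le_max_right _ _)]
        exact max_le (neg_le_abs _) (abs_nonneg _)
  have i3 : IsFiniteMeasure (μ.map e) := Measure.isFiniteMeasure_map _ _
  have i4 : IsFiniteMeasure (ν.map e) := Measure.isFiniteMeasure_map _ _
  have hm : μ = ν := MeasurableEquiv.map_measurableEquiv_injective e (Measure.ext_of_charFun hc)
  have h1 : (fun x => ENNReal.ofReal (F x)) =ᵐ[volume] fun x => ENNReal.ofReal (-F x) := by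
    rw [hμ, hν] at hm
    exact (withDensity_eq_iff (by fun_prop) (by fun_prop) fin1).1 hm
  filter_upwards [h1] with x hx
  rcases le_total (F x) 0 with h0 | h0
  · rw [ENNReal.ofReal_of_nonpos h0] at hx
    have := ENNReal.ofReal_eq_zero.1 hx.symm
    simp only [Pi.zero_apply]; linarith
  · have h2 : ENNReal.ofReal (-F x) = 0 := ENNReal.ofReal_of_nonpos (by linarith)
    rw [h2] at hx
    have := ENNReal.ofReal_eq_zero.1 hx
    simp only [Pi.zero_apply]; linarith

/-- injectivity of the sine transform in the variable `sinh w` -/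
lemma sine_inj {f : ℝ → ℝ} (mf : Measurable f) (hf : IntegrableOn f (Set.Ioi 0))
    (h : ∀ y : ℝ, 0 < y → ∫ w in Set.Ioi (0 : ℝ), f w * Real.sin (y * Real.sinh w) = 0) :
    ∀ᵐ w : ℝ, 0 < w → f w = 0 := by
  set D : ℝ → ℝ := fun w => (Set.Ioi (0 : ℝ)).indicator f w - (Set.Ioi (0 : ℝ)).indicator f (-w)
    with hD
  have i1 : Integrable ((Set.Ioi (0 : ℝ)).indicator f) volume :=
    (integrable_indicator_iff measurableSet_Ioi).2 hf
  have m1 : Measurable ((Set.Ioi (0 : ℝ)).indicator f) := mf.indicator measurableSet_Ioi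
  have iD : Integrable D volume := i1.sub i1.comp_neg
  have mD : Measurable D := m1.sub (m1.comp measurable_neg)
  have hs : ∀ y : ℝ, ∫ w in Set.Ioi (0 : ℝ), f w * Real.sin (y * Real.sinh w) = 0 := by
    intro y
    rcases lt_trichotomy y 0 with hy | hy | hy
    · have := h (-y) (by linarith)
      have e : ∀ w, f w * Real.sin (-y * Real.sinh w) = -(f w * Real.sin (y * Real.sinh w)) := by
        intro w; rw [neg_mul, Real.sin_neg]; ring
      simp only [e] at this
      rw [integral_neg] at this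
      linarith
    · subst hy; simp
    · exact h y hy
  have h0 : ∀ t : ℝ, ∫ x, (D x : ℂ) * Complex.exp (t * (Real.sinhHomeomorph.toMeasurableEquiv x : ℝ) * I)
      = 0 := by
    intro t
    have e1 : ∀ x, Real.sinhHomeomorph.toMeasurableEquiv x = Real.sinh x := fun x => rfl
    simp only [e1]
    have mE : Measurable fun x : ℝ => Complex.exp (t * (Real.sinh x : ℝ) * I) := by fun_prop
    have nE : ∀ x : ℝ, ‖Complex.exp (t * (Real.sinh x : ℝ) * I)‖ = 1 := by
      intro x
      rw [show Complex.exp (↑t * ↑(Real.sinh x) * I)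
        = Complex.exp (((t * Real.sinh x : ℝ) : ℂ) * I) by push_cast; rfl,
        Complex.norm_exp_ofReal_mul_I]
    have j1 : Integrable (fun x : ℝ => (((Set.Ioi (0 : ℝ)).indicator f x : ℝ) : ℂ)
        * Complex.exp (t * (Real.sinh x : ℝ) * I)) volume := by
      refine Integrable.mono i1 ?_ (ae_of_all _ fun x => ?_)
      · exact ((Complex.measurable_ofReal.comp m1).mul mE).aestronglyMeasurable
      · rw [norm_mul, nE, mul_one, Complex.norm_real]
    have j2 : Integrable (fun x : ℝ => (((Set.Ioi (0 : ℝ)).indicator f (-x) : ℝ) : ℂ)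
        * Complex.exp (t * (Real.sinh x : ℝ) * I)) volume := by
      refine Integrable.mono i1.comp_neg ?_ (ae_of_all _ fun x => ?_)
      · exact ((Complex.measurable_ofReal.comp (m1.comp measurable_neg)).mul mE).aestronglyMeasurable
      · rw [norm_mul, nE, mul_one, Complex.norm_real]
    have e2 : ∫ x, (D x : ℂ) * Complex.exp (t * (Real.sinh x : ℝ) * I)
        = (∫ x, (((Set.Ioi (0 : ℝ)).indicator f x : ℝ) : ℂ) * Complex.exp (t * (Real.sinh x : ℝ) * I))
        - ∫ x, (((Set.Ioi (0 : ℝ)).indicator f (-x) : ℝ) : ℂ) * Complex.exp (t * (Real.sinh x : ℝ) * I) := by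
      rw [← integral_sub j1 j2]
      refine integral_congr_ae (ae_of_all _ fun x => ?_)
      simp only [hD]
      push_cast; ring
    rw [e2, ← integral_neg_eq_self (fun x : ℝ => (((Set.Ioi (0 : ℝ)).indicator f (-x) : ℝ) : ℂ)
      * Complex.exp (t * (Real.sinh x : ℝ) * I))]
    simp only [neg_neg]
    have j3 : Integrable (fun x : ℝ => (((Set.Ioi (0 : ℝ)).indicator f x : ℝ) : ℂ)
        * Complex.exp (t * (Real.sinh (-x) : ℝ) * I)) volume := by
      have := j2.comp_neg
      simpa using this
    rw [← integral_sub j1 j3]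
    have e3 : ∀ x : ℝ, (((Set.Ioi (0 : ℝ)).indicator f x : ℝ) : ℂ) * Complex.exp (t * (Real.sinh x : ℝ) * I)
        - (((Set.Ioi (0 : ℝ)).indicator f x : ℝ) : ℂ) * Complex.exp (t * (Real.sinh (-x) : ℝ) * I)
        = (Set.Ioi (0 : ℝ)).indicator (fun w => 2 * I * ((f w * Real.sin (t * Real.sinh w) : ℝ) : ℂ)) x := by
      intro x
      by_cases hx : x ∈ Set.Ioi (0 : ℝ)
      · rw [Set.indicator_of_mem hx, Set.indicator_of_mem hx, Real.sinh_neg]
        push_cast
        have := Complex.two_sin (t * Complex.sinh x)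
        have e4 : Complex.exp (t * Complex.sinh x * I) - Complex.exp (t * -Complex.sinh x * I)
            = 2 * I * Complex.sin (t * Complex.sinh x) := by
          have e5 : 2 * I * Complex.sin (t * Complex.sinh x)
            = I * (2 * Complex.sin (t * Complex.sinh x)) := by ring
          rw [e5, this]
          rw [show (t : ℂ) * -Complex.sinh x * I = -(t * Complex.sinh x) * I by ring]
          linear_combination (-(Complex.exp (-(t * Complex.sinh x) * I))
            + Complex.exp (t * Complex.sinh x * I)) * Complex.I_mul_I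
        linear_combination (f x : ℂ) * e4
      · rw [Set.indicator_of_notMem hx, Set.indicator_of_notMem hx]
        simp
    rw [integral_congr_ae (ae_of_all _ e3), integral_indicator measurableSet_Ioi,
      integral_const_mul, integral_complex_ofReal, hs t]
    simp
  have h1 := fourier_inj _ iD mD h0
  filter_upwards [h1] with w hw hw0
  simp only [hD, Pi.zero_apply] at hw
  rw [Set.indicator_of_mem (Set.mem_Ioi.2 hw0), Set.indicator_of_notMem (by simp; linarith),
    sub_zero] at hw
  exact hw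

/-! ### Data in the quadrant -/

/-- a bounded part of the quadrant -/
def QK (δ R : ℝ) : Set ℂ := {x | δ ≤ x.re ∧ 0 < x.im ∧ ‖x‖ ≤ R}

section

variable {δ R : ℝ}

lemma meas_QK : MeasurableSet (QK δ R) :=
  (measurableSet_le measurable_const Complex.measurable_re).inter
    ((measurableSet_lt measurable_const Complex.measurable_im).inter
      (measurableSet_le measurable_norm measurable_const))

lemma QK_fin : volume (QK δ R) < ⊤ := by
  refine lt_of_le_of_lt (measure_mono ?_) (measure_closedBall_lt_top (x := (0 : ℂ)) (r := R))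
  intro x hx
  simpa using hx.2.2

lemma dec_bound {w : ℝ} {x : ℂ} (hx : δ ≤ x.re) : |dec w x| ≤ ep δ w := by
  unfold dec ep
  rw [abs_mul, Real.abs_exp]
  calc Real.exp (-(x.re * Real.cosh w)) * |Real.sin (x.im * Real.sinh w)|
      ≤ Real.exp (-(x.re * Real.cosh w)) * 1 :=
        mul_le_mul_of_nonneg_left (Real.abs_sin_le_one _) (Real.exp_pos _).le
    _ ≤ _ := by
      rw [mul_one]
      exact Real.exp_le_exp.2 (by nlinarith [Real.cosh_pos w])

lemma meas_dec : Measurable fun p : ℝ × ℂ => dec p.1 p.2 := by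
  unfold dec
  have h1 : Measurable fun p : ℝ × ℂ => p.2.re := Complex.measurable_re.comp measurable_snd
  have h2 : Measurable fun p : ℝ × ℂ => p.2.im := Complex.measurable_im.comp measurable_snd
  have h3 : Measurable fun p : ℝ × ℂ => Real.cosh p.1 := Real.measurable_cosh.comp measurable_fst
  have h4 : Measurable fun p : ℝ × ℂ => Real.sinh p.1 := Real.measurable_sinh.comp measurable_fst
  exact (h1.mul h3).neg.exp.mul (h2.mul h4).sin

variable {h0 : ℂ → ℝ} {M : ℝ} {cc : ℝ → ℝ} {B C : ℝ}

lemma int_prod_dec (hδ : 0 < δ) (mh : Measurable h0) (bh : ∀ x, |h0 x| ≤ M)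
    (sh : ∀ x, x ∉ QK δ R → h0 x = 0) (mc : Measurable cc)
    (bc : ∀ w, 0 < w → |cc w| ≤ B * Real.exp (C * w)) :
    Integrable (fun z : ℝ × ℂ => cc z.1 * (h0 z.2 * dec z.1 z.2))
      ((volume.restrict (Set.Ioi (0 : ℝ))).prod volume) := by
  have i1 : Integrable (fun w => B * (Real.exp (C * w) * ep δ w))
      (volume.restrict (Set.Ioi (0 : ℝ))) := (integrable_ep hδ C).const_mul B
  have i2 : Integrable (fun x => (QK δ R).indicator (fun _ => M) x) volume :=
    (integrable_indicator_iff meas_QK).2 (integrableOn_const QK_fin.ne)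
  refine Integrable.mono' (i1.mul_prod i2) ?_ ?_
  · exact ((mc.comp measurable_fst).mul ((mh.comp measurable_snd).mul meas_dec)).aestronglyMeasurable
  · have ha : ∀ᵐ w ∂(volume.restrict (Set.Ioi (0 : ℝ))), 0 < w := ae_restrict_mem measurableSet_Ioi
    filter_upwards [Measure.quasiMeasurePreserving_fst.ae ha] with z hz
    by_cases hx : z.2 ∈ QK δ R
    · rw [Set.indicator_of_mem hx, norm_mul, norm_mul, Real.norm_eq_abs, Real.norm_eq_abs,
        Real.norm_eq_abs]
      have e1 := bc z.1 hz
      have e2 := bh z.2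
      have e3 := dec_bound (w := z.1) hx.1
      have hB : 0 ≤ B * Real.exp (C * z.1) := (abs_nonneg _).trans e1
      have hM : 0 ≤ M := (abs_nonneg _).trans e2
      calc |cc z.1| * (|h0 z.2| * |dec z.1 z.2|)
          ≤ (B * Real.exp (C * z.1)) * (M * ep δ z.1) := by gcongr
        _ = _ := by ring
    · rw [Set.indicator_of_notMem hx, sh _ hx]
      simp

lemma swap_dec (hδ : 0 < δ) (mh : Measurable h0) (bh : ∀ x, |h0 x| ≤ M)
    (sh : ∀ x, x ∉ QK δ R → h0 x = 0) (mc : Measurable cc)
    (bc : ∀ w, 0 < w → |cc w| ≤ B * Real.exp (C * w)) :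
    ∫ w in Set.Ioi (0 : ℝ), cc w * ∫ x, h0 x * dec w x
      = ∫ x, h0 x * ∫ w in Set.Ioi (0 : ℝ), cc w * dec w x := by
  have h1 := integral_integral_swap (f := fun w x => cc w * (h0 x * dec w x))
    (int_prod_dec hδ mh bh sh mc bc)
  calc ∫ w in Set.Ioi (0 : ℝ), cc w * ∫ x, h0 x * dec w x
      = ∫ w in Set.Ioi (0 : ℝ), ∫ x, cc w * (h0 x * dec w x) := by
        refine integral_congr_ae (ae_of_all _ fun w => ?_)
        simp only
        rw [integral_const_mul]
    _ = ∫ x, ∫ w in Set.Ioi (0 : ℝ), cc w * (h0 x * dec w x) := h1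
    _ = _ := by
        refine integral_congr_ae (ae_of_all _ fun x => ?_)
        simp only
        rw [← integral_const_mul]
        refine integral_congr_ae (ae_of_all _ fun w => ?_)
        simp only
        ring

lemma hat_bound (bh : ∀ x, |h0 x| ≤ M)
    (sh : ∀ x, x ∉ QK δ R → h0 x = 0) (w : ℝ) :
    |∫ x, h0 x * dec w x| ≤ (M * (volume (QK δ R)).toReal) * ep δ w := by
  have hM : 0 ≤ M := (abs_nonneg _).trans (bh 0)
  have e1 : ∫ x, h0 x * dec w x = ∫ x in QK δ R, h0 x * dec w x := by
    refine (setIntegral_eq_integral_of_forall_compl_eq_zero fun x hx => ?_).symm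
    rw [sh x hx, zero_mul]
  rw [e1]
  have := norm_setIntegral_le_of_norm_le_const (μ := volume) (s := QK δ R)
    (f := fun x => h0 x * dec w x) (C := M * ep δ w) QK_fin (fun x hx => by
      rw [norm_mul, Real.norm_eq_abs, Real.norm_eq_abs]
      exact mul_le_mul (bh x) (dec_bound hx.1) (abs_nonneg _) hM)
  rw [Real.norm_eq_abs] at this
  refine this.trans (le_of_eq ?_)
  rw [Measure.real]; ring

/-- the transform is continuous in the open quadrant -/
lemma dec_cont (mc : Measurable cc) (bc : ∀ w, 0 < w → |cc w| ≤ B * Real.exp (C * w)) :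
    ContinuousOn (fun x : ℂ => ∫ w in Set.Ioi (0 : ℝ), cc w * dec w x) {x | 0 < x.re} := by
  intro x0 hx0
  refine ContinuousAt.continuousWithinAt ?_
  have hx0' : (0 : ℝ) < x0.re := hx0
  have hδ : 0 < x0.re / 2 := by positivity
  refine continuousAt_of_dominated (bound := fun w => B * (Real.exp (C * w) * ep (x0.re / 2) w))
    ?_ ?_ ?_ ?_
  · refine Eventually.of_forall fun x => ?_
    exact (mc.mul (meas_dec.comp (measurable_id.prodMk measurable_const))).aestronglyMeasurable
  · have : ∀ᶠ x : ℂ in 𝓝 x0, x0.re / 2 < x.re :=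
      Complex.continuous_re.continuousAt.eventually (lt_mem_nhds (by linarith))
    filter_upwards [this] with x hx
    filter_upwards [ae_restrict_mem measurableSet_Ioi] with w hw
    rw [norm_mul, Real.norm_eq_abs, Real.norm_eq_abs, ← mul_assoc]
    exact mul_le_mul (bc w hw) (dec_bound hx.le) (abs_nonneg _) ((abs_nonneg _).trans (bc w hw))
  · exact (integrable_ep hδ C).const_mul B
  · refine ae_of_all _ fun w => ?_
    have : Continuous fun x : ℂ => cc w * dec w x := by
      unfold dec
      fun_prop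
    exact this.continuousAt

lemma dec_inj (mc : Measurable cc) (bc : ∀ w, 0 < w → |cc w| ≤ B * Real.exp (C * w))
    (h : ∀ᵐ x : ℂ, 0 < x.re → 0 < x.im → ∫ w in Set.Ioi (0 : ℝ), cc w * dec w x = 0) :
    ∀ᵐ w : ℝ, 0 < w → cc w = 0 := by
  have hU : IsOpen {x : ℂ | 0 < x.re ∧ 0 < x.im} :=
    (isOpen_lt continuous_const Complex.continuous_re).inter
      (isOpen_lt continuous_const Complex.continuous_im)
  have h1 : Set.EqOn (fun x : ℂ => ∫ w in Set.Ioi (0 : ℝ), cc w * dec w x) (fun _ => 0)
      {x : ℂ | 0 < x.re ∧ 0 < x.im} := by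
    refine Measure.eqOn_open_of_ae_eq (μ := volume) ?_ hU
      ((dec_cont mc bc).mono fun x hx => hx.1) continuousOn_const
    refine (ae_restrict_iff' hU.measurableSet).2 ?_
    filter_upwards [h] with x hx hx'
    exact hx hx'.1 hx'.2
  have h2 : ∀ᵐ w : ℝ, 0 < w → cc w * ep 1 w = 0 := by
    refine sine_inj (mc.mul (meas_ep 1)) ?_ ?_
    · refine Integrable.mono' ((integrable_ep one_pos C).const_mul B)
        (mc.mul (meas_ep 1)).aestronglyMeasurable ?_
      filter_upwards [ae_restrict_mem measurableSet_Ioi] with w hw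
      rw [norm_mul, Real.norm_eq_abs, Real.norm_eq_abs, abs_of_pos (ep_pos _ _), ← mul_assoc]
      exact mul_le_mul_of_nonneg_right (bc w hw) (ep_pos _ _).le
    · intro y hy
      have h3 := h1 (show (⟨1, y⟩ : ℂ) ∈ {x : ℂ | 0 < x.re ∧ 0 < x.im} from ⟨one_pos, hy⟩)
      simp only at h3
      refine Eq.trans ?_ h3
      refine integral_congr_ae (ae_of_all _ fun w => ?_)
      simp only [dec, ep]
      ring
  filter_upwards [h2] with w hw hw0
  exact (mul_eq_zero.1 (hw hw0)).resolve_right (ep_pos _ _).ne'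

lemma meas_hat (mh : Measurable h0) : Measurable fun w : ℝ => ∫ x, h0 x * dec w x := by
  have : Measurable (Function.uncurry fun (w : ℝ) (x : ℂ) => h0 x * dec w x) :=
    (mh.comp measurable_snd).mul meas_dec
  exact this.stronglyMeasurable.integral_prod_right.measurable

lemma meas_trf (mc : Measurable cc) :
    Measurable fun x : ℂ => ∫ w in Set.Ioi (0 : ℝ), cc w * dec w x := by
  have : Measurable (Function.uncurry fun (x : ℂ) (w : ℝ) => cc w * dec w x) :=
    (mc.comp measurable_snd).mul (meas_dec.comp (measurable_snd.prodMk measurable_fst))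
  exact this.stronglyMeasurable.integral_prod_right.measurable

lemma int_hat (hδ : 0 < δ) (mh : Measurable h0) (bh : ∀ x, |h0 x| ≤ M)
    (sh : ∀ x, x ∉ QK δ R → h0 x = 0) (mc : Measurable cc)
    (bc : ∀ w, 0 < w → |cc w| ≤ B * Real.exp (C * w)) :
    Integrable (fun w => cc w * ∫ x, h0 x * dec w x) (volume.restrict (Set.Ioi (0 : ℝ))) := by
  refine Integrable.mono' ((integrable_ep hδ C).const_mul (B * (M * (volume (QK δ R)).toReal)))
    (mc.mul (meas_hat mh)).aestronglyMeasurable ?_
  filter_upwards [ae_restrict_mem measurableSet_Ioi] with w hw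
  rw [norm_mul, Real.norm_eq_abs, Real.norm_eq_abs]
  calc |cc w| * |∫ x, h0 x * dec w x|
      ≤ (B * Real.exp (C * w)) * ((M * (volume (QK δ R)).toReal) * ep δ w) :=
        mul_le_mul (bc w hw) (hat_bound bh sh w) (abs_nonneg _) ((abs_nonneg _).trans (bc w hw))
    _ = _ := by ring

lemma trf_bound (hδ : 0 < δ) (bc : ∀ w, 0 < w → |cc w| ≤ B * Real.exp (C * w))
    {x : ℂ} (hx : δ ≤ x.re) :
    |∫ w in Set.Ioi (0 : ℝ), cc w * dec w x|
      ≤ ∫ w in Set.Ioi (0 : ℝ), B * (Real.exp (C * w) * ep δ w) := by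
  rw [← Real.norm_eq_abs]
  refine norm_integral_le_of_norm_le ((integrable_ep hδ C).const_mul B) ?_
  filter_upwards [ae_restrict_mem measurableSet_Ioi] with w hw
  rw [norm_mul, Real.norm_eq_abs, Real.norm_eq_abs, ← mul_assoc]
  exact mul_le_mul (bc w hw) (dec_bound hx) (abs_nonneg _) ((abs_nonneg _).trans (bc w hw))

end

/-- from the identities for all data to the vanishing of the coefficient -/
lemma coef_zero {cc : ℝ → ℝ} {B C : ℝ} (mc : Measurable cc)
    (bc : ∀ w, 0 < w → |cc w| ≤ B * Real.exp (C * w))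
    (h : ∀ (δ R M : ℝ) (h0 : ℂ → ℝ), 0 < δ → Measurable h0 → (∀ x, |h0 x| ≤ M) →
      (∀ x, x ∉ QK δ R → h0 x = 0) →
      ∫ w in Set.Ioi (0 : ℝ), cc w * ∫ x, h0 x * dec w x = 0) :
    ∀ᵐ w : ℝ, 0 < w → cc w = 0 := by
  refine dec_inj mc bc ?_
  set Ψ : ℂ → ℝ := fun x => ∫ w in Set.Ioi (0 : ℝ), cc w * dec w x with hΨ
  have mΨ : Measurable Ψ := meas_trf mc
  have hn : ∀ n : ℕ, ∀ᵐ x : ℂ, x ∈ QK (1 / (n + 1 : ℝ)) n → Ψ x = 0 := by
    intro n
    have hδ : (0 : ℝ) < 1 / (n + 1 : ℝ) := by positivity
    set K := QK (1 / (n + 1 : ℝ)) n with hK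
    set M := ∫ w in Set.Ioi (0 : ℝ), B * (Real.exp (C * w) * ep (1 / (n + 1 : ℝ)) w) with hM
    have bΨ : ∀ x ∈ K, |Ψ x| ≤ M := fun x hx => trf_bound hδ bc hx.1
    have M0 : 0 ≤ M := by
      have h1 : (⟨1 / (n + 1 : ℝ), 0⟩ : ℂ).re = 1 / (n + 1 : ℝ) := rfl
      exact (abs_nonneg _).trans (trf_bound (x := (⟨1 / (n + 1 : ℝ), 0⟩ : ℂ)) hδ bc h1.ge)
    have mh : Measurable (K.indicator Ψ) := mΨ.indicator meas_QK
    have bh : ∀ x, |K.indicator Ψ x| ≤ M := by
      intro x
      by_cases hx : x ∈ K
      · rw [Set.indicator_of_mem hx]; exact bΨ x hx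
      · rw [Set.indicator_of_notMem hx, abs_zero]; exact M0
    have sh : ∀ x, x ∉ K → K.indicator Ψ x = 0 := fun x hx => Set.indicator_of_notMem hx _
    have h1 := h _ _ M _ hδ mh bh sh
    rw [swap_dec hδ mh bh sh mc bc] at h1
    have e : ∀ x, K.indicator Ψ x * Ψ x = K.indicator (fun x => Ψ x * Ψ x) x := by
      intro x
      by_cases hx : x ∈ K
      · rw [Set.indicator_of_mem hx, Set.indicator_of_mem hx]
      · rw [Set.indicator_of_notMem hx, Set.indicator_of_notMem hx, zero_mul]
    have h2 : ∫ x, K.indicator (fun x => Ψ x * Ψ x) x = 0 := by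
      rw [← h1]
      exact integral_congr_ae (ae_of_all _ fun x => (e x).symm)
    have i2 : Integrable (K.indicator (fun x => Ψ x * Ψ x)) volume := by
      refine Integrable.mono' ((integrable_indicator_iff meas_QK).2
        (integrableOn_const QK_fin.ne) : Integrable (K.indicator fun _ => M * M) volume)
        ((mΨ.mul mΨ).indicator meas_QK).aestronglyMeasurable ?_
      refine ae_of_all _ fun x => ?_
      by_cases hx : x ∈ K
      · rw [Set.indicator_of_mem hx, Set.indicator_of_mem hx, norm_mul, Real.norm_eq_abs]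
        exact mul_le_mul (bΨ x hx) (bΨ x hx) (abs_nonneg _) M0
      · rw [Set.indicator_of_notMem hx, Set.indicator_of_notMem hx, norm_zero]
    have h3 := (integral_eq_zero_iff_of_nonneg (fun x => Set.indicator_nonneg
      (fun x _ => mul_self_nonneg _) x) i2).1 h2
    filter_upwards [h3] with x hx hxK
    rw [Set.indicator_of_mem hxK] at hx
    exact mul_self_eq_zero.1 hx
  filter_upwards [ae_all_iff.2 hn] with x hx h1 h2
  obtain ⟨m, hm⟩ := exists_nat_one_div_lt h1
  obtain ⟨k, hk⟩ := exists_nat_ge ‖x‖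
  refine hx (max m k) ⟨?_, h2, ?_⟩
  · refine le_trans ?_ hm.le
    refine one_div_le_one_div_of_le (by positivity) ?_
    have : (m : ℝ) ≤ ((max m k : ℕ) : ℝ) := by exact_mod_cast le_max_left _ _
    linarith
  · refine hk.trans ?_
    exact_mod_cast le_max_right _ _

lemma en_bound {f h : ℂ → ℝ} {gf gh : ℂ → ℂ} {A A' c : ℝ} (hc : 0 < c)
    (bf : ∀ x, |f x| ≤ A * Real.exp (-(c * ‖x‖))) (bgf : ∀ x, ‖gf x‖ ≤ A * Real.exp (-(c * ‖x‖)))
    (bh : ∀ x, |h x| ≤ A' * Real.exp (-(c * ‖x‖)))
    (bgh : ∀ x, ‖gh x‖ ≤ A' * Real.exp (-(c * ‖x‖))) :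
    |en 1 f gf h gh| ≤ 2 * (A * A' * ∫ x : ℂ, Real.exp (-(c * ‖x - 0‖))) := by
  have hA : 0 ≤ A := by
    have := (abs_nonneg _).trans (bf 0)
    simpa using this
  have hA' : 0 ≤ A' := by
    have := (abs_nonneg _).trans (bh 0)
    simpa using this
  have i0 := (integrable_exp_norm hc (0 : ℂ)).const_mul (A * A')
  have key : ∀ (x : ℂ) (a b : ℝ), 0 ≤ a → 0 ≤ b → a ≤ A * Real.exp (-(c * ‖x‖)) →
      b ≤ A' * Real.exp (-(c * ‖x‖)) → a * b ≤ A * A' * Real.exp (-(c * ‖x - 0‖)) := by
    intro x a b ha hb h1 h2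
    have h3 : Real.exp (-(c * ‖x‖)) ≤ 1 := Real.exp_le_one_iff.2 (by
      have := mul_nonneg hc.le (norm_nonneg x); linarith)
    rw [sub_zero]
    calc a * b ≤ (A * Real.exp (-(c * ‖x‖))) * (A' * Real.exp (-(c * ‖x‖))) :=
          mul_le_mul h1 h2 hb (ha.trans h1)
      _ = A * A' * Real.exp (-(c * ‖x‖)) * Real.exp (-(c * ‖x‖)) := by ring
      _ ≤ A * A' * Real.exp (-(c * ‖x‖)) * 1 := mul_le_mul_of_nonneg_left h3 (by positivity)
      _ = _ := mul_one _
  have h1 : |∫ x, ip (gf x) (gh x)| ≤ A * A' * ∫ x : ℂ, Real.exp (-(c * ‖x - 0‖)) := by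
    rw [← integral_const_mul, ← Real.norm_eq_abs]
    refine norm_integral_le_of_norm_le i0 (ae_of_all _ fun x => ?_)
    exact (abs_ip_le _ _).trans (key x _ _ (norm_nonneg _) (norm_nonneg _) (bgf x) (bgh x))
  have h2 : |∫ x, f x * h x| ≤ A * A' * ∫ x : ℂ, Real.exp (-(c * ‖x - 0‖)) := by
    rw [← integral_const_mul, ← Real.norm_eq_abs]
    refine norm_integral_le_of_norm_le i0 (ae_of_all _ fun x => ?_)
    rw [norm_mul]
    exact key x _ _ (norm_nonneg _) (norm_nonneg _) (bf x) (bh x)
  unfold en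
  rw [one_pow, one_mul]
  exact (abs_add_le _ _).trans (by linarith)

lemma en_symm (k : ℝ) (f : ℂ → ℝ) (gf : ℂ → ℂ) (h : ℂ → ℝ) (gh : ℂ → ℂ) :
    en k f gf h gh = en k h gh f gf := by
  unfold en
  congr 1
  · exact integral_congr_ae (ae_of_all _ fun x => ip_symm _ _)
  · congr 1
    exact integral_congr_ae (ae_of_all _ fun x => mul_comm _ _)

/-- FACT -/
theorem fact (hG : GrbStatement) (hH : HarmStatement) (hR : ResStatement)
    (hHf : HalfStatement) : FactStatement := by
  intro β S hβ0 hβ h g hg v hv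
  obtain ⟨g0, C, c, hW⟩ := wp_wc h
  have hgg : ∀ u, 0 < u → g u =ᵐ[volume] g0 u :=
    fun u hu => hG.2.1 (S u) _ _ (hg u hu) (hW.grad u hu)
  set E : ℝ → ℝ := fun w => en 1 (S v) (g0 v) (S w) (g0 w) with hE
  have mE : Measurable E := by
    have m1 : Measurable (Function.uncurry fun (w : ℝ) (x : ℂ) => ip (g0 v x) (g0 w x)) := by
      have h1 : Measurable fun z : ℝ × ℂ => g0 v z.2 :=
        hW.mg.comp (measurable_const.prodMk measurable_snd)
      exact ip_cont.measurable.comp (h1.prodMk hW.mg)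
    have m2 : Measurable (Function.uncurry fun (w : ℝ) (x : ℂ) => S v x * S w x) := by
      have h1 : Measurable fun z : ℝ × ℂ => S v z.2 :=
        hW.mS.comp (measurable_const.prodMk measurable_snd)
      exact h1.mul hW.mS
    exact m1.stronglyMeasurable.integral_prod_right.measurable.add
      (m2.stronglyMeasurable.integral_prod_right.measurable.const_mul _)
  set A := C * Real.exp (C * v) with hA
  have bE : ∀ w, 0 < w → |E w| ≤ (2 * (A * C * ∫ x : ℂ, Real.exp (-(c * ‖x - 0‖))))
      * Real.exp (C * w) := by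
    intro w hw
    refine (en_bound hW.c0 (hW.bS v hv) (hW.bg v hv) (hW.bS w hw) (hW.bg w hw)).trans
      (le_of_eq ?_)
    ring
  set B := 1 / Real.pi * (2 * (A * C * ∫ x : ℂ, Real.exp (-(c * ‖x - 0‖)))) + 2 * K0 β with hB
  have bcc : ∀ w, 0 < w → |1 / Real.pi * E w - bb β v w| ≤ B * Real.exp (C * w) := by
    intro w hw
    have h1 := bE w hw
    have h2 := bb_bound hβ0 hβ v w
    have h3 : 1 ≤ Real.exp (C * w) := Real.one_le_exp (mul_nonneg hW.C0 hw.le)
    have hp : 0 < 1 / Real.pi := one_div_pos.2 Real.pi_pos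
    calc |1 / Real.pi * E w - bb β v w| ≤ |1 / Real.pi * E w| + |bb β v w| := abs_sub _ _
      _ = 1 / Real.pi * |E w| + |bb β v w| := by rw [abs_mul, abs_of_pos hp]
      _ ≤ 1 / Real.pi * ((2 * (A * C * ∫ x : ℂ, Real.exp (-(c * ‖x - 0‖)))) * Real.exp (C * w))
          + 2 * K0 β * Real.exp (C * w) := by
          refine add_le_add (mul_le_mul_of_nonneg_left h1 hp.le) (h2.trans ?_)
          have := K0_nonneg (β := β) hβ
          nlinarith
      _ = _ := by rw [hB]; ring
  have key : ∀ᵐ w : ℝ, 0 < w → 1 / Real.pi * E w - bb β v w = 0 := by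
    refine coef_zero ((mE.const_mul _).sub (meas_bb1 β v)) bcc ?_
    intro δ R M h0 hδ mh bh sh
    -- the half-plane solution
    have hmem : MemLp h0 2 volume := by
      refine (memLp_indicator_const 2 (meas_QK (δ := δ) (R := R)) M (Or.inr QK_fin.ne)).mono
        mh.aestronglyMeasurable (ae_of_all _ fun x => ?_)
      by_cases hx : x ∈ QK δ R
      · rw [Set.indicator_of_mem hx, Real.norm_eq_abs]
        exact (bh x).trans (le_abs_self _)
      · rw [Set.indicator_of_notMem hx, sh x hx]
    obtain ⟨uH, hu⟩ := (hR 1 Hh one_pos Hh_open Hh_convex Hh_nonempty).1 h0 hmem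
    obtain ⟨⟨gH, hgH⟩, hout⟩ := hu.mem
    have hts : tsupport h0 ⊆ {x : ℂ | δ ≤ x.re ∧ ‖x‖ ≤ R} := by
      refine closure_minimal (fun x hx => ?_) ((isClosed_le continuous_const
        Complex.continuous_re).inter (isClosed_le continuous_norm continuous_const))
      by_contra hc
      exact hx (sh x fun hq => hc ⟨hq.1, hq.2.2⟩)
    have hcs : HasCompactSupport h0 := by
      refine IsCompact.of_isClosed_subset (isCompact_closedBall (0 : ℂ) R) (isClosed_tsupport _)
        (fun x hx => ?_)
      simpa using (hts hx).2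
    have hhalf := (hHf 1 0 h0 uH one_pos mh ⟨M, bh⟩ hcs hu).2 (fun x hx => lt_of_lt_of_le hδ
      (hts hx).1)
    have ehat : ∀ w, ∫ x in Hh, h0 x * dec w (((1 : ℝ) : ℂ) * x) = ∫ x, h0 x * dec w x := by
      intro w
      rw [setIntegral_eq_integral_of_forall_compl_eq_zero]
      · refine integral_congr_ae (ae_of_all _ fun x => ?_)
        simp
      · intro x hx
        rw [sh x (fun hq => hx hq.2.1), zero_mul]
    simp only [ehat] at hhalf
    -- the first identity
    have id1 := hH 1 Hh one_pos Hh_open Hh_convex Hh_nonempty uH h0 gH hgH hmem hu.eq (S v) (g0 v)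
      (hW.grad v hv) (ae_of_all _ fun x hx => h.out v hv x (not_lt.1 hx))
    -- the second identity
    have id2 := crossAbs hG hH one_pos (W1_open β) (W1_convex β) (W1_nonempty hβ0 hβ)
      (hW.grad v hv) (fun φ hφ => by
        have := h.harm v hv φ hφ
        rw [← this]
        refine integral_congr_ae (ae_of_all _ fun x => ?_)
        simp only
        ring) hW.mS hW.mg (c := fun w => 1 / Real.pi * ∫ x, h0 x * dec w x)
      ((meas_hat mh).const_mul _) hW.grad
      (sup_fin hδ hW.c0 (B := 1 / Real.pi * (M * (volume (QK δ R)).toReal))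
        (by
          have hM : 0 ≤ M := (abs_nonneg _).trans (bh 0)
          have := Real.pi_pos
          positivity) hW.C0 hW.C0 0 0
        (fun w hw => by
          have hp : 0 < 1 / Real.pi := one_div_pos.2 Real.pi_pos
          rw [abs_mul, abs_of_pos hp, mul_assoc (1 / Real.pi)]
          exact mul_le_mul_of_nonneg_left (hat_bound bh sh w) hp.le)
        (fun w hw x => by
          rw [sub_zero]; exact hW.bS w hw x)
        (fun w hw x => by
          rw [sub_zero]; exact hW.bg w hw x)) hgH (by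
        filter_upwards [hhalf, hout] with x h1 h2 hx
        rcases le_or_gt x.im 0 with hi | hi
        · rw [h2 (not_lt.2 hi)]
          symm
          rw [setIntegral_congr_fun measurableSet_Ioi (g := fun _ => (0 : ℝ))]
          · simp
          · intro w hw
            change 1 / Real.pi * (∫ x, h0 x * dec w x) * S w x = 0
            rw [h.out w hw x hi, mul_zero]
        · rw [h1 (re_neg_of_not_W1 hβ0 hβ hi hx).le hi, ← integral_const_mul]
          refine setIntegral_congr_fun measurableSet_Ioi fun w hw => ?_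
          rw [h.beyond w hw x hi hx]
          simp only [Complex.ofReal_one, one_mul]
          ring)
    have e1 : ∫ x, h0 x * S v x = ∫ w in Set.Ioi (0 : ℝ), bb β v w * ∫ x, h0 x * dec w x := by
      rw [swap_dec hδ mh bh sh (meas_bb1 β v) (B := 2 * K0 β) (C := 0)
        (fun w _ => by simpa using bb_bound hβ0 hβ v w)]
      refine integral_congr_ae (ae_of_all _ fun x => ?_)
      simp only
      by_cases hx : x ∈ QK δ R
      · rw [h.right v hv x (lt_of_lt_of_le hδ hx.1) hx.2.1]
      · rw [sh x hx, zero_mul, zero_mul]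
    have e2 : ∫ w in Set.Ioi (0 : ℝ), bb β v w * ∫ x, h0 x * dec w x
        = ∫ w in Set.Ioi (0 : ℝ), (1 / Real.pi * E w) * ∫ x, h0 x * dec w x := by
      rw [← e1, ← id1]
      have e3 := en_symm 1 uH gH (S v) (g0 v)
      unfold en at e3
      rw [e3]
      unfold en at id2
      rw [id2]
      refine integral_congr_ae (ae_of_all _ fun w => ?_)
      simp only [hE, en]
      ring
    have i1 := int_hat hδ mh bh sh (meas_bb1 β v) (B := 2 * K0 β) (C := 0)
        (fun w _ => by simpa using bb_bound hβ0 hβ v w)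
    have i2 := int_hat hδ mh bh sh (mE.const_mul (1 / Real.pi))
      (B := 1 / Real.pi * (2 * (A * C * ∫ x : ℂ, Real.exp (-(c * ‖x - 0‖))))) (C := C)
        (fun w hw => by
          have hp : 0 < 1 / Real.pi := one_div_pos.2 Real.pi_pos
          rw [abs_mul, abs_of_pos hp, mul_assoc (1 / Real.pi)]
          exact mul_le_mul_of_nonneg_left (bE w hw) hp.le)
    have e4 := integral_sub i2 i1
    rw [← e2, sub_self] at e4
    refine Eq.trans ?_ e4
    refine integral_congr_ae (ae_of_all _ fun w => ?_)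
    simp only
    ring
  filter_upwards [key] with w hw hw0
  have e1 : ∫ x, ip (g v x) (g w x) = ∫ x, ip (g0 v x) (g0 w x) := by
    refine integral_congr_ae ?_
    filter_upwards [hgg v hv, hgg w hw0] with x h1 h2
    rw [h1, h2]
  rw [e1]
  have h1 := hw hw0
  simp only [hE, en, one_pow, one_mul] at h1
  have h2 : Real.pi * (1 / Real.pi * ((∫ x, ip (g0 v x) (g0 w x)) + ∫ x, S v x * S w x)
      - bb β v w) = 0 := by rw [h1, mul_zero]
  rw [mul_sub, ← mul_assoc, mul_one_div_cancel Real.pi_ne_zero, one_mul] at h2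
  linarith

end Pool.Agent.H16F.B.H51
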