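import Pool.Agent.Helper16_FineB.MainB61

/-!
MAIN: the main part of the trace.
-/

namespace Pool.Agent.H16F.B.H61

open MeasureTheory Complex Filter Topology Pool.Agent.H16Iso Pool.Agent.H62T Pool.Agent.H16F
  Pool.Agent.H16F.B.H51
open scoped ENNReal NNReal ContDiff

/-! ### Limits of the pairings -/

lemma ip_neg_conj (w h : ℂ) : ip (-(starRingEnd ℂ) w) h = ip w (-(starRingEnd ℂ) h) := by
  simp [ip]

lemma int_RR {h : ℂ → ℂ} (hh : Integrable h volume) :
    Integrable (fun x => h (1 - (starRingEnd ℂ) x)) volume :=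
  mp_RR.integrable_comp_of_integrable hh

section

variable {S : ℝ → ℂ → ℝ} {g : ℝ → ℂ → ℂ} {C c k : ℝ} {kn : ℕ → ℝ}

lemma int_S (w : WC S g C c) {u : ℝ} (hu : 0 < u) :
    Integrable (fun x => (S u x : ℂ)) volume := by
  refine int_of_bound (A := C * Real.exp (C * u)) w.c0 0
    (Complex.measurable_ofReal.comp (w.mS.comp measurable_prodMk_left)).aestronglyMeasurable
    fun x => ?_
  change ‖((S u x : ℝ) : ℂ)‖ ≤ _
  rw [Complex.norm_real, Real.norm_eq_abs, sub_zero]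
  exact w.bS u hu x

lemma int_g (w : WC S g C c) {u : ℝ} (hu : 0 < u) : Integrable (g u) volume := by
  refine int_of_bound (A := C * Real.exp (C * u)) w.c0 0
    (w.mg.comp measurable_prodMk_left).aestronglyMeasurable fun x => ?_
  rw [sub_zero]
  exact w.bg u hu x

lemma lim_Sl (w : WC S g C c) {u : ℝ} (hu : 0 < u) (hk : 0 < k) (hkn : ∀ n, k ≤ kn n)
    (ht : Tendsto kn atTop (𝓝 k)) {h : ℂ → ℝ} (hh : Integrable (fun x => (h x : ℂ)) volume)
    {M : ℝ} (hM : ∀ x, |h x| ≤ M) :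
    Tendsto (fun n => ∫ x, Sl (kn n) S u x * h x) atTop (𝓝 (∫ x, Sl k S u x * h x)) := by
  simp only [ofReal_pair]
  exact wk (int_S w hu) hh (M := M) (fun x => by
    rw [Complex.norm_real, Real.norm_eq_abs]; exact hM x) hk hkn ht

lemma RR_inv (x : ℂ) : (1 : ℂ) - (starRingEnd ℂ) (1 - (starRingEnd ℂ) x) = x := by simp

lemma lim_Sr (w : WC S g C c) {u : ℝ} (hu : 0 < u) (hk : 0 < k) (hkn : ∀ n, k ≤ kn n)
    (ht : Tendsto kn atTop (𝓝 k)) {h : ℂ → ℝ} (hh : Integrable (fun x => (h x : ℂ)) volume)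
    {M : ℝ} (hM : ∀ x, |h x| ≤ M) :
    Tendsto (fun n => ∫ x, Sr (kn n) S u x * h x) atTop (𝓝 (∫ x, Sr k S u x * h x)) := by
  have e : ∀ t : ℝ, ∫ x, Sr t S u x * h x = ∫ x, Sl t S u x * h (1 - (starRingEnd ℂ) x) := by
    intro t
    rw [← integral_RR (fun x => Sl t S u x * h (1 - (starRingEnd ℂ) x))]
    refine integral_congr_ae (ae_of_all _ fun x => ?_)
    simp only [RR_inv]
    rfl
  simp only [e]
  exact lim_Sl w hu hk hkn ht (int_RR hh) (M := M) fun x => hM _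

lemma lim_gr (w : WC S g C c) {u : ℝ} (hu : 0 < u) (hk : 0 < k) (hkn : ∀ n, k ≤ kn n)
    (ht : Tendsto kn atTop (𝓝 k)) {h : ℂ → ℂ} (hh : Integrable h volume)
    {M : ℝ} (hM : ∀ x, ‖h x‖ ≤ M) :
    Tendsto (fun n => ∫ x, ip (gr (kn n) g u x) (h x)) atTop
      (𝓝 (∫ x, ip (gr k g u x) (h x))) := by
  have e : ∀ t : ℝ, ∫ x, ip (gr t g u x) (h x)
      = t * ∫ x, ip (g u ((t : ℂ) * x)) (-(starRingEnd ℂ) (h (1 - (starRingEnd ℂ) x))) := by
    intro t
    rw [← integral_const_mul, ← integral_RR (fun x => t * ip (g u ((t : ℂ) * x))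
      (-(starRingEnd ℂ) (h (1 - (starRingEnd ℂ) x))))]
    refine integral_congr_ae (ae_of_all _ fun x => ?_)
    simp only [RR_inv]
    unfold gr
    rw [ip_neg_conj, ip_smul_left]
  simp only [e]
  have hh' : Integrable (fun x => -(starRingEnd ℂ) (h (1 - (starRingEnd ℂ) x))) volume := by
    have h1 := int_RR hh
    refine Integrable.mono h1 ?_ (ae_of_all _ fun x => ?_)
    · exact (Complex.continuous_conj.comp_aestronglyMeasurable h1.1).neg
    · rw [norm_neg, Complex.norm_conj]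
  refine ht.mul (wk (int_g w hu) hh' (M := M) (fun x => ?_) hk hkn ht)
  rw [norm_neg, Complex.norm_conj]
  exact hM _

/-- a bounded family gives integrable bounded functions -/
lemma BF.intF {F : ℝ → ℂ → ℝ} {G : ℝ → ℂ → ℂ} {L C c : ℝ} {a : ℂ} (h : BF F G L C c a) {u : ℝ}
    (hu : 0 < u) : Integrable (fun x => (F u x : ℂ)) volume := by
  refine int_of_bound (A := L * Real.exp (C * u)) h.c0 a
    (Complex.measurable_ofReal.comp (h.mF.comp measurable_prodMk_left)).aestronglyMeasurable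
    fun x => ?_
  change ‖((F u x : ℝ) : ℂ)‖ ≤ _
  rw [Complex.norm_real, Real.norm_eq_abs]
  exact h.bF u hu x

lemma BF.intG {F : ℝ → ℂ → ℝ} {G : ℝ → ℂ → ℂ} {L C c : ℝ} {a : ℂ} (h : BF F G L C c a) {u : ℝ}
    (hu : 0 < u) : Integrable (G u) volume :=
  int_of_bound (A := L * Real.exp (C * u)) h.c0 a
    (h.mG.comp measurable_prodMk_left).aestronglyMeasurable (h.bG u hu)

lemma BF.supF {F : ℝ → ℂ → ℝ} {G : ℝ → ℂ → ℂ} {L C c : ℝ} {a : ℂ} (h : BF F G L C c a) {u : ℝ}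
    (hu : 0 < u) (x : ℂ) : |F u x| ≤ L * Real.exp (C * u) :=
  (h.bF u hu x).trans
    (mul_le_of_le_one_right (mul_nonneg h.L0 (Real.exp_pos _).le) (exp_le_one' h.c0 _))

lemma BF.supG {F : ℝ → ℂ → ℝ} {G : ℝ → ℂ → ℂ} {L C c : ℝ} {a : ℂ} (h : BF F G L C c a) {u : ℝ}
    (hu : 0 < u) (x : ℂ) : ‖G u x‖ ≤ L * Real.exp (C * u) :=
  (h.bG u hu x).trans
    (mul_le_of_le_one_right (mul_nonneg h.L0 (Real.exp_pos _).le) (exp_le_one' h.c0 _))

/-! ### Limits of the weights -/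

lemma ep_tendsto (ht : Tendsto kn atTop (𝓝 k)) (u : ℝ) :
    Tendsto (fun n => ep (kn n) u) atTop (𝓝 (ep k u)) := by
  have h : Continuous fun t : ℝ => ep t u := by unfold ep; fun_prop
  exact (h.tendsto k).comp ht

lemma ep_diff_le {k k' : ℝ} (h : k ≤ k') (u : ℝ) :
    0 ≤ ep k u - ep k' u ∧ ep k u - ep k' u ≤ (k' - k) * (Real.cosh u * ep k u) := by
  have h1 := ep_anti h u
  refine ⟨by linarith, ?_⟩
  have e : ep k' u = ep k u * Real.exp (-((k' - k) * Real.cosh u)) := by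
    unfold ep
    rw [← Real.exp_add]; congr 1; ring
  have h2 := Real.add_one_le_exp (-((k' - k) * Real.cosh u))
  rw [e]
  have h3 := ep_pos k u
  nlinarith

/-- difference quotient of the weights -/
noncomputable def qq (k k' u : ℝ) : ℝ := (ep k u - ep k' u) / (k' ^ 2 - k ^ 2)

lemma aw_qq (hk : 0 < k) {k' : ℝ} (h : k < k') : AW k (1 / (2 * k)) (qq k k') := by
  refine ⟨((meas_ep k).sub (meas_ep k')).div_const _, fun u hu => ?_⟩
  obtain ⟨h1, h2⟩ := ep_diff_le h.le u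
  have hd : 0 < k' ^ 2 - k ^ 2 := by nlinarith
  unfold qq
  rw [abs_div, abs_of_nonneg h1, abs_of_pos hd, div_le_iff₀ hd]
  have h3 := cosh_le hu.le
  have h4 := ep_pos k u
  calc ep k u - ep k' u ≤ (k' - k) * (Real.cosh u * ep k u) := h2
    _ ≤ (k' - k) * (Real.exp u * ep k u) := by
        refine mul_le_mul_of_nonneg_left ?_ (by linarith)
        exact mul_le_mul_of_nonneg_right h3 h4.le
    _ = 1 / (2 * k) * (Real.exp u * ep k u) * ((k' - k) * (2 * k)) := by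
        field_simp
    _ ≤ 1 / (2 * k) * (Real.exp u * ep k u) * (k' ^ 2 - k ^ 2) := by
        refine mul_le_mul_of_nonneg_left ?_ (by positivity)
        nlinarith

lemma qq_tendsto (hk : 0 < k) (hkn : ∀ n, k < kn n) (ht : Tendsto kn atTop (𝓝 k)) (u : ℝ) :
    Tendsto (fun n => qq k (kn n) u) atTop (𝓝 (Real.cosh u * ep k u / (2 * k))) := by
  have hd : HasDerivAt (fun t : ℝ => ep t u) (-(Real.cosh u * ep k u)) k := by
    unfold ep
    have h1 : HasDerivAt (fun t : ℝ => -(t * Real.cosh u)) (-(1 * Real.cosh u)) k :=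
      ((hasDerivAt_id k).mul_const _).neg
    have := h1.exp
    convert this using 1
    ring
  have h2 := hasDerivAt_iff_tendsto_slope.1 hd
  have h3 : Tendsto kn atTop (𝓝[≠] k) := by
    rw [tendsto_nhdsWithin_iff]
    exact ⟨ht, Eventually.of_forall fun n => (hkn n).ne'⟩
  have h4 := h2.comp h3
  have h5 : Tendsto (fun n => kn n + k) atTop (𝓝 (k + k)) := ht.add tendsto_const_nhds
  have h6 := (h4.neg).div h5 (by positivity)
  have e : Real.cosh u * ep k u / (2 * k) = -(-(Real.cosh u * ep k u)) / (k + k) := by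
    rw [neg_neg, two_mul]
  rw [e]
  refine h6.congr fun n => ?_
  have h7 : kn n - k ≠ 0 := sub_ne_zero.2 (hkn n).ne'
  have h8 : kn n + k ≠ 0 := by
    have h10 : 0 < kn n + k := by have := hkn n; linarith
    exact h10.ne'
  have h9 : kn n ^ 2 - k ^ 2 = (kn n - k) * (kn n + k) := by ring
  simp only [Function.comp, slope_def_field, qq, Pi.div_apply]
  rw [h9]
  field_simp
  ring

end

/-! ### Limit of the double integrals -/

lemma wt_lim {b : ℝ → ℝ → ℝ} {B K C D1 D2 k : ℝ} (hk : 0 < k)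
    (hD1 : 0 ≤ D1) (hD2 : 0 ≤ D2) (mb : Measurable (Function.uncurry b))
    (hB : ∀ u v, |b u v| ≤ B) {e1 e2 : ℕ → ℝ → ℝ} {f1 f2 : ℝ → ℝ} (h1 : ∀ n, AW k D1 (e1 n))
    (h2 : ∀ n, AW k D2 (e2 n)) {Ψ : ℕ → ℝ × ℝ → ℝ} {Φ : ℝ × ℝ → ℝ} (mΨ : ∀ n, Measurable (Ψ n))
    (hΨ : ∀ n u v, 0 < u → 0 < v → |Ψ n (u, v)| ≤ K * (Real.exp (C * u) * Real.exp (C * v)))
    (l1 : ∀ u, 0 < u → Tendsto (fun n => e1 n u) atTop (𝓝 (f1 u)))
    (l2 : ∀ u, 0 < u → Tendsto (fun n => e2 n u) atTop (𝓝 (f2 u)))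
    (lΨ : ∀ u v, 0 < u → 0 < v → Tendsto (fun n => Ψ n (u, v)) atTop (𝓝 (Φ (u, v)))) :
    Tendsto (fun n => ∫ z, wt b (e1 n) (e2 n) (Ψ n) z ∂mu2) atTop
      (𝓝 (∫ z, wt b f1 f2 Φ z ∂mu2)) := by
  refine tendsto_integral_of_dominated_convergence
    (fun z => B * D1 * D2 * K * dom k (C + 1) z) ?_ ((dom_int hk (C + 1)).const_mul _) ?_ ?_
  · intro n
    exact (wt_meas mb (h1 n).m (h2 n).m (mΨ n)).aestronglyMeasurable
  · intro n
    filter_upwards [mu2_pos] with z hz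
    rw [Real.norm_eq_abs]
    exact wt_bound hD1 hD2 hB (h1 n) (h2 n) (hΨ n) hz.1 hz.2
  · filter_upwards [mu2_pos] with z hz
    unfold wt
    exact ((tendsto_const_nhds (x := b z.1 z.2)).mul ((l1 z.1 hz.1).mul (l2 z.2 hz.2))).mul
      (lΨ z.1 z.2 hz.1 hz.2)


lemma one_lim {P : ℕ → ℝ → ℝ} {Q : ℝ → ℝ} {K C k : ℝ} (hk : 0 < k) {e : ℕ → ℝ → ℝ} {f : ℝ → ℝ}
    (he : ∀ n u, 0 < u → |e n u| ≤ ep k u) (me : ∀ n, Measurable (e n))
    (mP : ∀ n, Measurable (P n))
    (hP : ∀ n u, 0 < u → |P n u| ≤ K * (Real.exp (C * u) * Real.exp (C * u)))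
    (le : ∀ u, 0 < u → Tendsto (fun n => e n u) atTop (𝓝 (f u)))
    (lP : ∀ u, 0 < u → Tendsto (fun n => P n u) atTop (𝓝 (Q u))) :
    Tendsto (fun n => ∫ u in Set.Ioi (0 : ℝ), e n u * P n u) atTop
      (𝓝 (∫ u in Set.Ioi (0 : ℝ), f u * Q u)) := by
  refine tendsto_integral_of_dominated_convergence
    (fun u => K * (Real.exp ((2 * C) * u) * ep k u)) ?_ ((integrable_ep hk (2 * C)).const_mul _)
    ?_ ?_
  · intro n
    exact ((me n).mul (mP n)).aestronglyMeasurable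
  · intro n
    filter_upwards [ae_restrict_mem measurableSet_Ioi] with u hu
    have h1 := he n u hu
    have h2 := hP n u hu
    rw [Real.norm_eq_abs, abs_mul]
    calc |e n u| * |P n u| ≤ ep k u * (K * (Real.exp (C * u) * Real.exp (C * u))) :=
          mul_le_mul h1 h2 (abs_nonneg _) (ep_pos _ _).le
      _ = K * (Real.exp ((2 * C) * u) * ep k u) := by
          rw [← Real.exp_add, show C * u + C * u = 2 * C * u by ring]; ring
  · filter_upwards [ae_restrict_mem measurableSet_Ioi] with u hu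
    exact (le u hu).mul (lP u hu)

/-- scaling and reflection invariance of the energy -/
lemma en_inv {S : ℝ → ℂ → ℝ} {g : ℝ → ℂ → ℂ} {k : ℝ} (hk : 0 < k) (u v : ℝ) :
    en k (Sr k S u) (gr k g u) (Sr k S v) (gr k g v)
      = (∫ x, ip (g u x) (g v x)) + ∫ x, S u x * S v x := by
  have e1 : ∫ x, ip (gr k g u x) (gr k g v x) = ∫ x, ip (g u x) (g v x) := by
    have h1 : ∀ x, ip (gr k g u x) (gr k g v x)
        = (fun y : ℂ => k ^ 2 * ip (g u ((k : ℂ) * y)) (g v ((k : ℂ) * y)))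
          (1 - (starRingEnd ℂ) x) := by
      intro x
      simp [gr, ip]; ring
    refine (integral_congr_ae (ae_of_all _ h1)).trans ((integral_RR
      (fun y : ℂ => k ^ 2 * ip (g u ((k : ℂ) * y)) (g v ((k : ℂ) * y)))).trans ?_)
    rw [integral_const_mul, integral_dil (fun x => ip (g u x) (g v x)) hk, smul_eq_mul]
    field_simp
  have e2 : k ^ 2 * ∫ x, Sr k S u x * Sr k S v x = ∫ x, S u x * S v x := by
    have h1 : ∀ x, Sr k S u x * Sr k S v x
        = (fun y : ℂ => S u ((k : ℂ) * y) * S v ((k : ℂ) * y)) (1 - (starRingEnd ℂ) x) :=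
      fun x => rfl
    have h2 : ∫ x, Sr k S u x * Sr k S v x = ∫ y, S u ((k : ℂ) * y) * S v ((k : ℂ) * y) :=
      (integral_congr_ae (ae_of_all _ h1)).trans
        (integral_RR (fun y : ℂ => S u ((k : ℂ) * y) * S v ((k : ℂ) * y)))
    rw [h2, integral_dil (fun x => S u x * S v x) hk, smul_eq_mul]
    field_simp
  unfold en
  rw [e1, e2]

lemma seq_lim (k : ℝ) : Tendsto (fun n : ℕ => k + 1 / ((n : ℝ) + 1)) atTop (𝓝 k) := by
  have := (tendsto_const_nhds (x := k)).add (tendsto_one_div_add_atTop_nhds_zero_nat (𝕜 := ℝ))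
  simpa using this

lemma diag_meas {Ψ : ℝ × ℝ → ℝ} (h : Measurable Ψ) : Measurable fun u : ℝ => Ψ (u, u) :=
  h.comp (measurable_id.prodMk measurable_id)

/-- MAIN -/
theorem main (hG : GrbStatement) (hH : HarmStatement) (hF : FactStatement) : MainStatement := by
  intro β β' S S' h0 h1 h0' h1' hS hS' k hk
  obtain ⟨g, C1, c1, w1⟩ := wp_wc hS
  obtain ⟨g', C2, c2, w2⟩ := wp_wc hS'
  obtain ⟨C, hC⟩ : ∃ C, C = max C1 C2 := ⟨_, rfl⟩
  obtain ⟨c, hc⟩ : ∃ c, c = min c1 c2 := ⟨_, rfl⟩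
  have w : WC S g C c := w1.mono (hC ▸ le_max_left _ _) (hc ▸ min_le_left _ _)
    (hc ▸ lt_min w1.c0 w2.c0)
  have w' : WC S' g' C c := w2.mono (hC ▸ le_max_right _ _) (hc ▸ min_le_right _ _)
    (hc ▸ lt_min w1.c0 w2.c0)
  obtain ⟨B, hBd⟩ : ∃ B, B = max (2 * K0 β) (2 * K0 β') := ⟨_, rfl⟩
  have hB : ∀ u v, |bb β u v| ≤ B := fun u v => (bb_bound h0 h1 u v).trans (hBd ▸ le_max_left _ _)
  have hB' : ∀ u v, |bb β' u v| ≤ B :=
    fun u v => (bb_bound h0' h1' u v).trans (hBd ▸ le_max_right _ _)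
  obtain ⟨kn, hkd⟩ : ∃ kn : ℕ → ℝ, kn = fun n : ℕ => k + 1 / ((n : ℝ) + 1) := ⟨_, rfl⟩
  have ht : Tendsto kn atTop (𝓝 k) := hkd ▸ seq_lim k
  have hkn : ∀ n, k < kn n := by
    intro n
    have : 0 < 1 / ((n : ℝ) + 1) := by positivity
    rw [hkd]; simp only; linarith
  have hkn1 : ∀ n, kn n ≤ k + 1 := by
    intro n
    have : 1 / ((n : ℝ) + 1) ≤ 1 := by
      rw [div_le_one (by positivity)]
      have : (0 : ℝ) ≤ n := Nat.cast_nonneg n
      linarith
    rw [hkd]; simp only; linarith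
  have hknp : ∀ n, 0 < kn n := fun n => hk.trans (hkn n)
  have bA := bf_l w hk (le_refl k) (by linarith)
  have bA' := fun n => bf_l w hk (hkn n).le (hkn1 n)
  have bR := bf_r w' hk (le_refl k) (by linarith)
  have bR' := fun n => bf_r w' hk (hkn n).le (hkn1 n)
  -- the identity for every n
  have key : ∀ n, (∫ u in Set.Ioi (0 : ℝ), ep k u * ∫ x, Sl k S u x * Sr (kn n) S' u x)
        + (∫ u in Set.Ioi (0 : ℝ), ep (kn n) u * ∫ x, Sl (kn n) S u x * Sr k S' u x)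
        - (∫ z, wt (bb β') (ep k) (ep (kn n)) (fun z => ∫ x, Sl k S z.1 x * Sl (kn n) S z.2 x) z
          ∂mu2)
        - (∫ z, wt (bb β) (ep k) (ep (kn n)) (fun z => ∫ x, Sr k S' z.1 x * Sr (kn n) S' z.2 x) z
          ∂mu2)
      = (∫ z, wt (bb β) (qq k (kn n)) (ep k) (fun z => en (kn n) (Sr (kn n) S' z.1)
          (gr (kn n) g' z.1) (Sr k S' z.2) (gr k g' z.2)) z ∂mu2)
        + ∫ z, wt (bb β) (qq k (kn n)) (ep (kn n)) (fun z => en k (Sr k S' z.1) (gr k g' z.1)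
          (Sr (kn n) S' z.2) (gr (kn n) g' z.2)) z ∂mu2 := by
    intro n
    have h := alg_main (k' := kn n) hk bA (bA' n) bR (bR' n) (meas_bb β) hB (bb_symm β)
      (meas_bb β') hB' (bb_symm β') (aw_ep le_rfl) (aw_ep (hkn n).le)
      (fun u v hu hv => idl hG hH h0 h1 h0' h1' hS hS' w w' hk (hknp n) hu hv)
      (fun u v hu hv => idl hG hH h0 h1 h0' h1' hS hS' w w' (hknp n) hk hu hv)
      (fun u v hu hv => idr hG hH h0 h1 h0' h1' hS hS' w w' hk (hknp n) hu hv)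
      (fun u v hu hv => idr hG hH h0 h1 h0' h1' hS hS' w w' (hknp n) hk hu hv)
    have hd : 0 < kn n ^ 2 - k ^ 2 := by nlinarith [hkn n]
    have q : ∀ (e : ℝ → ℝ) (Ψ : ℝ × ℝ → ℝ),
        ∫ z, wt (bb β) (fun u => ep k u - ep (kn n) u) e Ψ z ∂mu2
          = (kn n ^ 2 - k ^ 2) * ∫ z, wt (bb β) (qq k (kn n)) e Ψ z ∂mu2 := by
      intro e Ψ
      rw [← integral_const_mul]
      refine integral_congr_ae (ae_of_all _ fun z => ?_)
      simp only [wt, qq]
      field_simp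
    rw [q, q, ← mul_add] at h
    exact mul_left_cancel₀ hd.ne' h
  -- limits
  have one : (0 : ℝ) ≤ 1 := zero_le_one
  have K1 : ∀ n, AW k 1 (ep (kn n)) := fun n => aw_ep (hkn n).le
  have K0' : ∀ n : ℕ, AW k 1 (ep k) := fun _ => aw_ep le_rfl
  have le1 : ∀ u, 0 < u → Tendsto (fun n => ep (kn n) u) atTop (𝓝 (ep k u)) :=
    fun u _ => ep_tendsto ht u
  have le0 : ∀ u, 0 < u → Tendsto (fun _ : ℕ => ep k u) atTop (𝓝 (ep k u)) :=
    fun u _ => tendsto_const_nhds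
  have eb : ∀ n u, 0 < u → |ep (kn n) u| ≤ ep k u := by
    intro n u _
    rw [abs_of_pos (ep_pos _ _)]
    exact ep_anti (hkn n).le u
  -- pointwise limits of the pairings
  have pSr : ∀ u, 0 < u → ∀ h : ℂ → ℝ, Integrable (fun x => (h x : ℂ)) volume →
      (∃ M, ∀ x, |h x| ≤ M) →
      Tendsto (fun n => ∫ x, Sr (kn n) S' u x * h x) atTop (𝓝 (∫ x, Sr k S' u x * h x)) :=
    fun u hu h hh ⟨M, hM⟩ => lim_Sr w' hu hk (fun n => (hkn n).le) ht hh hM
  have pSl : ∀ u, 0 < u → ∀ h : ℂ → ℝ, Integrable (fun x => (h x : ℂ)) volume →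
      (∃ M, ∀ x, |h x| ≤ M) →
      Tendsto (fun n => ∫ x, Sl (kn n) S u x * h x) atTop (𝓝 (∫ x, Sl k S u x * h x)) :=
    fun u hu h hh ⟨M, hM⟩ => lim_Sl w hu hk (fun n => (hkn n).le) ht hh hM
  have comm : ∀ p q : ℂ → ℝ, ∫ x, p x * q x = ∫ x, q x * p x := fun p q =>
    integral_congr_ae (ae_of_all _ fun x => mul_comm _ _)
  have T1 : Tendsto (fun n => ∫ u in Set.Ioi (0 : ℝ), ep k u * ∫ x, Sl k S u x * Sr (kn n) S' u x)
      atTop (𝓝 (∫ u in Set.Ioi (0 : ℝ), ep k u * ∫ x, Sl k S u x * Sr k S' u x)) := by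
    refine one_lim hk (fun n u _ => (abs_of_pos (ep_pos k u)).le) (fun n => meas_ep k)
      (fun n => diag_meas (bA.ip_meas (bR' n))) (fun n u hu => bA.ip_bound (bR' n) hu hu) le0 ?_
    intro u hu
    simp only [comm (Sl k S u)]
    exact pSr u hu _ (bA.intF hu) ⟨_, bA.supF hu⟩
  have T2 : Tendsto (fun n => ∫ u in Set.Ioi (0 : ℝ),
      ep (kn n) u * ∫ x, Sl (kn n) S u x * Sr k S' u x)
      atTop (𝓝 (∫ u in Set.Ioi (0 : ℝ), ep k u * ∫ x, Sl k S u x * Sr k S' u x)) := by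
    refine one_lim hk eb (fun n => meas_ep _)
      (fun n => diag_meas ((bA' n).ip_meas bR)) (fun n u hu => (bA' n).ip_bound bR hu hu) le1 ?_
    intro u hu
    exact pSl u hu _ (bR.intF hu) ⟨_, bR.supF hu⟩
  have T3 : Tendsto (fun n => ∫ z, wt (bb β') (ep k) (ep (kn n))
      (fun z => ∫ x, Sl k S z.1 x * Sl (kn n) S z.2 x) z ∂mu2) atTop
      (𝓝 (∫ z, wt (bb β') (ep k) (ep k) (fun z => ∫ x, Sl k S z.1 x * Sl k S z.2 x) z ∂mu2)) := by
    refine wt_lim hk one one (meas_bb β') hB' K0' K1 (fun n => bA.ip_meas (bA' n))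
      (fun n u v hu hv => bA.ip_bound (bA' n) hu hv) le0 le1 ?_
    intro u v hu hv
    simp only [comm (Sl k S u)]
    exact pSl v hv _ (bA.intF hu) ⟨_, bA.supF hu⟩
  have T4 : Tendsto (fun n => ∫ z, wt (bb β) (ep k) (ep (kn n))
      (fun z => ∫ x, Sr k S' z.1 x * Sr (kn n) S' z.2 x) z ∂mu2) atTop
      (𝓝 (∫ z, wt (bb β) (ep k) (ep k) (fun z => ∫ x, Sr k S' z.1 x * Sr k S' z.2 x) z ∂mu2)) := by
    refine wt_lim hk one one (meas_bb β) hB K0' K1 (fun n => bR.ip_meas (bR' n))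
      (fun n u v hu hv => bR.ip_bound (bR' n) hu hv) le0 le1 ?_
    intro u v hu hv
    simp only [comm (Sr k S' u)]
    exact pSr v hv _ (bR.intF hu) ⟨_, bR.supF hu⟩
  have knB : ∀ n, 1 + kn n ^ 2 ≤ 1 + (k + 1) ^ 2 := by
    intro n
    have h2 := hknp n
    have h3 := hkn1 n
    nlinarith
  have Jn := JJ_nonneg (c * k)
  have T5 : Tendsto (fun n => ∫ z, wt (bb β) (qq k (kn n)) (ep k) (fun z => en (kn n)
      (Sr (kn n) S' z.1) (gr (kn n) g' z.1) (Sr k S' z.2) (gr k g' z.2)) z ∂mu2) atTop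
      (𝓝 (∫ z, wt (bb β) (fun u => Real.cosh u * ep k u / (2 * k)) (ep k)
        (fun z => en k (Sr k S' z.1) (gr k g' z.1) (Sr k S' z.2) (gr k g' z.2)) z ∂mu2)) := by
    refine wt_lim (K := (1 + (k + 1) ^ 2) * ((2 + k) * C) ^ 2 * JJ (c * k)) (C := C) hk (by positivity) one
      (meas_bb β) hB (fun n => aw_qq hk (hkn n)) K0'
      (fun n => (bR' n).en_meas bR (kn n)) ?_ (fun u _ => qq_tendsto hk hkn ht u) le0 ?_
    · intro n u v hu hv
      refine ((bR' n).en_bound bR hu hv (kn n)).trans ?_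
      have h2 := knB n
      refine mul_le_mul_of_nonneg_right ?_ (by positivity)
      refine mul_le_mul_of_nonneg_right ?_ Jn
      exact mul_le_mul_of_nonneg_right h2 (by positivity)
    · intro u v hu hv
      unfold en
      refine Tendsto.add ?_ ((ht.pow 2).mul ?_)
      · exact lim_gr w' hu hk (fun n => (hkn n).le) ht (bR.intG hv) (bR.supG hv)
      · exact pSr u hu _ (bR.intF hv) ⟨_, bR.supF hv⟩
  have T6 : Tendsto (fun n => ∫ z, wt (bb β) (qq k (kn n)) (ep (kn n)) (fun z => en k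
      (Sr k S' z.1) (gr k g' z.1) (Sr (kn n) S' z.2) (gr (kn n) g' z.2)) z ∂mu2) atTop
      (𝓝 (∫ z, wt (bb β) (fun u => Real.cosh u * ep k u / (2 * k)) (ep k)
        (fun z => en k (Sr k S' z.1) (gr k g' z.1) (Sr k S' z.2) (gr k g' z.2)) z ∂mu2)) := by
    refine wt_lim hk (by positivity) one
      (meas_bb β) hB (fun n => aw_qq hk (hkn n)) K1
      (fun n => bR.en_meas (bR' n) k) (fun n u v hu hv => bR.en_bound (bR' n) hu hv k)
      (fun u _ => qq_tendsto hk hkn ht u) le1 ?_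
    intro u v hu hv
    simp only [en_symm k (Sr k S' u)]
    unfold en
    refine Tendsto.add ?_ (Tendsto.const_mul _ ?_)
    · exact lim_gr w' hv hk (fun n => (hkn n).le) ht (bR.intG hu) (bR.supG hu)
    · exact pSr v hv _ (bR.intF hu) ⟨_, bR.supF hu⟩
  have L1 := ((T1.add T2).sub T3).sub T4
  have L2 := T5.add T6
  have L := tendsto_nhds_unique (L1.congr key) L2
  -- the double integrals as iterated integrals
  have i3 := wt_int hk one one (meas_bb β') hB' (aw_ep (le_refl k)) (aw_ep (le_refl k))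
    (bA.ip_meas bA) (fun u v hu hv => bA.ip_bound bA hu hv)
  have i4 := wt_int hk one one (meas_bb β) hB (aw_ep (le_refl k)) (aw_ep (le_refl k))
    (bR.ip_meas bR) (fun u v hu hv => bR.ip_bound bR hu hv)
  have i5 : Integrable (wt (bb β) (fun u => Real.cosh u * ep k u / (2 * k)) (ep k)
        (fun z => en k (Sr k S' z.1) (gr k g' z.1) (Sr k S' z.2) (gr k g' z.2))) mu2 := by
    refine wt_int (D1 := 1 / (2 * k)) hk (by positivity) one (meas_bb β) hB ?_
      (aw_ep (le_refl k)) (bR.en_meas bR k) (fun u v hu hv => bR.en_bound bR hu hv k)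
    refine ⟨((Real.measurable_cosh).mul (meas_ep k)).div_const _, fun u hu => ?_⟩
    have h3 := cosh_le hu.le
    have h4 := ep_pos k u
    have h5 := Real.cosh_pos u
    rw [abs_of_nonneg (by positivity)]
    calc Real.cosh u * ep k u / (2 * k) = 1 / (2 * k) * (Real.cosh u * ep k u) := by ring
      _ ≤ 1 / (2 * k) * (Real.exp u * ep k u) := by
          refine mul_le_mul_of_nonneg_left ?_ (by positivity)
          exact mul_le_mul_of_nonneg_right h3 h4.le
  have e3 : ∫ z, wt (bb β') (ep k) (ep k) (fun z => ∫ x, Sl k S z.1 x * Sl k S z.2 x) z ∂mu2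
      = ∫ u in Set.Ioi (0 : ℝ), ∫ y in Set.Ioi (0 : ℝ),
        bb β' u y * ep k u * ep k y * ∫ x, Sl k S u x * Sl k S y x := by
    rw [integral_prod _ i3]
    simp only [wt, mul_assoc]
  have e4 : ∫ z, wt (bb β) (ep k) (ep k) (fun z => ∫ x, Sr k S' z.1 x * Sr k S' z.2 x) z ∂mu2
      = ∫ u in Set.Ioi (0 : ℝ), ∫ y in Set.Ioi (0 : ℝ),
        bb β u y * ep k u * ep k y * ∫ x, Sr k S' u x * Sr k S' y x := by
    rw [integral_prod _ i4]
    simp only [wt, mul_assoc]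
  have e5 : ∫ z, wt (bb β) (fun u => Real.cosh u * ep k u / (2 * k)) (ep k)
        (fun z => en k (Sr k S' z.1) (gr k g' z.1) (Sr k S' z.2) (gr k g' z.2)) z ∂mu2
      = Real.pi / (2 * k) * ∫ u in Set.Ioi (0 : ℝ), ∫ y in Set.Ioi (0 : ℝ),
        bb β u y * bb β' u y * Real.cosh u * ep k u * ep k y := by
    rw [integral_prod _ i5, ← integral_const_mul]
    refine setIntegral_congr_fun measurableSet_Ioi fun u hu => ?_
    change _ = Real.pi / (2 * k) * ∫ y in Set.Ioi (0 : ℝ),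
        bb β u y * bb β' u y * Real.cosh u * ep k u * ep k y
    rw [← integral_const_mul]
    refine setIntegral_congr_ae measurableSet_Ioi ?_
    filter_upwards [hF β' S' h0' h1' hS' g' w'.grad u hu] with y hy hy0
    have hy1 := hy hy0
    simp only [wt]
    rw [en_inv hk, hy1]
    field_simp
  rw [e3, e4, e5] at L
  have hpi := Real.pi_pos
  have L3 : (2 * ∫ u in Set.Ioi (0 : ℝ), ep k u * ∫ x, Sl k S u x * Sr k S' u x)
      - (∫ u in Set.Ioi (0 : ℝ), ∫ y in Set.Ioi (0 : ℝ),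
        bb β' u y * ep k u * ep k y * ∫ x, Sl k S u x * Sl k S y x)
      - (∫ u in Set.Ioi (0 : ℝ), ∫ y in Set.Ioi (0 : ℝ),
        bb β u y * ep k u * ep k y * ∫ x, Sr k S' u x * Sr k S' y x)
      = Real.pi / k * ∫ u in Set.Ioi (0 : ℝ), ∫ y in Set.Ioi (0 : ℝ),
        bb β u y * bb β' u y * Real.cosh u * ep k u * ep k y := by
    have h2 : Real.pi / k = 2 * (Real.pi / (2 * k)) := by field_simp
    rw [h2]
    linear_combination L
  rw [← mul_sub, ← mul_sub, L3]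
  field_simp

end Pool.Agent.H16F.B.H61
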