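import Pool.Agent.Helper16_FineB.Stmt

/-!
Module TRR of squad FINE: the remainder of the trace.
-/

namespace Pool.Agent.H16F.B.H58

open MeasureTheory Complex Filter Topology ProbabilityTheory Pool.Agent.H16Iso Pool.Agent.H62T
open scoped ENNReal NNReal

section Abstract

theorem meas_int {α β : Type*} [MeasurableSpace α] [MeasurableSpace β] (ν : Measure β) [SFinite ν]
    (f : α → β → ℝ) (hf : Measurable (Function.uncurry f)) : Measurable fun a => ∫ y, f a y ∂ν := by
  have := (hf.stronglyMeasurable.integral_prod_right (ν := ν)).measurable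
  exact this

/-- integrals with the weight -/
theorem wint (c e Z m : ℝ → ℝ) (K z S : ℝ) (hc : Measurable c) (he : Measurable e)
    (hZ : Measurable Z) (hK : 0 ≤ K) (hcK : ∀ w, |c w| ≤ K) (he0 : ∀ w, 0 ≤ e w)
    (hZb : ∀ w, 0 < w → |Z w| ≤ m w * z) (hz : 0 ≤ z)
    (hem : IntegrableOn (fun u => e u * m u) (Set.Ioi 0))
    (heS : ∫ u in Set.Ioi (0 : ℝ), e u * m u ≤ S) :
    IntegrableOn (fun w => c w * e w * Z w) (Set.Ioi 0) ∧
      |∫ w in Set.Ioi (0 : ℝ), c w * e w * Z w| ≤ K * z * S ∧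
      (∫ w in Set.Ioi (0 : ℝ), |c w * e w * Z w|) ≤ K * z * S := by
  have hb : ∀ w, 0 < w → |c w * e w * Z w| ≤ K * z * (e w * m w) := by
    intro w hw
    rw [abs_mul, abs_mul, abs_of_nonneg (he0 w)]
    have h1 := hcK w
    have h2 := hZb w hw
    have h3 := he0 w
    calc |c w| * e w * |Z w| ≤ K * e w * (m w * z) := by
          apply mul_le_mul (mul_le_mul_of_nonneg_right h1 h3) h2 (abs_nonneg _) (by positivity)
      _ = _ := by ring
  have hi : IntegrableOn (fun w => c w * e w * Z w) (Set.Ioi 0) := by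
    apply Integrable.mono' (hem.const_mul (K * z)) ((hc.mul he).mul hZ).aestronglyMeasurable
    filter_upwards [ae_restrict_mem measurableSet_Ioi] with w hw
    exact hb w hw
  have hle : (∫ w in Set.Ioi (0 : ℝ), |c w * e w * Z w|) ≤ K * z * S := by
    calc (∫ w in Set.Ioi (0 : ℝ), |c w * e w * Z w|)
        ≤ ∫ w in Set.Ioi (0 : ℝ), K * z * (e w * m w) := by
          apply setIntegral_mono_on hi.abs (hem.const_mul (K * z)) measurableSet_Ioi
          intro w hw
          exact hb w hw
      _ = K * z * ∫ w in Set.Ioi (0 : ℝ), e w * m w := by rw [integral_const_mul]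
      _ ≤ K * z * S := mul_le_mul_of_nonneg_left heS (by positivity)
  exact ⟨hi, (abs_integral_le_integral_abs).trans hle, hle⟩

/-- one half of the trace, for abstract functions -/
theorem half (P Q X X' : ℝ → ℂ → ℝ) (b b' : ℝ → ℝ → ℝ) (e m : ℝ → ℝ) (E F : ℂ → ℝ)
    (K r q M : ℝ)
    (hP : Measurable (Function.uncurry P)) (hQ : Measurable (Function.uncurry Q))
    (hX : Measurable (Function.uncurry X)) (hX' : Measurable (Function.uncurry X'))
    (hb : Measurable (Function.uncurry b)) (hb' : Measurable (Function.uncurry b'))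
    (he : Measurable e)
    (hK : 0 ≤ K) (hbK : ∀ u w, |b u w| ≤ K) (hbK' : ∀ u w, |b' u w| ≤ K)
    (he0 : ∀ u, 0 ≤ e u) (hm1 : ∀ u, 0 < u → 1 ≤ m u)
    (hE0 : ∀ x, 0 ≤ E x) (hE2 : ∀ x, E x ≤ 2) (hEi : Integrable E)
    (hF0 : ∀ x, 0 ≤ F x) (hFi : Integrable F)
    (hPb : ∀ u, 0 < u → ∀ x, |P u x| ≤ m u * E x) (hQb : ∀ u, 0 < u → ∀ x, |Q u x| ≤ m u * E x)
    (hXb : ∀ u, 0 < u → ∀ x, |X u x| ≤ m u * E x)
    (hXb' : ∀ u, 0 < u → ∀ x, |X' u x| ≤ m u * E x)
    (hPQ : ∀ u, 0 < u → ∀ v, 0 < v → ∀ x, |P u x| * |Q v x| ≤ m u * m v * (r * F x))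
    (hem : IntegrableOn (fun u => e u * m u) (Set.Ioi 0))
    (hem2 : IntegrableOn (fun u => e u * m u ^ 2) (Set.Ioi 0))
    (hr : 0 ≤ r) (hq : 0 ≤ q) (hqr : q ≤ r) (hM : 0 ≤ M)
    (heM : ∫ u in Set.Ioi (0 : ℝ), e u * m u ≤ q * M)
    (sys : ∀ u, 0 < u → ∀ y, X u y = Q u y - ∫ w in Set.Ioi (0 : ℝ), b' u w * e w * X' w y)
    (sys' : ∀ u, 0 < u → ∀ y, X' u y = P u y - ∫ w in Set.Ioi (0 : ℝ), b u w * e w * X w y) :
    IntegrableOn (fun u => e u * ∫ x, P u x * X u x) (Set.Ioi 0) ∧
    |(∫ u in Set.Ioi (0 : ℝ), e u * ∫ x, P u x * X u x)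
        - ((∫ u in Set.Ioi (0 : ℝ), e u * ∫ x, P u x * Q u x)
          - ∫ u in Set.Ioi (0 : ℝ), ∫ w in Set.Ioi (0 : ℝ),
            b' u w * e u * e w * ∫ x, P u x * P w x)|
      ≤ K ^ 2 * r * (q * M) ^ 3 * ∫ x, (F x + 2 * K * M * E x) := by
  have sec : ∀ (Z : ℝ → ℂ → ℝ), Measurable (Function.uncurry Z) → ∀ x, Measurable fun w => Z w x :=
    fun Z hZ x => hZ.comp (measurable_id.prodMk measurable_const)
  have sec' : ∀ (Z : ℝ → ℂ → ℝ), Measurable (Function.uncurry Z) → ∀ u, Measurable (Z u) :=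
    fun Z hZ u => hZ.comp (measurable_const.prodMk measurable_id)
  have secb : ∀ (c : ℝ → ℝ → ℝ), Measurable (Function.uncurry c) → ∀ u, Measurable (c u) :=
    fun c hc u => hc.comp (measurable_const.prodMk measurable_id)
  have hei : IntegrableOn e (Set.Ioi 0) := by
    apply Integrable.mono' hem he.aestronglyMeasurable
    filter_upwards [ae_restrict_mem measurableSet_Ioi] with w hw
    rw [Real.norm_eq_abs, abs_of_nonneg (he0 w)]
    have := mul_le_mul_of_nonneg_left (hm1 w hw) (he0 w)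
    linarith
  have heM' : ∫ u in Set.Ioi (0 : ℝ), e u ≤ q * M := by
    refine le_trans (setIntegral_mono_on hei hem measurableSet_Ioi ?_) heM
    intro w hw
    have := mul_le_mul_of_nonneg_left (hm1 w hw) (he0 w)
    linarith
  have hqM : 0 ≤ q * M := by positivity
  have hm0 : ∀ u, 0 < u → 0 ≤ m u := fun u hu => zero_le_one.trans (hm1 u hu)
  set T : ℝ → ℂ → ℝ := fun w y => ∫ v in Set.Ioi (0 : ℝ), b w v * e v * X v y with hTdef
  have hT : Measurable (Function.uncurry T) := by
    have : Measurable fun p : ℝ × ℂ => ∫ v in Set.Ioi (0 : ℝ), b p.1 v * e v * X v p.2 := by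
      apply meas_int
      have h1 : Measurable fun p : (ℝ × ℂ) × ℝ => b p.1.1 p.2 :=
        hb.comp ((measurable_fst.comp measurable_fst).prodMk measurable_snd)
      have h2 : Measurable fun p : (ℝ × ℂ) × ℝ => X p.2 p.1.2 :=
        hX.comp (measurable_snd.prodMk (measurable_snd.comp measurable_fst))
      exact (h1.mul (he.comp measurable_snd)).mul h2
    exact this
  set D : ℝ → ℂ → ℝ := fun u y => ∫ w in Set.Ioi (0 : ℝ), b' u w * e w * T w y with hDdef
  have hD : Measurable (Function.uncurry D) := by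
    have : Measurable fun p : ℝ × ℂ => ∫ w in Set.Ioi (0 : ℝ), b' p.1 w * e w * T w p.2 := by
      apply meas_int
      have h1 : Measurable fun p : (ℝ × ℂ) × ℝ => b' p.1.1 p.2 :=
        hb'.comp ((measurable_fst.comp measurable_fst).prodMk measurable_snd)
      have h2 : Measurable fun p : (ℝ × ℂ) × ℝ => T p.2 p.1.2 :=
        hT.comp (measurable_snd.prodMk (measurable_snd.comp measurable_fst))
      exact (h1.mul (he.comp measurable_snd)).mul h2
    exact this
  -- bounds
  have hTb : ∀ w y, |T w y| ≤ K * E y * (q * M) := fun w y =>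
    (wint (b w) e (fun v => X v y) m K (E y) (q * M) (secb b hb w) he (sec X hX y) hK (hbK w) he0
      (fun v hv => hXb v hv y) (hE0 y) hem heM).2.1
  have hDb : ∀ u y, |D u y| ≤ K * (K * E y * (q * M)) * (q * M) := by
    intro u y
    refine (wint (b' u) e (fun w => T w y) m K (K * E y * (q * M)) (q * M) (secb b' hb' u) he
      (sec T hT y) hK (hbK' u) he0 (fun w hw => ?_) (by have := hE0 y; positivity) hem heM).2.1
    refine (hTb w y).trans ?_
    have h1 := hE0 y
    exact le_mul_of_one_le_left (by positivity) (hm1 w hw)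
  -- the pointwise bound of `P X`
  have hPX : ∀ u, 0 < u → ∀ v, 0 < v → ∀ x,
      |P u x| * |X v x| ≤ m u * m v * (r * (F x + 2 * K * M * E x)) := by
    intro u hu v hv x
    have h1 : |X v x| ≤ |Q v x| + K * E x * (q * M) := by
      rw [sys v hv x]
      refine (abs_sub _ _).trans ?_
      gcongr
      exact (wint (b' v) e (fun w => X' w x) m K (E x) (q * M) (secb b' hb' v) he (sec X' hX' x) hK
        (hbK' v) he0 (fun w hw => hXb' w hw x) (hE0 x) hem heM).2.1
    have h2 := hPb u hu x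
    have h3 := hPQ u hu v hv x
    have h4 := hE0 x
    have h5 := hE2 x
    have h6 := hm1 v hv
    have h7 := hm0 u hu
    calc |P u x| * |X v x| ≤ |P u x| * (|Q v x| + K * E x * (q * M)) :=
          mul_le_mul_of_nonneg_left h1 (abs_nonneg _)
      _ = |P u x| * |Q v x| + |P u x| * (K * E x * (q * M)) := by ring
      _ ≤ m u * m v * (r * F x) + (m u * E x) * (K * 2 * (r * M)) := by
          gcongr
      _ = m u * m v * (r * F x) + m u * 1 * (r * (2 * K * M * E x)) := by ring
      _ ≤ m u * m v * (r * F x) + m u * m v * (r * (2 * K * M * E x)) := by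
          gcongr
      _ = _ := by ring
  have hG0 : ∀ x, 0 ≤ F x + 2 * K * M * E x := by
    intro x
    have := hF0 x
    have := hE0 x
    positivity
  have hPT : ∀ u, 0 < u → ∀ w x,
      |P u x| * |T w x| ≤ m u * (K * (r * (F x + 2 * K * M * E x)) * (q * M)) := by
    intro u hu w x
    have h := (wint (b w) e (fun v => P u x * X v x) m K (m u * (r * (F x + 2 * K * M * E x)))
      (q * M) (secb b hb w) he ((sec X hX x).const_mul _) hK (hbK w) he0
      (fun v hv => ?_) (by have := hG0 x; have := hm0 u hu; positivity) hem heM).2.1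
    · have e1 : P u x * T w x = ∫ v in Set.Ioi (0 : ℝ), b w v * e v * (P u x * X v x) := by
        rw [hTdef]
        simp only
        rw [← integral_const_mul]
        congr 1
        ext v
        ring
      rw [← abs_mul, e1]
      refine h.trans (le_of_eq ?_)
      ring
    · rw [abs_mul]
      refine (hPX u hu v hv x).trans (le_of_eq ?_)
      ring
  have hPD : ∀ u, 0 < u → ∀ x,
      |P u x * D u x| ≤ m u * (K ^ 2 * r * (q * M) ^ 2 * (F x + 2 * K * M * E x)) := by
    intro u hu x
    have h := (wint (b' u) e (fun w => P u x * T w x) m K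
      (m u * (K * (r * (F x + 2 * K * M * E x)) * (q * M)))
      (q * M) (secb b' hb' u) he ((sec T hT x).const_mul _) hK (hbK' u) he0
      (fun w hw => ?_) (by have := hG0 x; have := hm0 u hu; positivity) hem heM).2.1
    · have e1 : P u x * D u x = ∫ w in Set.Ioi (0 : ℝ), b' u w * e w * (P u x * T w x) := by
        rw [hDdef]
        simp only
        rw [← integral_const_mul]
        congr 1
        ext v
        ring
      rw [e1]
      refine h.trans (le_of_eq ?_)
      ring
    · rw [abs_mul]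
      refine (hPT u hu w x).trans ?_
      have := hG0 x
      have := hm0 u hu
      exact le_mul_of_one_le_left (by positivity) (hm1 w hw)
  -- the decomposition
  have hdec : ∀ u, 0 < u → ∀ y, X u y = Q u y
      - (∫ w in Set.Ioi (0 : ℝ), b' u w * e w * P w y) + D u y := by
    intro u hu y
    have i1 := (wint (b' u) e (fun w => P w y) m K (E y) (q * M) (secb b' hb' u) he (sec P hP y) hK
        (hbK' u) he0 (fun w hw => hPb w hw y) (hE0 y) hem heM).1
    have i2 : IntegrableOn (fun w => b' u w * e w * T w y) (Set.Ioi 0) := by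
      refine (wint (b' u) e (fun w => T w y) m K (K * E y * (q * M)) (q * M) (secb b' hb' u) he
        (sec T hT y) hK (hbK' u) he0 (fun w hw => ?_) (by have := hE0 y; positivity) hem heM).1
      refine (hTb w y).trans ?_
      have h1 := hE0 y
      exact le_mul_of_one_le_left (by positivity) (hm1 w hw)
    have e1 : (∫ w in Set.Ioi (0 : ℝ), b' u w * e w * X' w y)
        = (∫ w in Set.Ioi (0 : ℝ), b' u w * e w * P w y)
          - ∫ w in Set.Ioi (0 : ℝ), b' u w * e w * T w y := by
      rw [← integral_sub i1 i2]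
      apply setIntegral_congr_fun measurableSet_Ioi
      intro w hw
      simp only
      rw [sys' w hw y]
      ring
    rw [sys u hu y, e1]
    ring
  -- integrability in `x`
  have hxi : ∀ (Z : ℝ → ℂ → ℝ), Measurable (Function.uncurry Z) →
      (∀ u, 0 < u → ∀ x, |Z u x| ≤ m u * E x) → ∀ u, 0 < u → ∀ v, 0 < v →
      Integrable (fun x => P u x * Z v x) ∧ |∫ x, P u x * Z v x| ≤ m u * m v * (2 * ∫ x, E x) := by
    intro Z hZ hZb u hu v hv
    have hb1 : ∀ x, |P u x * Z v x| ≤ m u * m v * (2 * E x) := by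
      intro x
      rw [abs_mul]
      have h1 := hPb u hu x
      have h2 := hZb v hv x
      have h3 := hE0 x
      have h4 := hE2 x
      have h5 := hm0 u hu
      have h6 := hm0 v hv
      calc |P u x| * |Z v x| ≤ (m u * E x) * (m v * E x) := by gcongr
        _ = m u * m v * (E x * E x) := by ring
        _ ≤ m u * m v * (2 * E x) := by gcongr
    have hi : Integrable (fun x => P u x * Z v x) :=
      Integrable.mono' ((hEi.const_mul 2).const_mul (m u * m v))
        ((sec' P hP u).mul (sec' Z hZ v)).aestronglyMeasurable (Eventually.of_forall hb1)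
    refine ⟨hi, abs_integral_le_integral_abs.trans ?_⟩
    calc (∫ x, |P u x * Z v x|) ≤ ∫ x, m u * m v * (2 * E x) :=
          integral_mono hi.abs ((hEi.const_mul 2).const_mul (m u * m v)) hb1
      _ = _ := by rw [integral_const_mul, integral_const_mul]
  have hGi : Integrable (fun x => F x + 2 * K * M * E x) := hFi.add (hEi.const_mul _)
  have hPDi : ∀ u, 0 < u → Integrable (fun x => P u x * D u x) ∧
      |∫ x, P u x * D u x| ≤ m u * (K ^ 2 * r * (q * M) ^ 2 * ∫ x, (F x + 2 * K * M * E x)) := by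
    intro u hu
    have hi : Integrable (fun x => P u x * D u x) :=
      Integrable.mono' ((hGi.const_mul _).const_mul (m u))
        ((sec' P hP u).mul (sec' D hD u)).aestronglyMeasurable (Eventually.of_forall (hPD u hu))
    refine ⟨hi, abs_integral_le_integral_abs.trans ?_⟩
    refine (integral_mono hi.abs ((hGi.const_mul _).const_mul (m u)) (hPD u hu)).trans (le_of_eq ?_)
    rw [integral_const_mul, integral_const_mul]
  -- Fubini
  have hPPi : ∀ u, 0 < u → Integrable (fun x => P u x * ∫ w in Set.Ioi (0 : ℝ),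
        b' u w * e w * P w x) ∧
      (∫ x, P u x * ∫ w in Set.Ioi (0 : ℝ), b' u w * e w * P w x)
        = ∫ w in Set.Ioi (0 : ℝ), b' u w * e w * ∫ x, P u x * P w x := by
    intro u hu
    have hmeas : Measurable (Function.uncurry fun (x : ℂ) (w : ℝ) =>
        P u x * (b' u w * e w * P w x)) := by
      have h1 : Measurable fun p : ℂ × ℝ => P u p.1 := (sec' P hP u).comp measurable_fst
      have h2 : Measurable fun p : ℂ × ℝ => b' u p.2 := (secb b' hb' u).comp measurable_snd
      have h3 : Measurable fun p : ℂ × ℝ => P p.2 p.1 :=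
        hP.comp (measurable_snd.prodMk measurable_fst)
      exact h1.mul ((h2.mul (he.comp measurable_snd)).mul h3)
    have hint : Integrable (Function.uncurry fun (x : ℂ) (w : ℝ) =>
        P u x * (b' u w * e w * P w x)) (volume.prod (volume.restrict (Set.Ioi (0 : ℝ)))) := by
      have hd : Integrable (fun p : ℂ × ℝ => (m u * K * 2 * E p.1) * (e p.2 * m p.2))
          (volume.prod (volume.restrict (Set.Ioi (0 : ℝ)))) :=
        (hEi.const_mul (m u * K * 2)).mul_prod hem
      apply Integrable.mono' hd hmeas.aestronglyMeasurable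
      have : ∀ᵐ p : ℂ × ℝ ∂(volume.prod (volume.restrict (Set.Ioi (0 : ℝ)))), 0 < p.2 := by
        have := Measure.quasiMeasurePreserving_snd (μ := (volume : Measure ℂ))
          (ν := volume.restrict (Set.Ioi (0 : ℝ)))
        exact this.ae (ae_restrict_mem measurableSet_Ioi)
      filter_upwards [this] with p hp
      simp only [Function.uncurry]
      rw [Real.norm_eq_abs, abs_mul, abs_mul, abs_mul, abs_of_nonneg (he0 p.2)]
      have h1 := hPb u hu p.1
      have h2 := hPb p.2 hp p.1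
      have h3 := hE0 p.1
      have h4 := hE2 p.1
      have h5 := hm0 u hu
      have h6 := hm0 p.2 hp
      have h7 := hbK' u p.2
      have h8 := he0 p.2
      calc |P u p.1| * (|b' u p.2| * e p.2 * |P p.2 p.1|)
          ≤ (m u * E p.1) * (K * e p.2 * (m p.2 * 2)) := by
            gcongr
            exact h2.trans (by gcongr)
        _ = _ := by ring
    have hsw := integral_integral_swap hint
    constructor
    · have h := hint.integral_prod_left
      refine h.congr (Eventually.of_forall fun x => ?_)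
      simp only [Function.uncurry]
      rw [integral_const_mul]
    · have e1 : (∫ x, P u x * ∫ w in Set.Ioi (0 : ℝ), b' u w * e w * P w x)
          = ∫ x, ∫ w in Set.Ioi (0 : ℝ), P u x * (b' u w * e w * P w x) := by
        congr 1
        ext x
        rw [integral_const_mul]
      rw [e1, hsw]
      congr 1
      ext w
      rw [← integral_const_mul]
      congr 1
      ext x
      ring
  have hsum : ∀ u, 0 < u → (∫ x, P u x * X u x) = (∫ x, P u x * Q u x)
      - (∫ w in Set.Ioi (0 : ℝ), b' u w * e w * ∫ x, P u x * P w x) + ∫ x, P u x * D u x := by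
    intro u hu
    have a3 : (∫ x, ((P u x * Q u x - P u x * ∫ w in Set.Ioi (0 : ℝ), b' u w * e w * P w x)
        + P u x * D u x))
        = (∫ x, (P u x * Q u x - P u x * ∫ w in Set.Ioi (0 : ℝ), b' u w * e w * P w x))
          + ∫ x, P u x * D u x :=
      integral_add ((hxi Q hQ hQb u hu u hu).1.sub (hPPi u hu).1) (hPDi u hu).1
    rw [← (hPPi u hu).2, ← integral_sub (hxi Q hQ hQb u hu u hu).1 (hPPi u hu).1, ← a3]
    congr 1
    ext x
    rw [hdec u hu x]
    ring
  -- integrability in `u`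
  have mxx : ∀ (Z : ℝ → ℂ → ℝ), Measurable (Function.uncurry Z) →
      Measurable (fun u => e u * ∫ x, P u x * Z u x) := by
    intro Z hZ
    exact he.mul (meas_int volume (fun u x => P u x * Z u x) (hP.mul hZ))
  have j1 : ∀ (Z : ℝ → ℂ → ℝ), Measurable (Function.uncurry Z) →
      (∀ u, 0 < u → ∀ x, |Z u x| ≤ m u * E x) →
      IntegrableOn (fun u => e u * ∫ x, P u x * Z u x) (Set.Ioi 0) := by
    intro Z hZ hZb
    apply Integrable.mono' (hem2.const_mul (2 * ∫ x, E x)) (mxx Z hZ).aestronglyMeasurable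
    filter_upwards [ae_restrict_mem measurableSet_Ioi] with u hu
    rw [Real.norm_eq_abs, abs_mul, abs_of_nonneg (he0 u)]
    have h1 := (hxi Z hZ hZb u hu u hu).2
    calc e u * |∫ x, P u x * Z u x| ≤ e u * (m u * m u * (2 * ∫ x, E x)) :=
          mul_le_mul_of_nonneg_left h1 (he0 u)
      _ = _ := by ring
  have j2 : IntegrableOn (fun u => e u * ∫ x, P u x * D u x) (Set.Ioi 0) ∧
      |∫ u in Set.Ioi (0 : ℝ), e u * ∫ x, P u x * D u x|
        ≤ K ^ 2 * r * (q * M) ^ 2 * (∫ x, (F x + 2 * K * M * E x)) * (q * M) := by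
    have hb1 : ∀ u, 0 < u → |e u * ∫ x, P u x * D u x|
        ≤ (K ^ 2 * r * (q * M) ^ 2 * ∫ x, (F x + 2 * K * M * E x)) * (e u * m u) := by
      intro u hu
      rw [abs_mul, abs_of_nonneg (he0 u)]
      have h1 := (hPDi u hu).2
      calc e u * |∫ x, P u x * D u x|
          ≤ e u * (m u * (K ^ 2 * r * (q * M) ^ 2 * ∫ x, (F x + 2 * K * M * E x))) :=
            mul_le_mul_of_nonneg_left h1 (he0 u)
        _ = _ := by ring
    have hi : IntegrableOn (fun u => e u * ∫ x, P u x * D u x) (Set.Ioi 0) := by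
      apply Integrable.mono' (hem.const_mul _) (mxx D hD).aestronglyMeasurable
      filter_upwards [ae_restrict_mem measurableSet_Ioi] with u hu
      exact hb1 u hu
    refine ⟨hi, abs_integral_le_integral_abs.trans ?_⟩
    refine (setIntegral_mono_on hi.abs (hem.const_mul _) measurableSet_Ioi
      (fun u hu => hb1 u hu)).trans ?_
    rw [integral_const_mul]
    apply mul_le_mul_of_nonneg_left heM
    have : 0 ≤ ∫ x, (F x + 2 * K * M * E x) := integral_nonneg hG0
    positivity
  have j3 : IntegrableOn (fun u => ∫ w in Set.Ioi (0 : ℝ),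
      b' u w * e u * e w * ∫ x, P u x * P w x) (Set.Ioi 0) := by
    have hm3 : Measurable (fun u => ∫ w in Set.Ioi (0 : ℝ),
        b' u w * e u * e w * ∫ x, P u x * P w x) := by
      apply meas_int
      have h0 : Measurable fun p : ℝ × ℝ => ∫ x, P p.1 x * P p.2 x := by
        apply meas_int
        have h1 : Measurable fun p : (ℝ × ℝ) × ℂ => P p.1.1 p.2 :=
          hP.comp ((measurable_fst.comp measurable_fst).prodMk measurable_snd)
        have h2 : Measurable fun p : (ℝ × ℝ) × ℂ => P p.1.2 p.2 :=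
          hP.comp ((measurable_snd.comp measurable_fst).prodMk measurable_snd)
        exact h1.mul h2
      exact ((hb'.mul (he.comp measurable_fst)).mul (he.comp measurable_snd)).mul h0
    apply Integrable.mono' (hem.const_mul (K * (2 * ∫ x, E x) * (q * M))) hm3.aestronglyMeasurable
    filter_upwards [ae_restrict_mem measurableSet_Ioi] with u hu
    have hE' : 0 ≤ ∫ x, E x := integral_nonneg hE0
    have hmz : Measurable fun w => ∫ x, P u x * P w x := by
      apply meas_int
      exact ((sec' P hP u).comp measurable_snd).mul hP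
    have h := (wint (b' u) e (fun w => ∫ x, P u x * P w x) m K (m u * (2 * ∫ x, E x)) (q * M)
      (secb b' hb' u) he hmz hK (hbK' u) he0
      (fun w hw => ?_) (by have := hm0 u hu; positivity) hem heM).2.1
    · have e1 : (∫ w in Set.Ioi (0 : ℝ), b' u w * e u * e w * ∫ x, P u x * P w x)
          = e u * ∫ w in Set.Ioi (0 : ℝ), b' u w * e w * ∫ x, P u x * P w x := by
        rw [← integral_const_mul]
        congr 1
        ext w
        ring
      rw [e1, Real.norm_eq_abs, abs_mul, abs_of_nonneg (he0 u)]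
      refine (mul_le_mul_of_nonneg_left h (he0 u)).trans (le_of_eq ?_)
      ring
    · refine ((hxi P hP hPb u hu w hw).2).trans (le_of_eq ?_)
      ring
  have e2 : (∫ u in Set.Ioi (0 : ℝ), e u * ∫ x, P u x * X u x)
      - ((∫ u in Set.Ioi (0 : ℝ), e u * ∫ x, P u x * Q u x)
          - ∫ u in Set.Ioi (0 : ℝ), ∫ w in Set.Ioi (0 : ℝ),
            b' u w * e u * e w * ∫ x, P u x * P w x)
      = ∫ u in Set.Ioi (0 : ℝ), e u * ∫ x, P u x * D u x := by
    have k1 := j1 X hX hXb
    have k2 := j1 Q hQ hQb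
    have a3 : (∫ u in Set.Ioi (0 : ℝ), ((e u * ∫ x, P u x * X u x)
        - ((e u * ∫ x, P u x * Q u x) - ∫ w in Set.Ioi (0 : ℝ),
            b' u w * e u * e w * ∫ x, P u x * P w x)))
        = (∫ u in Set.Ioi (0 : ℝ), e u * ∫ x, P u x * X u x)
        - ∫ u in Set.Ioi (0 : ℝ), ((e u * ∫ x, P u x * Q u x) - ∫ w in Set.Ioi (0 : ℝ),
            b' u w * e u * e w * ∫ x, P u x * P w x) :=
      integral_sub k1 (k2.sub j3)
    rw [← integral_sub k2 j3, ← a3]
    apply setIntegral_congr_fun measurableSet_Ioi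
    intro u hu
    simp only
    have e1 : (∫ w in Set.Ioi (0 : ℝ), b' u w * e u * e w * ∫ x, P u x * P w x)
          = e u * ∫ w in Set.Ioi (0 : ℝ), b' u w * e w * ∫ x, P u x * P w x := by
      rw [← integral_const_mul]
      congr 1
      ext w
      ring
    rw [e1, hsum u hu]
    ring
  refine ⟨j1 X hX hXb, ?_⟩
  rw [e2]
  refine j2.2.trans (le_of_eq ?_)
  ring

end Abstract

section Concrete

theorem cosh_ge {u : ℝ} (hu : 0 ≤ u) : 1 + u ^ 2 / 2 ≤ Real.cosh u := by
  have h1 : Real.cosh u = 1 + 2 * Real.sinh (u / 2) ^ 2 := by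
    have h := Real.cosh_two_mul (u / 2)
    have h2 := Real.cosh_sq (u / 2)
    rw [show 2 * (u / 2) = u by ring] at h
    rw [h, h2]
    ring
  have h2 : u / 2 ≤ Real.sinh (u / 2) := Real.self_le_sinh_iff.mpr (by linarith only [hu])
  rw [h1]
  nlinarith only [hu, h2, sq_nonneg (Real.sinh (u / 2) - u / 2), mul_self_nonneg (u/2)]

theorem ep_le {κ u : ℝ} (hκ : 1 ≤ κ) (hu : 0 ≤ u) :
    ep κ u ≤ Real.exp (-κ) * Real.exp (-(1 / 2 * u ^ 2)) := by
  unfold ep
  rw [← Real.exp_add]
  apply Real.exp_le_exp.mpr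
  have h1 := cosh_ge hu
  linarith only [mul_le_mul_of_nonneg_left h1 (by linarith : 0 ≤ κ), mul_nonneg (by linarith : 0 ≤ κ - 1)
    (sq_nonneg u)]

theorem int_gauss (B : ℝ) : Integrable fun u : ℝ => Real.exp (-(1 / 2 * u ^ 2)) * Real.exp (B * u) := by
  have h := (integrable_exp_neg_mul_sq (b := 1 / 4) (by norm_num)).const_mul (Real.exp (B ^ 2))
  apply Integrable.mono' h (by fun_prop)
  refine Eventually.of_forall fun u => ?_
  rw [Real.norm_eq_abs, abs_of_nonneg (by positivity), ← Real.exp_add, ← Real.exp_add]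
  apply Real.exp_le_exp.mpr
  linarith only [sq_nonneg (u / 2 - B)]

theorem int_exp_norm {a : ℝ} (ha : 0 < a) (p : ℂ) : Integrable fun x : ℂ => Real.exp (-(a * ‖x - p‖)) := by
  have h0 : Integrable fun x : ℂ => Real.exp (-(a * ‖x‖)) := by
    have h := (integrable_one_add_norm (E := ℂ) (μ := volume) (r := 3)
      (by rw [Complex.finrank_real_complex]; norm_num)).const_mul (Real.exp a * (6 / a ^ 3))
    apply Integrable.mono' h (by fun_prop)
    refine Eventually.of_forall fun x => ?_
    rw [Real.norm_eq_abs, abs_of_nonneg (by positivity)]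
    set s := ‖x‖ with hs
    have hs0 : 0 ≤ s := norm_nonneg x
    have h1 : (a * (1 + s)) ^ 3 / 6 ≤ Real.exp (a * (1 + s)) := by
      have h2 : 0 ≤ a * (1 + s) := by positivity
      have h3 := Real.pow_div_factorial_le_exp (a * (1 + s)) h2 3
      simpa [Nat.factorial] using h3
    have h4 : (1 + s) ^ (-3 : ℝ) = ((1 + s) ^ 3)⁻¹ := by
      rw [Real.rpow_neg (by positivity)]
      norm_cast
    rw [h4]
    have h5 : Real.exp (-(a * s)) = Real.exp a * (Real.exp (a * (1 + s)))⁻¹ := by
      rw [← Real.exp_neg, ← Real.exp_add]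
      congr 1
      ring
    rw [h5, mul_assoc]
    apply mul_le_mul_of_nonneg_left _ (Real.exp_pos a).le
    have h6 : (6 / a ^ 3) * ((1 + s) ^ 3)⁻¹ = ((a * (1 + s)) ^ 3 / 6)⁻¹ := by
      field_simp
    rw [h6]
    apply inv_anti₀ (by positivity) h1
  exact h0.comp_sub_right p

theorem mono_const {C A u : ℝ} (h : C ≤ A) (hA : 0 ≤ A) (hu : 0 < u) :
    C * Real.exp (C * u) ≤ A * Real.exp (A * u) :=
  calc C * Real.exp (C * u) ≤ A * Real.exp (C * u) :=
        mul_le_mul_of_nonneg_right h (Real.exp_pos _).le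
    _ ≤ A * Real.exp (A * u) := by
        gcongr

theorem bb_meas (β : ℝ) : Measurable (Function.uncurry (bb β)) := by
  unfold bb KK Function.uncurry
  fun_prop

theorem KK_bound {β : ℝ} (h0 : 0 < β) (h1 : β < Real.pi / 2) : ∃ K : ℝ, 0 ≤ K ∧ ∀ u w, |bb β u w| ≤ K := by
  have hpi := Real.pi_pos
  have hb : 0 < Real.pi - β := by linarith
  have hc : Real.cos (2 * Real.pi * nu β) < 1 := by
    have h2 : 0 < 2 * Real.pi * nu β := by unfold nu; positivity
    have h3 : 2 * Real.pi * nu β < 2 * Real.pi := by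
      have : nu β < 1 := by
        unfold nu
        rw [div_lt_one (by positivity)]
        linarith
      nlinarith only [h0, this, h1]
    have h4 := (Real.cos_eq_one_iff_of_lt_of_lt (x := 2 * Real.pi * nu β) (by linarith) h3).not.mpr
      h2.ne'
    exact lt_of_le_of_ne (Real.cos_le_one _) h4
  set c := Real.cos (2 * Real.pi * nu β) with hcdef
  set A := nu β / Real.pi * (-Real.sin (2 * Real.pi * nu β)) with hA
  have hKK : ∀ z, |KK β z| ≤ |A| / (1 - c) := by
    intro z
    unfold KK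
    rw [← hA, ← hcdef, abs_div]
    have h5 := Real.one_le_cosh (2 * nu β * z)
    rw [abs_of_nonneg (by linarith : 0 ≤ Real.cosh (2 * nu β * z) - c)]
    apply div_le_div_of_nonneg_left (abs_nonneg _) (by linarith) (by linarith)
  refine ⟨2 * (|A| / (1 - c)), ?_, fun u w => ?_⟩
  · have : 0 < 1 - c := by linarith
    positivity
  · unfold bb
    have h6 := hKK (u - w)
    have h7 := hKK (u + w)
    have h8 := abs_sub (KK β (u - w)) (KK β (u + w))
    linarith

theorem norm_one_sub_conj (x : ℂ) : ‖1 - (starRingEnd ℂ) x‖ = ‖x - 1‖ := by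
  have : 1 - (starRingEnd ℂ) x = (starRingEnd ℂ) (1 - x) := by simp
  rw [this, Complex.norm_conj, norm_sub_rev]

/-- pointwise bound of the product of the two wedge functions -/
theorem cross {S S' : ℝ → ℂ → ℝ} {A a κ ε : ℝ} (ha : 0 < a) (hA : 1 ≤ A) (hκ : 1 ≤ κ)
    (hε : 0 < ε) (hε1 : ε < 1)
    (b1 : ∀ u, 0 < u → ∀ x, |S u x| ≤ A * Real.exp (A * u) * Real.exp (-(a * ‖x‖)))
    (b2 : ∀ u, 0 < u → ∀ x, |S' u x| ≤ A * Real.exp (A * u) * Real.exp (-(a * ‖x‖)))
    (d1 : ∀ u, 0 < u → ∀ x : ℂ, 0 ≤ x.re → |S u x| ≤ A * Real.exp (A * u) * Real.exp (-x.re))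
    (d2 : ∀ u, 0 < u → ∀ x : ℂ, 0 ≤ x.re → |S' u x| ≤ A * Real.exp (A * u) * Real.exp (-x.re))
    {u v : ℝ} (hu : 0 < u) (hv : 0 < v) (x : ℂ) :
    |Sl κ S u x| * |Sr κ S' v x| ≤ A * Real.exp (A * u) * (A * Real.exp (A * v)) *
      (Real.exp (-((1 - ε) * κ)) * Real.exp (-(ε * a * ‖x‖))) := by
  have hκ0 : 0 < κ := by linarith
  have hre : ∀ y : ℂ, ((κ : ℂ) * y).re = κ * y.re := fun y => by simp
  have hre' : ((κ : ℂ) * (1 - (starRingEnd ℂ) x)).re = κ * (1 - x.re) := by simp
  have hn : ‖(κ : ℂ) * x‖ = κ * ‖x‖ := by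
    rw [norm_mul, Complex.norm_real, Real.norm_of_nonneg hκ0.le]
  have s1 : |Sl κ S u x| ≤ A * Real.exp (A * u) * Real.exp (-(a * ‖x‖)) := by
    unfold Sl
    refine (b1 u hu _).trans ?_
    gcongr
    rw [hn]
    exact le_mul_of_one_le_left (norm_nonneg _) hκ
  have e1 : ∀ y : ℂ, Real.exp (-(a * ‖y‖)) ≤ 1 := fun y => by
    rw [Real.exp_le_one_iff]
    have := norm_nonneg y
    nlinarith only [ha, this]
  have s2 : |Sl κ S u x| ≤ A * Real.exp (A * u) := by
    refine s1.trans ?_
    have := e1 x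
    exact mul_le_of_le_one_right (by positivity) this
  have s3 : |Sr κ S' v x| ≤ A * Real.exp (A * v) := by
    unfold Sr
    refine (b2 v hv _).trans ?_
    have := e1 ((κ : ℂ) * (1 - (starRingEnd ℂ) x))
    exact mul_le_of_le_one_right (by positivity) this
  set AA := A * Real.exp (A * u) * (A * Real.exp (A * v)) with hAA
  have hAA0 : 0 ≤ AA := by positivity
  have p1 : |Sl κ S u x| * |Sr κ S' v x| ≤ AA * Real.exp (-(a * ‖x‖)) := by
    calc |Sl κ S u x| * |Sr κ S' v x|
        ≤ (A * Real.exp (A * u) * Real.exp (-(a * ‖x‖))) * (A * Real.exp (A * v)) := by gcongr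
      _ = _ := by rw [hAA]; ring
  have p2 : |Sl κ S u x| * |Sr κ S' v x| ≤ AA * Real.exp (-κ) := by
    have t1 : 0 ≤ x.re → |Sl κ S u x| ≤ A * Real.exp (A * u) * Real.exp (-(κ * x.re)) := by
      intro h
      have := d1 u hu ((κ : ℂ) * x) (by rw [hre]; positivity)
      rw [hre] at this
      exact this
    have t2 : x.re ≤ 1 → |Sr κ S' v x| ≤ A * Real.exp (A * v) * Real.exp (-(κ * (1 - x.re))) := by
      intro h
      have := d2 v hv ((κ : ℂ) * (1 - (starRingEnd ℂ) x))
        (by rw [hre']; exact mul_nonneg hκ0.le (by linarith))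
      rw [hre'] at this
      exact this
    rcases lt_or_ge x.re 0 with h | h
    · have t3 : Real.exp (-(κ * (1 - x.re))) ≤ Real.exp (-κ) := by
        apply Real.exp_le_exp.mpr
        nlinarith only [h, hκ]
      calc |Sl κ S u x| * |Sr κ S' v x|
          ≤ (A * Real.exp (A * u)) * (A * Real.exp (A * v) * Real.exp (-κ)) := by
            gcongr
            exact (t2 (by linarith)).trans (by gcongr)
        _ = _ := by rw [hAA]; ring
    · rcases le_or_gt x.re 1 with h' | h'
      · calc |Sl κ S u x| * |Sr κ S' v x|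
            ≤ (A * Real.exp (A * u) * Real.exp (-(κ * x.re)))
              * (A * Real.exp (A * v) * Real.exp (-(κ * (1 - x.re)))) := by
              gcongr
              · exact t1 h
              · exact t2 h'
          _ = AA * (Real.exp (-(κ * x.re)) * Real.exp (-(κ * (1 - x.re)))) := by rw [hAA]; ring
          _ = _ := by
            rw [← Real.exp_add]
            congr 2
            ring
      · have t3 : Real.exp (-(κ * x.re)) ≤ Real.exp (-κ) := by
          apply Real.exp_le_exp.mpr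
          nlinarith only [h', hκ]
        calc |Sl κ S u x| * |Sr κ S' v x|
            ≤ (A * Real.exp (A * u) * Real.exp (-κ)) * (A * Real.exp (A * v)) := by
              gcongr
              exact (t1 h).trans (by gcongr)
          _ = _ := by rw [hAA]; ring
  rw [← Real.exp_add]
  rcases le_total κ (a * ‖x‖) with h | h
  · refine p1.trans (mul_le_mul_of_nonneg_left (Real.exp_le_exp.mpr ?_) hAA0)
    nlinarith only [hε1, h]
  · refine p2.trans (mul_le_mul_of_nonneg_left (Real.exp_le_exp.mpr ?_) hAA0)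
    nlinarith only [hε, h]

theorem rq_le {ε κ : ℝ} (hε : 0 ≤ ε) (hκ : 0 ≤ κ) :
    Real.exp (-((1 - ε) * κ)) * Real.exp (-κ) ^ 3 ≤ Real.exp (-(4 * (1 - ε) * κ)) := by
  rw [← Real.exp_nat_mul, ← Real.exp_add]
  apply Real.exp_le_exp.mpr
  push_cast
  nlinarith [mul_nonneg hε hκ]

theorem combine {I1 I2 J L1 L2 b1 b2 : ℝ} (h1 : |I1 - (J - L1)| ≤ b1) (h2 : |I2 - (J - L2)| ≤ b2) :
    |I1 + I2 - (2 * J - L1 - L2)| ≤ b1 + b2 := by
  have e : I1 + I2 - (2 * J - L1 - L2) = (I1 - (J - L1)) + (I2 - (J - L2)) := by ring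
  rw [e]
  exact (abs_add_le _ _).trans (add_le_add h1 h2)

/-- TRR -/
theorem trr : TrrStatement := by
  intro β β' S S' hβ0 hβ1 hβ0' hβ1' hS hS' C c hc ε hε hε1
  obtain ⟨C1, c1, hc1, b1⟩ := hS.bound
  obtain ⟨C2, c2, hc2, b2⟩ := hS'.bound
  obtain ⟨C3, d1⟩ := hS.decay
  obtain ⟨C4, d2⟩ := hS'.decay
  obtain ⟨K1, hK1, hbK1⟩ := KK_bound hβ0 hβ1
  obtain ⟨K2, hK2, hbK2⟩ := KK_bound hβ0' hβ1'
  set A : ℝ := max 1 (max C (max C1 (max C2 (max C3 C4)))) with hA
  have hA1 : 1 ≤ A := le_max_left _ _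
  have hAC : C ≤ A := (le_max_left _ _).trans (le_max_right _ _)
  have hAC1 : C1 ≤ A := ((le_max_left _ _).trans (le_max_right _ _)).trans (le_max_right _ _)
  have hAC2 : C2 ≤ A :=
    (((le_max_left _ _).trans (le_max_right _ _)).trans (le_max_right _ _)).trans (le_max_right _ _)
  have hAC3 : C3 ≤ A :=
    ((((le_max_left _ _).trans (le_max_right _ _)).trans (le_max_right _ _)).trans
      (le_max_right _ _)).trans (le_max_right _ _)
  have hAC4 : C4 ≤ A :=
    ((((le_max_right _ _).trans (le_max_right _ _)).trans (le_max_right _ _)).trans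
      (le_max_right _ _)).trans (le_max_right _ _)
  set a : ℝ := min c (min c1 c2) with ha
  have ha0 : 0 < a := lt_min hc (lt_min hc1 hc2)
  have hac : a ≤ c := min_le_left _ _
  have hac1 : a ≤ c1 := (min_le_right _ _).trans (min_le_left _ _)
  have hac2 : a ≤ c2 := (min_le_right _ _).trans (min_le_right _ _)
  have hA0 : 0 ≤ A := by linarith only [hA1]
  set K := max K1 K2 with hKdef
  have hK : 0 ≤ K := hK1.trans (le_max_left _ _)
  set E : ℂ → ℝ := fun x => Real.exp (-(a * ‖x‖)) + Real.exp (-(a * ‖x - 1‖)) with hE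
  set F : ℂ → ℝ := fun x => Real.exp (-(ε * a * ‖x‖)) + Real.exp (-(ε * a * ‖x - 1‖)) with hF
  set m : ℝ → ℝ := fun u => A * Real.exp (A * u) with hm
  set M : ℝ := ∫ u in Set.Ioi (0 : ℝ), Real.exp (-(1 / 2 * u ^ 2)) * m u with hM
  have hE0 : ∀ x, 0 ≤ E x := fun x => by positivity
  have hF0 : ∀ x, 0 ≤ F x := fun x => by positivity
  have hE1 : ∀ y : ℂ, Real.exp (-(a * ‖y‖)) ≤ 1 := fun y => by
    rw [Real.exp_le_one_iff]
    have := norm_nonneg y
    nlinarith only [ha0, this]
  have hE2 : ∀ x, E x ≤ 2 := fun x => by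
    have := hE1 x
    have := hE1 (x - 1)
    simp only [hE]
    linarith
  have hEi : Integrable E := by
    have h := (int_exp_norm ha0 0).add (int_exp_norm ha0 1)
    simp only [sub_zero] at h
    exact h
  have hFi : Integrable F := by
    have h := (int_exp_norm (mul_pos hε ha0) 0).add (int_exp_norm (mul_pos hε ha0) 1)
    simp only [sub_zero] at h
    exact h
  have hmi : IntegrableOn (fun u => Real.exp (-(1 / 2 * u ^ 2)) * m u) (Set.Ioi 0) := by
    have h := ((int_gauss A).const_mul A).integrableOn (s := Set.Ioi 0)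
    refine h.congr (Eventually.of_forall fun u => ?_)
    simp only [hm]
    ring
  have hM0 : 0 ≤ M := by
    apply integral_nonneg
    intro u
    simp only [hm, Pi.zero_apply]
    positivity
  refine ⟨1, (K ^ 2 * M ^ 3 * ∫ x, (F x + 2 * K * M * E x))
    + (K ^ 2 * M ^ 3 * ∫ x, (F x + 2 * K * M * E x)), one_pos, ?_⟩
  intro κ hκ X X' hX
  have hκ0 : 0 < κ := by linarith
  set r := Real.exp (-((1 - ε) * κ)) with hr
  set q := Real.exp (-κ) with hq
  have hqr : q ≤ r := Real.exp_le_exp.mpr (by nlinarith only [hε, hκ])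
  have hepm : Measurable (ep κ) := by unfold ep; fun_prop
  have hep0 : ∀ u, 0 ≤ ep κ u := fun u => (Real.exp_pos _).le
  have hm1 : ∀ u, 0 < u → 1 ≤ m u := fun u hu => by
    simp only [hm]
    have : 1 ≤ Real.exp (A * u) := Real.one_le_exp (by positivity)
    nlinarith only [hA1, this]
  have hmm : Measurable m := by
    simp only [hm]
    fun_prop
  have hb1 : ∀ u, 0 < u → |ep κ u * m u| ≤ q * (Real.exp (-(1 / 2 * u ^ 2)) * m u) := by
    intro u hu
    have hmu : 0 ≤ m u := by have := hm1 u hu; linarith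
    rw [abs_mul, abs_of_nonneg (hep0 u), abs_of_nonneg hmu]
    calc ep κ u * m u ≤ (Real.exp (-κ) * Real.exp (-(1 / 2 * u ^ 2))) * m u :=
          mul_le_mul_of_nonneg_right (ep_le hκ hu.le) hmu
      _ = q * (Real.exp (-(1 / 2 * u ^ 2)) * m u) := by rw [mul_assoc]
  have hem : IntegrableOn (fun u => ep κ u * m u) (Set.Ioi 0) := by
    apply Integrable.mono' (hmi.const_mul q) (hepm.mul hmm).aestronglyMeasurable
    filter_upwards [ae_restrict_mem measurableSet_Ioi] with u hu
    exact hb1 u hu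
  have heM : ∫ u in Set.Ioi (0 : ℝ), ep κ u * m u ≤ q * M := by
    rw [hM, ← integral_const_mul]
    apply setIntegral_mono_on hem (hmi.const_mul q) measurableSet_Ioi
    intro u hu
    exact (le_abs_self _).trans (hb1 u hu)
  have hem2 : IntegrableOn (fun u => ep κ u * m u ^ 2) (Set.Ioi 0) := by
    have h := ((int_gauss (2 * A)).const_mul (q * A ^ 2)).integrableOn (s := Set.Ioi 0)
    apply Integrable.mono' h (hepm.mul (hmm.pow_const 2)).aestronglyMeasurable
    filter_upwards [ae_restrict_mem measurableSet_Ioi] with u hu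
    show |ep κ u * m u ^ 2| ≤ _
    rw [abs_mul, abs_of_nonneg (hep0 u), abs_of_nonneg (by positivity)]
    have h2 := ep_le hκ (Set.mem_Ioi.mp hu).le
    have h3 : m u ^ 2 = A ^ 2 * Real.exp (2 * A * u) := by
      simp only [hm]
      rw [mul_pow, ← Real.exp_nat_mul]
      congr 2
      push_cast
      ring
    rw [h3]
    calc ep κ u * (A ^ 2 * Real.exp (2 * A * u))
        ≤ (Real.exp (-κ) * Real.exp (-(1 / 2 * u ^ 2))) * (A ^ 2 * Real.exp (2 * A * u)) := by
          gcongr
      _ = _ := by rw [hq]; ring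
  -- bounds of the wedge functions
  have B1 : ∀ u, 0 < u → ∀ x, |S u x| ≤ A * Real.exp (A * u) * Real.exp (-(a * ‖x‖)) := by
    intro u hu x
    refine (b1 u hu x).trans ?_
    apply mul_le_mul (mono_const hAC1 hA0 hu) _ (Real.exp_pos _).le (by positivity)
    apply Real.exp_le_exp.mpr
    have := norm_nonneg x
    nlinarith only [hac1, this]
  have B2 : ∀ u, 0 < u → ∀ x, |S' u x| ≤ A * Real.exp (A * u) * Real.exp (-(a * ‖x‖)) := by
    intro u hu x
    refine (b2 u hu x).trans ?_
    apply mul_le_mul (mono_const hAC2 hA0 hu) _ (Real.exp_pos _).le (by positivity)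
    apply Real.exp_le_exp.mpr
    have := norm_nonneg x
    nlinarith only [hac2, this]
  have D1 : ∀ u, 0 < u → ∀ x : ℂ, 0 ≤ x.re → |S u x| ≤ A * Real.exp (A * u) * Real.exp (-x.re) := by
    intro u hu x hx
    refine (d1 u hu x hx).trans ?_
    exact mul_le_mul_of_nonneg_right (mono_const hAC3 hA0 hu) (Real.exp_pos _).le
  have D2 : ∀ u, 0 < u → ∀ x : ℂ, 0 ≤ x.re →
      |S' u x| ≤ A * Real.exp (A * u) * Real.exp (-x.re) := by
    intro u hu x hx
    refine (d2 u hu x hx).trans ?_
    exact mul_le_mul_of_nonneg_right (mono_const hAC4 hA0 hu) (Real.exp_pos _).le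
  have hn : ∀ x : ℂ, ‖(κ : ℂ) * x‖ = κ * ‖x‖ := fun x => by
    rw [norm_mul, Complex.norm_real, Real.norm_of_nonneg hκ0.le]
  have PE : ∀ u, 0 < u → ∀ x, |Sl κ S u x| ≤ m u * E x := by
    intro u hu x
    refine (B1 u hu _).trans ?_
    simp only [hm, hE]
    gcongr
    rw [hn]
    have h1 : Real.exp (-(a * (κ * ‖x‖))) ≤ Real.exp (-(a * ‖x‖)) := by
      apply Real.exp_le_exp.mpr
      have : ‖x‖ ≤ κ * ‖x‖ := le_mul_of_one_le_left (norm_nonneg _) hκ
      nlinarith only [ha0, this]
    have h2 := Real.exp_pos (-(a * ‖x - 1‖))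
    linarith
  have QE : ∀ u, 0 < u → ∀ x, |Sr κ S' u x| ≤ m u * E x := by
    intro u hu x
    refine (B2 u hu _).trans ?_
    simp only [hm, hE]
    gcongr
    rw [hn, norm_one_sub_conj]
    have h1 : Real.exp (-(a * (κ * ‖x - 1‖))) ≤ Real.exp (-(a * ‖x - 1‖)) := by
      apply Real.exp_le_exp.mpr
      have : ‖x - 1‖ ≤ κ * ‖x - 1‖ := le_mul_of_one_le_left (norm_nonneg _) hκ
      nlinarith only [ha0, this]
    have h2 := Real.exp_pos (-(a * ‖x‖))
    linarith
  have XE0 : ∀ (Z : ℝ → ℂ → ℝ), (∀ u, 0 < u → ∀ y, |Z u y| ≤ C * Real.exp (C * u) *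
      (Real.exp (-(c * κ * ‖y‖)) + Real.exp (-(c * κ * ‖y - 1‖)))) →
      ∀ u, 0 < u → ∀ x, |Z u x| ≤ m u * E x := by
    intro Z hZ u hu x
    refine (hZ u hu x).trans ?_
    simp only [hm, hE]
    apply mul_le_mul (mono_const hAC hA0 hu) _ (by positivity) (by positivity)
    have h0 : ∀ t : ℝ, 0 ≤ t → Real.exp (-(c * κ * t)) ≤ Real.exp (-(a * t)) := by
      intro t ht
      apply Real.exp_le_exp.mpr
      have h1 : a ≤ c * κ := hac.trans (le_mul_of_one_le_right hc.le hκ)
      nlinarith only [ht, h1]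
    exact add_le_add (h0 _ (norm_nonneg _)) (h0 _ (norm_nonneg _))
  have XE := XE0 X hX.bound
  have XE' := XE0 X' hX.bound'
  have hPm : Measurable (Function.uncurry (Sl κ S)) := by
    have : Measurable fun p : ℝ × ℂ => (p.1, (κ : ℂ) * p.2) := by fun_prop
    exact hS.meas.comp this
  have hQm : Measurable (Function.uncurry (Sr κ S')) := by
    have : Measurable fun p : ℝ × ℂ => (p.1, (κ : ℂ) * (1 - (starRingEnd ℂ) p.2)) := by fun_prop
    exact hS'.meas.comp this
  have PQ : ∀ u, 0 < u → ∀ v, 0 < v → ∀ x, |Sl κ S u x| * |Sr κ S' v x|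
      ≤ m u * m v * (r * F x) := by
    intro u hu v hv x
    refine (cross ha0 hA1 hκ hε hε1 B1 B2 D1 D2 hu hv x).trans ?_
    simp only [hm, hF]
    gcongr
    have := Real.exp_pos (-(ε * a * ‖x - 1‖))
    linarith
  -- the same with the roles exchanged
  have QP : ∀ u, 0 < u → ∀ v, 0 < v → ∀ x, |Sr κ S' u x| * |Sl κ S v x|
      ≤ m u * m v * (r * F x) := by
    intro u hu v hv x
    rw [mul_comm]
    refine (PQ v hv u hu x).trans (le_of_eq ?_)
    ring
  have h1 := half (Sl κ S) (Sr κ S') X X' (bb β) (bb β') (ep κ) m E F K r q M hPm hQm hX.meas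
    hX.meas' (bb_meas β) (bb_meas β') hepm hK (fun u w => (hbK1 u w).trans (le_max_left _ _))
    (fun u w => (hbK2 u w).trans (le_max_right _ _)) hep0 hm1 hE0 hE2 hEi hF0 hFi PE QE XE XE' PQ
    hem hem2 (Real.exp_pos _).le (Real.exp_pos _).le hqr hM0 heM hX.sys hX.sys'
  have h2 := half (Sr κ S') (Sl κ S) X' X (bb β') (bb β) (ep κ) m E F K r q M hQm hPm hX.meas'
    hX.meas (bb_meas β') (bb_meas β) hepm hK (fun u w => (hbK2 u w).trans (le_max_right _ _))
    (fun u w => (hbK1 u w).trans (le_max_left _ _)) hep0 hm1 hE0 hE2 hEi hF0 hFi QE PE XE' XE QP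
    hem hem2 (Real.exp_pos _).le (Real.exp_pos _).le hqr hM0 heM hX.sys' hX.sys
  obtain ⟨i1, h1⟩ := h1
  obtain ⟨i2, h2⟩ := h2
  have e1 : (∫ u in Set.Ioi (0 : ℝ), ep κ u *
      ((∫ x, Sl κ S u x * X u x) + ∫ x, Sr κ S' u x * X' u x))
      = (∫ u in Set.Ioi (0 : ℝ), ep κ u * ∫ x, Sl κ S u x * X u x)
        + ∫ u in Set.Ioi (0 : ℝ), ep κ u * ∫ x, Sr κ S' u x * X' u x := by
    rw [← integral_add i1 i2]
    congr 1
    ext u
    ring
  have e2 : (∫ u in Set.Ioi (0 : ℝ), ep κ u * ∫ x, Sr κ S' u x * Sl κ S u x)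
      = ∫ u in Set.Ioi (0 : ℝ), ep κ u * ∫ x, Sl κ S u x * Sr κ S' u x := by
    congr 1
    ext u
    congr 2
    ext x
    ring
  rw [e2] at h2
  rw [e1]
  set V := ∫ x, (F x + 2 * K * M * E x) with hV
  have hV0 : 0 ≤ V := integral_nonneg fun x => by
    have := hF0 x
    have := hE0 x
    simp only [Pi.zero_apply]
    positivity
  have hrq : r * q ^ 3 ≤ Real.exp (-(4 * (1 - ε) * κ)) := rq_le hε.le hκ0.le
  have h3 : K ^ 2 * r * (q * M) ^ 3 * V ≤ K ^ 2 * M ^ 3 * V * Real.exp (-(4 * (1 - ε) * κ)) := by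
    calc K ^ 2 * r * (q * M) ^ 3 * V = K ^ 2 * M ^ 3 * V * (r * q ^ 3) := by ring
      _ ≤ _ := by gcongr
  refine (combine (h1.trans h3) (h2.trans h3)).trans (le_of_eq ?_)
  rw [add_mul]

end Concrete

end Pool.Agent.H16F.B.H58
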