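import Pool.Agent.Helper16_FineB.GREEN15
import Pool.Agent.Helper16_FineB.Fact51
import Pool.Agent.Helper16_FineB.Scat51
import Pool.Agent.Helper16_FineB.Main61
import Pool.Agent.Helper16_FineB.TRR58
import Pool.Agent.Helper16_FineB.EXACT97
import Pool.Agent.Helper33_Fine.HALF
import Pool.Agent.Helper55_Fine.Grb
import Pool.Agent.Helper55_Fine.Harm
import Pool.Agent.Helper55_Fine.Res
import Pool.Agent.Helper13_Fine.Phi
import Pool.Agent.Helper13_Fine.Law2
import Pool.Agent.Helper13_Fine.Lt
import Pool.Agent.Helper13_Fine.Ut

/-!
Assembly of block W for all exterior angles smaller than `π / 2`.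
-/

namespace Pool.Agent.H16F.B

theorem half_all : HalfStatement := H16F.H33.half H16F.H55.grb H16F.H55.res

theorem green_all : GreenStatement := H15.green H16F.H55.res half_all

theorem fact_all : FactStatement := H51.fact H16F.H55.grb H16F.H55.harm H16F.H55.res half_all

theorem scat_all : ScatStatement := H51.scat H16F.H55.grb H16F.H55.res green_all

theorem main_all : MainStatement := H61.main H16F.H55.grb H16F.H55.harm fact_all

theorem phi_all : PhiStatement := H16F.H13.phi H16F.H13.law2 H16F.H13.ut H16F.H13.lt

theorem vone_of (hw : WedgeStatement) (ht : TrnStatement) : VoneStatement :=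
  H97.vone ht scat_all main_all H58.trr hw phi_all

/-- the exact formula for one side, all exterior angles smaller than `π / 2` -/
theorem exact_of (hw : WedgeStatement) (ht : TrnStatement) : ExactStatement :=
  H97.exact (vone_of hw ht) phi_all

end Pool.Agent.H16F.B
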