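import Pool.Agent.Helper16_Fine.Stmt2

/-!
The statements of block W for all exterior angles smaller than `π / 2`.
-/

namespace Pool.Agent.H16F.B

open MeasureTheory Complex Filter Topology ProbabilityTheory Pool.Agent.H16Iso Pool.Agent.H62T
open scoped ENNReal NNReal

/-- WEDGE: the wedge function exists -/
def WedgeStatement : Prop := ∀ β : ℝ, 0 < β → β < Real.pi / 2 → ∃ S : ℝ → ℂ → ℝ, WP β S

/-- GREEN: difference of the resolvents of half-plane and wedge -/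
def GreenStatement : Prop :=
  ∀ (β : ℝ) (S : ℝ → ℂ → ℝ), 0 < β → β < Real.pi / 2 → WP β S → ∀ κ : ℝ, 0 < κ →
    ∀ f uH u1 : ℂ → ℝ, MemLp f 2 volume → Sol κ Hh f uH →
    (Sol κ (W1 β) f u1 → ∀ᵐ x : ℂ, 0 < x.re → 0 < x.im →
      uH x - u1 x = 1 / Real.pi * ∫ w in Set.Ioi (0 : ℝ),
        dec w ((κ : ℂ) * x) * ∫ y, Sl κ S w y * f y) ∧
    (Sol κ (W2 β) f u1 → ∀ᵐ x : ℂ, x.re < 1 → 0 < x.im →
      uH x - u1 x = 1 / Real.pi * ∫ w in Set.Ioi (0 : ℝ),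
        dec w ((κ : ℂ) * (1 - (starRingEnd ℂ) x)) * ∫ y, Sr κ S w y * f y)

/-- FACT: the energy products of the wedge functions -/
def FactStatement : Prop :=
  ∀ (β : ℝ) (S : ℝ → ℂ → ℝ), 0 < β → β < Real.pi / 2 → WP β S → ∀ g : ℝ → ℂ → ℂ,
    (∀ u, 0 < u → Grad (S u) (g u)) → ∀ v : ℝ, 0 < v → ∀ᵐ w : ℝ, 0 < w →
      (∫ x, ip (g v x) (g w x)) + (∫ x, S v x * S w x) = Real.pi * bb β v w

/-- SCAT: the alternating sum of the resolvents -/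
def ScatStatement : Prop :=
  ∀ (β β' : ℝ) (S S' : ℝ → ℂ → ℝ), 0 < β → β < Real.pi / 2 → 0 < β' → β' < Real.pi / 2 →
    WP β S → WP β' S' → ∃ κ0 C c : ℝ, 0 < κ0 ∧ 0 < c ∧ ∀ κ : ℝ, κ0 ≤ κ →
      ∃ X X' : ℝ → ℂ → ℝ, Scat κ C c β β' S S' X X' ∧
        ∀ f uH u1 u2 uO : ℂ → ℝ, MemLp f 2 volume → Sol κ Hh f uH → Sol κ (W1 β) f u1 →
          Sol κ (W2 β') f u2 → Sol κ (Om β β') f uO →
          ∀ᵐ x, uO x - u1 x - u2 x + uH x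
            = 1 / Real.pi * ∫ u in Set.Ioi (0 : ℝ), ep κ u *
              (Sl κ S u x * (∫ y, X u y * f y) + Sr κ S' u x * (∫ y, X' u y * f y))

/-- MAIN: the main part of the trace -/
def MainStatement : Prop :=
  ∀ (β β' : ℝ) (S S' : ℝ → ℂ → ℝ), 0 < β → β < Real.pi / 2 → 0 < β' → β' < Real.pi / 2 →
    WP β S → WP β' S' → ∀ κ : ℝ, 0 < κ →
    1 / Real.pi * (2 * ∫ u in Set.Ioi (0 : ℝ), ep κ u * ∫ x, Sl κ S u x * Sr κ S' u x)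
      - 1 / Real.pi * (∫ u in Set.Ioi (0 : ℝ), ∫ w in Set.Ioi (0 : ℝ),
        bb β' u w * ep κ u * ep κ w * ∫ x, Sl κ S u x * Sl κ S w x)
      - 1 / Real.pi * (∫ u in Set.Ioi (0 : ℝ), ∫ w in Set.Ioi (0 : ℝ),
        bb β u w * ep κ u * ep κ w * ∫ x, Sr κ S' u x * Sr κ S' w x)
      = 1 / κ * ∫ u in Set.Ioi (0 : ℝ), ∫ w in Set.Ioi (0 : ℝ),
        bb β u w * bb β' u w * Real.cosh u * ep κ u * ep κ w

/-- TRR: the remainder of the trace -/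
def TrrStatement : Prop :=
  ∀ (β β' : ℝ) (S S' : ℝ → ℂ → ℝ), 0 < β → β < Real.pi / 2 → 0 < β' → β' < Real.pi / 2 →
    WP β S → WP β' S' → ∀ C c : ℝ, 0 < c → ∀ ε : ℝ, 0 < ε → ε < 1 → ∃ κ0 C' : ℝ, 0 < κ0 ∧
      ∀ κ : ℝ, κ0 ≤ κ → ∀ X X' : ℝ → ℂ → ℝ, Scat κ C c β β' S S' X X' →
      |(∫ u in Set.Ioi (0 : ℝ), ep κ u *
            ((∫ x, Sl κ S u x * X u x) + ∫ x, Sr κ S' u x * X' u x))
        - (2 * (∫ u in Set.Ioi (0 : ℝ), ep κ u * ∫ x, Sl κ S u x * Sr κ S' u x)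
          - (∫ u in Set.Ioi (0 : ℝ), ∫ w in Set.Ioi (0 : ℝ),
            bb β' u w * ep κ u * ep κ w * ∫ x, Sl κ S u x * Sl κ S w x)
          - ∫ u in Set.Ioi (0 : ℝ), ∫ w in Set.Ioi (0 : ℝ),
            bb β u w * ep κ u * ep κ w * ∫ x, Sr κ S' u x * Sr κ S' w x)|
        ≤ C' * Real.exp (-(4 * (1 - ε) * κ))

/-- VONE: the Laplace transform of `Phi` -/
def VoneStatement : Prop :=
  ∀ β β' : ℝ, 0 < β → β < Real.pi / 2 → 0 < β' → β' < Real.pi / 2 → ∀ ε : ℝ, 0 < ε → ε < 1 →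
    ∃ κ0 C : ℝ, 0 < κ0 ∧ ∀ κ : ℝ, κ0 ≤ κ →
      |(∫ t in Set.Ioi (0 : ℝ),
          Real.exp (-(κ ^ 2 * t)) * (Phi β β' (1 / Real.sqrt t) / (4 * Real.pi)))
        - 1 / κ * ∫ u in Set.Ioi (0 : ℝ), ∫ w in Set.Ioi (0 : ℝ),
          bb β u w * bb β' u w * Real.cosh u * ep κ u * ep κ w|
        ≤ C * Real.exp (-(4 * (1 - ε) * κ))

/-- EXACT: the double Laplace transform of `Phi` is `tau` up to the square of `tau` -/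
def ExactStatement : Prop :=
  ∀ β β' : ℝ, 0 < β → β < Real.pi / 2 → 0 < β' → β' < Real.pi / 2 → ∀ ε : ℝ, 0 < ε → ε < 1 →
    ∃ C : ℝ, ∀ a : ℝ, 1 ≤ a →
      |(∫ t in Set.Ioi (0 : ℝ), Real.exp (-(a ^ 2 * t))
          * (Phi β β' (1 / Real.sqrt t) / (4 * Real.pi * t))) - tau β β' a|
        ≤ C * Real.exp (-(4 * (1 - ε) * a))

/-- PSI: density of `tau` -/
def PsiStatement : Prop :=
  ∀ β β' : ℝ, 0 < β → β < Real.pi / 2 → 0 < β' → β' < Real.pi / 2 →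
    AnalyticOnNhd ℝ (psi β β') (Set.Ioi 2) ∧ (∀ l : ℝ, 2 < l → 0 < psi β β' l) ∧
    psi β β' = psi β' β ∧
    ∀ a : ℝ, 0 < a → IntegrableOn (fun l => Real.exp (-(a * l)) * psi β β' l) (Set.Ioi 2) ∧
      tau β β' a = ∫ l in Set.Ioi (2 : ℝ), Real.exp (-(a * l)) * psi β β' l

/-- LAPL: from the heat side to `tau` -/
def LaplStatement : Prop :=
  ∀ (n m : ℕ) (p q l : Fin n → ℝ) (p' q' l' : Fin m → ℝ) (e d : ℝ),
    (∀ i, 0 < p i ∧ p i < Real.pi / 2) → (∀ i, 0 < q i ∧ q i < Real.pi / 2) →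
    (∀ i, 0 < p' i ∧ p' i < Real.pi / 2) → (∀ i, 0 < q' i ∧ q' i < Real.pi / 2) →
    0 < e → (∀ i, e ≤ l i) → (∀ i, e ≤ l' i) → 0 < d → d ≤ 2 * e →
    (∀ ε : ℝ, 0 < ε → ε < 1 → ∃ C : ℝ, ∀ t : ℝ, 0 < t → t ≤ 1 →
      |∑ i, Phi (p i) (q i) (l i / Real.sqrt t) - ∑ i, Phi (p' i) (q' i) (l' i / Real.sqrt t)|
        ≤ C * Real.exp (-((1 - ε) * d ^ 2 / t))) →
    ∀ ε : ℝ, 0 < ε → ε < 1 → ∃ C : ℝ, ∀ κ : ℝ, 1 / e ≤ κ →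
      |∑ i, tau (p i) (q i) (κ * l i) - ∑ i, tau (p' i) (q' i) (κ * l' i)|
        ≤ C * Real.exp (-((1 - ε) * (2 * d) * κ))

end Pool.Agent.H16F.B
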