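import Pool.Agent.Helper16_FineB.Assemble
import Pool.Agent.Helper81_FineB.Final
import Pool.Agent.Helper55_Fine.Trn
import Pool.Agent.Helper67_Fine.BrMain

/-!
The exact formula for the side function, for exterior angles up to `π / 2`, unconditionally.
-/

namespace Pool.Agent.H16F.B

/-- the exact formula -/
theorem exact_full : ExactStatement := exact_of H81B.wedge_all (H55.trn (H67.br H55.res))

end Pool.Agent.H16F.B
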