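import Pool.Agent.Helper16_FineB.Stmt

/-! # FINE (helper97): common estimates -/

namespace Pool.Agent.H16F.B.H97

open MeasureTheory Complex Filter Topology ProbabilityTheory Pool.Agent.H16Iso Pool.Agent.H62T
open scoped ENNReal NNReal

/-! ### exponential functions of the norm -/

theorem exp_norm_le {a : ℝ} (ha : 0 < a) {t : ℝ} (ht : 0 ≤ t) :
    Real.exp (-(a * t)) ≤ 6 * (a ^ 3)⁻¹ * Real.exp a * (1 + t) ^ (-3 : ℝ) := by
  have h1 := Real.pow_div_factorial_le_exp (a * (1 + t)) (by positivity) 3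
  have h2 : (Nat.factorial 3 : ℝ) = 6 := by norm_num [Nat.factorial]
  rw [h2, mul_pow] at h1
  have h3 : Real.exp (a * (1 + t)) = Real.exp a * Real.exp (a * t) := by
    rw [← Real.exp_add]; congr 1; ring
  rw [h3] at h1
  have h4 : (1 + t) ^ (-3 : ℝ) = ((1 + t) ^ 3)⁻¹ := by
    rw [Real.rpow_neg (by positivity)]
    congr 1
    exact_mod_cast Real.rpow_natCast (1 + t) 3
  rw [h4, Real.exp_neg]
  have h5 : 0 < Real.exp (a * t) := Real.exp_pos _
  have h6 : 0 < (1 + t) ^ 3 := by positivity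
  have h7 : 0 < a ^ 3 := by positivity
  rw [inv_le_iff_one_le_mul₀ h5]
  have h8 : 6 * (a ^ 3)⁻¹ * Real.exp a * ((1 + t) ^ 3)⁻¹ * Real.exp (a * t)
      = (6 * (Real.exp a * Real.exp (a * t))) / (a ^ 3 * (1 + t) ^ 3) := by
    field_simp
  rw [h8, le_div_iff₀ (by positivity)]
  have h9 := (div_le_iff₀ (by norm_num : (0 : ℝ) < 6)).1 h1
  linarith

theorem integrable_exp_norm {a : ℝ} (ha : 0 < a) :
    Integrable (fun x : ℂ => Real.exp (-(a * ‖x‖))) := by
  have h1 : Integrable (fun x : ℂ => (1 + ‖x‖) ^ (-3 : ℝ)) := by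
    refine integrable_one_add_norm ?_
    rw [Complex.finrank_real_complex]
    norm_num
  refine (h1.const_mul (6 * (a ^ 3)⁻¹ * Real.exp a)).mono' ?_ ?_
  · fun_prop
  · refine Eventually.of_forall (fun x => ?_)
    rw [Real.norm_of_nonneg (Real.exp_pos _).le]
    exact exp_norm_le ha (norm_nonneg x)

/-- the standard dominating function -/
noncomputable def qf (a : ℝ) (x : ℂ) : ℝ := Real.exp (-(a * ‖x‖))

theorem qf_pos (a : ℝ) (x : ℂ) : 0 < qf a x := Real.exp_pos _

theorem measurable_qf (a : ℝ) : Measurable (qf a) := by unfold qf; fun_prop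

theorem memLp_qf {a : ℝ} (ha : 0 < a) : MemLp (qf a) 2 volume := by
  rw [memLp_two_iff_integrable_sq (measurable_qf a).aestronglyMeasurable]
  refine (integrable_exp_norm (a := 2 * a) (by positivity)).congr ?_
  refine Eventually.of_forall (fun x => ?_)
  simp only [qf]
  rw [← Real.exp_nat_mul]
  congr 1
  push_cast
  ring

/-- the dominating function around both corners -/
noncomputable def q2 (a : ℝ) (x : ℂ) : ℝ := Real.exp (-(a * ‖x‖)) + Real.exp (-(a * ‖x - 1‖))

theorem q2_pos (a : ℝ) (x : ℂ) : 0 < q2 a x := add_pos (Real.exp_pos _) (Real.exp_pos _)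

theorem measurable_q2 (a : ℝ) : Measurable (q2 a) := by unfold q2; fun_prop

theorem memLp_shift {a : ℝ} (ha : 0 < a) (b : ℂ) :
    MemLp (fun x : ℂ => Real.exp (-(a * ‖x - b‖))) 2 volume := by
  have h1 := (memLp_qf ha).comp_measurePreserving (measurePreserving_sub_right volume b)
  exact h1

theorem memLp_q2 {a : ℝ} (ha : 0 < a) : MemLp (q2 a) 2 volume :=
  (memLp_qf ha).add (memLp_shift ha 1)

/-! ### the weights -/

theorem ep_pos (κ u : ℝ) : 0 < ep κ u := Real.exp_pos _

theorem measurable_ep (κ : ℝ) : Measurable (ep κ) := by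
  unfold ep
  exact (Real.continuous_exp.comp (by fun_prop)).measurable

theorem cosh_ge {u : ℝ} (hu : 0 ≤ u) : u ^ 2 / 4 ≤ Real.cosh u := by
  have h1 := Real.pow_div_factorial_le_exp u hu 2
  have h2 : (Nat.factorial 2 : ℝ) = 2 := by norm_num [Nat.factorial]
  rw [h2] at h1
  rw [Real.cosh_eq]
  have h3 := Real.exp_pos (-u)
  linarith

/-- domination of the weights -/
theorem ep_mul_exp_le {κ C u : ℝ} (hκ : 0 < κ) (hu : 0 ≤ u) :
    ep κ u * Real.exp (C * u) ≤ Real.exp ((C + 1) ^ 2 / κ) * Real.exp (-u) := by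
  unfold ep
  rw [← Real.exp_add, ← Real.exp_add]
  refine Real.exp_le_exp.2 ?_
  have h1 := mul_le_mul_of_nonneg_left (cosh_ge hu) hκ.le
  have h2 : 0 ≤ (κ * u / 2 - (C + 1)) ^ 2 / κ := by positivity
  have h3 : (κ * u / 2 - (C + 1)) ^ 2 / κ = κ * (u ^ 2 / 4) - (C + 1) * u + (C + 1) ^ 2 / κ := by
    field_simp
    ring
  rw [h3] at h2
  nlinarith

theorem integrableOn_ep (κ C : ℝ) (hκ : 0 < κ) :
    IntegrableOn (fun u => ep κ u * Real.exp (C * u)) (Set.Ioi 0) := by
  have h1 : IntegrableOn (fun u : ℝ => Real.exp ((C + 1) ^ 2 / κ) * Real.exp (-u))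
      (Set.Ioi 0) := (integrableOn_exp_neg_Ioi 0).const_mul _
  refine h1.mono' ?_ ?_
  · refine Measurable.aestronglyMeasurable ?_
    exact (measurable_ep κ).mul (by fun_prop)
  · refine (ae_restrict_iff' measurableSet_Ioi).2 (Eventually.of_forall (fun u hu => ?_))
    rw [Real.norm_of_nonneg (mul_pos (ep_pos _ _) (Real.exp_pos _)).le]
    exact ep_mul_exp_le hκ (le_of_lt hu)

theorem integrableOn_ep' (κ : ℝ) (hκ : 0 < κ) : IntegrableOn (ep κ) (Set.Ioi 0) := by
  have h1 := integrableOn_ep κ 0 hκ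
  simpa using h1

theorem cosh_le_exp {u : ℝ} (hu : 0 ≤ u) : Real.cosh u ≤ Real.exp u := by
  rw [Real.cosh_eq]
  have h1 : Real.exp (-u) ≤ Real.exp u := Real.exp_le_exp.2 (by linarith)
  linarith

theorem integrableOn_cosh_ep (κ : ℝ) (hκ : 0 < κ) :
    IntegrableOn (fun u => Real.cosh u * ep κ u) (Set.Ioi 0) := by
  refine (integrableOn_ep κ 1 hκ).mono' ?_ ?_
  · refine Measurable.aestronglyMeasurable ?_
    exact (Real.continuous_cosh.measurable).mul (measurable_ep κ)
  · refine (ae_restrict_iff' measurableSet_Ioi).2 (Eventually.of_forall (fun u hu => ?_))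
    have h0 : 0 ≤ Real.cosh u * ep κ u :=
      mul_nonneg (zero_le_one.trans (Real.one_le_cosh u)) (ep_pos _ _).le
    rw [Real.norm_of_nonneg h0, mul_comm, one_mul]
    exact mul_le_mul_of_nonneg_left (cosh_le_exp (le_of_lt hu)) (ep_pos _ _).le

theorem ep_anti {κ κ' : ℝ} (h : κ ≤ κ') (u : ℝ) : ep κ' u ≤ ep κ u := by
  unfold ep
  refine Real.exp_le_exp.2 ?_
  have := Real.cosh_pos u
  nlinarith

/-! ### the diffraction kernel -/

theorem nu_gt {β : ℝ} (h0 : 0 < β) (h1 : β < Real.pi / 2) : 1 / 2 < nu β ∧ nu β < 1 := by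
  have hpi := Real.pi_pos
  unfold nu
  constructor
  · rw [lt_div_iff₀ (by linarith)]
    linarith
  · rw [div_lt_iff₀ (by linarith)]
    linarith

theorem cos_lt {β : ℝ} (h0 : 0 < β) (h1 : β < Real.pi / 2) :
    Real.cos (2 * Real.pi * nu β) < 1 := by
  have hpi := Real.pi_pos
  obtain ⟨h2, h3⟩ := nu_gt h0 h1
  refine lt_of_le_of_ne (Real.cos_le_one _) fun he => ?_
  obtain ⟨k, hk⟩ := (Real.cos_eq_one_iff _).1 he
  have h3' : (k : ℝ) = nu β := by
    have : (2 * Real.pi) * ((k : ℝ) - nu β) = 0 := by linarith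
    rcases mul_eq_zero.1 this with h | h
    · linarith
    · linarith
  have h4 : (0 : ℝ) < k := by rw [h3']; linarith
  have h5 : (k : ℝ) < 1 := by rw [h3']; exact h3
  have h6 : (0 : ℤ) < k := by exact_mod_cast h4
  have h7 : k < (1 : ℤ) := by exact_mod_cast h5
  omega

/-- bound of the kernel -/
noncomputable def Kb (β : ℝ) : ℝ := 1 / (1 - Real.cos (2 * Real.pi * nu β))

theorem Kb_pos {β : ℝ} (h0 : 0 < β) (h1 : β < Real.pi / 2) : 0 < Kb β :=
  div_pos one_pos (by linarith [cos_lt h0 h1])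

theorem KK_bd {β : ℝ} (h0 : 0 < β) (h1 : β < Real.pi / 2) (z : ℝ) :
    0 < KK β z ∧ KK β z ≤ Kb β := by
  obtain ⟨h2, h3⟩ := nu_gt h0 h1
  have hpi := Real.pi_pos
  have hsin : Real.sin (2 * Real.pi * nu β) < 0 := by
    have e : 2 * Real.pi * nu β = (2 * Real.pi * nu β - Real.pi) + Real.pi := by ring
    rw [e, Real.sin_add_pi, neg_lt_zero]
    apply Real.sin_pos_of_pos_of_lt_pi
    · nlinarith
    · nlinarith
  have hcos := cos_lt h0 h1
  have hcosh := Real.one_le_cosh (2 * nu β * z)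
  have hden : 1 - Real.cos (2 * Real.pi * nu β)
      ≤ Real.cosh (2 * nu β * z) - Real.cos (2 * Real.pi * nu β) := by linarith
  have hs1 := Real.neg_one_le_sin (2 * Real.pi * nu β)
  have hpi3 := Real.pi_gt_three
  have hnum0 : 0 < nu β / Real.pi * (-Real.sin (2 * Real.pi * nu β)) := by
    apply mul_pos
    · positivity
    · linarith
  have hnu : nu β / Real.pi ≤ 1 := by
    rw [div_le_one hpi]; linarith
  have hnum1 : nu β / Real.pi * (-Real.sin (2 * Real.pi * nu β)) ≤ 1 := by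
    calc nu β / Real.pi * (-Real.sin (2 * Real.pi * nu β)) ≤ 1 * 1 := by
          apply mul_le_mul hnu (by linarith) (by linarith) (by norm_num)
      _ = 1 := by norm_num
  unfold KK Kb
  constructor
  · exact div_pos hnum0 (by linarith)
  · exact div_le_div₀ zero_le_one hnum1 (by linarith) hden

theorem bb_bd {β : ℝ} (h0 : 0 < β) (h1 : β < Real.pi / 2) (u w : ℝ) : |bb β u w| ≤ Kb β := by
  unfold bb
  have h2 := KK_bd h0 h1 (u - w)
  have h3 := KK_bd h0 h1 (u + w)
  rw [abs_le]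
  constructor <;> linarith

theorem KK_neg (β z : ℝ) : KK β (-z) = KK β z := by
  unfold KK
  rw [show 2 * nu β * -z = -(2 * nu β * z) by ring, Real.cosh_neg]

theorem bb_symm (β u w : ℝ) : bb β u w = bb β w u := by
  unfold bb
  rw [← KK_neg β (u - w), neg_sub, add_comm u w]

theorem continuous_KK {β : ℝ} (h0 : 0 < β) (h1 : β < Real.pi / 2) : Continuous (KK β) := by
  unfold KK
  refine Continuous.div (by fun_prop) (by fun_prop) (fun z => ?_)
  have hcos := cos_lt h0 h1
  have hcosh := Real.one_le_cosh (2 * nu β * z)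
  linarith

theorem continuous_bb {β : ℝ} (h0 : 0 < β) (h1 : β < Real.pi / 2) :
    Continuous (fun p : ℝ × ℝ => bb β p.1 p.2) := by
  unfold bb
  exact ((continuous_KK h0 h1).comp (by fun_prop)).sub ((continuous_KK h0 h1).comp (by fun_prop))

end Pool.Agent.H16F.B.H97
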