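import Pool.Agent.Helper16_FineB.Tools51

/-!
Superpositions, energies, scaled and reflected wedge functions.
-/

namespace Pool.Agent.H16F.B.H51

open MeasureTheory Complex Filter Topology Pool.Agent.H16Iso Pool.Agent.H62T Pool.Agent.H16F
open scoped ENNReal NNReal ContDiff

/-! ### Pairings -/

lemma abs_ip_le (a b : ℂ) : |ip a b| ≤ ‖a‖ * ‖b‖ := by
  have h : ip a b = ((starRingEnd ℂ) a * b).re := by
    simp [ip]
  rw [h]
  calc |((starRingEnd ℂ) a * b).re| ≤ ‖(starRingEnd ℂ) a * b‖ := Complex.abs_re_le_norm _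
    _ = _ := by rw [norm_mul, Complex.norm_conj]

lemma ip_cont : Continuous fun z : ℂ × ℂ => ip z.1 z.2 := by
  unfold ip; fun_prop

lemma ip_ofReal (a b : ℝ) : ip (a : ℂ) (b : ℂ) = a * b := by simp [ip]

lemma ip_smul_right (a : ℂ) (r : ℝ) (b : ℂ) : ip a ((r : ℂ) * b) = r * ip a b := by
  simp [ip]; ring

lemma ip_add_right (a b b' : ℂ) : ip a (b + b') = ip a b + ip a b' := by
  simp [ip]; ring

lemma ip_symm (a b : ℂ) : ip a b = ip b a := by
  simp [ip]; ring

/-- `ip a` as a continuous linear map -/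
noncomputable def ipL (a : ℂ) : ℂ →L[ℝ] ℝ :=
  a.re • Complex.reCLM + a.im • Complex.imCLM

lemma ipL_apply (a b : ℂ) : ipL a b = ip a b := by
  simp [ipL, ip]

lemma holder {E F : Type*} [NormedAddCommGroup E] [NormedAddCommGroup F] {p : ℂ → E} {q : ℂ → F}
    (hp : AEStronglyMeasurable p volume) (hq : AEStronglyMeasurable q volume) :
    ∫⁻ x, ‖p x‖ₑ * ‖q x‖ₑ ≤ eLpNorm p 2 volume * eLpNorm q 2 volume := by
  have h := eLpNorm_le_eLpNorm_mul_eLpNorm_of_nnnorm (p := 2) (q := 2) (r := 1) hp hq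
    (fun a b => ‖a‖ * ‖b‖) 1 (ae_of_all _ fun x => by simp)
  rw [eLpNorm_one_eq_lintegral_enorm] at h
  simp only [enorm_mul, enorm_norm] at h
  simpa using h

lemma integrable_ip {p q : ℂ → ℂ} (hp : MemLp p 2 volume) (hq : MemLp q 2 volume) :
    Integrable (fun x => ip (p x) (q x)) volume := by
  refine ⟨ip_cont.comp_aestronglyMeasurable (hp.1.prodMk hq.1), ?_⟩
  have h := holder hp.1 hq.1
  have h2 : ∫⁻ x, ‖ip (p x) (q x)‖ₑ ≤ ∫⁻ x, ‖p x‖ₑ * ‖q x‖ₑ := by
    refine lintegral_mono fun x => ?_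
    rw [← enorm_norm (p x), ← enorm_norm (q x), ← enorm_mul]
    rw [enorm_le_iff_norm_le, Real.norm_eq_abs, Real.norm_of_nonneg (by positivity)]
    exact abs_ip_le _ _
  exact lt_of_le_of_lt (h2.trans h) (ENNReal.mul_lt_top hp.2 hq.2)

/-- product integrability -/
lemma prod_int {p : ℂ → ℂ} (hp : MemLp p 2 volume) {G : ℝ → ℂ → ℂ}
    (mG : Measurable (Function.uncurry G)) {c : ℝ → ℝ} (mc : Measurable c)
    (hfin : ∫⁻ w in Set.Ioi (0 : ℝ), ENNReal.ofReal |c w| * eLpNorm (G w) 2 volume < ⊤) :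
    Integrable (fun z : ℝ × ℂ => c z.1 * (‖p z.2‖ * ‖G z.1 z.2‖))
      ((volume.restrict (Set.Ioi (0 : ℝ))).prod volume) := by
  have hm : AEStronglyMeasurable (fun z : ℝ × ℂ => c z.1 * (‖p z.2‖ * ‖G z.1 z.2‖))
      ((volume.restrict (Set.Ioi (0 : ℝ))).prod volume) := by
    refine (mc.comp measurable_fst).aestronglyMeasurable.mul (AEStronglyMeasurable.mul ?_ ?_)
    · exact (hp.1.comp_snd).norm
    · exact mG.norm.aestronglyMeasurable
  refine ⟨hm, ?_⟩
  have h1 : ∫⁻ z, ‖c z.1 * (‖p z.2‖ * ‖G z.1 z.2‖)‖ₑ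
      ∂((volume.restrict (Set.Ioi (0 : ℝ))).prod volume)
      = ∫⁻ w in Set.Ioi (0 : ℝ), ∫⁻ x, ‖c w * (‖p x‖ * ‖G w x‖)‖ₑ :=
    lintegral_prod _ hm.enorm
  refine lt_of_le_of_lt (le_of_eq h1) ?_
  have h2 : ∀ w, ∫⁻ x, ‖c w * (‖p x‖ * ‖G w x‖)‖ₑ
      ≤ eLpNorm p 2 volume * (ENNReal.ofReal |c w| * eLpNorm (G w) 2 volume) := by
    intro w
    have mGw : Measurable (G w) := mG.comp measurable_prodMk_left
    calc ∫⁻ x, ‖c w * (‖p x‖ * ‖G w x‖)‖ₑ
        = ∫⁻ x, ‖c w‖ₑ * (‖p x‖ₑ * ‖G w x‖ₑ) := by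
          refine lintegral_congr fun x => ?_
          rw [enorm_mul, enorm_mul, enorm_norm, enorm_norm]
      _ = ‖c w‖ₑ * ∫⁻ x, ‖p x‖ₑ * ‖G w x‖ₑ := lintegral_const_mul' _ _ enorm_ne_top
      _ ≤ ‖c w‖ₑ * (eLpNorm p 2 volume * eLpNorm (G w) 2 volume) := by
          gcongr
          exact holder hp.1 mGw.aestronglyMeasurable
      _ = _ := by
          rw [← ofReal_norm, Real.norm_eq_abs]
          ring
  calc ∫⁻ w in Set.Ioi (0 : ℝ), ∫⁻ x, ‖c w * (‖p x‖ * ‖G w x‖)‖ₑ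
      ≤ ∫⁻ w in Set.Ioi (0 : ℝ),
        eLpNorm p 2 volume * (ENNReal.ofReal |c w| * eLpNorm (G w) 2 volume) :=
        lintegral_mono h2
    _ = eLpNorm p 2 volume *
        ∫⁻ w in Set.Ioi (0 : ℝ), ENNReal.ofReal |c w| * eLpNorm (G w) 2 volume :=
        lintegral_const_mul' _ _ hp.2.ne
    _ < ⊤ := ENNReal.mul_lt_top hp.2 hfin

/-- for almost every `x` the superposition converges absolutely -/
lemma ae_int {G : ℝ → ℂ → ℂ}
    (mG : Measurable (Function.uncurry G)) {c : ℝ → ℝ} (mc : Measurable c)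
    (hfin : ∫⁻ w in Set.Ioi (0 : ℝ), ENNReal.ofReal |c w| * eLpNorm (G w) 2 volume < ⊤) :
    ∀ᵐ x : ℂ, Integrable (fun w => (c w : ℂ) * G w x) (volume.restrict (Set.Ioi (0 : ℝ))) := by
  have hp : MemLp (fun x : ℂ => ((Real.exp (-(1 * ‖x - 0‖)) : ℝ) : ℂ)) 2 volume :=
    (memLp_exp_norm one_pos 0).ofReal
  have h := prod_int hp mG mc hfin
  have h2 := h.prod_left_ae
  filter_upwards [h2] with x hx
  have mGx : Measurable fun w => G w x := mG.comp measurable_prodMk_right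
  have h3 := hx.const_mul (Real.exp (1 * ‖x - 0‖))
  refine Integrable.mono h3 ?_ ?_
  · exact ((Complex.measurable_ofReal.comp mc).mul mGx).aestronglyMeasurable
  · filter_upwards with w
    have e : Real.exp (1 * ‖x - 0‖) * (c w * (‖((Real.exp (-(1 * ‖x - 0‖)) : ℝ) : ℂ)‖ * ‖G w x‖))
        = c w * ‖G w x‖ := by
      rw [Complex.norm_real, Real.norm_of_nonneg (Real.exp_pos _).le, Real.exp_neg]
      have := (Real.exp_pos (1 * ‖x - 0‖)).ne'
      field_simp
    rw [e, norm_mul, norm_mul, Complex.norm_real, norm_norm]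

/-- Fubini for superpositions -/
lemma swapC {p : ℂ → ℂ} (hp : MemLp p 2 volume) {G : ℝ → ℂ → ℂ}
    (mG : Measurable (Function.uncurry G)) {c : ℝ → ℝ} (mc : Measurable c)
    (hfin : ∫⁻ w in Set.Ioi (0 : ℝ), ENNReal.ofReal |c w| * eLpNorm (G w) 2 volume < ⊤) :
    ∫ x, ip (p x) (∫ w in Set.Ioi (0 : ℝ), (c w : ℂ) * G w x)
      = ∫ w in Set.Ioi (0 : ℝ), c w * ∫ x, ip (p x) (G w x) := by
  have h1 : ∀ᵐ x : ℂ, ip (p x) (∫ w in Set.Ioi (0 : ℝ), (c w : ℂ) * G w x)
      = ∫ w in Set.Ioi (0 : ℝ), c w * ip (p x) (G w x) := by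
    filter_upwards [ae_int mG mc hfin] with x hx
    rw [← ipL_apply, ← (ipL (p x)).integral_comp_comm hx]
    refine integral_congr_ae (ae_of_all _ fun w => ?_)
    simp only
    rw [ipL_apply, ip_smul_right]
  rw [integral_congr_ae h1]
  have hi : Integrable (Function.uncurry fun (x : ℂ) (w : ℝ) => c w * ip (p x) (G w x))
      ((volume : Measure ℂ).prod (volume.restrict (Set.Ioi (0 : ℝ)))) := by
    have h2 := (prod_int hp mG mc hfin).swap
    refine Integrable.mono h2 ?_ ?_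
    · refine AEStronglyMeasurable.mul (mc.comp measurable_snd).aestronglyMeasurable ?_
      refine ip_cont.comp_aestronglyMeasurable (AEStronglyMeasurable.prodMk hp.1.comp_fst ?_)
      exact (mG.comp measurable_swap).aestronglyMeasurable
    · filter_upwards with z
      simp only [Function.uncurry, Function.comp, Prod.swap, norm_mul, Real.norm_eq_abs, abs_norm]
      exact mul_le_mul_of_nonneg_left (abs_ip_le _ _) (abs_nonneg _)
  rw [integral_integral_swap hi]
  refine integral_congr_ae (ae_of_all _ fun w => ?_)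
  simp only
  rw [integral_const_mul]

/-- scalar version -/
lemma swapR {p : ℂ → ℝ} (hp : MemLp p 2 volume) {F : ℝ → ℂ → ℝ}
    (mF : Measurable (Function.uncurry F)) {c : ℝ → ℝ} (mc : Measurable c)
    (hfin : ∫⁻ w in Set.Ioi (0 : ℝ), ENNReal.ofReal |c w| * eLpNorm (F w) 2 volume < ⊤) :
    ∫ x, p x * (∫ w in Set.Ioi (0 : ℝ), c w * F w x)
      = ∫ w in Set.Ioi (0 : ℝ), c w * ∫ x, p x * F w x := by
  have mG : Measurable (Function.uncurry fun (w : ℝ) (x : ℂ) => (F w x : ℂ)) :=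
    Complex.measurable_ofReal.comp mF
  have hfin' : ∫⁻ w in Set.Ioi (0 : ℝ),
      ENNReal.ofReal |c w| * eLpNorm (fun x => (F w x : ℂ)) 2 volume < ⊤ := by
    refine lt_of_le_of_lt (le_of_eq ?_) hfin
    refine lintegral_congr fun w => ?_
    congr 1
    refine eLpNorm_congr_norm_ae (ae_of_all _ fun x => ?_)
    simp
  have h := swapC (p := fun x => (p x : ℂ)) hp.ofReal mG mc hfin'
  simp only [ip_ofReal] at h
  rw [← h]
  refine integral_congr_ae (ae_of_all _ fun x => ?_)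
  simp only
  have : ∫ w in Set.Ioi (0 : ℝ), (c w : ℂ) * (F w x : ℂ)
      = ((∫ w in Set.Ioi (0 : ℝ), c w * F w x : ℝ) : ℂ) := by
    rw [← integral_complex_ofReal]
    simp
  rw [this, ip_ofReal]

/-- a.e. convergence, scalar version -/
lemma ae_intR {F : ℝ → ℂ → ℝ}
    (mF : Measurable (Function.uncurry F)) {c : ℝ → ℝ} (mc : Measurable c)
    (hfin : ∫⁻ w in Set.Ioi (0 : ℝ), ENNReal.ofReal |c w| * eLpNorm (F w) 2 volume < ⊤) :
    ∀ᵐ x : ℂ, Integrable (fun w => c w * F w x) (volume.restrict (Set.Ioi (0 : ℝ))) := by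
  have mG : Measurable (Function.uncurry fun (w : ℝ) (x : ℂ) => (F w x : ℂ)) :=
    Complex.measurable_ofReal.comp mF
  have hfin' : ∫⁻ w in Set.Ioi (0 : ℝ),
      ENNReal.ofReal |c w| * eLpNorm (fun x => (F w x : ℂ)) 2 volume < ⊤ := by
    refine lt_of_le_of_lt (le_of_eq ?_) hfin
    refine lintegral_congr fun w => ?_
    congr 1
    refine eLpNorm_congr_norm_ae (ae_of_all _ fun x => ?_)
    simp
  filter_upwards [ae_int mG mc hfin'] with x hx
  have := hx.re
  refine this.congr (ae_of_all _ fun w => ?_)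
  simp

/-- energy -/
noncomputable def en (k : ℝ) (f : ℂ → ℝ) (gf : ℂ → ℂ) (h : ℂ → ℝ) (gh : ℂ → ℂ) : ℝ :=
  (∫ x, ip (gf x) (gh x)) + k ^ 2 * ∫ x, f x * h x

/-- the basic identity -/
lemma crossAbs (hG : GrbStatement) (hH : HarmStatement) {κ : ℝ} (hκ : 0 < κ) {D : Set ℂ}
    (hD : IsOpen D) (hDc : Convex ℝ D) (hDn : D.Nonempty)
    {T : ℂ → ℝ} {gT : ℂ → ℂ} (hT : Grad T gT)
    (hTh : ∀ φ ∈ Test D, ∫ x, T x * (κ ^ 2 * φ x - lap φ x) = 0)
    {F : ℝ → ℂ → ℝ} {G : ℝ → ℂ → ℂ} {c : ℝ → ℝ} (mF : Measurable (Function.uncurry F))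
    (mG : Measurable (Function.uncurry G)) (mc : Measurable c)
    (hFG : ∀ w, 0 < w → Grad (F w) (G w))
    (hfin : ∫⁻ w in Set.Ioi (0 : ℝ), ENNReal.ofReal |c w| *
      (eLpNorm (F w) 2 volume + eLpNorm (G w) 2 volume) < ⊤)
    {φ0 : ℂ → ℝ} {gφ0 : ℂ → ℂ} (hφ0 : Grad φ0 gφ0)
    (hz : ∀ᵐ x, x ∉ D → φ0 x = ∫ w in Set.Ioi (0 : ℝ), c w * F w x) :
    en κ T gT φ0 gφ0 = ∫ w in Set.Ioi (0 : ℝ), c w * en κ T gT (F w) (G w) := by
  have hΨ := hG.2.2.2.2.2 F G c mF mG mc hFG hfin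
  have hφ := hG.1 φ0 _ gφ0 _ 1 (-1) hφ0 hΨ
  have hF1 : ∫⁻ w in Set.Ioi (0 : ℝ), ENNReal.ofReal |c w| * eLpNorm (F w) 2 volume < ⊤ :=
    lt_of_le_of_lt (lintegral_mono fun w => by gcongr; exact le_self_add) hfin
  have hG1 : ∫⁻ w in Set.Ioi (0 : ℝ), ENNReal.ofReal |c w| * eLpNorm (G w) 2 volume < ⊤ :=
    lt_of_le_of_lt (lintegral_mono fun w => by gcongr; exact le_add_self) hfin
  have h := hH κ D hκ hD hDc hDn T (fun _ => 0) gT hT (MemLp.zero') (by
    intro φ hφ'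
    rw [hTh φ hφ']; simp) _ _ hφ (by
    filter_upwards [hz] with x hx hxD
    rw [hx hxD]; ring)
  simp only [zero_mul, integral_zero] at h
  have e1 : ∫ x, ip (gT x) (((1 : ℝ) : ℂ) * gφ0 x + ((-1 : ℝ) : ℂ) *
      (∫ w in Set.Ioi (0 : ℝ), (c w : ℂ) * G w x))
      = (∫ x, ip (gT x) (gφ0 x)) - ∫ x, ip (gT x) (∫ w in Set.Ioi (0 : ℝ), (c w : ℂ) * G w x) := by
    rw [← integral_sub (integrable_ip hT.memg hφ0.memg) (integrable_ip hT.memg hΨ.memg)]
    refine integral_congr_ae (ae_of_all _ fun x => ?_)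
    simp only
    rw [ip_add_right, ip_smul_right, ip_smul_right]; ring
  have e2 : ∫ x, T x * (1 * φ0 x + (-1) * ∫ w in Set.Ioi (0 : ℝ), c w * F w x)
      = (∫ x, T x * φ0 x) - ∫ x, T x * ∫ w in Set.Ioi (0 : ℝ), c w * F w x := by
    have i1 : Integrable (fun x => T x * φ0 x) volume := hT.memf.integrable_mul hφ0.memf
    have i2 : Integrable (fun x => T x * ∫ w in Set.Ioi (0 : ℝ), c w * F w x) volume :=
      hT.memf.integrable_mul hΨ.memf
    rw [← integral_sub i1 i2]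
    refine integral_congr_ae (ae_of_all _ fun x => ?_)
    simp only
    ring
  rw [e1, e2, swapC hT.memg mG mc hG1, swapR hT.memf mF mc hF1] at h
  unfold en
  have i1 : Integrable (fun w => c w * ∫ x, ip (gT x) (G w x))
      (volume.restrict (Set.Ioi (0 : ℝ))) := by
    have h2 := (prod_int hT.memg mG mc hG1)
    have h3 : Integrable (fun z : ℝ × ℂ => c z.1 * ip (gT z.2) (G z.1 z.2))
        ((volume.restrict (Set.Ioi (0 : ℝ))).prod volume) := by
      refine Integrable.mono h2 ?_ ?_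
      · refine AEStronglyMeasurable.mul (mc.comp measurable_fst).aestronglyMeasurable ?_
        refine ip_cont.comp_aestronglyMeasurable (AEStronglyMeasurable.prodMk hT.memg.1.comp_snd ?_)
        exact mG.aestronglyMeasurable
      · filter_upwards with z
        simp only [norm_mul, Real.norm_eq_abs, abs_norm]
        exact mul_le_mul_of_nonneg_left (abs_ip_le _ _) (abs_nonneg _)
    refine h3.integral_prod_left.congr (ae_of_all _ fun w => ?_)
    simp only
    rw [integral_const_mul]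
  have i2 : Integrable (fun w => c w * ∫ x, T x * F w x)
      (volume.restrict (Set.Ioi (0 : ℝ))) := by
    have mG' : Measurable (Function.uncurry fun (w : ℝ) (x : ℂ) => (F w x : ℂ)) :=
      Complex.measurable_ofReal.comp mF
    have hfin' : ∫⁻ w in Set.Ioi (0 : ℝ),
        ENNReal.ofReal |c w| * eLpNorm (fun x => (F w x : ℂ)) 2 volume < ⊤ := by
      refine lt_of_le_of_lt (le_of_eq ?_) hF1
      refine lintegral_congr fun w => ?_
      congr 1
      refine eLpNorm_congr_norm_ae (ae_of_all _ fun x => ?_)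
      simp
    have h2 := (prod_int (p := fun x => (T x : ℂ)) hT.memf.ofReal mG' mc hfin')
    have h3 : Integrable (fun z : ℝ × ℂ => c z.1 * (T z.2 * F z.1 z.2))
        ((volume.restrict (Set.Ioi (0 : ℝ))).prod volume) := by
      refine Integrable.mono h2 ?_ ?_
      · refine AEStronglyMeasurable.mul (mc.comp measurable_fst).aestronglyMeasurable ?_
        exact hT.memf.1.comp_snd.mul mF.aestronglyMeasurable
      · filter_upwards with z
        simp only [norm_mul, Real.norm_eq_abs, Complex.norm_real, abs_abs]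
        exact le_refl _
    refine h3.integral_prod_left.congr (ae_of_all _ fun w => ?_)
    simp only
    rw [integral_const_mul]
  have e3 : ∫ w in Set.Ioi (0 : ℝ), c w * ((∫ x, ip (gT x) (G w x)) + κ ^ 2 * ∫ x, T x * F w x)
      = (∫ w in Set.Ioi (0 : ℝ), c w * ∫ x, ip (gT x) (G w x))
        + κ ^ 2 * ∫ w in Set.Ioi (0 : ℝ), c w * ∫ x, T x * F w x := by
    rw [← integral_const_mul, ← integral_add i1 (i2.const_mul _)]
    refine integral_congr_ae (ae_of_all _ fun w => ?_)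
    simp only
    ring
  rw [e3]
  linarith

end Pool.Agent.H16F.B.H51
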