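import Pool.Agent.Helper16_FineB.Com97

/-! # FINE, module VONE: the Laplace transform of `Phi` -/

namespace Pool.Agent.H16F.B.H97

open MeasureTheory Complex Filter Topology ProbabilityTheory Pool.Agent.H16Iso Pool.Agent.H62T
open scoped ENNReal NNReal

/-! ### the index space of the operators of rank one -/

/-- Lebesgue measure on the positive half-line -/
noncomputable def nuM : Measure ℝ := volume.restrict (Set.Ioi 0)

instance : SFinite nuM := by unfold nuM; infer_instance

/-- two copies of the half-line -/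
noncomputable def muM : Measure (ℝ × Bool) :=
  Measure.map (fun u => (u, true)) nuM + Measure.map (fun u => (u, false)) nuM

instance : SFinite muM := by unfold muM; infer_instance

theorem meas_pair (b : Bool) : Measurable (fun u : ℝ => (u, b)) := by fun_prop

theorem lintegral_muM {F : ℝ × Bool → ℝ≥0∞} (hF : Measurable F) :
    ∫⁻ s, F s ∂muM = (∫⁻ u, F (u, true) ∂nuM) + ∫⁻ u, F (u, false) ∂nuM := by
  unfold muM
  rw [lintegral_add_measure, lintegral_map hF (meas_pair _), lintegral_map hF (meas_pair _)]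

theorem integral_muM {F : ℝ × Bool → ℝ} (h1 : Integrable (fun u => F (u, true)) nuM)
    (h2 : Integrable (fun u => F (u, false)) nuM) :
    ∫ s, F s ∂muM = (∫ u, F (u, true) ∂nuM) + ∫ u, F (u, false) ∂nuM := by
  have emb : ∀ b : Bool, MeasurableEmbedding (fun u : ℝ => (u, b)) := by
    intro b
    exact measurableEmbedding_prod_mk_right b
  unfold muM
  rw [integral_add_measure, (emb true).integral_map, (emb false).integral_map]
  · exact ((emb true).integrable_map_iff).2 h1
  · exact ((emb false).integrable_map_iff).2 h2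

/-! ### general bounds -/

/-- a pair of functions with the bounds of the scattering problem -/
structure Pr (κ C1 C2 a : ℝ) (A X : ℝ → ℂ → ℝ) (g : ℂ → ℝ) : Prop where
  measA : Measurable (Function.uncurry A)
  measX : Measurable (Function.uncurry X)
  C1n : 0 ≤ C1
  C2n : 0 ≤ C2
  gm : MemLp g 2 volume
  gn : ∀ x, 0 ≤ g x
  g1 : ∀ x, g x ≤ 1
  pos : 0 < a
  bdA : ∀ u, 0 < u → ∀ x, |A u x| ≤ C1 * Real.exp (C1 * u) * g x
  bdX : ∀ u, 0 < u → ∀ y, |X u y| ≤ C2 * Real.exp (C2 * u) * q2 a y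

variable {κ C1 C2 a : ℝ} {A X : ℝ → ℂ → ℝ} {g : ℂ → ℝ}

theorem Pr.lintegral_lt (h : Pr κ C1 C2 a A X g) (hκ : 0 < κ) :
    ∫⁻ u, eLpNorm (fun x => ep κ u / Real.pi * A u x) 2 volume * eLpNorm (X u) 2 volume ∂nuM
      < ⊤ := by
  have hpi := Real.pi_pos
  have hb : ∀ u ∈ Set.Ioi (0 : ℝ),
      eLpNorm (fun x => ep κ u / Real.pi * A u x) 2 volume * eLpNorm (X u) 2 volume
      ≤ ENNReal.ofReal (ep κ u * Real.exp ((C1 + C2) * u)) *
        (ENNReal.ofReal (C1 / Real.pi) * ENNReal.ofReal C2 * (eLpNorm g 2 volume *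
          eLpNorm (q2 a) 2 volume)) := by
    intro u hu
    have hu' : 0 < u := hu
    have h1 : eLpNorm (fun x => ep κ u / Real.pi * A u x) 2 volume
        ≤ ENNReal.ofReal (ep κ u / Real.pi * (C1 * Real.exp (C1 * u))) * eLpNorm g 2 volume := by
      refine eLpNorm_le_mul_eLpNorm_of_ae_le_mul (Eventually.of_forall (fun x => ?_)) 2
      rw [Real.norm_eq_abs, Real.norm_eq_abs, abs_mul, abs_of_nonneg (h.gn x),
        abs_of_nonneg (div_nonneg (ep_pos κ u).le hpi.le), mul_assoc]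
      exact mul_le_mul_of_nonneg_left (h.bdA u hu' x) (div_nonneg (ep_pos κ u).le hpi.le)
    have h2 : eLpNorm (X u) 2 volume
        ≤ ENNReal.ofReal (C2 * Real.exp (C2 * u)) * eLpNorm (q2 a) 2 volume := by
      refine eLpNorm_le_mul_eLpNorm_of_ae_le_mul (Eventually.of_forall (fun x => ?_)) 2
      rw [Real.norm_eq_abs, Real.norm_eq_abs, abs_of_pos (q2_pos a x)]
      exact h.bdX u hu' x
    refine (mul_le_mul' h1 h2).trans (le_of_eq ?_)
    have e1 : ep κ u / Real.pi * (C1 * Real.exp (C1 * u)) = (ep κ u * Real.exp (C1 * u)) *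
        (C1 / Real.pi) := by ring
    have e2 : C2 * Real.exp (C2 * u) = Real.exp (C2 * u) * C2 := by ring
    have e3 : ep κ u * Real.exp ((C1 + C2) * u) = (ep κ u * Real.exp (C1 * u)) *
        Real.exp (C2 * u) := by
      rw [mul_assoc, ← Real.exp_add]; congr 2; ring
    have p1 : 0 ≤ ep κ u * Real.exp (C1 * u) := (mul_pos (ep_pos _ _) (Real.exp_pos _)).le
    rw [e1, e2, e3, ENNReal.ofReal_mul p1, ENNReal.ofReal_mul (Real.exp_pos _).le,
      ENNReal.ofReal_mul p1]
    ring
  unfold nuM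
  refine lt_of_le_of_lt (setLIntegral_mono' measurableSet_Ioi hb) ?_
  rw [lintegral_mul_const'']
  · refine ENNReal.mul_lt_top ?_ ?_
    · have h1 := integrableOn_ep κ (C1 + C2) hκ
      have h2 := h1.lintegral_lt_top
      exact h2
    · exact ENNReal.mul_lt_top (ENNReal.mul_lt_top ENNReal.ofReal_lt_top ENNReal.ofReal_lt_top)
        (ENNReal.mul_lt_top h.gm.2 (memLp_q2 h.pos).2)
  · exact ((measurable_ep κ).mul (by fun_prop)).ennreal_ofReal.aemeasurable

/-- the coefficient functionals -/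
theorem Pr.int_bound (h : Pr κ C1 C2 a A X g) {f : ℂ → ℝ} (hf : MemLp f 2 volume) :
    ∃ F : ℝ, 0 ≤ F ∧ ∀ u, 0 < u → |∫ y, X u y * f y| ≤ C2 * Real.exp (C2 * u) * F := by
  have h1 : Integrable (fun y => q2 a y * |f y|) := (memLp_q2 h.pos).integrable_mul hf.abs
  refine ⟨∫ y, q2 a y * |f y|,
    integral_nonneg (fun y => mul_nonneg (q2_pos a y).le (abs_nonneg _)), fun u hu => ?_⟩
  rw [← integral_const_mul]
  refine (abs_integral_le_integral_abs).trans (integral_mono_of_nonneg ?_ (h1.const_mul _) ?_)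
  · exact Eventually.of_forall (fun y => abs_nonneg _)
  · refine Eventually.of_forall (fun y => ?_)
    simp only [abs_mul]
    rw [← mul_assoc]
    exact mul_le_mul_of_nonneg_right (h.bdX u hu y) (abs_nonneg _)

theorem Pr.aesm_int (h : Pr κ C1 C2 a A X g) {f : ℂ → ℝ} (hf : MemLp f 2 volume) :
    AEStronglyMeasurable (fun u => ∫ y, X u y * f y) nuM := by
  have h1 : AEStronglyMeasurable (fun p : ℝ × ℂ => X p.1 p.2 * f p.2)
      (nuM.prod (volume : Measure ℂ)) :=
    (h.measX.aestronglyMeasurable).mul hf.1.comp_snd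
  exact h1.integral_prod_right'

theorem Pr.integrable_op (h : Pr κ C1 C2 a A X g) (hκ : 0 < κ) {f : ℂ → ℝ}
    (hf : MemLp f 2 volume) (x : ℂ) :
    Integrable (fun u => ep κ u / Real.pi * A u x * ∫ y, X u y * f y) nuM := by
  obtain ⟨F, hF, hb⟩ := h.int_bound hf
  have h1 : Integrable (fun u => ep κ u * Real.exp ((C1 + C2) * u) * (C1 / Real.pi * C2 * F))
      nuM := (integrableOn_ep κ (C1 + C2) hκ).mul_const _
  refine h1.mono' ?_ ?_
  · refine AEStronglyMeasurable.mul ?_ (h.aesm_int hf)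
    refine Measurable.aestronglyMeasurable ?_
    refine ((measurable_ep κ).div_const _).mul ?_
    exact h.measA.comp (measurable_id.prodMk measurable_const)
  · unfold nuM
    refine (ae_restrict_iff' measurableSet_Ioi).2 (Eventually.of_forall (fun u hu => ?_))
    have hpi := Real.pi_pos
    have hu' : 0 < u := hu
    rw [Real.norm_eq_abs, abs_mul, abs_mul, abs_of_nonneg (div_nonneg (ep_pos κ u).le hpi.le)]
    have e3 : Real.exp ((C1 + C2) * u) = Real.exp (C1 * u) * Real.exp (C2 * u) := by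
      rw [← Real.exp_add]; congr 1; ring
    have hA : |A u x| ≤ C1 * Real.exp (C1 * u) := by
      refine (h.bdA u hu' x).trans ?_
      have h2 : 0 ≤ C1 * Real.exp (C1 * u) := mul_nonneg h.C1n (Real.exp_pos _).le
      nlinarith [h.g1 x]
    calc ep κ u / Real.pi * |A u x| * |∫ y, X u y * f y|
        ≤ ep κ u / Real.pi * (C1 * Real.exp (C1 * u)) * (C2 * Real.exp (C2 * u) * F) := by
          refine mul_le_mul (mul_le_mul_of_nonneg_left hA
            (div_nonneg (ep_pos κ u).le hpi.le)) (hb u hu') (abs_nonneg _) ?_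
          exact mul_nonneg (div_nonneg (ep_pos κ u).le hpi.le)
            (mul_nonneg h.C1n (Real.exp_pos _).le)
      _ = ep κ u * Real.exp ((C1 + C2) * u) * (C1 / Real.pi * C2 * F) := by
          rw [e3]; ring

theorem Pr.integrable_tr (h : Pr κ C1 C2 a A X g) (hκ : 0 < κ) :
    Integrable (fun u => ep κ u * ∫ x, A u x * X u x) nuM := by
  have h0 : Integrable (fun y => g y * q2 a y) := h.gm.integrable_mul (memLp_q2 h.pos)
  set F : ℝ := ∫ y, g y * q2 a y with hF
  have hF0 : 0 ≤ F := integral_nonneg (fun y => mul_nonneg (h.gn y) (q2_pos a y).le)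
  have hb : ∀ u, 0 < u → |∫ x, A u x * X u x| ≤ C1 * Real.exp (C1 * u) *
      (C2 * Real.exp (C2 * u)) * F := by
    intro u hu
    rw [hF, ← integral_const_mul]
    refine (abs_integral_le_integral_abs).trans (integral_mono_of_nonneg ?_ (h0.const_mul _) ?_)
    · exact Eventually.of_forall (fun y => abs_nonneg _)
    · refine Eventually.of_forall (fun y => ?_)
      simp only [abs_mul]
      calc |A u y| * |X u y| ≤ (C1 * Real.exp (C1 * u) * g y) * (C2 * Real.exp (C2 * u) * q2 a y) :=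
            mul_le_mul (h.bdA u hu y) (h.bdX u hu y) (abs_nonneg _)
              (mul_nonneg (mul_nonneg h.C1n (Real.exp_pos _).le) (h.gn y))
        _ = C1 * Real.exp (C1 * u) * (C2 * Real.exp (C2 * u)) * (g y * q2 a y) := by ring
  have h1 : Integrable (fun u => ep κ u * Real.exp ((C1 + C2) * u) * (C1 * C2 * F))
      nuM := (integrableOn_ep κ (C1 + C2) hκ).mul_const _
  refine h1.mono' ?_ ?_
  · refine AEStronglyMeasurable.mul (measurable_ep κ).aestronglyMeasurable ?_
    have h2 : AEStronglyMeasurable (fun p : ℝ × ℂ => A p.1 p.2 * X p.1 p.2)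
        (nuM.prod (volume : Measure ℂ)) :=
      (h.measA.mul h.measX).aestronglyMeasurable
    exact h2.integral_prod_right'
  · unfold nuM
    refine (ae_restrict_iff' measurableSet_Ioi).2 (Eventually.of_forall (fun u hu => ?_))
    have hu' : 0 < u := hu
    rw [Real.norm_eq_abs, abs_mul, abs_of_pos (ep_pos κ u)]
    have e3 : Real.exp ((C1 + C2) * u) = Real.exp (C1 * u) * Real.exp (C2 * u) := by
      rw [← Real.exp_add]; congr 1; ring
    calc ep κ u * |∫ x, A u x * X u x|
        ≤ ep κ u * (C1 * Real.exp (C1 * u) * (C2 * Real.exp (C2 * u)) * F) :=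
          mul_le_mul_of_nonneg_left (hb u hu') (ep_pos κ u).le
      _ = ep κ u * Real.exp ((C1 + C2) * u) * (C1 * C2 * F) := by
          rw [e3]; ring

/-! ### the operators -/

/-- left factors -/
noncomputable def PP2 (κ : ℝ) (S S' : ℝ → ℂ → ℝ) (s : ℝ × Bool) (x : ℂ) : ℝ :=
  if s.2 = true then ep κ s.1 / Real.pi * Sl κ S s.1 x else ep κ s.1 / Real.pi * Sr κ S' s.1 x

/-- right factors -/
noncomputable def QQ2 (X X' : ℝ → ℂ → ℝ) (s : ℝ × Bool) (x : ℂ) : ℝ :=
  if s.2 = true then X s.1 x else X' s.1 x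

theorem norm_refl (κ : ℝ) (hκ : 0 < κ) (x : ℂ) :
    ‖(κ : ℂ) * (1 - (starRingEnd ℂ) x)‖ = κ * ‖x - 1‖ := by
  rw [norm_mul, Complex.norm_real, Real.norm_of_nonneg hκ.le]
  congr 1
  have e : (1 : ℂ) - (starRingEnd ℂ) x = (starRingEnd ℂ) (1 - x) := by simp
  rw [e, Complex.norm_conj, norm_sub_rev]

theorem measurable_Sl {κ : ℝ} {S : ℝ → ℂ → ℝ} (h : Measurable (Function.uncurry S)) :
    Measurable (Function.uncurry (Sl κ S)) := by
  have h1 : Measurable (fun p : ℝ × ℂ => (p.1, (κ : ℂ) * p.2)) := by fun_prop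
  exact h.comp h1

theorem measurable_Sr {κ : ℝ} {S : ℝ → ℂ → ℝ} (h : Measurable (Function.uncurry S)) :
    Measurable (Function.uncurry (Sr κ S)) := by
  have h0 : Measurable (starRingEnd ℂ : ℂ → ℂ) := Complex.continuous_conj.measurable
  have h1 : Measurable (fun p : ℝ × ℂ => (p.1, (κ : ℂ) * (1 - (starRingEnd ℂ) p.2))) :=
    measurable_fst.prodMk (measurable_const.mul (measurable_const.sub (h0.comp measurable_snd)))
  exact h.comp h1

theorem nonneg_of_bound {C r : ℝ} (hr : 0 < r) {y : ℝ} (h : |y| ≤ C * r) : 0 ≤ C := by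
  by_contra hcon
  push Not at hcon
  have h1 := abs_nonneg y
  nlinarith

theorem pr_left {β κ C c : ℝ} {β' : ℝ} {S S' X X' : ℝ → ℂ → ℝ} (hκ : 0 < κ) (hc : 0 < c)
    (hS : WP β S) (hX : Scat κ C c β β' S S' X X') :
    ∃ (C1 : ℝ) (g : ℂ → ℝ), Pr κ C1 C (c * κ) (Sl κ S) X g := by
  obtain ⟨C1, c1, hc1, hb⟩ := hS.bound
  refine ⟨C1, qf (c1 * κ), measurable_Sl hS.meas, hX.meas, ?_, ?_, memLp_qf (by positivity),
    fun x => (qf_pos _ x).le, ?_, by positivity, ?_, ?_⟩
  · have h1 := hb 1 one_pos 0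
    rw [mul_assoc] at h1
    exact nonneg_of_bound (mul_pos (Real.exp_pos _) (Real.exp_pos _)) h1
  · have h1 := hX.bound 1 one_pos 0
    rw [mul_assoc] at h1
    exact nonneg_of_bound (mul_pos (Real.exp_pos _) (add_pos (Real.exp_pos _) (Real.exp_pos _))) h1
  · intro x
    unfold qf
    rw [Real.exp_le_one_iff]
    have : 0 ≤ c1 * κ * ‖x‖ := by positivity
    linarith
  · intro u hu x
    have h1 := hb u hu ((κ : ℂ) * x)
    rw [norm_mul, Complex.norm_real, Real.norm_of_nonneg hκ.le, ← mul_assoc c1 κ] at h1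
    exact h1
  · intro u hu y
    exact hX.bound u hu y

theorem pr_right {β κ C c : ℝ} {β' : ℝ} {S S' X X' : ℝ → ℂ → ℝ} (hκ : 0 < κ) (hc : 0 < c)
    (hS : WP β' S') (hX : Scat κ C c β β' S S' X X') :
    ∃ (C1 : ℝ) (g : ℂ → ℝ), Pr κ C1 C (c * κ) (Sr κ S') X' g := by
  obtain ⟨C1, c1, hc1, hb⟩ := hS.bound
  refine ⟨C1, fun x => Real.exp (-(c1 * κ * ‖x - 1‖)), measurable_Sr hS.meas, hX.meas', ?_, ?_,
    memLp_shift (by positivity) 1, fun x => (Real.exp_pos _).le, ?_, by positivity, ?_, ?_⟩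
  · have h1 := hb 1 one_pos 0
    rw [mul_assoc] at h1
    exact nonneg_of_bound (mul_pos (Real.exp_pos _) (Real.exp_pos _)) h1
  · have h1 := hX.bound' 1 one_pos 0
    rw [mul_assoc] at h1
    exact nonneg_of_bound (mul_pos (Real.exp_pos _) (add_pos (Real.exp_pos _) (Real.exp_pos _))) h1
  · intro x
    rw [Real.exp_le_one_iff]
    have : 0 ≤ c1 * κ * ‖x - 1‖ := by positivity
    linarith
  · intro u hu x
    have h1 := hb u hu ((κ : ℂ) * (1 - (starRingEnd ℂ) x))
    rw [norm_refl κ hκ, ← mul_assoc c1 κ] at h1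
    exact h1
  · intro u hu y
    exact hX.bound' u hu y

theorem rk_of {β β' κ C c : ℝ} {S S' X X' : ℝ → ℂ → ℝ} (hκ : 0 < κ) (hc : 0 < c)
    (hS : WP β S) (hS' : WP β' S') (hX : Scat κ C c β β' S S' X X')
    (hrep : ∀ f uH u1 u2 uO : ℂ → ℝ, MemLp f 2 volume → Sol κ Hh f uH → Sol κ (W1 β) f u1 →
          Sol κ (W2 β') f u2 → Sol κ (Om β β') f uO →
          ∀ᵐ x, uO x - u1 x - u2 x + uH x
            = 1 / Real.pi * ∫ u in Set.Ioi (0 : ℝ), ep κ u *
              (Sl κ S u x * (∫ y, X u y * f y) + Sr κ S' u x * (∫ y, X' u y * f y))) :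
    Rk κ β β' muM (PP2 κ S S') (QQ2 X X') ∧
    ∫ s, (∫ x, PP2 κ S S' s x * QQ2 X X' s x) ∂muM
      = 1 / Real.pi * ∫ u in Set.Ioi (0 : ℝ), ep κ u *
            ((∫ x, Sl κ S u x * X u x) + ∫ x, Sr κ S' u x * X' u x) := by
  obtain ⟨C1, g, hl⟩ := pr_left hκ hc hS hX
  obtain ⟨C1', g', hr⟩ := pr_right hκ hc hS' hX
  have hset : MeasurableSet {p : (ℝ × Bool) × ℂ | p.1.2 = true} := by
    have h1 : Measurable (fun p : (ℝ × Bool) × ℂ => p.1.2) := by fun_prop
    exact h1 (measurableSet_singleton true)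
  have hproj : Measurable (fun p : (ℝ × Bool) × ℂ => (p.1.1, p.2)) := by fun_prop
  have hmP : Measurable (Function.uncurry (PP2 κ S S')) := by
    refine Measurable.ite hset ?_ ?_
    · exact (((measurable_ep κ).div_const Real.pi).comp
        (measurable_fst.comp measurable_fst)).mul (hl.measA.comp hproj)
    · exact (((measurable_ep κ).div_const Real.pi).comp
        (measurable_fst.comp measurable_fst)).mul (hr.measA.comp hproj)
  have hmQ : Measurable (Function.uncurry (QQ2 X X')) := by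
    refine Measurable.ite hset ?_ ?_
    · exact hl.measX.comp hproj
    · exact hr.measX.comp hproj
  refine ⟨⟨hmP, hmQ, ?_, ?_⟩, ?_⟩
  · -- finiteness
    have hm : Measurable (fun s => eLpNorm (PP2 κ S S' s) 2 volume
        * eLpNorm (QQ2 X X' s) 2 volume) := by
      have e : ∀ F : ℝ × Bool → ℂ → ℝ, Measurable (Function.uncurry F) →
          Measurable (fun s => eLpNorm (F s) 2 volume) := by
        intro F hF
        have e1 : (fun s => eLpNorm (F s) 2 volume)
            = fun s => (∫⁻ x, ‖F s x‖ₑ ^ (2 : ℝ)) ^ (1 / (2 : ℝ)) := by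
          funext s
          rw [eLpNorm_eq_lintegral_rpow_enorm_toReal (by norm_num) (by norm_num)]
          norm_num
        rw [e1]
        refine Measurable.pow_const ?_ _
        refine Measurable.lintegral_prod_right' (f := fun p : (ℝ × Bool) × ℂ =>
          ‖F p.1 p.2‖ₑ ^ (2 : ℝ)) ?_
        exact (hF.enorm).pow_const _
      exact (e _ hmP).mul (e _ hmQ)
    rw [lintegral_muM hm]
    exact ENNReal.add_lt_top.2 ⟨hl.lintegral_lt hκ, hr.lintegral_lt hκ⟩
  · -- the representation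
    intro f uH u1 u2 uO hf hH h1 h2 hO
    filter_upwards [hrep f uH u1 u2 uO hf hH h1 h2 hO] with x hx
    rw [hx]
    have i1 := hl.integrable_op hκ hf x
    have i2 := hr.integrable_op hκ hf x
    rw [integral_muM (F := fun s => PP2 κ S S' s x * ∫ y, QQ2 X X' s y * f y)]
    · rw [← integral_const_mul]
      have e1 : (∫ u, PP2 κ S S' (u, true) x * (∫ y : ℂ, QQ2 X X' (u, true) y * f y) ∂nuM)
          + ∫ u, PP2 κ S S' (u, false) x * (∫ y : ℂ, QQ2 X X' (u, false) y * f y) ∂nuM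
          = ∫ u, (ep κ u / Real.pi * Sl κ S u x * ∫ y : ℂ, X u y * f y)
            + (ep κ u / Real.pi * Sr κ S' u x * ∫ y : ℂ, X' u y * f y) ∂nuM := by
        rw [integral_add i1 i2]
        rfl
      rw [e1]
      unfold nuM
      refine setIntegral_congr_fun measurableSet_Ioi (fun u _ => ?_)
      ring
    · exact i1
    · exact i2
  · -- the trace
    have i1 := hl.integrable_tr hκ
    have i2 := hr.integrable_tr hκ
    have e1 : ∀ u : ℝ, (∫ x, PP2 κ S S' (u, true) x * QQ2 X X' (u, true) x)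
        = 1 / Real.pi * (ep κ u * ∫ x, Sl κ S u x * X u x) := by
      intro u
      rw [← mul_assoc, ← integral_const_mul]
      refine integral_congr_ae (Eventually.of_forall (fun x => ?_))
      simp only [PP2, QQ2, if_true]
      ring
    have e2 : ∀ u : ℝ, (∫ x, PP2 κ S S' (u, false) x * QQ2 X X' (u, false) x)
        = 1 / Real.pi * (ep κ u * ∫ x, Sr κ S' u x * X' u x) := by
      intro u
      rw [← mul_assoc, ← integral_const_mul]
      refine integral_congr_ae (Eventually.of_forall (fun x => ?_))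
      simp only [PP2, QQ2, Bool.false_eq_true, if_false]
      ring
    rw [integral_muM (F := fun s => ∫ x, PP2 κ S S' s x * QQ2 X X' s x)]
    · simp only [e1, e2]
      rw [integral_const_mul, integral_const_mul, ← mul_add, ← integral_add i1 i2]
      congr 1
      unfold nuM
      refine setIntegral_congr_fun measurableSet_Ioi (fun u _ => ?_)
      ring
    · simp only [e1]
      exact i1.const_mul _
    · simp only [e2]
      exact i2.const_mul _

/-! ### the Laplace transform of `Phi` -/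

/-- the Laplace transform -/
noncomputable def AA (β β' κ : ℝ) : ℝ := ∫ t in Set.Ioi (0 : ℝ),
  Real.exp (-(κ ^ 2 * t)) * (Phi β β' (1 / Real.sqrt t) / (4 * Real.pi))

/-- the main term -/
noncomputable def MM (β β' κ : ℝ) : ℝ := 1 / κ * ∫ u in Set.Ioi (0 : ℝ), ∫ w in Set.Ioi (0 : ℝ),
  bb β u w * bb β' u w * Real.cosh u * ep κ u * ep κ w

theorem Phi_bd (hPHI : PhiStatement) {β β' : ℝ} (h0 : 0 < β) (h1 : β < Real.pi / 2)
    (h0' : 0 < β') (h1' : β' < Real.pi / 2) {y : ℝ} (hy : 0 ≤ y) :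
    0 ≤ Phi β β' y ∧ Phi β β' y ≤ Phi β β' 0 := by
  have hpi := Real.pi_pos
  obtain ⟨-, hanti, -, -, hlow⟩ := hPHI β β' h0 (by linarith) h0' (by linarith)
  obtain ⟨b, hb, h2⟩ := hlow 1 one_pos
  exact ⟨(mul_pos hb (Real.exp_pos _)).le.trans (h2 y hy), hanti hy⟩

theorem AA_int (hPHI : PhiStatement) {β β' : ℝ} (h0 : 0 < β) (h1 : β < Real.pi / 2)
    (h0' : 0 < β') (h1' : β' < Real.pi / 2) {κ : ℝ} (hκ : 0 < κ) :
    IntegrableOn (fun t : ℝ => Real.exp (-(κ ^ 2 * t)) *
      (Phi β β' (1 / Real.sqrt t) / (4 * Real.pi))) (Set.Ioi 0) ∧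
    |AA β β' κ| ≤ Phi β β' 0 / (4 * Real.pi) / κ ^ 2 := by
  have hpi := Real.pi_pos
  have hκ2 : 0 < κ ^ 2 := by positivity
  obtain ⟨-, -, hcont, -, -⟩ := hPHI β β' h0 (by linarith) h0' (by linarith)
  have hi : IntegrableOn (fun t : ℝ => Real.exp (-(κ ^ 2) * t)) (Set.Ioi 0) :=
    integrableOn_exp_mul_Ioi (by linarith) 0
  have hi2 : IntegrableOn (fun t : ℝ => Real.exp (-(κ ^ 2) * t) * (Phi β β' 0 / (4 * Real.pi)))
      (Set.Ioi 0) := hi.mul_const _
  have hbd : ∀ t ∈ Set.Ioi (0 : ℝ), ‖Real.exp (-(κ ^ 2 * t)) *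
      (Phi β β' (1 / Real.sqrt t) / (4 * Real.pi))‖
      ≤ Real.exp (-(κ ^ 2) * t) * (Phi β β' 0 / (4 * Real.pi)) := by
    intro t ht
    have h2 := Phi_bd hPHI h0 h1 h0' h1' (y := 1 / Real.sqrt t) (by positivity)
    rw [norm_mul, Real.norm_of_nonneg (Real.exp_pos _).le, Real.norm_of_nonneg
      (div_nonneg h2.1 (by positivity)), neg_mul]
    exact mul_le_mul_of_nonneg_left (div_le_div_of_nonneg_right h2.2 (by positivity))
      (Real.exp_pos _).le
  constructor
  · refine hi2.mono' ?_ ?_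
    · refine Measurable.aestronglyMeasurable ?_
      refine Measurable.mul (by fun_prop) ?_
      refine Measurable.div_const ?_ _
      exact hcont.measurable.comp (measurable_const.div Real.continuous_sqrt.measurable)
    · exact (ae_restrict_iff' measurableSet_Ioi).2 (Eventually.of_forall hbd)
  · unfold AA
    have h3 := norm_integral_le_of_norm_le hi2
      ((ae_restrict_iff' measurableSet_Ioi).2 (Eventually.of_forall hbd))
    rw [Real.norm_eq_abs] at h3
    refine h3.trans (le_of_eq ?_)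
    rw [integral_mul_const, integral_exp_mul_Ioi (by linarith) 0]
    rw [mul_zero, Real.exp_zero]
    field_simp

theorem MM_bd {β β' : ℝ} (h0 : 0 < β) (h1 : β < Real.pi / 2)
    (h0' : 0 < β') (h1' : β' < Real.pi / 2) : ∃ J : ℝ, 0 ≤ J ∧ ∀ κ : ℝ, 1 ≤ κ →
      |MM β β' κ| ≤ J / κ := by
  set J1 : ℝ := ∫ w in Set.Ioi (0 : ℝ), ep 1 w with hJ1
  set J2 : ℝ := ∫ u in Set.Ioi (0 : ℝ), Real.cosh u * ep 1 u with hJ2
  have hJ1n : 0 ≤ J1 := integral_nonneg (fun w => (ep_pos _ _).le)
  have hJ2n : 0 ≤ J2 := integral_nonneg (fun u => mul_nonneg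
    (zero_le_one.trans (Real.one_le_cosh u)) (ep_pos _ _).le)
  have hM : 0 < Kb β * Kb β' := mul_pos (Kb_pos h0 h1) (Kb_pos h0' h1')
  refine ⟨Kb β * Kb β' * (J2 * J1), by positivity, fun κ hκ => ?_⟩
  have hκ0 : 0 < κ := by linarith
  have hb : ∀ u w : ℝ, |bb β u w * bb β' u w * Real.cosh u * ep κ u * ep κ w|
      ≤ Kb β * Kb β' * (Real.cosh u * ep 1 u) * ep 1 w := by
    intro u w
    rw [abs_mul, abs_mul, abs_mul, abs_mul, abs_of_pos (Real.cosh_pos u),
      abs_of_pos (ep_pos κ u), abs_of_pos (ep_pos κ w)]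
    have b1 := bb_bd h0 h1 u w
    have b2 := bb_bd h0' h1' u w
    have b3 : |bb β u w| * |bb β' u w| ≤ Kb β * Kb β' :=
      mul_le_mul b1 b2 (abs_nonneg _) (Kb_pos h0 h1).le
    have hc := Real.cosh_pos u
    have e1 := ep_anti hκ u
    have e2 := ep_anti hκ w
    calc |bb β u w| * |bb β' u w| * Real.cosh u * ep κ u * ep κ w
        ≤ Kb β * Kb β' * Real.cosh u * ep 1 u * ep 1 w := by
          have p0 := (ep_pos κ u).le
          have p1 := (ep_pos κ w).le
          have p2 := (ep_pos 1 u).le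
          have p3 : 0 ≤ |bb β u w| * |bb β' u w| := by positivity
          refine mul_le_mul (mul_le_mul (mul_le_mul_of_nonneg_right b3 hc.le) e1 p0
            (by positivity)) e2 p1 (by positivity)
      _ = Kb β * Kb β' * (Real.cosh u * ep 1 u) * ep 1 w := by ring
  have h2 : |∫ u in Set.Ioi (0 : ℝ), ∫ w in Set.Ioi (0 : ℝ),
      bb β u w * bb β' u w * Real.cosh u * ep κ u * ep κ w| ≤ Kb β * Kb β' * (J2 * J1) := by
    have hi : IntegrableOn (fun u => Kb β * Kb β' * (Real.cosh u * ep 1 u) * J1) (Set.Ioi 0) :=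
      ((integrableOn_cosh_ep 1 one_pos).const_mul _).mul_const _
    have h3 := norm_integral_le_of_norm_le (μ := volume.restrict (Set.Ioi (0 : ℝ)))
      (f := fun u => ∫ w in Set.Ioi (0 : ℝ),
        bb β u w * bb β' u w * Real.cosh u * ep κ u * ep κ w) hi
      (Eventually.of_forall (fun u => by
        have h4 := norm_integral_le_of_norm_le (μ := volume.restrict (Set.Ioi (0 : ℝ)))
          (f := fun w => bb β u w * bb β' u w * Real.cosh u * ep κ u * ep κ w)
          ((integrableOn_ep' 1 one_pos).const_mul (Kb β * Kb β' * (Real.cosh u * ep 1 u)))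
          (Eventually.of_forall (fun w => by
            rw [Real.norm_eq_abs]
            exact hb u w))
        rw [integral_const_mul] at h4
        exact h4))
    rw [Real.norm_eq_abs, integral_mul_const, integral_const_mul] at h3
    rw [← mul_assoc]
    exact h3
  unfold MM
  rw [abs_mul, abs_of_pos (by positivity : (0 : ℝ) < 1 / κ),
    div_eq_mul_inv (Kb β * Kb β' * (J2 * J1)) κ, mul_comm, one_div]
  exact mul_le_mul_of_nonneg_right h2 (by positivity)

theorem vone (hTRN : TrnStatement) (hSCAT : ScatStatement) (hMAIN : MainStatement)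
    (hTRR : TrrStatement) (hWEDGE : WedgeStatement) (hPHI : PhiStatement) : VoneStatement := by
  intro β β' h0 h1 h0' h1' ε hε hε1
  have hpi := Real.pi_pos
  obtain ⟨SS, hS⟩ := hWEDGE β h0 h1
  obtain ⟨SS', hS'⟩ := hWEDGE β' h0' h1'
  obtain ⟨κ0, C, c, hκ0, hc, hsc⟩ := hSCAT β β' SS SS' h0 h1 h0' h1' hS hS'
  obtain ⟨κ1, C', hκ1, htrr⟩ := hTRR β β' SS SS' h0 h1 h0' h1' hS hS' C c hc ε hε hε1
  obtain ⟨J, hJ, hMM⟩ := MM_bd h0 h1 h0' h1'
  set k2 : ℝ := max (max κ0 κ1) 1 with hk2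
  have hk2a : κ0 ≤ k2 := (le_max_left _ _).trans (le_max_left _ _)
  have hk2b : κ1 ≤ k2 := (le_max_right _ _).trans (le_max_left _ _)
  have hk2c : 1 ≤ k2 := le_max_right _ _
  refine ⟨k2, C' / Real.pi, by linarith, ?_⟩
  -- the trace for each κ
  have hTr : ∀ κ : ℝ, k2 ≤ κ → ∃ P Q : ℝ × Bool → ℂ → ℝ, Rk κ β β' muM P Q ∧
      |∫ s, (∫ x, P s x * Q s x) ∂muM - MM β β' κ|
        ≤ C' / Real.pi * Real.exp (-(4 * (1 - ε) * κ)) := by
    intro κ hκ
    have hκp : 0 < κ := by linarith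
    obtain ⟨X, X', hX, hrep⟩ := hsc κ (by linarith)
    obtain ⟨hRk, htr⟩ := rk_of hκp hc hS hS' hX hrep
    refine ⟨_, _, hRk, ?_⟩
    rw [htr]
    have h2 := htrr κ (by linarith) X X' hX
    have h3 := hMAIN β β' SS SS' h0 h1 h0' h1' hS hS' κ hκp
    unfold MM
    rw [← h3, ← mul_sub, ← mul_sub, ← mul_sub, abs_mul, abs_of_pos (by positivity)]
    have e5 : C' / Real.pi * Real.exp (-(4 * (1 - ε) * κ))
        = 1 / Real.pi * (C' * Real.exp (-(4 * (1 - ε) * κ))) := by ring
    rw [e5]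
    exact mul_le_mul_of_nonneg_left h2 (by positivity)
  -- comparison of two values
  have hcmp : ∀ κ κ' : ℝ, k2 ≤ κ → κ < κ' →
      |AA β β' κ - AA β β' κ' - (MM β β' κ - MM β β' κ')|
        ≤ C' / Real.pi * Real.exp (-(4 * (1 - ε) * κ))
          + C' / Real.pi * Real.exp (-(4 * (1 - ε) * κ')) := by
    intro κ κ' hκ hκ'
    have hκp : 0 < κ := by linarith
    have hκp' : 0 < κ' := by linarith
    obtain ⟨P, Q, hR, hb⟩ := hTr κ hκ
    obtain ⟨P', Q', hR', hb'⟩ := hTr κ' (by linarith)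
    have h2 := hTRN β β' h0 (by linarith) h0' (by linarith) κ κ' hκp hκ' (ℝ × Bool) muM muM
      P Q P' Q' hR hR'
    have h3 : ∫ t in Set.Ioi (0 : ℝ), (Real.exp (-(κ ^ 2 * t)) - Real.exp (-(κ' ^ 2 * t)))
          * (Phi β β' (1 / Real.sqrt t) / (4 * Real.pi)) = AA β β' κ - AA β β' κ' := by
      unfold AA
      rw [← integral_sub (AA_int hPHI h0 h1 h0' h1' hκp).1 (AA_int hPHI h0 h1 h0' h1' hκp').1]
      refine setIntegral_congr_fun measurableSet_Ioi (fun t _ => ?_)
      ring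
    rw [h3] at h2
    rw [h2]
    have e : (∫ s, (∫ x, P s x * Q s x) ∂muM) - (∫ s, (∫ x, P' s x * Q' s x) ∂muM)
        - (MM β β' κ - MM β β' κ')
        = ((∫ s, (∫ x, P s x * Q s x) ∂muM) - MM β β' κ)
          - ((∫ s, (∫ x, P' s x * Q' s x) ∂muM) - MM β β' κ') := by ring
    rw [e]
    exact (abs_sub _ _).trans (add_le_add hb hb')
  intro κ hκ
  change |AA β β' κ - MM β β' κ| ≤ _
  have hκp : 0 < κ := by linarith
  -- limits
  have hA : Tendsto (fun κ' => AA β β' κ') atTop (𝓝 0) := by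
    rw [tendsto_zero_iff_abs_tendsto_zero]
    have h2 : Tendsto (fun κ' : ℝ => Phi β β' 0 / (4 * Real.pi) / κ' ^ 2) atTop (𝓝 0) := by
      refine Tendsto.div_atTop tendsto_const_nhds (tendsto_pow_atTop (by norm_num))
    refine squeeze_zero' (Eventually.of_forall (fun _ => abs_nonneg _)) ?_ h2
    filter_upwards [eventually_gt_atTop 0] with κ' hκ'
    exact (AA_int hPHI h0 h1 h0' h1' hκ').2
  have hM : Tendsto (fun κ' => MM β β' κ') atTop (𝓝 0) := by
    rw [tendsto_zero_iff_abs_tendsto_zero]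
    have h2 : Tendsto (fun κ' : ℝ => J / κ') atTop (𝓝 0) :=
      Tendsto.div_atTop tendsto_const_nhds tendsto_id
    refine squeeze_zero' (Eventually.of_forall (fun _ => abs_nonneg _)) ?_ h2
    filter_upwards [eventually_ge_atTop 1] with κ' hκ'
    exact hMM κ' hκ'
  have hE : Tendsto (fun κ' : ℝ => C' / Real.pi * Real.exp (-(4 * (1 - ε) * κ'))) atTop
      (𝓝 0) := by
    rw [← mul_zero (C' / Real.pi)]
    refine Tendsto.const_mul _ ?_
    refine Real.tendsto_exp_neg_atTop_nhds_zero.comp ?_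
    exact Tendsto.const_mul_atTop (by linarith) tendsto_id
  have hL : Tendsto (fun κ' => |AA β β' κ - AA β β' κ' - (MM β β' κ - MM β β' κ')|) atTop
      (𝓝 |AA β β' κ - 0 - (MM β β' κ - 0)|) :=
    ((tendsto_const_nhds.sub hA).sub (tendsto_const_nhds.sub hM)).abs
  have hR := (tendsto_const_nhds (x := C' / Real.pi * Real.exp (-(4 * (1 - ε) * κ)))).add hE
  rw [sub_zero, sub_zero] at hL
  rw [add_zero] at hR
  refine le_of_tendsto_of_tendsto hL hR ?_
  filter_upwards [eventually_gt_atTop κ] with κ' hκ'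
  exact hcmp κ κ' hκ hκ'

end Pool.Agent.H16F.B.H97
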