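import Pool.Agent.Helper16_FineB.Wedge51

/-!
The scattering equations between the two corners: iteration.
-/

namespace Pool.Agent.H16F.B.H51

open MeasureTheory Complex Filter Topology Pool.Agent.H16Iso Pool.Agent.H62T Pool.Agent.H16F
open scoped ENNReal NNReal

/-- one application of a diffraction operator -/
lemma op_int {q : ℝ → ℝ} (mq : Measurable q) {K : ℝ} (bq : ∀ w, |q w| ≤ K) {k : ℝ} (hk : 0 < k)
    {Y : ℝ → ℝ} (mY : Measurable Y) {D C : ℝ} (bY : ∀ w, 0 < w → |Y w| ≤ D * Real.exp (C * w)) :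
    IntegrableOn (fun w => q w * ep k w * Y w) (Set.Ioi 0) ∧
    |∫ w in Set.Ioi (0 : ℝ), q w * ep k w * Y w|
      ≤ D * (K * ∫ w in Set.Ioi (0 : ℝ), Real.exp (C * w) * ep k w) := by
  have hK : 0 ≤ K := (abs_nonneg _).trans (bq 0)
  have i1 : IntegrableOn (fun w => D * (K * (Real.exp (C * w) * ep k w))) (Set.Ioi 0) :=
    ((integrable_ep hk C).const_mul K).const_mul D
  have hb : ∀ᵐ w ∂(volume.restrict (Set.Ioi (0 : ℝ))),
      ‖q w * ep k w * Y w‖ ≤ D * (K * (Real.exp (C * w) * ep k w)) := by
    filter_upwards [ae_restrict_mem measurableSet_Ioi] with w hw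
    rw [norm_mul, norm_mul, Real.norm_eq_abs, Real.norm_eq_abs, Real.norm_eq_abs,
      abs_of_pos (ep_pos k w)]
    calc |q w| * ep k w * |Y w| ≤ K * ep k w * (D * Real.exp (C * w)) := by
          refine mul_le_mul (mul_le_mul_of_nonneg_right (bq w) (ep_pos _ _).le) (bY w hw)
            (abs_nonneg _) (mul_nonneg hK (ep_pos _ _).le)
      _ = _ := by ring
  refine ⟨Integrable.mono' i1 ((mq.mul (meas_ep k)).mul mY).aestronglyMeasurable hb, ?_⟩
  rw [← Real.norm_eq_abs, ← integral_const_mul, ← integral_const_mul]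
  exact norm_integral_le_of_norm_le i1 hb

/-- data of the iteration -/
structure ItH (F : Bool → ℝ → ℂ → ℝ) (q : Bool → ℝ → ℝ → ℝ) (k A C K : ℝ) (W : ℂ → ℝ) : Prop where
  k0 : 0 < k
  A0 : 0 ≤ A
  C0 : 0 ≤ C
  mF : ∀ b, Measurable (Function.uncurry (F b))
  mq : ∀ b, Measurable (Function.uncurry (q b))
  bF : ∀ b u, 0 < u → ∀ y, |F b u y| ≤ A * Real.exp (C * u) * W y
  bq : ∀ b u w, |q b u w| ≤ K
  W0 : ∀ y, 0 ≤ W y
  rho : K * (∫ w in Set.Ioi (0 : ℝ), Real.exp (C * w) * ep k w) ≤ 1 / 2

section iter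

variable (F : Bool → ℝ → ℂ → ℝ) (q : Bool → ℝ → ℝ → ℝ) (k : ℝ)

open Classical in
/-- the iteration -/
noncomputable def it : ℕ → Bool → ℝ → ℂ → ℝ
  | 0, _, _, _ => 0
  | n + 1, b, u, y =>
    if 0 < u then F b u y - ∫ w in Set.Ioi (0 : ℝ), q b u w * ep k w * it n (!b) w y else 0

variable {F q k} {A C K : ℝ} {W : ℂ → ℝ}

lemma op_meas {q : ℝ → ℝ → ℝ} (mq : Measurable (Function.uncurry q)) (k : ℝ) {Y : ℝ → ℂ → ℝ}
    (mY : Measurable (Function.uncurry Y)) :
    Measurable (Function.uncurry fun (u : ℝ) (y : ℂ) =>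
      ∫ w in Set.Ioi (0 : ℝ), q u w * ep k w * Y w y) := by
  have h1 : Measurable (Function.uncurry fun (p : ℝ × ℂ) (w : ℝ) => q p.1 w * ep k w * Y w p.2) := by
    have e1 : Measurable fun z : (ℝ × ℂ) × ℝ => q z.1.1 z.2 :=
      mq.comp ((measurable_fst.comp measurable_fst).prodMk measurable_snd)
    have e2 : Measurable fun z : (ℝ × ℂ) × ℝ => ep k z.2 := (meas_ep k).comp measurable_snd
    have e3 : Measurable fun z : (ℝ × ℂ) × ℝ => Y z.2 z.1.2 :=
      mY.comp (measurable_snd.prodMk (measurable_snd.comp measurable_fst))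
    exact (e1.mul e2).mul e3
  exact h1.stronglyMeasurable.integral_prod_right.measurable

lemma it_meas (h : ItH F q k A C K W) (n : ℕ) : ∀ b, Measurable (Function.uncurry (it F q k n b)) := by
  induction n with
  | zero => intro b; exact measurable_const
  | succ n ih =>
    intro b
    have h1 := (h.mF b).sub (op_meas (h.mq b) k (ih (!b)))
    have h2 : MeasurableSet {p : ℝ × ℂ | 0 < p.1} :=
      measurableSet_lt measurable_const measurable_fst
    exact Measurable.ite h2 h1 (measurable_const (a := (0 : ℝ)))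

lemma it_bound (h : ItH F q k A C K W) (n : ℕ) : ∀ b u, 0 < u → ∀ y,
    |it F q k n b u y| ≤ 2 * A * Real.exp (C * u) * W y := by
  have hnn : ∀ (u : ℝ) (y : ℂ), 0 ≤ 2 * A * Real.exp (C * u) * W y := fun u y =>
    mul_nonneg (mul_nonneg (mul_nonneg zero_le_two h.A0) (Real.exp_pos _).le) (h.W0 y)
  induction n with
  | zero => intro b u hu y; simpa [it] using hnn u y
  | succ n ih =>
    intro b u hu y
    have mq : Measurable fun w => q b u w := (h.mq b).comp (measurable_const.prodMk measurable_id)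
    have mi : Measurable fun w => it F q k n (!b) w y :=
      (it_meas h n (!b)).comp (measurable_id.prodMk measurable_const)
    have h1 := (op_int (D := 2 * A * W y) (C := C) mq (h.bq b u) h.k0 mi (fun w hw => by
        have := ih (!b) w hw y
        linarith)).2
    have h2 := h.bF b u hu y
    have h3 := h.rho
    have h4 : 1 ≤ Real.exp (C * u) := Real.one_le_exp (mul_nonneg h.C0 hu.le)
    have h5 : 0 ≤ A * W y := mul_nonneg h.A0 (h.W0 y)
    rw [it, if_pos hu]
    calc |F b u y - ∫ w in Set.Ioi (0 : ℝ), q b u w * ep k w * it F q k n (!b) w y|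
        ≤ |F b u y| + |∫ w in Set.Ioi (0 : ℝ), q b u w * ep k w * it F q k n (!b) w y| :=
          abs_sub _ _
      _ ≤ A * Real.exp (C * u) * W y + 2 * A * W y * (1 / 2) := by
          refine add_le_add h2 (h1.trans ?_)
          exact mul_le_mul_of_nonneg_left h3 (by linarith)
      _ = A * W y * Real.exp (C * u) + A * W y := by ring
      _ ≤ A * W y * Real.exp (C * u) + A * W y * Real.exp (C * u) := by nlinarith
      _ = _ := by ring

lemma it_diff (h : ItH F q k A C K W) (n : ℕ) : ∀ b u, 0 < u → ∀ y,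
    |it F q k (n + 1) b u y - it F q k n b u y| ≤ (1 / 2) ^ n * (A * W y) * Real.exp (C * u) := by
  induction n with
  | zero =>
    intro b u hu y
    have h2 := h.bF b u hu y
    simp only [it, if_pos hu, mul_zero, integral_zero, sub_zero, pow_zero, one_mul]
    linarith
  | succ n ih =>
    intro b u hu y
    have mq : Measurable fun w => q b u w := (h.mq b).comp (measurable_const.prodMk measurable_id)
    have mi : ∀ n, Measurable fun w => it F q k n (!b) w y := fun n =>
      (it_meas h n (!b)).comp (measurable_id.prodMk measurable_const)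
    have hi : ∀ n, IntegrableOn (fun w => q b u w * ep k w * it F q k n (!b) w y) (Set.Ioi 0) :=
      fun n => (op_int (D := 2 * A * W y) (C := C) mq (h.bq b u) h.k0 (mi n) (fun w hw => by
        have := it_bound h n (!b) w hw y
        linarith)).1
    have h1 := (op_int (D := (1 / 2) ^ n * (A * W y)) (C := C) mq (h.bq b u) h.k0
      ((mi (n + 1)).sub (mi n)) (fun w hw => ih (!b) w hw y)).2
    have h4 : 1 ≤ Real.exp (C * u) := Real.one_le_exp (mul_nonneg h.C0 hu.le)
    have h5 : 0 ≤ (1 / 2 : ℝ) ^ n * (A * W y) :=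
      mul_nonneg (by positivity) (mul_nonneg h.A0 (h.W0 y))
    have e : it F q k (n + 1 + 1) b u y - it F q k (n + 1) b u y
        = -∫ w in Set.Ioi (0 : ℝ), q b u w * ep k w *
          ((fun w => it F q k (n + 1) (!b) w y) - fun w => it F q k n (!b) w y) w := by
      rw [it, if_pos hu]
      conv_lhs => rw [show it F q k (n + 1) b u y = F b u y
        - ∫ w in Set.Ioi (0 : ℝ), q b u w * ep k w * it F q k n (!b) w y by rw [it, if_pos hu]]
      rw [sub_sub_sub_cancel_left, ← integral_sub (hi n) (hi (n + 1)), ← integral_neg]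
      refine integral_congr_ae (ae_of_all _ fun w => ?_)
      simp only [Pi.sub_apply]
      ring
    rw [e, abs_neg]
    refine h1.trans ?_
    calc (1 / 2 : ℝ) ^ n * (A * W y) * (K * ∫ w in Set.Ioi (0 : ℝ), Real.exp (C * w) * ep k w)
        ≤ (1 / 2 : ℝ) ^ n * (A * W y) * (1 / 2) := mul_le_mul_of_nonneg_left h.rho h5
      _ = (1 / 2 : ℝ) ^ (n + 1) * (A * W y) * 1 := by rw [pow_succ]; ring
      _ ≤ _ := by
        refine mul_le_mul_of_nonneg_left h4 ?_
        exact mul_nonneg (by positivity) (mul_nonneg h.A0 (h.W0 y))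

lemma it_lim (h : ItH F q k A C K W) (b : Bool) (u : ℝ) (y : ℂ) :
    ∃ z, Tendsto (fun n => it F q k n b u y) atTop (𝓝 z) := by
  rcases lt_or_ge 0 u with hu | hu
  · refine cauchySeq_tendsto_of_complete ?_
    refine cauchySeq_of_le_geometric (1 / 2) (A * W y * Real.exp (C * u)) (by norm_num) fun n => ?_
    rw [dist_comm, Real.dist_eq]
    refine (it_diff h n b u hu y).trans (le_of_eq ?_)
    ring
  · refine ⟨0, ?_⟩
    have : ∀ n, it F q k n b u y = 0 := by
      intro n
      cases n with
      | zero => rfl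
      | succ n => rw [it, if_neg (not_lt.2 hu)]
    simp only [this]
    exact tendsto_const_nhds

/-- the solution of the system -/
lemma it_exists (h : ItH F q k A C K W) : ∃ Z : Bool → ℝ → ℂ → ℝ,
    (∀ b, Measurable (Function.uncurry (Z b))) ∧
    (∀ b u, 0 < u → ∀ y, |Z b u y| ≤ 2 * A * Real.exp (C * u) * W y) ∧
    ∀ b u, 0 < u → ∀ y, Z b u y = F b u y
      - ∫ w in Set.Ioi (0 : ℝ), q b u w * ep k w * Z (!b) w y := by
  choose Z hZ using it_lim h
  have mZ : ∀ b, Measurable (Function.uncurry (Z b)) := by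
    intro b
    refine measurable_of_tendsto_metrizable (fun n => it_meas h n b) ?_
    exact tendsto_pi_nhds.2 fun p => hZ b p.1 p.2
  have bZ : ∀ b u, 0 < u → ∀ y, |Z b u y| ≤ 2 * A * Real.exp (C * u) * W y := fun b u hu y =>
    le_of_tendsto (hZ b u y).abs (Eventually.of_forall fun n => it_bound h n b u hu y)
  refine ⟨Z, mZ, bZ, fun b u hu y => ?_⟩
  have mq : Measurable fun w => q b u w := (h.mq b).comp (measurable_const.prodMk measurable_id)
  have h1 : Tendsto (fun n => it F q k (n + 1) b u y) atTop (𝓝 (F b u y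
      - ∫ w in Set.Ioi (0 : ℝ), q b u w * ep k w * Z (!b) w y)) := by
    have e : ∀ n, it F q k (n + 1) b u y = F b u y
        - ∫ w in Set.Ioi (0 : ℝ), q b u w * ep k w * it F q k n (!b) w y := by
      intro n; rw [it, if_pos hu]
    simp only [e]
    refine tendsto_const_nhds.sub ?_
    refine tendsto_integral_of_dominated_convergence
      (fun w => 2 * A * W y * (K * (Real.exp (C * w) * ep k w))) ?_ ?_ ?_ ?_
    · intro n
      exact ((mq.mul (meas_ep k)).mul ((it_meas h n (!b)).comp
        (measurable_id.prodMk measurable_const))).aestronglyMeasurable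
    · exact ((integrable_ep h.k0 C).const_mul K).const_mul _
    · intro n
      filter_upwards [ae_restrict_mem measurableSet_Ioi] with w hw
      rw [norm_mul, norm_mul, Real.norm_eq_abs, Real.norm_eq_abs, Real.norm_eq_abs,
        abs_of_pos (ep_pos k w)]
      have hK : 0 ≤ K := (abs_nonneg _).trans (h.bq b u w)
      calc |q b u w| * ep k w * |it F q k n (!b) w y|
          ≤ K * ep k w * (2 * A * Real.exp (C * w) * W y) := by
            refine mul_le_mul (mul_le_mul_of_nonneg_right (h.bq b u w) (ep_pos _ _).le)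
              (it_bound h n (!b) w hw y) (abs_nonneg _) (mul_nonneg hK (ep_pos _ _).le)
        _ = _ := by ring
    · exact ae_of_all _ fun w => (hZ (!b) w y).const_mul _
  exact tendsto_nhds_unique ((tendsto_add_atTop_iff_nat 1).2 (hZ b u y)) h1

end iter

end Pool.Agent.H16F.B.H51
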