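import Pool.Agent.Helper16_FineB.Wedge51

/-!
MAIN, part A: weak continuity of dilations, bounds and measurability of energies, the crossing
identities.
-/

namespace Pool.Agent.H16F.B.H61

open MeasureTheory Complex Filter Topology Pool.Agent.H16Iso Pool.Agent.H62T Pool.Agent.H16F
  Pool.Agent.H16F.B.H51
open scoped ENNReal NNReal ContDiff

lemma ip_sub_left (a a' b : ℂ) : ip (a - a') b = ip a b - ip a' b := by
  simp [ip]; ring

lemma ip_smul_left (r : ℝ) (a b : ℂ) : ip ((r : ℂ) * a) b = r * ip a b := by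
  simp [ip]; ring

lemma int_dil {F : ℂ → ℂ} (hF : Integrable F volume) {k : ℝ} (hk : 0 < k) :
    Integrable (fun x => F ((k : ℂ) * x)) volume := by
  have h := hF.comp_smul hk.ne'
  simpa only [Complex.real_smul] using h

lemma norm_dil (F : ℂ → ℂ) {k : ℝ} (hk : 0 < k) :
    ∫ x, ‖F ((k : ℂ) * x)‖ = (k ^ 2)⁻¹ * ∫ x, ‖F x‖ := by
  have := integral_dil (fun x => ‖F x‖) hk
  rw [this, smul_eq_mul]

lemma int_pair {p q : ℂ → ℂ} (hp : Integrable p volume) (hq : AEStronglyMeasurable q volume)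
    {M : ℝ} (hM : ∀ x, ‖q x‖ ≤ M) : Integrable (fun x => ip (p x) (q x)) volume := by
  refine Integrable.mono' (hp.norm.const_mul M)
    (ip_cont.comp_aestronglyMeasurable (hp.1.prodMk hq)) (ae_of_all _ fun x => ?_)
  rw [Real.norm_eq_abs]
  calc |ip (p x) (q x)| ≤ ‖p x‖ * ‖q x‖ := abs_ip_le _ _
    _ ≤ ‖p x‖ * M := mul_le_mul_of_nonneg_left (hM x) (norm_nonneg _)
    _ = M * ‖p x‖ := mul_comm _ _

lemma pair_le {p q : ℂ → ℂ} (hp : Integrable p volume)
    {M : ℝ} (hM : ∀ x, ‖q x‖ ≤ M) : |∫ x, ip (p x) (q x)| ≤ M * ∫ x, ‖p x‖ := by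
  rw [← integral_const_mul, ← Real.norm_eq_abs]
  refine norm_integral_le_of_norm_le (hp.norm.const_mul M) (ae_of_all _ fun x => ?_)
  rw [Real.norm_eq_abs]
  calc |ip (p x) (q x)| ≤ ‖p x‖ * ‖q x‖ := abs_ip_le _ _
    _ ≤ ‖p x‖ * M := mul_le_mul_of_nonneg_left (hM x) (norm_nonneg _)
    _ = M * ‖p x‖ := mul_comm _ _

/-- dilations are continuous (weak form) -/
lemma wk {F h : ℂ → ℂ} (hF : Integrable F volume) (hh : Integrable h volume) {M : ℝ}
    (hM : ∀ x, ‖h x‖ ≤ M) {kn : ℕ → ℝ} {k : ℝ} (hk : 0 < k) (hkn : ∀ n, k ≤ kn n)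
    (ht : Tendsto kn atTop (𝓝 k)) :
    Tendsto (fun n => ∫ x, ip (F ((kn n : ℂ) * x)) (h x)) atTop
      (𝓝 (∫ x, ip (F ((k : ℂ) * x)) (h x))) := by
  have hM0 : 0 ≤ M := (norm_nonneg _).trans (hM 0)
  rw [Metric.tendsto_atTop]
  intro ε hε
  set δ : ℝ := ε * k ^ 2 / (4 * (M + 1)) with hδ
  have hδ0 : 0 < δ := by positivity
  obtain ⟨g, hgc, hgd, hgcont, hgi⟩ := hF.exists_hasCompactSupport_integral_sub_le hδ0
  obtain ⟨B, hB⟩ := hgcont.bounded_above_of_compact_support hgc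
  have hlim : Tendsto (fun n => ∫ x, ip (g ((kn n : ℂ) * x)) (h x)) atTop
      (𝓝 (∫ x, ip (g ((k : ℂ) * x)) (h x))) := by
    refine tendsto_integral_of_dominated_convergence (fun x => B * ‖h x‖) ?_
      (hh.norm.const_mul B) ?_ ?_
    · intro n
      refine ip_cont.comp_aestronglyMeasurable (AEStronglyMeasurable.prodMk ?_ hh.1)
      exact (hgcont.comp (by fun_prop)).aestronglyMeasurable
    · intro n
      refine ae_of_all _ fun x => ?_
      rw [Real.norm_eq_abs]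
      exact (abs_ip_le _ _).trans (mul_le_mul_of_nonneg_right (hB _) (norm_nonneg _))
    · refine ae_of_all _ fun x => ?_
      have h1 : Tendsto (fun n => g ((kn n : ℂ) * x)) atTop (𝓝 (g ((k : ℂ) * x))) := by
        have hc : Continuous fun t : ℝ => g ((t : ℂ) * x) := hgcont.comp (by fun_prop)
        exact (hc.tendsto k).comp ht
      have h2 : Continuous fun z : ℂ => ip z (h x) :=
        ip_cont.comp (continuous_id.prodMk continuous_const)
      exact (h2.tendsto _).comp h1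
  rw [Metric.tendsto_atTop] at hlim
  obtain ⟨N, hN⟩ := hlim (ε / 2) (by linarith)
  have key : ∀ t : ℝ, k ≤ t → |(∫ x, ip (F ((t : ℂ) * x)) (h x))
      - ∫ x, ip (g ((t : ℂ) * x)) (h x)| ≤ ε / 4 := by
    intro t htk
    have ht0 : 0 < t := hk.trans_le htk
    rw [← integral_sub (int_pair (int_dil hF ht0) hh.1 hM) (int_pair (int_dil hgi ht0) hh.1 hM)]
    have e : ∀ x, ip (F ((t : ℂ) * x)) (h x) - ip (g ((t : ℂ) * x)) (h x)
        = ip ((fun y => F y - g y) ((t : ℂ) * x)) (h x) := fun x => (ip_sub_left _ _ _).symm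
    rw [integral_congr_ae (ae_of_all _ e)]
    refine (pair_le (int_dil (hF.sub hgi) ht0) hM).trans ?_
    have e2 : ∫ x, ‖(F - g) ((t : ℂ) * x)‖ = (t ^ 2)⁻¹ * ∫ x, ‖(F - g) x‖ := norm_dil _ ht0
    rw [e2]
    have h3 : (t ^ 2)⁻¹ ≤ (k ^ 2)⁻¹ := by
      apply inv_anti₀ (by positivity)
      exact pow_le_pow_left₀ hk.le htk 2
    have h4 : 0 ≤ ∫ x, ‖(F - g) x‖ := integral_nonneg fun x => norm_nonneg _
    have h5 : ∫ x, ‖(F - g) x‖ ≤ δ := hgd
    calc M * ((t ^ 2)⁻¹ * ∫ x, ‖(F - g) x‖) ≤ M * ((k ^ 2)⁻¹ * δ) := by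
          refine mul_le_mul_of_nonneg_left ?_ hM0
          exact mul_le_mul h3 h5 h4 (by positivity)
      _ = M / (M + 1) * (ε / 4) := by rw [hδ]; field_simp
      _ ≤ 1 * (ε / 4) := by
          refine mul_le_mul_of_nonneg_right ?_ (by linarith)
          rw [div_le_one (by linarith)]; linarith
      _ = ε / 4 := one_mul _
  refine ⟨N, fun n hn => ?_⟩
  have h1 := hN n hn
  rw [Real.dist_eq] at h1 ⊢
  have h2 := key (kn n) (hkn n)
  have h3 := key k le_rfl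
  rw [abs_le] at h2 h3
  rw [abs_lt] at h1 ⊢
  constructor <;> linarith [h2.1, h2.2, h3.1, h3.2, h1.1, h1.2]

/-- the constant of the exponential -/
noncomputable def JJ (c : ℝ) : ℝ := ∫ x : ℂ, Real.exp (-(c * ‖x‖))

lemma JJ_nonneg (c : ℝ) : 0 ≤ JJ c := integral_nonneg fun _ => (Real.exp_pos _).le

lemma JJ_shift (c : ℝ) (a : ℂ) : ∫ x : ℂ, Real.exp (-(c * ‖x - a‖)) = JJ c :=
  integral_sub_right_eq_self (fun x : ℂ => Real.exp (-(c * ‖x‖))) a

lemma int_of_bound {E : Type*} [NormedAddCommGroup E] {p : ℂ → E} {A c : ℝ} (hc : 0 < c) (a : ℂ)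
    (hm : AEStronglyMeasurable p volume)
    (hp : ∀ x, ‖p x‖ ≤ A * Real.exp (-(c * ‖x - a‖))) : Integrable p volume :=
  Integrable.mono' ((integrable_exp_norm hc a).const_mul A) hm (ae_of_all _ hp)

lemma pair_bound {p q : ℂ → ℂ} {A A' c : ℝ} (hc : 0 < c) (a : ℂ)
    (hA' : 0 ≤ A') (hm : AEStronglyMeasurable p volume)
    (hp : ∀ x, ‖p x‖ ≤ A * Real.exp (-(c * ‖x - a‖))) (hq : ∀ x, ‖q x‖ ≤ A') :
    |∫ x, ip (p x) (q x)| ≤ A * A' * JJ c := by
  have hi := int_of_bound hc a hm hp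
  refine (pair_le hi hq).trans ?_
  have h1 : ∫ x, ‖p x‖ ≤ A * JJ c := by
    rw [← JJ_shift c a, ← integral_const_mul]
    exact integral_mono hi.norm ((integrable_exp_norm hc a).const_mul A) hp
  calc A' * ∫ x, ‖p x‖ ≤ A' * (A * JJ c) := mul_le_mul_of_nonneg_left h1 hA'
    _ = _ := by ring

lemma ofReal_pair (p q : ℂ → ℝ) : ∫ x, p x * q x = ∫ x, ip (p x : ℂ) (q x : ℂ) := by
  refine integral_congr_ae (ae_of_all _ fun x => ?_)
  simp only
  rw [ip_ofReal]

/-- a family of functions with gradients and bounds -/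
structure BF (F : ℝ → ℂ → ℝ) (G : ℝ → ℂ → ℂ) (L C c : ℝ) (a : ℂ) : Prop where
  c0 : 0 < c
  L0 : 0 ≤ L
  mF : Measurable (Function.uncurry F)
  mG : Measurable (Function.uncurry G)
  bF : ∀ u, 0 < u → ∀ x, |F u x| ≤ L * Real.exp (C * u) * Real.exp (-(c * ‖x - a‖))
  bG : ∀ u, 0 < u → ∀ x, ‖G u x‖ ≤ L * Real.exp (C * u) * Real.exp (-(c * ‖x - a‖))

lemma exp_le_one' {c : ℝ} (hc : 0 < c) (x : ℂ) : Real.exp (-(c * ‖x‖)) ≤ 1 := by
  rw [Real.exp_le_one_iff]
  have := mul_nonneg hc.le (norm_nonneg x)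
  linarith

lemma BF.ip_bound {F F' : ℝ → ℂ → ℝ} {G G' : ℝ → ℂ → ℂ} {L C c : ℝ} {a a' : ℂ}
    (h : BF F G L C c a) (h' : BF F' G' L C c a') {u v : ℝ} (hu : 0 < u) (hv : 0 < v) :
    |∫ x, F u x * F' v x| ≤ L ^ 2 * JJ c * (Real.exp (C * u) * Real.exp (C * v)) := by
  rw [ofReal_pair]
  have m1 : Measurable (F u) := h.mF.comp measurable_prodMk_left
  refine (pair_bound (A := L * Real.exp (C * u)) (A' := L * Real.exp (C * v)) h.c0 a
    (mul_nonneg h.L0 (Real.exp_pos _).le)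
    (Complex.measurable_ofReal.comp m1).aestronglyMeasurable ?_ ?_).trans (le_of_eq (by ring))
  · intro x
    change ‖((F u x : ℝ) : ℂ)‖ ≤ _
    rw [Complex.norm_real, Real.norm_eq_abs]
    exact h.bF u hu x
  · intro x
    rw [Complex.norm_real, Real.norm_eq_abs]
    refine (h'.bF v hv x).trans ?_
    exact mul_le_of_le_one_right (mul_nonneg h.L0 (Real.exp_pos _).le) (exp_le_one' h.c0 _)

lemma BF.en_bound {F F' : ℝ → ℂ → ℝ} {G G' : ℝ → ℂ → ℂ} {L C c : ℝ} {a a' : ℂ}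
    (h : BF F G L C c a) (h' : BF F' G' L C c a') {u v : ℝ} (hu : 0 < u) (hv : 0 < v) (k : ℝ) :
    |en k (F u) (G u) (F' v) (G' v)|
      ≤ (1 + k ^ 2) * L ^ 2 * JJ c * (Real.exp (C * u) * Real.exp (C * v)) := by
  have h1 := h.ip_bound h' hu hv
  have m1 : Measurable (G u) := h.mG.comp measurable_prodMk_left
  have h2 : |∫ x, ip (G u x) (G' v x)|
      ≤ L ^ 2 * JJ c * (Real.exp (C * u) * Real.exp (C * v)) := by
    refine (pair_bound (A := L * Real.exp (C * u)) (A' := L * Real.exp (C * v)) h.c0 a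
      (mul_nonneg h.L0 (Real.exp_pos _).le) m1.aestronglyMeasurable (h.bG u hu) ?_).trans
      (le_of_eq (by ring))
    intro x
    refine (h'.bG v hv x).trans ?_
    exact mul_le_of_le_one_right (mul_nonneg h.L0 (Real.exp_pos _).le) (exp_le_one' h.c0 _)
  unfold en
  refine (abs_add_le _ _).trans ?_
  rw [abs_mul, abs_of_nonneg (by positivity : (0 : ℝ) ≤ k ^ 2)]
  have h3 := mul_le_mul_of_nonneg_left h1 (by positivity : (0 : ℝ) ≤ k ^ 2)
  linarith

lemma meas_pair {F H : ℝ → ℂ → ℂ} (mF : Measurable (Function.uncurry F))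
    (mH : Measurable (Function.uncurry H)) :
    Measurable fun z : ℝ × ℝ => ∫ x, ip (F z.1 x) (H z.2 x) := by
  have m : Measurable fun p : (ℝ × ℝ) × ℂ => ip (F p.1.1 p.2) (H p.1.2 p.2) := by
    have m1 : Measurable fun p : (ℝ × ℝ) × ℂ => F p.1.1 p.2 :=
      mF.comp ((measurable_fst.comp measurable_fst).prodMk measurable_snd)
    have m2 : Measurable fun p : (ℝ × ℝ) × ℂ => H p.1.2 p.2 :=
      mH.comp ((measurable_snd.comp measurable_fst).prodMk measurable_snd)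
    exact ip_cont.measurable.comp (m1.prodMk m2)
  exact (StronglyMeasurable.integral_prod_right' m.stronglyMeasurable).measurable

lemma BF.ip_meas {F F' : ℝ → ℂ → ℝ} {G G' : ℝ → ℂ → ℂ} {L C c : ℝ} {a a' : ℂ}
    (h : BF F G L C c a) (h' : BF F' G' L C c a') :
    Measurable fun z : ℝ × ℝ => ∫ x, F z.1 x * F' z.2 x := by
  simp only [ofReal_pair]
  exact meas_pair (F := fun u x => (F u x : ℂ)) (H := fun u x => (F' u x : ℂ))
    (Complex.measurable_ofReal.comp h.mF) (Complex.measurable_ofReal.comp h'.mF)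

lemma BF.en_meas {F F' : ℝ → ℂ → ℝ} {G G' : ℝ → ℂ → ℂ} {L C c : ℝ} {a a' : ℂ}
    (h : BF F G L C c a) (h' : BF F' G' L C c a') (k : ℝ) :
    Measurable fun z : ℝ × ℝ => en k (F z.1) (G z.1) (F' z.2) (G' z.2) := by
  unfold en
  exact (meas_pair h.mG h'.mG).add ((h.ip_meas h').const_mul _)

lemma BF.fin_sup {F : ℝ → ℂ → ℝ} {G : ℝ → ℂ → ℂ} {L C c : ℝ} {a : ℂ} (h : BF F G L C c a)
    {cc : ℝ → ℝ} {B k : ℝ} (hk : 0 < k) (hB : 0 ≤ B) (hcc : ∀ w, 0 < w → |cc w| ≤ B * ep k w) :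
    ∫⁻ w in Set.Ioi (0 : ℝ), ENNReal.ofReal |cc w| *
      (eLpNorm (F w) 2 volume + eLpNorm (G w) 2 volume) < ⊤ :=
  sup_fin hk h.c0 hB h.L0 h.L0 a a hcc
    (fun w hw x => by rw [Real.norm_eq_abs]; exact h.bF w hw x) h.bG

/-- the families at comparable scales have common bounds -/
lemma bf_l {S : ℝ → ℂ → ℝ} {g : ℝ → ℂ → ℂ} {C c k k' : ℝ} (w : WC S g C c) (hk : 0 < k)
    (h1 : k ≤ k') (h2 : k' ≤ k + 1) :
    BF (Sl k' S) (gl k' g) ((2 + k) * C) C (c * k) 0 := by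
  have hk' : 0 < k' := hk.trans_le h1
  have hC := w.C0
  have hc := w.c0
  have he : ∀ x : ℂ, Real.exp (-(c * k' * ‖x‖)) ≤ Real.exp (-(c * k * ‖x‖)) := by
    intro x
    apply Real.exp_le_exp.2
    have := mul_le_mul_of_nonneg_right (mul_le_mul_of_nonneg_left h1 hc.le) (norm_nonneg x)
    linarith
  refine ⟨mul_pos hc hk, by positivity, w.mSl k', w.mgl k', ?_, ?_⟩
  · intro u hu x
    refine (w.bSl hk' hu x).trans ?_
    refine mul_le_mul ?_ (he _) (Real.exp_pos _).le (by positivity)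
    refine mul_le_mul_of_nonneg_right ?_ (Real.exp_pos _).le
    nlinarith
  · intro u hu x
    refine (w.bgl hk' hu x).trans ?_
    refine mul_le_mul ?_ (he _) (Real.exp_pos _).le (by positivity)
    rw [← mul_assoc]
    refine mul_le_mul_of_nonneg_right ?_ (Real.exp_pos _).le
    nlinarith

lemma bf_r {S : ℝ → ℂ → ℝ} {g : ℝ → ℂ → ℂ} {C c k k' : ℝ} (w : WC S g C c) (hk : 0 < k)
    (h1 : k ≤ k') (h2 : k' ≤ k + 1) :
    BF (Sr k' S) (gr k' g) ((2 + k) * C) C (c * k) 1 := by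
  have hk' : 0 < k' := hk.trans_le h1
  have hC := w.C0
  have hc := w.c0
  have he : ∀ x : ℂ, Real.exp (-(c * k' * ‖x‖)) ≤ Real.exp (-(c * k * ‖x‖)) := by
    intro x
    apply Real.exp_le_exp.2
    have := mul_le_mul_of_nonneg_right (mul_le_mul_of_nonneg_left h1 hc.le) (norm_nonneg x)
    linarith
  refine ⟨mul_pos hc hk, by positivity, w.mSr k', w.mgr k', ?_, ?_⟩
  · intro u hu x
    refine (w.bSr hk' hu x).trans ?_
    refine mul_le_mul ?_ (he _) (Real.exp_pos _).le (by positivity)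
    refine mul_le_mul_of_nonneg_right ?_ (Real.exp_pos _).le
    nlinarith
  · intro u hu x
    refine (w.bgr hk' hu x).trans ?_
    refine mul_le_mul ?_ (he _) (Real.exp_pos _).le (by positivity)
    rw [← mul_assoc]
    refine mul_le_mul_of_nonneg_right ?_ (Real.exp_pos _).le
    nlinarith

/-- crossing identity in the left wedge -/
lemma idl (hG : GrbStatement) (hH : HarmStatement) {β β' : ℝ} (h0 : 0 < β) (h1 : β < Real.pi / 2)
    (h0' : 0 < β') (h1' : β' < Real.pi / 2) {S S' : ℝ → ℂ → ℝ} (hS : WP β S) (hS' : WP β' S')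
    {g g' : ℝ → ℂ → ℂ} {C c C' c' : ℝ} (w : WC S g C c) (w' : WC S' g' C' c') {k k' : ℝ}
    (hk : 0 < k) (hk' : 0 < k') {u v : ℝ} (hu : 0 < u) (hv : 0 < v) :
    en k (Sl k S u) (gl k g u) (Sr k' S' v) (gr k' g' v)
      = ∫ y in Set.Ioi (0 : ℝ), (bb β' v y * ep k' y) *
        en k (Sl k S u) (gl k g u) (Sl k' S y) (gl k' g y) := by
  refine crossAbs hG hH hk (W1_open β) (W1_convex β) (W1_nonempty h0 h1) (w.gradl hG hk hu)
    (fun φ hφ => wp_harml hS hk hu hφ) (w.mSl k') (w.mgl k') ((meas_bb1 β' v).mul (meas_ep k'))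
    (fun y hy => w.gradl hG hk' hy) ?_ (w'.gradr hG hk' hv) ?_
  · refine (bf_l w hk' le_rfl (by linarith)).fin_sup hk'
      (mul_nonneg two_pos.le (K0_nonneg h1')) fun y hy => ?_
    change |bb β' v y * ep k' y| ≤ _
    rw [abs_mul, abs_of_pos (ep_pos k' y)]
    exact mul_le_mul_of_nonneg_right (bb_bound h0' h1' v y) (ep_pos _ _).le
  · refine ae_of_all _ fun x hx => ?_
    rcases le_or_gt x.im 0 with hi | hi
    · rw [wp_sr_out hS' hk' hv hi]
      symm
      refine setIntegral_eq_zero_of_forall_eq_zero fun y hy => ?_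
      rw [wp_sl_out hS hk' hy hi, mul_zero]
    · rw [wp_sr_left hS' hk' hv hi ((re_neg_of_not_W1 h0 h1 hi hx).trans one_pos)]
      refine setIntegral_congr_fun measurableSet_Ioi fun y hy => ?_
      change _ = (bb β' v y * ep k' y) * Sl k' S y x
      rw [wp_sl_beyond hS hk' hy hi hx]

/-- crossing identity in the right wedge -/
lemma idr (hG : GrbStatement) (hH : HarmStatement) {β β' : ℝ} (h0 : 0 < β) (h1 : β < Real.pi / 2)
    (h0' : 0 < β') (h1' : β' < Real.pi / 2) {S S' : ℝ → ℂ → ℝ} (hS : WP β S) (hS' : WP β' S')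
    {g g' : ℝ → ℂ → ℂ} {C c C' c' : ℝ} (w : WC S g C c) (w' : WC S' g' C' c') {k k' : ℝ}
    (hk : 0 < k) (hk' : 0 < k') {u v : ℝ} (hu : 0 < u) (hv : 0 < v) :
    en k (Sr k S' u) (gr k g' u) (Sl k' S v) (gl k' g v)
      = ∫ y in Set.Ioi (0 : ℝ), (bb β v y * ep k' y) *
        en k (Sr k S' u) (gr k g' u) (Sr k' S' y) (gr k' g' y) := by
  refine crossAbs hG hH hk (W2_open β') (W2_convex β') (W2_nonempty h0' h1')
    (w'.gradr hG hk hu)
    (fun φ hφ => wp_harmr hS' hk hu hφ) (w'.mSr k') (w'.mgr k') ((meas_bb1 β v).mul (meas_ep k'))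
    (fun y hy => w'.gradr hG hk' hy) ?_ (w.gradl hG hk' hv) ?_
  · refine (bf_r w' hk' le_rfl (by linarith)).fin_sup hk'
      (mul_nonneg two_pos.le (K0_nonneg h1)) fun y hy => ?_
    change |bb β v y * ep k' y| ≤ _
    rw [abs_mul, abs_of_pos (ep_pos k' y)]
    exact mul_le_mul_of_nonneg_right (bb_bound h0 h1 v y) (ep_pos _ _).le
  · refine ae_of_all _ fun x hx => ?_
    rcases le_or_gt x.im 0 with hi | hi
    · rw [wp_sl_out hS hk' hv hi]
      symm
      refine setIntegral_eq_zero_of_forall_eq_zero fun y hy => ?_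
      rw [wp_sr_out hS' hk' hy hi, mul_zero]
    · rw [wp_sl_right hS hk' hv hi (one_pos.trans (re_gt_of_not_W2 h0' h1' hi hx))]
      refine setIntegral_congr_fun measurableSet_Ioi fun y hy => ?_
      change _ = (bb β v y * ep k' y) * Sr k' S' y x
      rw [wp_sr_beyond hS' hk' hy hi hx]

end Pool.Agent.H16F.B.H61
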