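import Pool.Agent.Helper16_FineB.MainA61

/-!
MAIN, part B: the algebra of the double integrals.
-/

namespace Pool.Agent.H16F.B.H61

open MeasureTheory Complex Filter Topology Pool.Agent.H16Iso Pool.Agent.H62T Pool.Agent.H16F
  Pool.Agent.H16F.B.H51
open scoped ENNReal NNReal ContDiff

/-- the measure on pairs of positive numbers -/
noncomputable abbrev mu2 : Measure (ℝ × ℝ) :=
  (volume.restrict (Set.Ioi (0 : ℝ))).prod (volume.restrict (Set.Ioi (0 : ℝ)))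

lemma mu2_pos : ∀ᵐ z ∂mu2, 0 < z.1 ∧ 0 < z.2 := by
  rw [mu2, Measure.prod_restrict]
  filter_upwards [ae_restrict_mem (measurableSet_Ioi.prod measurableSet_Ioi)] with z hz
  exact hz

/-- dominating function -/
noncomputable def dom (k C : ℝ) (z : ℝ × ℝ) : ℝ :=
  (Real.exp (C * z.1) * ep k z.1) * (Real.exp (C * z.2) * ep k z.2)

lemma dom_int {k : ℝ} (hk : 0 < k) (C : ℝ) : Integrable (dom k C) mu2 :=
  Integrable.mul_prod (integrable_ep hk C) (integrable_ep hk C)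

/-- the weighted integrand -/
noncomputable def wt (b : ℝ → ℝ → ℝ) (e1 e2 : ℝ → ℝ) (Ψ : ℝ × ℝ → ℝ) (z : ℝ × ℝ) : ℝ :=
  b z.1 z.2 * (e1 z.1 * e2 z.2) * Ψ z

lemma wt_meas {b : ℝ → ℝ → ℝ} {e1 e2 : ℝ → ℝ} {Ψ : ℝ × ℝ → ℝ}
    (mb : Measurable (Function.uncurry b)) (m1 : Measurable e1) (m2 : Measurable e2)
    (mΨ : Measurable Ψ) : Measurable (wt b e1 e2 Ψ) := by
  have h : Measurable fun z : ℝ × ℝ => b z.1 z.2 := mb
  exact (h.mul ((m1.comp measurable_fst).mul (m2.comp measurable_snd))).mul mΨ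

/-- admissible weights -/
structure AW (k D : ℝ) (e : ℝ → ℝ) : Prop where
  m : Measurable e
  b : ∀ u, 0 < u → |e u| ≤ D * (Real.exp u * ep k u)

lemma aw_ep {k k' : ℝ} (h : k ≤ k') : AW k 1 (ep k') := by
  refine ⟨meas_ep k', fun u hu => ?_⟩
  rw [abs_of_pos (ep_pos _ _), one_mul]
  have h1 := ep_anti h u
  have h2 : 1 ≤ Real.exp u := Real.one_le_exp hu.le
  have h3 := ep_pos k u
  nlinarith

lemma wt_bound {b : ℝ → ℝ → ℝ} {e1 e2 : ℝ → ℝ} {Ψ : ℝ × ℝ → ℝ} {B K C D1 D2 k : ℝ}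
    (hD1 : 0 ≤ D1) (hD2 : 0 ≤ D2)
    (hB : ∀ u v, |b u v| ≤ B) (h1 : AW k D1 e1) (h2 : AW k D2 e2)
    (hΨ : ∀ u v, 0 < u → 0 < v → |Ψ (u, v)| ≤ K * (Real.exp (C * u) * Real.exp (C * v)))
    {z : ℝ × ℝ} (hz1 : 0 < z.1) (hz2 : 0 < z.2) :
    |wt b e1 e2 Ψ z| ≤ B * D1 * D2 * K * dom k (C + 1) z := by
  have hB0 : 0 ≤ B := (abs_nonneg _).trans (hB 0 0)
  have a1 := h1.b z.1 hz1
  have a2 := h2.b z.2 hz2
  have a3 := hΨ z.1 z.2 hz1 hz2
  have p1 := ep_pos k z.1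
  have p2 := ep_pos k z.2
  have hK0 : 0 ≤ K * (Real.exp (C * z.1) * Real.exp (C * z.2)) := (abs_nonneg _).trans a3
  unfold wt
  rw [abs_mul, abs_mul, abs_mul]
  calc |b z.1 z.2| * (|e1 z.1| * |e2 z.2|) * |Ψ z|
      ≤ B * ((D1 * (Real.exp z.1 * ep k z.1)) * (D2 * (Real.exp z.2 * ep k z.2)))
        * (K * (Real.exp (C * z.1) * Real.exp (C * z.2))) := by
        refine mul_le_mul ?_ a3 (abs_nonneg _) (by positivity)
        refine mul_le_mul (hB _ _) ?_ (by positivity) hB0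
        exact mul_le_mul a1 a2 (abs_nonneg _) (by positivity)
    _ = B * D1 * D2 * K * dom k (C + 1) z := by
        unfold dom
        rw [show (C + 1) * z.1 = C * z.1 + z.1 by ring, show (C + 1) * z.2 = C * z.2 + z.2 by ring,
          Real.exp_add, Real.exp_add]
        ring

lemma wt_int {b : ℝ → ℝ → ℝ} {e1 e2 : ℝ → ℝ} {Ψ : ℝ × ℝ → ℝ} {B K C D1 D2 k : ℝ} (hk : 0 < k)
    (hD1 : 0 ≤ D1) (hD2 : 0 ≤ D2) (mb : Measurable (Function.uncurry b))
    (hB : ∀ u v, |b u v| ≤ B) (h1 : AW k D1 e1) (h2 : AW k D2 e2) (mΨ : Measurable Ψ)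
    (hΨ : ∀ u v, 0 < u → 0 < v → |Ψ (u, v)| ≤ K * (Real.exp (C * u) * Real.exp (C * v))) :
    Integrable (wt b e1 e2 Ψ) mu2 := by
  refine Integrable.mono' ((dom_int hk (C + 1)).const_mul (B * D1 * D2 * K))
    (wt_meas mb h1.m h2.m mΨ).aestronglyMeasurable ?_
  filter_upwards [mu2_pos] with z hz
  rw [Real.norm_eq_abs]
  exact wt_bound hD1 hD2 hB h1 h2 hΨ hz.1 hz.2

/-- iterated integrals -/
lemma iter {b : ℝ → ℝ → ℝ} {e1 e2 : ℝ → ℝ} {Ψ : ℝ × ℝ → ℝ}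
    (hi : Integrable (wt b e1 e2 Ψ) mu2) :
    ∫ u in Set.Ioi (0 : ℝ), e1 u * ∫ y in Set.Ioi (0 : ℝ), (b u y * e2 y) * Ψ (u, y)
      = ∫ z, wt b e1 e2 Ψ z ∂mu2 := by
  rw [integral_prod _ hi]
  refine integral_congr_ae (ae_of_all _ fun u => ?_)
  simp only
  rw [← integral_const_mul]
  refine integral_congr_ae (ae_of_all _ fun y => ?_)
  simp only [wt]
  ring

lemma iter_int {b : ℝ → ℝ → ℝ} {e1 e2 : ℝ → ℝ} {Ψ : ℝ × ℝ → ℝ}
    (hi : Integrable (wt b e1 e2 Ψ) mu2) :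
    Integrable (fun u => e1 u * ∫ y in Set.Ioi (0 : ℝ), (b u y * e2 y) * Ψ (u, y))
      (volume.restrict (Set.Ioi (0 : ℝ))) := by
  refine hi.integral_prod_left.congr (ae_of_all _ fun u => ?_)
  simp only
  rw [← integral_const_mul]
  refine integral_congr_ae (ae_of_all _ fun y => ?_)
  simp only [wt]
  ring

lemma wt_swap {b : ℝ → ℝ → ℝ} (hb : ∀ u v, b u v = b v u) (e1 e2 : ℝ → ℝ) (Ψ : ℝ × ℝ → ℝ) :
    ∫ z, wt b e1 e2 Ψ z ∂mu2 = ∫ z, wt b e2 e1 (fun z => Ψ z.swap) z ∂mu2 := by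
  rw [mu2, ← integral_prod_swap]
  refine integral_congr_ae (ae_of_all _ fun z => ?_)
  simp only [wt, Prod.fst_swap, Prod.snd_swap]
  rw [hb z.2 z.1]
  ring

lemma en_symm (k : ℝ) (f h : ℂ → ℝ) (gf gh : ℂ → ℂ) : en k f gf h gh = en k h gh f gf := by
  unfold en
  congr 1
  · exact integral_congr_ae (ae_of_all _ fun x => ip_symm _ _)
  · congr 1
    exact integral_congr_ae (ae_of_all _ fun x => mul_comm _ _)

lemma en_diff (k k' : ℝ) (f h : ℂ → ℝ) (gf gh : ℂ → ℂ) :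
    (k' ^ 2 - k ^ 2) * ∫ x, f x * h x = en k' f gf h gh - en k f gf h gh := by
  unfold en; ring

section

variable {k k' L C c B : ℝ} {A A' R R' : ℝ → ℂ → ℝ} {GA GA' GR GR' : ℝ → ℂ → ℂ}
  {b b' : ℝ → ℝ → ℝ} {e e' : ℝ → ℝ}

/-- the algebraic identity -/
lemma alg_main (hk : 0 < k) (hA : BF A GA L C c 0) (hA' : BF A' GA' L C c 0)
    (hR : BF R GR L C c 1) (hR' : BF R' GR' L C c 1)
    (mb : Measurable (Function.uncurry b)) (hB : ∀ u v, |b u v| ≤ B) (sb : ∀ u v, b u v = b v u)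
    (mb' : Measurable (Function.uncurry b')) (hB' : ∀ u v, |b' u v| ≤ B)
    (sb' : ∀ u v, b' u v = b' v u) (he : AW k 1 e) (he' : AW k 1 e')
    (i1 : ∀ u v, 0 < u → 0 < v → en k (A u) (GA u) (R' v) (GR' v)
      = ∫ y in Set.Ioi (0 : ℝ), (b' v y * e' y) * en k (A u) (GA u) (A' y) (GA' y))
    (i2 : ∀ u v, 0 < u → 0 < v → en k' (A' u) (GA' u) (R v) (GR v)
      = ∫ y in Set.Ioi (0 : ℝ), (b' v y * e y) * en k' (A' u) (GA' u) (A y) (GA y))
    (i3 : ∀ u v, 0 < u → 0 < v → en k (R u) (GR u) (A' v) (GA' v)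
      = ∫ y in Set.Ioi (0 : ℝ), (b v y * e' y) * en k (R u) (GR u) (R' y) (GR' y))
    (i4 : ∀ u v, 0 < u → 0 < v → en k' (R' u) (GR' u) (A v) (GA v)
      = ∫ y in Set.Ioi (0 : ℝ), (b v y * e y) * en k' (R' u) (GR' u) (R y) (GR y)) :
    (k' ^ 2 - k ^ 2) * ((∫ u in Set.Ioi (0 : ℝ), e u * ∫ x, A u x * R' u x)
        + (∫ u in Set.Ioi (0 : ℝ), e' u * ∫ x, A' u x * R u x)
        - (∫ z, wt b' e e' (fun z => ∫ x, A z.1 x * A' z.2 x) z ∂mu2)
        - ∫ z, wt b e e' (fun z => ∫ x, R z.1 x * R' z.2 x) z ∂mu2)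
      = (∫ z, wt b (fun u => e u - e' u) e
          (fun z => en k' (R' z.1) (GR' z.1) (R z.2) (GR z.2)) z ∂mu2)
        + ∫ z, wt b (fun u => e u - e' u) e'
          (fun z => en k (R z.1) (GR z.1) (R' z.2) (GR' z.2)) z ∂mu2 := by
  -- integrability
  have one : (0 : ℝ) ≤ 1 := zero_le_one
  have j1 : Integrable (wt b e e (fun z => en k' (R' z.1) (GR' z.1) (R z.2) (GR z.2))) mu2 :=
    wt_int hk one one mb hB he he (hR'.en_meas hR k') fun u v hu hv => hR'.en_bound hR hu hv k'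
  have j1' : Integrable (wt b e' e (fun z => en k' (R' z.1) (GR' z.1) (R z.2) (GR z.2))) mu2 :=
    wt_int hk one one mb hB he' he (hR'.en_meas hR k') fun u v hu hv => hR'.en_bound hR hu hv k'
  have j2 : Integrable (wt b' e e' (fun z => en k (A z.1) (GA z.1) (A' z.2) (GA' z.2))) mu2 :=
    wt_int hk one one mb' hB' he he' (hA.en_meas hA' k) fun u v hu hv => hA.en_bound hA' hu hv k
  have j3 : Integrable (wt b' e' e (fun z => en k' (A' z.1) (GA' z.1) (A z.2) (GA z.2))) mu2 :=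
    wt_int hk one one mb' hB' he' he (hA'.en_meas hA k') fun u v hu hv => hA'.en_bound hA hu hv k'
  have j4 : Integrable (wt b e' e' (fun z => en k (R z.1) (GR z.1) (R' z.2) (GR' z.2))) mu2 :=
    wt_int hk one one mb hB he' he' (hR.en_meas hR' k) fun u v hu hv => hR.en_bound hR' hu hv k
  have j4' : Integrable (wt b e e' (fun z => en k (R z.1) (GR z.1) (R' z.2) (GR' z.2))) mu2 :=
    wt_int hk one one mb hB he he' (hR.en_meas hR' k) fun u v hu hv => hR.en_bound hR' hu hv k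
  have j5 : Integrable (wt b' e e' (fun z => ∫ x, A z.1 x * A' z.2 x)) mu2 :=
    wt_int hk one one mb' hB' he he' (hA.ip_meas hA') fun u v hu hv => hA.ip_bound hA' hu hv
  have j6 : Integrable (wt b e e' (fun z => ∫ x, R z.1 x * R' z.2 x)) mu2 :=
    wt_int hk one one mb hB he he' (hR.ip_meas hR') fun u v hu hv => hR.ip_bound hR' hu hv
  -- the four terms
  have t1 : (k' ^ 2 - k ^ 2) * (∫ u in Set.Ioi (0 : ℝ), e u * ∫ x, A u x * R' u x)
      = (∫ z, wt b e e (fun z => en k' (R' z.1) (GR' z.1) (R z.2) (GR z.2)) z ∂mu2)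
        - ∫ z, wt b' e e' (fun z => en k (A z.1) (GA z.1) (A' z.2) (GA' z.2)) z ∂mu2 := by
    rw [← iter j1, ← iter j2, ← integral_const_mul, ← integral_sub (iter_int j1) (iter_int j2)]
    refine setIntegral_congr_fun measurableSet_Ioi fun u hu => ?_
    simp only
    rw [← i4 u u hu hu, ← i1 u u hu hu, en_symm k' (R' u), mul_left_comm,
      en_diff k k' (A u) (R' u) (GA u) (GR' u)]
    ring
  have t2 : (k' ^ 2 - k ^ 2) * (∫ u in Set.Ioi (0 : ℝ), e' u * ∫ x, A' u x * R u x)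
      = (∫ z, wt b' e' e (fun z => en k' (A' z.1) (GA' z.1) (A z.2) (GA z.2)) z ∂mu2)
        - ∫ z, wt b e' e' (fun z => en k (R z.1) (GR z.1) (R' z.2) (GR' z.2)) z ∂mu2 := by
    rw [← iter j3, ← iter j4, ← integral_const_mul, ← integral_sub (iter_int j3) (iter_int j4)]
    refine setIntegral_congr_fun measurableSet_Ioi fun u hu => ?_
    simp only
    rw [← i2 u u hu hu, ← i3 u u hu hu, en_symm k (R u), mul_left_comm,
      en_diff k k' (A' u) (R u) (GA' u) (GR u)]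
    ring
  have t3 : (∫ z, wt b' e' e (fun z => en k' (A' z.1) (GA' z.1) (A z.2) (GA z.2)) z ∂mu2)
      = (∫ z, wt b' e e' (fun z => en k (A z.1) (GA z.1) (A' z.2) (GA' z.2)) z ∂mu2)
        + (k' ^ 2 - k ^ 2) * ∫ z, wt b' e e' (fun z => ∫ x, A z.1 x * A' z.2 x) z ∂mu2 := by
    rw [wt_swap sb', ← integral_const_mul, ← integral_add j2 (j5.const_mul _)]
    refine integral_congr_ae (ae_of_all _ fun z => ?_)
    have := en_diff k k' (A z.1) (A' z.2) (GA z.1) (GA' z.2)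
    simp only [wt, Prod.fst_swap, Prod.snd_swap]
    rw [en_symm k' (A' z.2)]
    linear_combination (-(b' z.1 z.2 * (e z.1 * e' z.2))) * this
  have t4 : (∫ z, wt b e' e (fun z => en k' (R' z.1) (GR' z.1) (R z.2) (GR z.2)) z ∂mu2)
      = (∫ z, wt b e e' (fun z => en k (R z.1) (GR z.1) (R' z.2) (GR' z.2)) z ∂mu2)
        + (k' ^ 2 - k ^ 2) * ∫ z, wt b e e' (fun z => ∫ x, R z.1 x * R' z.2 x) z ∂mu2 := by
    rw [wt_swap sb, ← integral_const_mul, ← integral_add j4' (j6.const_mul _)]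
    refine integral_congr_ae (ae_of_all _ fun z => ?_)
    have := en_diff k k' (R z.1) (R' z.2) (GR z.1) (GR' z.2)
    simp only [wt, Prod.fst_swap, Prod.snd_swap]
    rw [en_symm k' (R' z.2)]
    linear_combination (-(b z.1 z.2 * (e z.1 * e' z.2))) * this
  have t5 : (∫ z, wt b (fun u => e u - e' u) e
        (fun z => en k' (R' z.1) (GR' z.1) (R z.2) (GR z.2)) z ∂mu2)
      = (∫ z, wt b e e (fun z => en k' (R' z.1) (GR' z.1) (R z.2) (GR z.2)) z ∂mu2)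
        - ∫ z, wt b e' e (fun z => en k' (R' z.1) (GR' z.1) (R z.2) (GR z.2)) z ∂mu2 := by
    rw [← integral_sub j1 j1']
    refine integral_congr_ae (ae_of_all _ fun z => ?_)
    simp only [wt]; ring
  have t6 : (∫ z, wt b (fun u => e u - e' u) e'
        (fun z => en k (R z.1) (GR z.1) (R' z.2) (GR' z.2)) z ∂mu2)
      = (∫ z, wt b e e' (fun z => en k (R z.1) (GR z.1) (R' z.2) (GR' z.2)) z ∂mu2)
        - ∫ z, wt b e' e' (fun z => en k (R z.1) (GR z.1) (R' z.2) (GR' z.2)) z ∂mu2 := by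
    rw [← integral_sub j4' j4]
    refine integral_congr_ae (ae_of_all _ fun z => ?_)
    simp only [wt]; ring
  rw [t5, t6]
  linear_combination t1 + t2 + t3 + t4

end

end Pool.Agent.H16F.B.H61
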