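import Pool.Agent.Helper16_FineB.PsiSub69
import Pool.Agent.Helper69_Fine.ParamAn

/-!
Module PSI, part 3: analyticity of `psi`.
-/

namespace Pool.Agent.H16F.B.H69

open MeasureTheory Filter Topology Set Pool.Agent.H16F.H69
open scoped ENNReal NNReal

/-- complex square root -/
noncomputable def sqC (z : ℂ) : ℂ := z ^ (1 / 2 : ℂ)

/-- complex inverse hyperbolic sine -/
noncomputable def asC (z : ℂ) : ℂ := Complex.log (z + sqC (1 + z ^ 2))

/-- complex diffraction kernel -/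
noncomputable def KC (β : ℝ) (z : ℂ) : ℂ :=
  (kc β : ℂ) / (Complex.cosh ((2 * nu β : ℝ) * z) - (Real.cos (2 * Real.pi * nu β) : ℝ))

theorem sqC_real {x : ℝ} (hx : 0 ≤ x) : sqC (x : ℂ) = ((√x : ℝ) : ℂ) := by
  unfold sqC
  rw [Real.sqrt_eq_rpow, Complex.ofReal_cpow hx]
  norm_num

theorem sqC_an {x : ℝ} (hx : 0 < x) : AnalyticAt ℂ sqC (x : ℂ) := by
  have : sqC = fun z : ℂ => z ^ (1 / 2 : ℂ) := rfl
  rw [this]
  exact analyticAt_id.cpow analyticAt_const (Or.inl (by simpa using hx))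

theorem asC_real (x : ℝ) : asC (x : ℂ) = ((Real.arsinh x : ℝ) : ℂ) := by
  have h1 : (1 : ℂ) + (x : ℂ) ^ 2 = ((1 + x ^ 2 : ℝ) : ℂ) := by push_cast; ring
  have h2 : 0 < x + √(1 + x ^ 2) := by
    rw [← Real.exp_arsinh]; exact Real.exp_pos _
  unfold asC
  rw [h1, sqC_real (by positivity), ← Complex.ofReal_add, ← Complex.ofReal_log h2.le]
  rfl

theorem asC_an (x : ℝ) : AnalyticAt ℂ asC (x : ℂ) := by
  have h1 : (1 : ℂ) + (x : ℂ) ^ 2 = ((1 + x ^ 2 : ℝ) : ℂ) := by push_cast; ring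
  have h2 : 0 < x + √(1 + x ^ 2) := by
    rw [← Real.exp_arsinh]; exact Real.exp_pos _
  have e1 : AnalyticAt ℂ (fun z : ℂ => sqC (1 + z ^ 2)) (x : ℂ) := by
    refine AnalyticAt.comp' (g := sqC) (f := fun z : ℂ => 1 + z ^ 2) ?_ (by fun_prop)
    rw [h1]
    exact sqC_an (by positivity)
  have e2 : AnalyticAt ℂ (fun z : ℂ => z + sqC (1 + z ^ 2)) (x : ℂ) := analyticAt_id.add e1
  refine e2.clog ?_
  rw [h1, sqC_real (by positivity), ← Complex.ofReal_add]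
  exact Or.inl (by simpa using h2)

theorem KC_den {β : ℝ} (h0 : 0 < β) (h1 : β < Real.pi / 2) (x : ℝ) :
    Complex.cosh ((2 * nu β : ℝ) * (x : ℂ)) - (Real.cos (2 * Real.pi * nu β) : ℝ)
      = ((Real.cosh (2 * nu β * x) - Real.cos (2 * Real.pi * nu β) : ℝ) : ℂ) := by
  rw [Complex.ofReal_sub, Complex.ofReal_cosh, ← Complex.ofReal_mul]

theorem KC_real {β : ℝ} (h0 : 0 < β) (h1 : β < Real.pi / 2) (x : ℝ) :
    KC β (x : ℂ) = ((KK β x : ℝ) : ℂ) := by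
  unfold KC
  rw [KC_den h0 h1, KK_def, Complex.ofReal_div]

theorem KC_an {β : ℝ} (h0 : 0 < β) (h1 : β < Real.pi / 2) (x : ℝ) :
    AnalyticAt ℂ (KC β) (x : ℂ) := by
  have e1 : AnalyticAt ℂ (fun z : ℂ => Complex.cosh ((2 * nu β : ℝ) * z)
      - (Real.cos (2 * Real.pi * nu β) : ℝ)) (x : ℂ) := by
    have hd : Differentiable ℂ (fun z : ℂ => Complex.cosh ((2 * nu β : ℝ) * z)
      - (Real.cos (2 * Real.pi * nu β) : ℝ)) := by
      have := Complex.differentiable_cosh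
      fun_prop
    exact hd.analyticAt _
  have : KC β = fun z : ℂ => (kc β : ℂ) / (Complex.cosh ((2 * nu β : ℝ) * z)
      - (Real.cos (2 * Real.pi * nu β) : ℝ)) := rfl
  rw [this]
  refine analyticAt_const.div e1 ?_
  rw [KC_den h0 h1]
  exact Complex.ofReal_ne_zero.2 (by linarith [KK_den h0 h1 x] : (0:ℝ) < _).ne'

variable {β β' : ℝ}

/-- complex integrand, first argument of the kernels -/
noncomputable def gA (q : ℂ × ℝ) : ℂ := asC (sqC (q.1 ^ 2 / 4 - 1) * (Real.sin q.2 : ℝ))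

/-- complex integrand, denominator -/
noncomputable def gc (q : ℂ × ℝ) : ℂ := sqC (1 + (q.1 ^ 2 / 4 - 1) * ((Real.sin q.2 : ℝ) : ℂ) ^ 2)

/-- complex integrand, second argument of the kernels -/
noncomputable def gB (q : ℂ × ℝ) : ℂ :=
  asC (sqC (q.1 ^ 2 / 4 - 1) * (Real.cos q.2 : ℝ) / gc q)

/-- complex integrand -/
noncomputable def gG (β β' : ℝ) (q : ℂ × ℝ) : ℂ :=
  (KC β (2 * gA q) - KC β (2 * gB q)) * (KC β' (2 * gA q) - KC β' (2 * gB q)) / gc q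

section

variable {l : ℝ} (hl : 2 < l) (φ : ℝ)

include hl in
theorem q_pos : 0 < l ^ 2 / 4 - 1 := by nlinarith

theorem q_cast : ((l : ℂ) ^ 2 / 4 - 1) = ((l ^ 2 / 4 - 1 : ℝ) : ℂ) := by push_cast; ring

include hl in
theorem gc_real : gc ((l : ℂ), φ) = ((√(1 + (l ^ 2 / 4 - 1) * Real.sin φ ^ 2) : ℝ) : ℂ) := by
  have h := q_pos hl
  unfold gc
  simp only
  rw [q_cast, ← sqC_real (by positivity)]
  congr 1
  push_cast
  ring

include hl in
theorem gc_good : Good gc ((l : ℂ), φ) := by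
  have h := q_pos hl
  have e : Good (fun q : ℂ × ℝ => 1 + (q.1 ^ 2 / 4 - 1) * ((Real.sin q.2 : ℝ) : ℂ) ^ 2)
      ((l : ℂ), φ) := by
    have a1 : Good (fun q : ℂ × ℝ => q.1 ^ 2 / 4 - 1) ((l : ℂ), φ) :=
      (Good.fst _).comp (f := fun z => z ^ 2 / 4 - 1) (by fun_prop)
    have a2 : Good (fun q : ℂ × ℝ => ((Real.sin q.2 : ℝ) : ℂ) ^ 2) ((l : ℂ), φ) :=
      Good.snd (f := fun t => ((Real.sin t : ℝ) : ℂ) ^ 2) (by fun_prop) _
    exact (Good.const 1 _).add (a1.mul a2)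
  refine e.comp (f := sqC) ?_
  simp only
  have : (1 : ℂ) + ((l : ℂ) ^ 2 / 4 - 1) * ((Real.sin φ : ℝ) : ℂ) ^ 2
      = ((1 + (l ^ 2 / 4 - 1) * Real.sin φ ^ 2 : ℝ) : ℂ) := by push_cast; ring
  rw [this]
  exact sqC_an (by positivity)

include hl in
theorem gR_good : Good (fun q : ℂ × ℝ => sqC (q.1 ^ 2 / 4 - 1)) ((l : ℂ), φ) := by
  have h := q_pos hl
  have a1 : Good (fun q : ℂ × ℝ => q.1 ^ 2 / 4 - 1) ((l : ℂ), φ) :=
    (Good.fst _).comp (f := fun z => z ^ 2 / 4 - 1) (by fun_prop)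
  refine a1.comp (f := sqC) ?_
  simp only
  rw [q_cast]
  exact sqC_an h

include hl in
theorem gA_arg : sqC ((l : ℂ) ^ 2 / 4 - 1) * (Real.sin φ : ℝ)
    = ((√(l ^ 2 / 4 - 1) * Real.sin φ : ℝ) : ℂ) := by
  rw [q_cast, sqC_real (q_pos hl).le, Complex.ofReal_mul]

include hl in
theorem gA_real : gA ((l : ℂ), φ) = ((Real.arsinh (√(l ^ 2 / 4 - 1) * Real.sin φ) : ℝ) : ℂ) := by
  unfold gA
  simp only
  rw [gA_arg hl, asC_real]

include hl in
theorem gA_good : Good gA ((l : ℂ), φ) := by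
  have a2 : Good (fun q : ℂ × ℝ => ((Real.sin q.2 : ℝ) : ℂ)) ((l : ℂ), φ) :=
    Good.snd (f := fun t => ((Real.sin t : ℝ) : ℂ)) (by fun_prop) _
  refine ((gR_good hl φ).mul a2).comp (f := asC) ?_
  simp only
  rw [gA_arg hl]
  exact asC_an _

include hl in
theorem gB_arg : sqC ((l : ℂ) ^ 2 / 4 - 1) * (Real.cos φ : ℝ) / gc ((l : ℂ), φ)
    = ((√(l ^ 2 / 4 - 1) * Real.cos φ / √(1 + (l ^ 2 / 4 - 1) * Real.sin φ ^ 2) : ℝ) : ℂ) := by
  rw [q_cast, sqC_real (q_pos hl).le, gc_real hl, Complex.ofReal_div, Complex.ofReal_mul]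

include hl in
theorem gB_real : gB ((l : ℂ), φ) = ((Real.arsinh (√(l ^ 2 / 4 - 1) * Real.cos φ
    / √(1 + (l ^ 2 / 4 - 1) * Real.sin φ ^ 2)) : ℝ) : ℂ) := by
  unfold gB
  simp only
  rw [gB_arg hl, asC_real]

include hl in
theorem gc_ne : gc ((l : ℂ), φ) ≠ 0 := by
  have h := q_pos hl
  rw [gc_real hl]
  exact Complex.ofReal_ne_zero.2 (Real.sqrt_pos.2 (by positivity)).ne'

include hl in
theorem gB_good : Good gB ((l : ℂ), φ) := by
  have a2 : Good (fun q : ℂ × ℝ => ((Real.cos q.2 : ℝ) : ℂ)) ((l : ℂ), φ) :=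
    Good.snd (f := fun t => ((Real.cos t : ℝ) : ℂ)) (by fun_prop) _
  refine (((gR_good hl φ).mul a2).div (gc_good hl φ) (gc_ne hl φ)).comp (f := asC) ?_
  simp only
  rw [gB_arg hl]
  exact asC_an _

include hl in
theorem gK_good {g : ℂ × ℝ → ℂ} {x : ℝ} (hg : Good g ((l : ℂ), φ)) (hx : g ((l : ℂ), φ) = (x : ℂ))
    (h0 : 0 < β) (h1 : β < Real.pi / 2) : Good (fun q => KC β (2 * g q)) ((l : ℂ), φ) := by
  refine ((Good.const 2 _).mul hg).comp (f := KC β) ?_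
  rw [hx]
  have : (2 : ℂ) * (x : ℂ) = ((2 * x : ℝ) : ℂ) := by push_cast; ring
  rw [this]
  exact KC_an h0 h1 _

include hl in
theorem gG_good (h0 : 0 < β) (h1 : β < Real.pi / 2) (h0' : 0 < β') (h1' : β' < Real.pi / 2) :
    Good (gG β β') ((l : ℂ), φ) :=
  (((gK_good hl φ (gA_good hl φ) (gA_real hl φ) h0 h1).sub
    (gK_good hl φ (gB_good hl φ) (gB_real hl φ) h0 h1)).mul
    ((gK_good hl φ (gA_good hl φ) (gA_real hl φ) h0' h1').sub
      (gK_good hl φ (gB_good hl φ) (gB_real hl φ) h0' h1'))).div (gc_good hl φ) (gc_ne hl φ)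

include hl in
theorem gG_real (h0 : 0 < β) (h1 : β < Real.pi / 2) (h0' : 0 < β') (h1' : β' < Real.pi / 2) :
    gG β β' ((l : ℂ), φ) = ((pI β β' l φ : ℝ) : ℂ) := by
  have e : ∀ x : ℝ, (2 : ℂ) * (x : ℂ) = ((2 * x : ℝ) : ℂ) := fun x => by push_cast; ring
  unfold gG pI
  rw [gA_real hl, gB_real hl, gc_real hl, e, e, KC_real h0 h1, KC_real h0 h1, KC_real h0' h1',
    KC_real h0' h1', Complex.ofReal_div, Complex.ofReal_mul, Complex.ofReal_sub,
    Complex.ofReal_sub]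

include hl in
theorem psi_an (h0 : 0 < β) (h1 : β < Real.pi / 2) (h0' : 0 < β') (h1' : β' < Real.pi / 2) :
    AnalyticAt ℝ (psi β β') l := by
  have hpi := Real.pi_pos
  have a1 : AnalyticAt ℂ (fun z => ∫ t in (0 : ℝ)..(Real.pi / 2), gG β β' (z, t)) (l : ℂ) :=
    good_integral (by linarith) fun t _ => gG_good hl t h0 h1 h0' h1'
  have a2 : AnalyticAt ℝ (fun x : ℝ => (x : ℂ)) l := Complex.ofRealCLM.analyticAt l
  have a3 : AnalyticAt ℝ (fun x : ℝ => ∫ t in (0 : ℝ)..(Real.pi / 2), gG β β' ((x : ℂ), t)) l :=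
    AnalyticAt.comp' (f := fun x : ℝ => (x : ℂ)) (a1.restrictScalars (𝕜 := ℝ)) a2
  have a4 : AnalyticAt ℝ (fun x : ℝ => (∫ t in (0 : ℝ)..(Real.pi / 2), gG β β' ((x : ℂ), t)).re) l :=
    AnalyticAt.comp' (g := fun z : ℂ => z.re) (Complex.reCLM.analyticAt _) a3
  refine a4.congr ?_
  filter_upwards [Ioi_mem_nhds hl] with x hx
  have hx' : 2 < x := hx
  rw [intervalIntegral.integral_congr (g := fun t => ((pI β β' x t : ℝ) : ℂ))
    fun t _ => gG_real hx' t h0 h1 h0' h1', intervalIntegral.integral_ofReal,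
    Complex.ofReal_re, psi_eq]

end

/-- PSI -/
theorem psiS : PsiStatement := by
  intro β β' h0 h1 h0' h1'
  have han : AnalyticOnNhd ℝ (psi β β') (Ioi 2) := fun l hl => psi_an hl h0 h1 h0' h1'
  exact ⟨han, fun l hl => psi_pos h0 h1 h0' h1' hl, psi_symm β β', fun a ha =>
    tau_psi h0 h1 h0' h1' han.continuousOn ha⟩

end Pool.Agent.H16F.B.H69
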