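import Pool.Agent.Helper16_FineB.Stmt

/-!
Module PSI, part 1: the diffraction kernel, and the symmetrisation of `tau`.
-/

namespace Pool.Agent.H16F.B.H69

open MeasureTheory Filter Topology Set
open scoped ENNReal NNReal

theorem nu_gt {β : ℝ} (h0 : 0 < β) (h1 : β < Real.pi / 2) : 1 / 2 < nu β := by
  have hpi := Real.pi_pos
  unfold nu
  rw [lt_div_iff₀ (by linarith)]
  linarith

theorem nu_lt {β : ℝ} (h0 : 0 < β) (h1 : β < Real.pi / 2) : nu β < 1 := by
  have hpi := Real.pi_pos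
  unfold nu
  rw [div_lt_iff₀ (by linarith)]
  linarith

theorem cos_nu_neg {β : ℝ} (h0 : 0 < β) (h1 : β < Real.pi / 2) :
    Real.cos (2 * Real.pi * nu β) < 1 := by
  have hpi := Real.pi_pos
  have h2 := nu_gt h0 h1
  have h3 := nu_lt h0 h1
  refine lt_of_le_of_ne (Real.cos_le_one _) fun he => ?_
  obtain ⟨k, hk⟩ := (Real.cos_eq_one_iff _).1 he
  have h3' : (k : ℝ) = nu β := by
    have : (2 * Real.pi) * ((k : ℝ) - nu β) = 0 := by linarith
    rcases mul_eq_zero.1 this with h | h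
    · linarith
    · linarith
  have h4 : (0 : ℝ) < k := by rw [h3']; linarith
  have h5 : (k : ℝ) < 1 := by rw [h3']; exact h3
  have h6 : (0 : ℤ) < k := by exact_mod_cast h4
  have h7 : k < (1 : ℤ) := by exact_mod_cast h5
  omega

theorem sin_nu_neg {β : ℝ} (h0 : 0 < β) (h1 : β < Real.pi / 2) :
    Real.sin (2 * Real.pi * nu β) < 0 := by
  have hpi := Real.pi_pos
  have := nu_gt h0 h1
  have := nu_lt h0 h1
  have e : Real.sin (2 * Real.pi * nu β) = - Real.sin (2 * Real.pi * nu β - Real.pi) := by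
    rw [Real.sin_sub_pi, neg_neg]
  rw [e]
  have := Real.sin_pos_of_pos_of_lt_pi (x := 2 * Real.pi * nu β - Real.pi) (by nlinarith)
    (by nlinarith)
  linarith

/-- the constant in the kernel -/
noncomputable def kc (β : ℝ) : ℝ := nu β / Real.pi * (-Real.sin (2 * Real.pi * nu β))

/-- bound of the kernel -/
noncomputable def kd (β : ℝ) : ℝ := kc β / (1 - Real.cos (2 * Real.pi * nu β))

theorem kc_pos {β : ℝ} (h0 : 0 < β) (h1 : β < Real.pi / 2) : 0 < kc β := by
  have := nu_gt h0 h1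
  have := sin_nu_neg h0 h1
  exact mul_pos (div_pos (by linarith) Real.pi_pos) (by linarith)

theorem KK_den {β : ℝ} (h0 : 0 < β) (h1 : β < Real.pi / 2) (z : ℝ) :
    0 < Real.cosh (2 * nu β * z) - Real.cos (2 * Real.pi * nu β) := by
  have := Real.one_le_cosh (2 * nu β * z)
  have := cos_nu_neg h0 h1
  linarith

theorem KK_def (β z : ℝ) : KK β z
    = kc β / (Real.cosh (2 * nu β * z) - Real.cos (2 * Real.pi * nu β)) := rfl

theorem KK_pos {β : ℝ} (h0 : 0 < β) (h1 : β < Real.pi / 2) (z : ℝ) : 0 < KK β z := by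
  rw [KK_def]
  exact div_pos (kc_pos h0 h1) (by linarith [KK_den h0 h1 z])

theorem KK_le {β : ℝ} (h0 : 0 < β) (h1 : β < Real.pi / 2) (z : ℝ) :
    KK β z ≤ kd β := by
  rw [KK_def, kd]
  exact div_le_div_of_nonneg_left (kc_pos h0 h1).le (by linarith [cos_nu_neg h0 h1])
    (by linarith [Real.one_le_cosh (2 * nu β * z)])

theorem KK_neg (β z : ℝ) : KK β (-z) = KK β z := by
  rw [KK_def, KK_def, mul_neg, Real.cosh_neg]

theorem KK_cont {β : ℝ} (h0 : 0 < β) (h1 : β < Real.pi / 2) : Continuous (KK β) := by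
  have : KK β = fun z => kc β / (Real.cosh (2 * nu β * z) - Real.cos (2 * Real.pi * nu β)) := rfl
  rw [this]
  refine Continuous.div (by fun_prop) ?_ fun z => (by linarith [KK_den h0 h1 z] : (0:ℝ) < _).ne'
  have := Real.continuous_cosh
  fun_prop

theorem KK_lt {β : ℝ} (h0 : 0 < β) (h1 : β < Real.pi / 2) {x y : ℝ} (h : |x| < |y|) :
    KK β y < KK β x := by
  rw [KK_def, KK_def]
  apply div_lt_div_of_pos_left (kc_pos h0 h1) (by linarith [KK_den h0 h1 x])
  have hn := nu_gt h0 h1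
  have : Real.cosh (2 * nu β * x) < Real.cosh (2 * nu β * y) := by
    rw [Real.cosh_lt_cosh, abs_mul (2 * nu β) x, abs_mul (2 * nu β) y,
      abs_of_pos (by linarith : 0 < 2 * nu β)]
    exact mul_lt_mul_of_pos_left h (by linarith)
  linarith

theorem KK_le' {β : ℝ} (h0 : 0 < β) (h1 : β < Real.pi / 2) {x y : ℝ} (h : |x| ≤ |y|) :
    KK β y ≤ KK β x := by
  rcases h.lt_or_eq with h | h
  · exact (KK_lt h0 h1 h).le
  · have : KK β x = KK β y := by
      rcases abs_eq_abs.1 h with h | h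
      · rw [h]
      · rw [h, KK_neg]
    rw [this]

/-- two kernels: the product of the differences is nonnegative -/
theorem prod_nonneg {β β' : ℝ} (h0 : 0 < β) (h1 : β < Real.pi / 2) (h0' : 0 < β')
    (h1' : β' < Real.pi / 2) (x y : ℝ) :
    0 ≤ (KK β x - KK β y) * (KK β' x - KK β' y) := by
  rcases le_total |x| |y| with h | h
  · exact mul_nonneg (sub_nonneg.2 (KK_le' h0 h1 h)) (sub_nonneg.2 (KK_le' h0' h1' h))
  · exact mul_nonneg_of_nonpos_of_nonpos (sub_nonpos.2 (KK_le' h0 h1 h))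
      (sub_nonpos.2 (KK_le' h0' h1' h))

theorem prod_pos {β β' : ℝ} (h0 : 0 < β) (h1 : β < Real.pi / 2) (h0' : 0 < β')
    (h1' : β' < Real.pi / 2) {x y : ℝ} (h : |x| < |y|) :
    0 < (KK β x - KK β y) * (KK β' x - KK β' y) :=
  mul_pos (sub_pos.2 (KK_lt h0 h1 h)) (sub_pos.2 (KK_lt h0' h1' h))

theorem prod_le {β β' : ℝ} (h0 : 0 < β) (h1 : β < Real.pi / 2) (h0' : 0 < β')
    (h1' : β' < Real.pi / 2) (x y : ℝ) :
    (KK β x - KK β y) * (KK β' x - KK β' y) ≤ kd β * kd β' := by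
  have a1 := KK_pos h0 h1 x
  have a2 := KK_pos h0 h1 y
  have a3 := KK_le h0 h1 x
  have a4 := KK_le h0 h1 y
  have b1 := KK_pos h0' h1' x
  have b2 := KK_pos h0' h1' y
  have b3 := KK_le h0' h1' x
  have b4 := KK_le h0' h1' y
  have h1 : |KK β x - KK β y| ≤ kd β := abs_le.2 ⟨by linarith, by linarith⟩
  have h2 : |KK β' x - KK β' y| ≤ kd β' := abs_le.2 ⟨by linarith, by linarith⟩
  calc _ ≤ |(KK β x - KK β y) * (KK β' x - KK β' y)| := le_abs_self _
    _ = |KK β x - KK β y| * |KK β' x - KK β' y| := abs_mul _ _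
    _ ≤ kd β * kd β' := mul_le_mul h1 h2 (abs_nonneg _) ((abs_nonneg _).trans h1)

/-! ### Even functions, lintegral -/

theorem lint_even {f : ℝ → ℝ≥0∞} (hf : ∀ x, f (-x) = f x) :
    ∫⁻ x, f x = 2 * ∫⁻ x in Ioi (0 : ℝ), f x := by
  have h1 := lintegral_add_compl f (measurableSet_Ioi (a := (0 : ℝ))) (μ := volume)
  rw [← h1, two_mul]
  congr 1
  rw [compl_Ioi, setLIntegral_congr (Iio_ae_eq_Iic (a := (0 : ℝ))).symm]
  have h2 := (Measure.measurePreserving_neg (volume : Measure ℝ)).setLIntegral_comp_preimage_emb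
    (MeasurableEquiv.neg ℝ).measurableEmbedding f (Ioi (0 : ℝ))
  have h3 : (fun x : ℝ => -x) ⁻¹' Ioi (0 : ℝ) = Iio 0 := by
    ext x; simp
  rw [h3] at h2
  rw [← h2]
  exact lintegral_congr fun x => (hf x).symm

theorem lint_scale {f : ℝ → ℝ≥0∞} (u : ℝ) : ∫⁻ w, f w = 2 * ∫⁻ d, f (u - 2 * d) := by
  have h := lintegral_image_eq_lintegral_abs_deriv_mul (s := univ) (f := fun d : ℝ => u - 2 * d)
    (f' := fun _ => -2) MeasurableSet.univ
    (fun x _ => by
      have h := ((hasDerivAt_id x).const_mul 2).const_sub u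
      simp only [id, mul_one] at h
      exact h.hasDerivWithinAt)
    (fun x _ y _ h => by simp only at h; linarith) f
  have h2 : (fun d : ℝ => u - 2 * d) '' univ = univ := by
    rw [image_univ, range_eq_univ]
    intro w
    exact ⟨(u - w) / 2, by simp only; ring⟩
  rw [h2] at h
  simp only [Measure.restrict_univ] at h
  rw [h, lintegral_const_mul']
  · congr 1
    norm_num
  · norm_num

/-- the integrand of `tau` -/
noncomputable def hh (β β' a u w : ℝ) : ℝ :=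
  bb β u w * bb β' u w * Real.exp (-(a * (Real.cosh u + Real.cosh w)))

theorem hh_neg_left (β β' a u w : ℝ) : hh β β' a (-u) w = hh β β' a u w := by
  unfold hh bb
  have e1 : ∀ γ : ℝ, KK γ (-u - w) = KK γ (u + w) := fun γ => by
    rw [← KK_neg γ (u + w)]; congr 1; ring
  have e2 : ∀ γ : ℝ, KK γ (-u + w) = KK γ (u - w) := fun γ => by
    rw [← KK_neg γ (u - w)]; congr 1; ring
  rw [e1, e2, e1, e2, Real.cosh_neg]
  ring

theorem hh_symm (β β' a u w : ℝ) : hh β β' a u w = hh β β' a w u := by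
  unfold hh bb
  have e1 : ∀ γ : ℝ, KK γ (u - w) = KK γ (w - u) := fun γ => by
    rw [← KK_neg γ (w - u)]; congr 1; ring
  rw [e1, e1, add_comm u w, add_comm (Real.cosh u)]

theorem hh_neg_right (β β' a u w : ℝ) : hh β β' a u (-w) = hh β β' a u w := by
  rw [hh_symm, hh_neg_left, hh_symm]

/-- the integrand in the coordinates `s`, `d` -/
noncomputable def gg (β β' a s d : ℝ) : ℝ :=
  (KK β (2 * d) - KK β (2 * s)) * (KK β' (2 * d) - KK β' (2 * s))
      * Real.exp (-(a * (2 * Real.cosh s * Real.cosh d)))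

theorem gg_neg_left (β β' a s d : ℝ) : gg β β' a (-s) d = gg β β' a s d := by
  unfold gg
  rw [mul_neg, KK_neg, KK_neg, Real.cosh_neg]

theorem gg_neg_right (β β' a s d : ℝ) : gg β β' a s (-d) = gg β β' a s d := by
  unfold gg
  rw [mul_neg, KK_neg, KK_neg, Real.cosh_neg]

theorem hh_sd (β β' a s d : ℝ) : hh β β' a (s + d) (s - d) = gg β β' a s d := by
  unfold hh bb gg
  rw [show s + d - (s - d) = 2 * d by ring, show s + d + (s - d) = 2 * s by ring,
    Real.cosh_add, Real.cosh_sub]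
  congr 2
  ring

section

variable {β β' : ℝ}

theorem hh_nonneg (h0 : 0 < β) (h1 : β < Real.pi / 2) (h0' : 0 < β')
    (h1' : β' < Real.pi / 2) (a u w : ℝ) : 0 ≤ hh β β' a u w :=
  mul_nonneg (prod_nonneg h0 h1 h0' h1' _ _) (Real.exp_pos _).le

theorem hh_cont (h0 : 0 < β) (h1 : β < Real.pi / 2) (h0' : 0 < β')
    (h1' : β' < Real.pi / 2) (a : ℝ) : Continuous fun p : ℝ × ℝ => hh β β' a p.1 p.2 := by
  unfold hh bb
  have := KK_cont h0 h1
  have := KK_cont h0' h1'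
  have := Real.continuous_cosh
  fun_prop

theorem sq_le_cosh (x : ℝ) : x ^ 2 / 2 ≤ Real.cosh x := by
  have h1 : Real.cosh x = 1 + 2 * Real.sinh (x / 2) ^ 2 := by
    have h := Real.cosh_two_mul (x / 2)
    rw [show 2 * (x / 2) = x by ring] at h
    have h2 := Real.cosh_sq (x / 2)
    linarith
  have h3 : (x / 2) ^ 2 ≤ Real.sinh (x / 2) ^ 2 := by
    rcases le_total 0 (x / 2) with h | h
    · exact pow_le_pow_left₀ h (Real.self_le_sinh_iff.2 h) 2
    · have := Real.sinh_le_self_iff.2 h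
      nlinarith
  rw [h1]
  nlinarith

theorem int_exp_cosh {a : ℝ} (ha : 0 < a) : Integrable fun x : ℝ => Real.exp (-(a * Real.cosh x)) := by
  have h := integrable_exp_neg_mul_sq (b := a / 2) (by linarith)
  refine h.mono' (by have := Real.continuous_cosh; exact (by fun_prop : Continuous _).aestronglyMeasurable) ?_
  refine ae_of_all _ fun x => ?_
  rw [Real.norm_eq_abs, abs_of_pos (Real.exp_pos _), Real.exp_le_exp]
  have h2 := sq_le_cosh x
  nlinarith

theorem hh_int (h0 : 0 < β) (h1 : β < Real.pi / 2) (h0' : 0 < β')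
    (h1' : β' < Real.pi / 2) {a : ℝ} (ha : 0 < a) :
    Integrable (fun p : ℝ × ℝ => hh β β' a p.1 p.2) (volume.prod volume) := by
  have h := ((int_exp_cosh ha).mul_prod (int_exp_cosh ha)).const_mul (kd β * kd β')
  refine h.mono' (hh_cont h0 h1 h0' h1' a).aestronglyMeasurable (ae_of_all _ fun p => ?_)
  rw [Real.norm_eq_abs, abs_of_nonneg (hh_nonneg h0 h1 h0' h1' a p.1 p.2)]
  unfold hh bb
  rw [mul_add, neg_add, Real.exp_add]
  exact mul_le_mul_of_nonneg_right (prod_le h0 h1 h0' h1' _ _)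
    (mul_nonneg (Real.exp_pos _).le (Real.exp_pos _).le)

/-- `tau` as a Lebesgue integral of a nonnegative function -/
noncomputable def TL (β β' a : ℝ) : ℝ≥0∞ :=
  ∫⁻ u in Ioi (0 : ℝ), ∫⁻ w in Ioi (0 : ℝ), ENNReal.ofReal (hh β β' a u w)

attribute [local irreducible] hh in
theorem tau_TL_aux {f : ℝ × ℝ → ℝ} (hf : ∀ p, 0 ≤ f p) (hm0 : Measurable f)
    (hI2 : Integrable f ((volume.restrict (Ioi (0 : ℝ))).prod (volume.restrict (Ioi (0 : ℝ))))) :
    (∫⁻ u in Ioi (0 : ℝ), ∫⁻ w in Ioi (0 : ℝ), ENNReal.ofReal (f (u, w))) < ⊤ ∧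
    (∫ u in Ioi (0 : ℝ), ∫ w in Ioi (0 : ℝ), f (u, w))
      = (∫⁻ u in Ioi (0 : ℝ), ∫⁻ w in Ioi (0 : ℝ), ENNReal.ofReal (f (u, w))).toReal := by
  have hm : Measurable fun p : ℝ × ℝ => ENNReal.ofReal (f p) :=
    ENNReal.measurable_ofReal.comp hm0
  have e1 : ∫⁻ p : ℝ × ℝ, ENNReal.ofReal (f p)
      ∂((volume.restrict (Ioi (0 : ℝ))).prod (volume.restrict (Ioi (0 : ℝ))))
      = ∫⁻ u in Ioi (0 : ℝ), ∫⁻ w in Ioi (0 : ℝ), ENNReal.ofReal (f (u, w)) :=
    lintegral_prod _ hm.aemeasurable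
  rw [← e1]
  constructor
  · exact hI2.lintegral_lt_top
  · rw [← integral_eq_lintegral_of_nonneg_ae (ae_of_all _ hf) hI2.aestronglyMeasurable]
    exact (integral_prod f hI2).symm

theorem tau_TL (h0 : 0 < β) (h1 : β < Real.pi / 2) (h0' : 0 < β')
    (h1' : β' < Real.pi / 2) {a : ℝ} (ha : 0 < a) :
    TL β β' a < ⊤ ∧ tau β β' a = (TL β β' a).toReal := by
  have hI := hh_int h0 h1 h0' h1' ha
  have hI2 : Integrable (fun p : ℝ × ℝ => hh β β' a p.1 p.2)
      ((volume.restrict (Ioi (0 : ℝ))).prod (volume.restrict (Ioi (0 : ℝ)))) := by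
    rw [Measure.prod_restrict]
    exact hI.restrict
  exact tau_TL_aux (fun p => hh_nonneg h0 h1 h0' h1' a p.1 p.2)
    (hh_cont h0 h1 h0' h1' a).measurable hI2

attribute [local irreducible] hh gg in
theorem TL_eq (h0 : 0 < β) (h1 : β < Real.pi / 2) (h0' : 0 < β')
    (h1' : β' < Real.pi / 2) (a : ℝ) :
    TL β β' a = 2 * ∫⁻ d in Ioi (0 : ℝ), ∫⁻ s in Ioi (0 : ℝ), ENNReal.ofReal (gg β β' a s d) := by
  have hm : Measurable fun p : ℝ × ℝ => ENNReal.ofReal (hh β β' a p.1 p.2) :=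
    ENNReal.measurable_ofReal.comp (hh_cont h0 h1 h0' h1' a).measurable
  -- the whole plane
  have e1 : ∫⁻ u : ℝ, ∫⁻ w : ℝ, ENNReal.ofReal (hh β β' a u w) = 4 * TL β β' a := by
    have a1 : ∀ u, ∫⁻ w : ℝ, ENNReal.ofReal (hh β β' a u w)
        = 2 * ∫⁻ w in Ioi (0 : ℝ), ENNReal.ofReal (hh β β' a u w) := fun u =>
      lint_even fun w => by rw [hh_neg_right]
    rw [lintegral_congr a1, lintegral_const_mul' _ _ (by norm_num), lint_even (f := fun u =>
      ∫⁻ w in Ioi (0 : ℝ), ENNReal.ofReal (hh β β' a u w))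
      (fun u => by simp only [hh_neg_left])]
    unfold TL
    rw [← mul_assoc]
    norm_num
  have e2 : ∫⁻ u : ℝ, ∫⁻ w : ℝ, ENNReal.ofReal (hh β β' a u w)
      = 2 * ∫⁻ d : ℝ, ∫⁻ s : ℝ, ENNReal.ofReal (gg β β' a s d) := by
    have a1 : ∀ u, ∫⁻ w : ℝ, ENNReal.ofReal (hh β β' a u w)
        = 2 * ∫⁻ d : ℝ, ENNReal.ofReal (hh β β' a u (u - 2 * d)) := fun u => lint_scale u
    rw [lintegral_congr a1, lintegral_const_mul' _ _ (by norm_num)]
    congr 1
    have hm2 : Measurable fun p : ℝ × ℝ => ENNReal.ofReal (hh β β' a p.1 (p.1 - 2 * p.2)) :=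
      hm.comp (by fun_prop : Measurable fun p : ℝ × ℝ => (p.1, p.1 - 2 * p.2))
    rw [lintegral_lintegral_swap (f := fun u d : ℝ => ENNReal.ofReal (hh β β' a u (u - 2 * d)))
      hm2.aemeasurable]
    apply lintegral_congr
    intro d
    rw [← lintegral_add_right_eq_self (fun u : ℝ => ENNReal.ofReal (hh β β' a u (u - 2 * d))) d]
    apply lintegral_congr
    intro s
    rw [show s + d - 2 * d = s - d by ring, hh_sd]
  have e3 : ∫⁻ d : ℝ, ∫⁻ s : ℝ, ENNReal.ofReal (gg β β' a s d)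
      = 4 * ∫⁻ d in Ioi (0 : ℝ), ∫⁻ s in Ioi (0 : ℝ), ENNReal.ofReal (gg β β' a s d) := by
    have a1 : ∀ d, ∫⁻ s : ℝ, ENNReal.ofReal (gg β β' a s d)
        = 2 * ∫⁻ s in Ioi (0 : ℝ), ENNReal.ofReal (gg β β' a s d) := fun u =>
      lint_even fun w => by rw [gg_neg_left]
    rw [lintegral_congr a1, lintegral_const_mul' _ _ (by norm_num), lint_even (f := fun d =>
      ∫⁻ s in Ioi (0 : ℝ), ENNReal.ofReal (gg β β' a s d))
      (fun d => by simp only [gg_neg_right])]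
    rw [← mul_assoc]
    norm_num
  rw [e2, e3] at e1
  have e4 : (4 : ℝ≥0∞) * TL β β' a = 4 * (2 * ∫⁻ d in Ioi (0 : ℝ), ∫⁻ s in Ioi (0 : ℝ),
      ENNReal.ofReal (gg β β' a s d)) := by
    rw [← e1]; ring
  exact (ENNReal.mul_right_inj (by norm_num) (by norm_num)).1 e4

end

end Pool.Agent.H16F.B.H69
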