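import Pool.Agent.Helper16_FineB.PsiKK69

/-!
Module PSI, part 2: substitutions.
-/

namespace Pool.Agent.H16F.B.H69

open MeasureTheory Filter Topology Set
open scoped ENNReal NNReal

variable {β β' : ℝ}

/-- the integrand in the coordinates `l`, `d` -/
noncomputable def kl (β β' a l d : ℝ) : ℝ :=
  (KK β (2 * d) - KK β (2 * Real.arsinh (√(l ^ 2 / (4 * Real.cosh d ^ 2) - 1))))
    * (KK β' (2 * d) - KK β' (2 * Real.arsinh (√(l ^ 2 / (4 * Real.cosh d ^ 2) - 1))))
      * Real.exp (-(a * l)) / √(l ^ 2 - 4 * Real.cosh d ^ 2)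

theorem kl_meas (h0 : 0 < β) (h1 : β < Real.pi / 2) (h0' : 0 < β')
    (h1' : β' < Real.pi / 2) (a : ℝ) : Measurable fun p : ℝ × ℝ => kl β β' a p.1 p.2 := by
  unfold kl
  have a1 := (KK_cont h0 h1).measurable
  have a2 := (KK_cont h0' h1').measurable
  have a3 := Real.continuous_cosh.measurable
  have a4 := Real.continuous_arsinh.measurable
  fun_prop

theorem sub_s (β β' a : ℝ) (d : ℝ) : ∫⁻ s in Ioi (0 : ℝ), ENNReal.ofReal (gg β β' a s d)
    = ∫⁻ l in Ioi (2 * Real.cosh d), ENNReal.ofReal (kl β β' a l d) := by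
  have hc := Real.cosh_pos d
  have him : (fun s : ℝ => 2 * Real.cosh s * Real.cosh d) '' Ioi 0 = Ioi (2 * Real.cosh d) := by
    ext l
    constructor
    · rintro ⟨s, hs, rfl⟩
      have h1 : 1 < Real.cosh s := Real.one_lt_cosh.2 (ne_of_gt hs)
      simp only [mem_Ioi]
      nlinarith
    · intro hl
      have hl' : 2 * Real.cosh d < l := hl
      have h1 : 1 < l / (2 * Real.cosh d) := by rw [lt_div_iff₀ (by linarith)]; linarith
      have h2 : 1 < (l / (2 * Real.cosh d)) ^ 2 := by nlinarith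
      refine ⟨Real.arsinh (√((l / (2 * Real.cosh d)) ^ 2 - 1)), ?_, ?_⟩
      · exact Real.arsinh_pos_iff.2 (Real.sqrt_pos.2 (by linarith))
      · simp only
        rw [Real.cosh_arsinh, Real.sq_sqrt (by linarith), add_sub_cancel,
          Real.sqrt_sq (by linarith)]
        field_simp
  have hder : ∀ s ∈ Ioi (0 : ℝ), HasDerivWithinAt (fun s : ℝ => 2 * Real.cosh s * Real.cosh d)
      (2 * Real.sinh s * Real.cosh d) (Ioi 0) s := fun s _ =>
    (((Real.hasDerivAt_cosh s).const_mul 2).mul_const (Real.cosh d)).hasDerivWithinAt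
  have hinj : InjOn (fun s : ℝ => 2 * Real.cosh s * Real.cosh d) (Ioi 0) := by
    intro s hs s' hs' h
    simp only at h
    have h2 : Real.cosh s = Real.cosh s' := by
      have := mul_right_cancel₀ hc.ne' h
      linarith
    rcases lt_trichotomy s s' with h3 | h3 | h3
    · have := Real.cosh_lt_cosh.2 (show |s| < |s'| by rwa [abs_of_pos (show 0 < s from hs), abs_of_pos (show 0 < s' from hs')])
      linarith
    · exact h3
    · have := Real.cosh_lt_cosh.2 (show |s'| < |s| by rwa [abs_of_pos (show 0 < s from hs), abs_of_pos (show 0 < s' from hs')])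
      linarith
  rw [← him, lintegral_image_eq_lintegral_abs_deriv_mul measurableSet_Ioi hder hinj]
  apply setLIntegral_congr_fun measurableSet_Ioi
  intro s hs
  have hs' : 0 < s := hs
  have hsh : 0 < Real.sinh s := Real.sinh_pos_iff.2 hs'
  have hp : 0 < 2 * Real.sinh s * Real.cosh d := by positivity
  simp only
  rw [abs_of_pos hp, ← ENNReal.ofReal_mul hp.le]
  congr 1
  unfold kl gg
  have e1 : (2 * Real.cosh s * Real.cosh d) ^ 2 / (4 * Real.cosh d ^ 2) - 1 = Real.sinh s ^ 2 := by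
    have := Real.cosh_sq s
    field_simp
    linarith
  have e2 : (2 * Real.cosh s * Real.cosh d) ^ 2 - 4 * Real.cosh d ^ 2
      = (2 * Real.sinh s * Real.cosh d) ^ 2 := by
    have := Real.cosh_sq s
    linear_combination 4 * Real.cosh d ^ 2 * this
  rw [e1, e2, Real.sqrt_sq hsh.le, Real.arsinh_sinh, Real.sqrt_sq hp.le]
  field_simp

/-- the integrand of `psi` -/
noncomputable def pI (β β' l φ : ℝ) : ℝ :=
    (KK β (2 * Real.arsinh (√(l ^ 2 / 4 - 1) * Real.sin φ))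
      - KK β (2 * Real.arsinh (√(l ^ 2 / 4 - 1) * Real.cos φ
        / √(1 + (l ^ 2 / 4 - 1) * Real.sin φ ^ 2)))) *
    (KK β' (2 * Real.arsinh (√(l ^ 2 / 4 - 1) * Real.sin φ))
      - KK β' (2 * Real.arsinh (√(l ^ 2 / 4 - 1) * Real.cos φ
        / √(1 + (l ^ 2 / 4 - 1) * Real.sin φ ^ 2))))
      / √(1 + (l ^ 2 / 4 - 1) * Real.sin φ ^ 2)

theorem psi_eq (β β' l : ℝ) : psi β β' l = ∫ φ in (0 : ℝ)..(Real.pi / 2), pI β β' l φ := rfl

theorem sub_phi (β β' a : ℝ) {l : ℝ} (hl : 2 < l) :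
    ∫⁻ d in Ioo (0 : ℝ) (Real.arsinh (√(l ^ 2 / 4 - 1))), ENNReal.ofReal (kl β β' a l d)
      = ∫⁻ φ in Ioo (0 : ℝ) (Real.pi / 2),
        ENNReal.ofReal (Real.exp (-(a * l)) * pI β β' l φ / 2) := by
  have hR0 : 0 < l ^ 2 / 4 - 1 := by nlinarith
  set R := √(l ^ 2 / 4 - 1) with hR
  have hRp : 0 < R := Real.sqrt_pos.2 hR0
  have hR2 : R ^ 2 = l ^ 2 / 4 - 1 := Real.sq_sqrt hR0.le
  have him : (fun φ : ℝ => Real.arsinh (R * Real.sin φ)) '' Ioo 0 (Real.pi / 2)
      = Ioo 0 (Real.arsinh R) := by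
    ext d
    constructor
    · rintro ⟨φ, ⟨h1, h2⟩, rfl⟩
      have s1 : 0 < Real.sin φ := Real.sin_pos_of_pos_of_lt_pi h1 (by linarith [Real.pi_pos])
      have s2 : Real.sin φ < 1 := by
        rw [← Real.sin_pi_div_two]
        exact Real.sin_lt_sin_of_lt_of_le_pi_div_two (by linarith [Real.pi_pos]) le_rfl h2
      refine ⟨Real.arsinh_pos_iff.2 (mul_pos hRp s1), Real.arsinh_lt_arsinh.2 ?_⟩
      nlinarith
    · rintro ⟨h1, h2⟩
      have s1 : 0 < Real.sinh d := Real.sinh_pos_iff.2 h1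
      have s2 : Real.sinh d < R := by
        rw [← Real.sinh_arsinh R]
        exact Real.sinh_lt_sinh.2 h2
      have s3 : Real.sinh d / R < 1 := by rwa [div_lt_one hRp]
      have s4 : 0 < Real.sinh d / R := div_pos s1 hRp
      refine ⟨Real.arcsin (Real.sinh d / R), ⟨Real.arcsin_pos.2 s4,
        Real.arcsin_lt_pi_div_two.2 s3⟩, ?_⟩
      simp only
      rw [Real.sin_arcsin (by linarith) s3.le, mul_div_cancel₀ _ hRp.ne', Real.arsinh_sinh]
  have hder : ∀ φ ∈ Ioo (0 : ℝ) (Real.pi / 2),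
      HasDerivWithinAt (fun φ : ℝ => Real.arsinh (R * Real.sin φ))
      ((√(1 + (R * Real.sin φ) ^ 2))⁻¹ * (R * Real.cos φ)) (Ioo 0 (Real.pi / 2)) φ := fun φ _ =>
    (((Real.hasDerivAt_sin φ).const_mul R).arsinh).hasDerivWithinAt
  have hinj : InjOn (fun φ : ℝ => Real.arsinh (R * Real.sin φ)) (Ioo 0 (Real.pi / 2)) := by
    intro x hx y hy h
    have h2 : R * Real.sin x = R * Real.sin y := Real.arsinh_injective h
    have h3 : Real.sin x = Real.sin y := mul_left_cancel₀ hRp.ne' h2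
    exact Real.injOn_sin ⟨by linarith [hx.1, Real.pi_pos], hx.2.le⟩
      ⟨by linarith [hy.1, Real.pi_pos], hy.2.le⟩ h3
  rw [← him, lintegral_image_eq_lintegral_abs_deriv_mul measurableSet_Ioo hder hinj]
  apply setLIntegral_congr_fun measurableSet_Ioo
  intro φ hφ
  have hcos : 0 < Real.cos φ := Real.cos_pos_of_mem_Ioo ⟨by linarith [hφ.1, Real.pi_pos], hφ.2⟩
  have hc1 : 1 + (R * Real.sin φ) ^ 2 = 1 + (l ^ 2 / 4 - 1) * Real.sin φ ^ 2 := by
    rw [mul_pow, hR2]
  have hcp : 0 < 1 + (l ^ 2 / 4 - 1) * Real.sin φ ^ 2 := by positivity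
  set c := √(1 + (l ^ 2 / 4 - 1) * Real.sin φ ^ 2) with hc
  have hc0 : 0 < c := Real.sqrt_pos.2 hcp
  have hc2 : c ^ 2 = 1 + (l ^ 2 / 4 - 1) * Real.sin φ ^ 2 := Real.sq_sqrt hcp.le
  have hp : 0 < c⁻¹ * (R * Real.cos φ) := by positivity
  simp only
  rw [hc1, ← hc, abs_of_pos hp, ← ENNReal.ofReal_mul hp.le]
  congr 1
  have e0 : Real.cosh (Real.arsinh (R * Real.sin φ)) = c := by
    rw [Real.cosh_arsinh, hc1]
  have e2 : l ^ 2 - 4 * c ^ 2 = (2 * (R * Real.cos φ)) ^ 2 := by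
    have h1 := Real.sin_sq_add_cos_sq φ
    have h2 : l ^ 2 = 4 * R ^ 2 + 4 := by rw [hR2]; ring
    rw [hc2, ← hR2, h2]
    linear_combination -4 * R ^ 2 * h1
  have e1 : l ^ 2 / (4 * c ^ 2) - 1 = (R * Real.cos φ / c) ^ 2 := by
    have : l ^ 2 / (4 * c ^ 2) - 1 = (l ^ 2 - 4 * c ^ 2) / (4 * c ^ 2) := by
      field_simp
    rw [this, e2]
    field_simp
    ring
  unfold kl pI
  rw [e0, e1, e2, Real.sqrt_sq (by positivity), Real.sqrt_sq (by positivity), ← hR, ← hc]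
  field_simp

theorem region (l d : ℝ) : (0 < d ∧ 2 * Real.cosh d < l)
    ↔ (2 < l ∧ 0 < d ∧ d < Real.arsinh (√(l ^ 2 / 4 - 1))) := by
  constructor
  · rintro ⟨h1, h2⟩
    have h3 : 1 < Real.cosh d := Real.one_lt_cosh.2 h1.ne'
    have h4 : 2 < l := by linarith
    refine ⟨h4, h1, ?_⟩
    rw [← Real.arsinh_sinh d, Real.arsinh_lt_arsinh]
    apply Real.lt_sqrt_of_sq_lt
    have := Real.cosh_sq d
    nlinarith
  · rintro ⟨h1, h2, h3⟩
    refine ⟨h2, ?_⟩
    have h4 : Real.sinh d < √(l ^ 2 / 4 - 1) := by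
      rw [← Real.sinh_arsinh (√(l ^ 2 / 4 - 1))]
      exact Real.sinh_lt_sinh.2 h3
    have h5 : 0 < Real.sinh d := Real.sinh_pos_iff.2 h2
    have h6 : Real.sinh d ^ 2 < l ^ 2 / 4 - 1 := by
      rw [← Real.sq_sqrt (show 0 ≤ l ^ 2 / 4 - 1 by nlinarith)]
      exact pow_lt_pow_left₀ h4 h5.le (by norm_num)
    have h7 := Real.cosh_sq d
    have h8 : (2 * Real.cosh d) ^ 2 < l ^ 2 := by nlinarith
    exact lt_of_pow_lt_pow_left₀ 2 (by linarith) h8

attribute [local irreducible] kl in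
theorem swap (h0 : 0 < β) (h1 : β < Real.pi / 2) (h0' : 0 < β')
    (h1' : β' < Real.pi / 2) (a : ℝ) :
    ∫⁻ d in Ioi (0 : ℝ), ∫⁻ l in Ioi (2 * Real.cosh d), ENNReal.ofReal (kl β β' a l d)
      = ∫⁻ l in Ioi (2 : ℝ), ∫⁻ d in Ioo (0 : ℝ) (Real.arsinh (√(l ^ 2 / 4 - 1))),
        ENNReal.ofReal (kl β β' a l d) := by
  classical
  set A : Set (ℝ × ℝ) := {p | 0 < p.1 ∧ 2 * Real.cosh p.1 < p.2} with hA
  have hAm : MeasurableSet A := by
    have := Real.continuous_cosh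
    exact (measurableSet_lt measurable_const measurable_fst).inter
      (measurableSet_lt (by fun_prop) measurable_snd)
  set F : ℝ × ℝ → ℝ≥0∞ := A.indicator fun p => ENNReal.ofReal (kl β β' a p.2 p.1) with hF
  have hFm : Measurable F := by
    refine Measurable.indicator ?_ hAm
    exact ENNReal.measurable_ofReal.comp
      ((kl_meas h0 h1 h0' h1' a).comp (measurable_snd.prodMk measurable_fst))
  have e1 : ∫⁻ d in Ioi (0 : ℝ), ∫⁻ l in Ioi (2 * Real.cosh d), ENNReal.ofReal (kl β β' a l d)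
      = ∫⁻ d, ∫⁻ l, F (d, l) := by
    rw [← lintegral_indicator measurableSet_Ioi]
    apply lintegral_congr
    intro d
    by_cases hd : 0 < d
    · rw [indicator_of_mem (show d ∈ Ioi (0 : ℝ) from hd), ← lintegral_indicator measurableSet_Ioi]
      apply lintegral_congr
      intro l
      by_cases hl : 2 * Real.cosh d < l
      · rw [indicator_of_mem (show l ∈ Ioi (2 * Real.cosh d) from hl), hF,
          indicator_of_mem (show (d, l) ∈ A from ⟨hd, hl⟩)]
      · rw [indicator_of_notMem (show l ∉ Ioi (2 * Real.cosh d) from hl), hF,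
          indicator_of_notMem (show (d, l) ∉ A from fun h => hl h.2)]
    · rw [indicator_of_notMem (show d ∉ Ioi (0 : ℝ) from hd)]
      have hz : ∀ l, F (d, l) = 0 := fun l =>
        indicator_of_notMem (show (d, l) ∉ A from fun h => hd h.1) _
      rw [lintegral_congr hz, lintegral_zero]
  have e2 : ∫⁻ l in Ioi (2 : ℝ), ∫⁻ d in Ioo (0 : ℝ) (Real.arsinh (√(l ^ 2 / 4 - 1))),
        ENNReal.ofReal (kl β β' a l d) = ∫⁻ l, ∫⁻ d, F (d, l) := by
    rw [← lintegral_indicator measurableSet_Ioi]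
    apply lintegral_congr
    intro l
    by_cases hl : 2 < l
    · rw [indicator_of_mem (show l ∈ Ioi (2 : ℝ) from hl), ← lintegral_indicator measurableSet_Ioo]
      apply lintegral_congr
      intro d
      by_cases hd : 0 < d ∧ d < Real.arsinh (√(l ^ 2 / 4 - 1))
      · rw [indicator_of_mem (show d ∈ Ioo (0 : ℝ) (Real.arsinh (√(l ^ 2 / 4 - 1))) from hd), hF,
          indicator_of_mem (show (d, l) ∈ A from (region l d).2 ⟨hl, hd.1, hd.2⟩)]
      · rw [indicator_of_notMem (show d ∉ Ioo (0 : ℝ) (Real.arsinh (√(l ^ 2 / 4 - 1))) from hd), hF,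
          indicator_of_notMem (show (d, l) ∉ A from fun h => hd ((region l d).1 h).2)]
    · rw [indicator_of_notMem (show l ∉ Ioi (2 : ℝ) from hl)]
      have hz : ∀ d, F (d, l) = 0 := fun d =>
        indicator_of_notMem (show (d, l) ∉ A from fun h => hl ((region l d).1 h).1) _
      rw [lintegral_congr hz, lintegral_zero]
  rw [e1, e2]
  exact lintegral_lintegral_swap (f := fun d l => F (d, l)) hFm.aemeasurable

theorem pI_nonneg (h0 : 0 < β) (h1 : β < Real.pi / 2) (h0' : 0 < β')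
    (h1' : β' < Real.pi / 2) (l φ : ℝ) : 0 ≤ pI β β' l φ :=
  div_nonneg (prod_nonneg h0 h1 h0' h1' _ _) (Real.sqrt_nonneg _)

theorem pI_cont (h0 : 0 < β) (h1 : β < Real.pi / 2) (h0' : 0 < β')
    (h1' : β' < Real.pi / 2) {l : ℝ} (hl : 2 < l) : Continuous (pI β β' l) := by
  have a1 := KK_cont h0 h1
  have a2 := KK_cont h0' h1'
  have hR0 : 0 < l ^ 2 / 4 - 1 := by nlinarith
  have hc : ∀ φ : ℝ, √(1 + (l ^ 2 / 4 - 1) * Real.sin φ ^ 2) ≠ 0 := fun φ =>
    (Real.sqrt_pos.2 (by positivity)).ne'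
  have hcc : Continuous fun φ : ℝ => √(1 + (l ^ 2 / 4 - 1) * Real.sin φ ^ 2) := by fun_prop
  have h2 : Continuous fun φ : ℝ => √(l ^ 2 / 4 - 1) * Real.cos φ
        / √(1 + (l ^ 2 / 4 - 1) * Real.sin φ ^ 2) :=
    Continuous.div (by fun_prop) hcc hc
  have h3 : Continuous fun φ : ℝ => 2 * Real.arsinh (√(l ^ 2 / 4 - 1) * Real.cos φ
        / √(1 + (l ^ 2 / 4 - 1) * Real.sin φ ^ 2)) :=
    continuous_const.mul (Real.continuous_arsinh.comp h2)
  have h4 : Continuous fun φ : ℝ => 2 * Real.arsinh (√(l ^ 2 / 4 - 1) * Real.sin φ) :=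
    continuous_const.mul (Real.continuous_arsinh.comp (by fun_prop))
  exact (((a1.comp h4).sub (a1.comp h3)).mul ((a2.comp h4).sub (a2.comp h3))).div hcc hc

theorem psi_lint (h0 : 0 < β) (h1 : β < Real.pi / 2) (h0' : 0 < β')
    (h1' : β' < Real.pi / 2) (a : ℝ) {l : ℝ} (hl : 2 < l) :
    ENNReal.ofReal (Real.exp (-(a * l)) * psi β β' l)
      = 2 * ∫⁻ φ in Ioo (0 : ℝ) (Real.pi / 2),
        ENNReal.ofReal (Real.exp (-(a * l)) * pI β β' l φ / 2) := by
  have hpi := Real.pi_pos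
  have hc : Continuous fun φ => Real.exp (-(a * l)) * pI β β' l φ / 2 :=
    (continuous_const.mul (pI_cont h0 h1 h0' h1' hl)).div_const 2
  have hnn : ∀ φ, 0 ≤ Real.exp (-(a * l)) * pI β β' l φ / 2 := fun φ =>
    div_nonneg (mul_nonneg (Real.exp_pos _).le (pI_nonneg h0 h1 h0' h1' l φ)) (by norm_num)
  have hint : IntegrableOn (fun φ => Real.exp (-(a * l)) * pI β β' l φ / 2)
      (Ioc 0 (Real.pi / 2)) := (hc.integrableOn_Icc (a := 0) (b := Real.pi / 2)).mono_set
        Ioc_subset_Icc_self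
  rw [setLIntegral_congr (Ioo_ae_eq_Ioc (a := (0 : ℝ)) (b := Real.pi / 2)),
    ← ofReal_integral_eq_lintegral_ofReal hint (ae_of_all _ hnn),
    ← ENNReal.ofReal_ofNat 2, ← ENNReal.ofReal_mul (by norm_num), psi_eq,
    intervalIntegral.integral_of_le (by linarith)]
  congr 1
  rw [← integral_const_mul, ← integral_const_mul]
  apply integral_congr_ae
  exact ae_of_all _ fun φ => by simp only; ring

theorem TL_psi (h0 : 0 < β) (h1 : β < Real.pi / 2) (h0' : 0 < β')
    (h1' : β' < Real.pi / 2) (a : ℝ) :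
    TL β β' a = ∫⁻ l in Ioi (2 : ℝ), ENNReal.ofReal (Real.exp (-(a * l)) * psi β β' l) := by
  rw [TL_eq h0 h1 h0' h1' a]
  have e1 : ∫⁻ d in Ioi (0 : ℝ), ∫⁻ s in Ioi (0 : ℝ), ENNReal.ofReal (gg β β' a s d)
      = ∫⁻ l in Ioi (2 : ℝ), ∫⁻ φ in Ioo (0 : ℝ) (Real.pi / 2),
        ENNReal.ofReal (Real.exp (-(a * l)) * pI β β' l φ / 2) := by
    rw [← setLIntegral_congr_fun measurableSet_Ioi fun l hl => sub_phi β β' a hl,
      ← swap h0 h1 h0' h1' a]
    exact lintegral_congr fun d => sub_s β β' a d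
  rw [e1, ← lintegral_const_mul' _ _ (by norm_num)]
  exact (setLIntegral_congr_fun measurableSet_Ioi fun l hl => psi_lint h0 h1 h0' h1' a hl).symm

theorem psi_nonneg (h0 : 0 < β) (h1 : β < Real.pi / 2) (h0' : 0 < β')
    (h1' : β' < Real.pi / 2) (l : ℝ) : 0 ≤ psi β β' l := by
  rw [psi_eq]
  exact intervalIntegral.integral_nonneg (by linarith [Real.pi_pos])
    fun φ _ => pI_nonneg h0 h1 h0' h1' l φ

theorem psi_pos (h0 : 0 < β) (h1 : β < Real.pi / 2) (h0' : 0 < β')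
    (h1' : β' < Real.pi / 2) {l : ℝ} (hl : 2 < l) : 0 < psi β β' l := by
  rw [psi_eq]
  have hR0 : 0 < l ^ 2 / 4 - 1 := by nlinarith
  apply intervalIntegral.integral_pos (by linarith [Real.pi_pos])
    (pI_cont h0 h1 h0' h1' hl).continuousOn (fun φ _ => pI_nonneg h0 h1 h0' h1' l φ)
  refine ⟨0, ⟨le_rfl, by linarith [Real.pi_pos]⟩, ?_⟩
  unfold pI
  apply div_pos
  · apply prod_pos h0 h1 h0' h1'
    simp only [Real.sin_zero, Real.cos_zero, mul_zero, Real.arsinh_zero, abs_zero, mul_one,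
      ne_eq, OfNat.ofNat_ne_zero, not_false_eq_true, zero_pow, add_zero, Real.sqrt_one, div_one]
    rw [abs_pos]
    exact (mul_pos two_pos (Real.arsinh_pos_iff.2 (Real.sqrt_pos.2 hR0))).ne'
  · exact Real.sqrt_pos.2 (by positivity)

theorem psi_symm (β β' : ℝ) : psi β β' = psi β' β := by
  funext l
  rw [psi_eq, psi_eq]
  apply intervalIntegral.integral_congr
  intro φ _
  simp only [pI]
  rw [mul_comm]

theorem tau_psi (h0 : 0 < β) (h1 : β < Real.pi / 2) (h0' : 0 < β')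
    (h1' : β' < Real.pi / 2) (hc : ContinuousOn (psi β β') (Ioi 2)) {a : ℝ} (ha : 0 < a) :
    IntegrableOn (fun l => Real.exp (-(a * l)) * psi β β' l) (Ioi 2) ∧
      tau β β' a = ∫ l in Ioi (2 : ℝ), Real.exp (-(a * l)) * psi β β' l := by
  obtain ⟨hfin, htau⟩ := tau_TL h0 h1 h0' h1' ha
  rw [TL_psi h0 h1 h0' h1' a] at hfin htau
  have hm : AEStronglyMeasurable (fun l => Real.exp (-(a * l)) * psi β β' l)
      (volume.restrict (Ioi 2)) := by
    refine ContinuousOn.aestronglyMeasurable ?_ measurableSet_Ioi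
    exact ContinuousOn.mul (by fun_prop) hc
  have hnn : ∀ l, 0 ≤ Real.exp (-(a * l)) * psi β β' l := fun l =>
    mul_nonneg (Real.exp_pos _).le (psi_nonneg h0 h1 h0' h1' l)
  constructor
  · refine ⟨hm, ?_⟩
    rw [hasFiniteIntegral_iff_ofReal (ae_of_all _ hnn)]
    exact hfin
  · rw [integral_eq_lintegral_of_nonneg_ae (ae_of_all _ hnn) hm]
    exact htau

end Pool.Agent.H16F.B.H69
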