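import Pool.Agent.Helper16_FineB.Iter51
import Pool.Agent.Helper16_FineB.Cross51
import Pool.Agent.Helper16_FineB.Fact51

/-!
SCAT: preparations.
-/

namespace Pool.Agent.H16F.B.H51

open MeasureTheory Complex Filter Topology Pool.Agent.H16Iso Pool.Agent.H62T Pool.Agent.H16F
open scoped ENNReal NNReal ContDiff

/-- finiteness of superposition norms, general weights -/
lemma sup_fin_gen {E F : Type*} [NormedAddCommGroup E] [NormedAddCommGroup F]
    {f : ℝ → ℂ → E} {G : ℝ → ℂ → F} {cc : ℝ → ℝ} {B C' A A' C k : ℝ} (hk : 0 < k)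
    (hB : 0 ≤ B) (hA : 0 ≤ A) (hA' : 0 ≤ A') {P Q : ℂ → ℝ} (h1 : MemLp P 2 volume)
    (h2 : MemLp Q 2 volume) (n1 : ∀ x, 0 ≤ P x) (n2 : ∀ x, 0 ≤ Q x)
    (hcc : ∀ w, 0 < w → |cc w| ≤ B * Real.exp (C' * w) * ep k w)
    (hf : ∀ w, 0 < w → ∀ x, ‖f w x‖ ≤ A * Real.exp (C * w) * P x)
    (hG : ∀ w, 0 < w → ∀ x, ‖G w x‖ ≤ A' * Real.exp (C * w) * Q x) :
    ∫⁻ w in Set.Ioi (0 : ℝ), ENNReal.ofReal |cc w| *
      (eLpNorm (f w) 2 volume + eLpNorm (G w) 2 volume) < ⊤ := by
  have h1' : ∀ w ∈ Set.Ioi (0 : ℝ), ENNReal.ofReal |cc w| *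
      (eLpNorm (f w) 2 volume + eLpNorm (G w) 2 volume)
      ≤ (ENNReal.ofReal (B * A) * eLpNorm P 2 volume + ENNReal.ofReal (B * A') * eLpNorm Q 2 volume) *
        ENNReal.ofReal (Real.exp ((C' + C) * w) * ep k w) := by
    intro w hw
    have hw' : 0 < w := hw
    have e1 := eLpNorm_le_mul_eLpNorm_of_ae_le_mul (μ := volume) (f := f w) (g := P)
      (c := A * Real.exp (C * w)) (ae_of_all _ fun x => by
        rw [Real.norm_of_nonneg (n1 x)]; exact hf w hw' x) 2
    have e2 := eLpNorm_le_mul_eLpNorm_of_ae_le_mul (μ := volume) (f := G w) (g := Q)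
      (c := A' * Real.exp (C * w)) (ae_of_all _ fun x => by
        rw [Real.norm_of_nonneg (n2 x)]; exact hG w hw' x) 2
    have ee : Real.exp ((C' + C) * w) = Real.exp (C' * w) * Real.exp (C * w) := by
      rw [← Real.exp_add]; ring_nf
    have e0 : 0 ≤ B * Real.exp (C' * w) * ep k w :=
      mul_nonneg (mul_nonneg hB (Real.exp_pos _).le) (ep_pos _ _).le
    calc ENNReal.ofReal |cc w| * (eLpNorm (f w) 2 volume + eLpNorm (G w) 2 volume)
        ≤ ENNReal.ofReal (B * Real.exp (C' * w) * ep k w) *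
          (ENNReal.ofReal (A * Real.exp (C * w)) * eLpNorm P 2 volume
          + ENNReal.ofReal (A' * Real.exp (C * w)) * eLpNorm Q 2 volume) := by
          gcongr
          exact hcc w hw'
      _ = _ := by
          rw [mul_add, add_mul, ← mul_assoc, ← mul_assoc, ← ENNReal.ofReal_mul e0,
            ← ENNReal.ofReal_mul e0, mul_right_comm (ENNReal.ofReal (B * A)),
            mul_right_comm (ENNReal.ofReal (B * A')), ← ENNReal.ofReal_mul (by positivity),
            ← ENNReal.ofReal_mul (by positivity), ee]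
          congr 3 <;> ring
  refine lt_of_le_of_lt (setLIntegral_mono' measurableSet_Ioi h1') ?_
  have hfin : ENNReal.ofReal (B * A) * eLpNorm P 2 volume
      + ENNReal.ofReal (B * A') * eLpNorm Q 2 volume < ⊤ :=
    ENNReal.add_lt_top.2 ⟨ENNReal.mul_lt_top ENNReal.ofReal_lt_top h1.2,
      ENNReal.mul_lt_top ENNReal.ofReal_lt_top h2.2⟩
  rw [lintegral_const_mul' _ _ hfin.ne]
  refine ENNReal.mul_lt_top hfin ?_
  have h3 := (integrable_ep hk (C' + C)).2
  refine lt_of_le_of_lt (le_of_eq ?_) h3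
  refine lintegral_congr fun w => ?_
  rw [Real.enorm_eq_ofReal (mul_nonneg (Real.exp_pos _).le (ep_pos _ _).le)]

lemma sup_fin_one {E : Type*} [NormedAddCommGroup E]
    {f : ℝ → ℂ → E} {cc : ℝ → ℝ} {B C' A C k : ℝ} (hk : 0 < k)
    (hB : 0 ≤ B) (hA : 0 ≤ A) {P : ℂ → ℝ} (h1 : MemLp P 2 volume) (n1 : ∀ x, 0 ≤ P x)
    (hcc : ∀ w, 0 < w → |cc w| ≤ B * Real.exp (C' * w) * ep k w)
    (hf : ∀ w, 0 < w → ∀ x, ‖f w x‖ ≤ A * Real.exp (C * w) * P x) :
    ∫⁻ w in Set.Ioi (0 : ℝ), ENNReal.ofReal |cc w| * eLpNorm (f w) 2 volume < ⊤ := by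
  have := sup_fin_gen hk hB hA hA h1 h1 n1 n1 hcc hf hf
  refine lt_of_le_of_lt (lintegral_mono fun w => ?_) this
  gcongr
  exact le_self_add

/-! ### Pairing with the data -/

section pair

variable {Z : ℝ → ℂ → ℝ} {A C : ℝ} {W f : ℂ → ℝ}

lemma pair_bound (hWf : Integrable (fun y => W y * |f y|) volume) {u : ℝ} {A' : ℝ}
    (bZ : ∀ y, |Z u y| ≤ A' * W y) :
    |∫ y, Z u y * f y| ≤ A' * ∫ y, W y * |f y| := by
  rw [← integral_const_mul, ← Real.norm_eq_abs]
  refine norm_integral_le_of_norm_le (hWf.const_mul A') (ae_of_all _ fun y => ?_)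
  rw [norm_mul, Real.norm_eq_abs, Real.norm_eq_abs, ← mul_assoc]
  exact mul_le_mul_of_nonneg_right (bZ y) (abs_nonneg _)

lemma pair_meas (mZ : Measurable (Function.uncurry Z)) (mf : Measurable f) :
    Measurable fun u : ℝ => ∫ y, Z u y * f y := by
  have : Measurable (Function.uncurry fun (u : ℝ) (y : ℂ) => Z u y * f y) :=
    mZ.mul (mf.comp measurable_snd)
  exact this.stronglyMeasurable.integral_prod_right.measurable

end pair

/-- the scattering equations, paired with the data -/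
lemma pair_sys {F : Bool → ℝ → ℂ → ℝ} {q : Bool → ℝ → ℝ → ℝ} {k A C K : ℝ} {W : ℂ → ℝ}
    (h : ItH F q k A C K W) (mW : MemLp W 2 volume) {Z : Bool → ℝ → ℂ → ℝ}
    (mZ : ∀ b, Measurable (Function.uncurry (Z b)))
    (bZ : ∀ b u, 0 < u → ∀ y, |Z b u y| ≤ 2 * A * Real.exp (C * u) * W y)
    (eZ : ∀ b u, 0 < u → ∀ y, Z b u y = F b u y
      - ∫ w in Set.Ioi (0 : ℝ), q b u w * ep k w * Z (!b) w y)
    {f : ℂ → ℝ} (hf : MemLp f 2 volume) (b : Bool) (u : ℝ) (hu : 0 < u) :
    ∫ y, Z b u y * f y = (∫ y, F b u y * f y)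
      - ∫ w in Set.Ioi (0 : ℝ), q b u w * ep k w * ∫ y, Z (!b) w y * f y := by
  have mq : Measurable fun w => q b u w := (h.mq b).comp (measurable_const.prodMk measurable_id)
  have hK : 0 ≤ K := (abs_nonneg _).trans (h.bq b 0 0)
  have hfin : ∫⁻ w in Set.Ioi (0 : ℝ), ENNReal.ofReal |q b u w * ep k w|
      * eLpNorm (Z (!b) w) 2 volume < ⊤ :=
    sup_fin_one (C' := 0) h.k0 hK (mul_nonneg zero_le_two h.A0) mW h.W0 (fun w _ => by
      rw [abs_mul, abs_of_pos (ep_pos k w)]
      simpa using mul_le_mul_of_nonneg_right (h.bq b u w) (ep_pos k w).le)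
      (fun w hw x => bZ (!b) w hw x)
  have h1 := swapR hf (mZ (!b)) (mq.mul (meas_ep k)) hfin
  have m1 : MemLp (F b u) 2 volume := by
    refine (mW.const_mul (A * Real.exp (C * u))).mono
      ((h.mF b).comp (measurable_const.prodMk measurable_id)).aestronglyMeasurable
      (ae_of_all _ fun y => ?_)
    rw [Real.norm_eq_abs]
    exact (h.bF b u hu y).trans (le_abs_self _)
  have m2 : MemLp (Z b u) 2 volume := by
    refine (mW.const_mul (2 * A * Real.exp (C * u))).mono
      ((mZ b).comp (measurable_const.prodMk measurable_id)).aestronglyMeasurable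
      (ae_of_all _ fun y => ?_)
    rw [Real.norm_eq_abs]
    exact (bZ b u hu y).trans (le_abs_self _)
  have i1 : Integrable (fun y => F b u y * f y) volume := m1.integrable_mul hf
  have i2 : Integrable (fun y => Z b u y * f y) volume := m2.integrable_mul hf
  have e1 : ∫ y, f y * ∫ w in Set.Ioi (0 : ℝ), q b u w * ep k w * Z (!b) w y
      = (∫ y, F b u y * f y) - ∫ y, Z b u y * f y := by
    rw [← integral_sub i1 i2]
    refine integral_congr_ae (ae_of_all _ fun y => ?_)
    simp only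
    rw [eZ b u hu y]; ring
  have e2 : ∫ w in Set.Ioi (0 : ℝ), q b u w * ep k w * ∫ y, Z (!b) w y * f y
      = ∫ y, f y * ∫ w in Set.Ioi (0 : ℝ), q b u w * ep k w * Z (!b) w y := by
    refine Eq.trans ?_ h1.symm
    refine integral_congr_ae (ae_of_all _ fun w => ?_)
    simp only
    congr 1
    exact integral_congr_ae (ae_of_all _ fun y => mul_comm _ _)
  rw [e2, e1]; ring

/-- the algebra behind the boundary values -/
lemma bdry {q : ℝ → ℝ → ℝ} (mq : Measurable (Function.uncurry q)) {K : ℝ}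
    (bq : ∀ u w, |q u w| ≤ K) (qs : ∀ u w, q u w = q w u) {k δ : ℝ} (hk : 0 < k) (hδ : 0 < δ)
    {e' pz pz' ps : ℝ → ℝ} (me : Measurable e') (mpz : Measurable pz) (mpz' : Measurable pz')
    (be : ∀ w, 0 < w → |e' w| ≤ ep δ w) {B C : ℝ}
    (bp : ∀ w, 0 < w → |pz w| ≤ B * Real.exp (C * w))
    (bp' : ∀ w, 0 < w → |pz' w| ≤ B * Real.exp (C * w))
    (hs : ∀ u, 0 < u → pz u = ps u - ∫ w in Set.Ioi (0 : ℝ), q u w * ep k w * pz' w) :
    ∫ u in Set.Ioi (0 : ℝ), (e' u * pz u
        + ep k u * (∫ w in Set.Ioi (0 : ℝ), q u w * e' w) * pz' u)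
      = ∫ u in Set.Ioi (0 : ℝ), e' u * ps u := by
  have hK : 0 ≤ K := (abs_nonneg _).trans (bq 0 0)
  have i1 : Integrable (fun u => e' u * pz u) (volume.restrict (Set.Ioi (0 : ℝ))) := by
    refine Integrable.mono' ((integrable_ep hδ C).const_mul B) (me.mul mpz).aestronglyMeasurable ?_
    filter_upwards [ae_restrict_mem measurableSet_Ioi] with w hw
    rw [norm_mul, Real.norm_eq_abs, Real.norm_eq_abs]
    calc |e' w| * |pz w| ≤ ep δ w * (B * Real.exp (C * w)) :=
          mul_le_mul (be w hw) (bp w hw) (abs_nonneg _) (ep_pos _ _).le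
      _ = _ := by ring
  have i2 : Integrable (Function.uncurry fun u w => ep k u * pz' u * (q u w * e' w))
      ((volume.restrict (Set.Ioi (0 : ℝ))).prod (volume.restrict (Set.Ioi (0 : ℝ)))) := by
    have j1 : Integrable (fun u => B * (Real.exp (C * u) * ep k u))
      (volume.restrict (Set.Ioi (0 : ℝ))) := (integrable_ep hk C).const_mul B
    have j2 : Integrable (fun w => K * (Real.exp (0 * w) * ep δ w))
      (volume.restrict (Set.Ioi (0 : ℝ))) := (integrable_ep hδ 0).const_mul K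
    refine Integrable.mono' (j1.mul_prod j2) ?_ ?_
    · exact ((((meas_ep k).comp measurable_fst).mul (mpz'.comp measurable_fst)).mul
        (mq.mul (me.comp measurable_snd))).aestronglyMeasurable
    · have ha : ∀ᵐ w ∂(volume.restrict (Set.Ioi (0 : ℝ))), 0 < w := ae_restrict_mem measurableSet_Ioi
      filter_upwards [Measure.quasiMeasurePreserving_fst.ae ha,
        Measure.quasiMeasurePreserving_snd.ae ha] with z hz1 hz2
      simp only [Function.uncurry]
      rw [norm_mul, norm_mul, norm_mul, Real.norm_eq_abs, Real.norm_eq_abs, Real.norm_eq_abs,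
        Real.norm_eq_abs, abs_of_pos (ep_pos _ _)]
      have h1 := bp' z.1 hz1
      have h2 := be z.2 hz2
      have h3 := bq z.1 z.2
      have h4 := ep_pos k z.1
      calc ep k z.1 * |pz' z.1| * (|q z.1 z.2| * |e' z.2|)
          ≤ ep k z.1 * (B * Real.exp (C * z.1)) * (K * ep δ z.2) := by
            refine mul_le_mul (mul_le_mul_of_nonneg_left h1 h4.le)
              (mul_le_mul h3 h2 (abs_nonneg _) hK) (by positivity)
              (mul_nonneg h4.le ((abs_nonneg _).trans h1))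
        _ = _ := by rw [zero_mul, Real.exp_zero]; ring
  have i3 : Integrable (fun u => ep k u * (∫ w in Set.Ioi (0 : ℝ), q u w * e' w) * pz' u)
      (volume.restrict (Set.Ioi (0 : ℝ))) := by
    refine i2.integral_prod_left.congr (ae_of_all _ fun u => ?_)
    simp only [Function.uncurry]
    rw [integral_const_mul]; ring
  rw [integral_add i1 i3]
  have e1 : ∫ u in Set.Ioi (0 : ℝ), ep k u * (∫ w in Set.Ioi (0 : ℝ), q u w * e' w) * pz' u
      = ∫ w in Set.Ioi (0 : ℝ), e' w * (ps w - pz w) := by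
    have h1 := integral_integral_swap i2
    calc ∫ u in Set.Ioi (0 : ℝ), ep k u * (∫ w in Set.Ioi (0 : ℝ), q u w * e' w) * pz' u
        = ∫ u in Set.Ioi (0 : ℝ), ∫ w in Set.Ioi (0 : ℝ), ep k u * pz' u * (q u w * e' w) := by
          refine integral_congr_ae (ae_of_all _ fun u => ?_)
          simp only
          rw [integral_const_mul]; ring
      _ = ∫ w in Set.Ioi (0 : ℝ), ∫ u in Set.Ioi (0 : ℝ), ep k u * pz' u * (q u w * e' w) := h1
      _ = _ := by
          refine setIntegral_congr_fun measurableSet_Ioi fun w hw => ?_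
          rw [hs w hw, sub_sub_cancel, ← integral_const_mul]
          refine integral_congr_ae (ae_of_all _ fun u => ?_)
          simp only
          rw [qs u w]; ring
  have i4 : Integrable (fun w => e' w * (ps w - pz w)) (volume.restrict (Set.Ioi (0 : ℝ))) := by
    have := i2.integral_prod_right
    refine this.congr ?_
    filter_upwards [ae_restrict_mem measurableSet_Ioi] with w hw
    simp only [Function.uncurry]
    rw [hs w hw, sub_sub_cancel, ← integral_const_mul]
    refine integral_congr_ae (ae_of_all _ fun u => ?_)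
    simp only
    rw [qs u w]; ring
  rw [e1, ← integral_add i1 i4]
  refine integral_congr_ae (ae_of_all _ fun w => ?_)
  simp only
  ring

/-- test functions -/
lemma test_memLp {D : Set ℂ} {φ : ℂ → ℝ} (hφ : φ ∈ Test D) (k : ℝ) :
    MemLp (fun x => k ^ 2 * φ x - lap φ x) 2 volume := by
  have c1 : Continuous φ := hφ.1.continuous
  have hs : HasCompactSupport φ := hφ.2.1
  have h1 : ∀ v : ℂ, Continuous (fun x => fderiv ℝ (fun y => fderiv ℝ φ y v) x v) ∧
      HasCompactSupport (fun x => fderiv ℝ (fun y => fderiv ℝ φ y v) x v) := by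
    intro v
    refine ⟨(smooth_dv (smooth_dv hφ.1 v) v).continuous, ?_⟩
    exact (hs.fderiv_apply (𝕜 := ℝ) v).fderiv_apply (𝕜 := ℝ) v
  have c2 : Continuous (lap φ) := (h1 1).1.add (h1 I).1
  have s2 : HasCompactSupport (lap φ) := (h1 1).2.add (h1 I).2
  exact ((c1.memLp_of_hasCompactSupport hs).const_mul (k ^ 2)).sub
    (c2.memLp_of_hasCompactSupport s2)

end Pool.Agent.H16F.B.H51
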