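import Pool.Agent.Helper16_FineB.Cross51

/-!
Scaled and reflected wedge functions.
-/

namespace Pool.Agent.H16F.B.H51

open MeasureTheory Complex Filter Topology Pool.Agent.H16Iso Pool.Agent.H62T Pool.Agent.H16F
open scoped ENNReal NNReal ContDiff

/-! ### Reflection and dilation -/

/-- the reflection `x ↦ 1 - conj x` -/
noncomputable def RR : ℂ ≃ₜ ℂ where
  toFun x := 1 - (starRingEnd ℂ) x
  invFun x := 1 - (starRingEnd ℂ) x
  left_inv x := by simp
  right_inv x := by simp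
  continuous_toFun := by fun_prop
  continuous_invFun := by fun_prop

lemma RR_apply (x : ℂ) : RR x = 1 - (starRingEnd ℂ) x := rfl

lemma RR_re (x : ℂ) : (RR x).re = 1 - x.re := by simp [RR_apply]

lemma RR_im (x : ℂ) : (RR x).im = x.im := by simp [RR_apply]

lemma RR_RR (x : ℂ) : RR (RR x) = x := by simp [RR_apply]

lemma norm_RR (x : ℂ) : ‖RR x‖ = ‖x - 1‖ := by
  have h : RR x = (starRingEnd ℂ) (1 - x) := by simp [RR_apply]
  rw [h, Complex.norm_conj, norm_sub_rev]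

lemma mp_RR : MeasurePreserving (fun x : ℂ => 1 - (starRingEnd ℂ) x) volume volume := by
  have h1 : MeasurePreserving (fun x : ℂ => (starRingEnd ℂ) x) volume volume := by
    have := Complex.conjLIE.measurePreserving
    exact this
  have h2 : MeasurePreserving (fun x : ℂ => 1 - x) volume volume :=
    Measure.measurePreserving_sub_left volume 1
  exact h2.comp h1

lemma integral_RR {E : Type*} [NormedAddCommGroup E] [NormedSpace ℝ E] (F : ℂ → E) :
    ∫ x, F (1 - (starRingEnd ℂ) x) = ∫ x, F x :=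
  mp_RR.integral_comp RR.measurableEmbedding F

lemma integral_dil {E : Type*} [NormedAddCommGroup E] [NormedSpace ℝ E] (F : ℂ → E) {k : ℝ} (hk : 0 < k) :
    ∫ x, F ((k : ℂ) * x) = (k ^ 2)⁻¹ • ∫ x, F x := by
  have h := Measure.integral_comp_smul (volume : Measure ℂ) F k
  simp only [Complex.real_smul] at h
  rw [h, Complex.finrank_real_complex, abs_of_pos (by positivity)]

/-! ### Geometry -/

lemma W1_open (β : ℝ) : IsOpen (W1 β) := by
  have h1 : Continuous fun x : ℂ => x.re * Real.sin β + x.im * Real.cos β := by fun_prop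
  exact (isOpen_lt continuous_const Complex.continuous_im).inter (isOpen_lt continuous_const h1)

lemma W2_open (β : ℝ) : IsOpen (W2 β) := by
  have h1 : Continuous fun x : ℂ => x.re * Real.sin β - x.im * Real.cos β := by fun_prop
  exact (isOpen_lt continuous_const Complex.continuous_im).inter (isOpen_lt h1 continuous_const)

lemma Om_open (β β' : ℝ) : IsOpen (Om β β') := (W1_open β).inter (W2_open β')

lemma W1_convex (β : ℝ) : Convex ℝ (W1 β) := by
  intro x hx y hy a b ha hb hab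
  obtain ⟨h1, h2⟩ := hx
  obtain ⟨h3, h4⟩ := hy
  refine ⟨?_, ?_⟩
  · simp only [Complex.add_im, Complex.real_smul, Complex.mul_im, Complex.ofReal_re,
      Complex.ofReal_im, zero_mul, add_zero]
    rcases ha.eq_or_lt with h | h
    · subst h
      have : b = 1 := by linarith
      subst this; simpa using h3
    · have := mul_pos h h1
      have := mul_nonneg hb h3.le
      linarith
  · simp only [Complex.add_im, Complex.add_re, Complex.real_smul, Complex.mul_im, Complex.mul_re,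
      Complex.ofReal_re, Complex.ofReal_im, zero_mul, add_zero, sub_zero]
    rcases ha.eq_or_lt with h | h
    · subst h
      have : b = 1 := by linarith
      subst this; simpa using h4
    · have e1 := mul_pos h h2
      have e2 := mul_nonneg hb h4.le
      nlinarith

lemma W2_eq (β : ℝ) : W2 β = RR ⁻¹' W1 β := by
  ext x
  simp only [W2, W1, Set.mem_ofPred_eq, Set.mem_preimage, RR_re, RR_im]
  constructor
  · rintro ⟨h1, h2⟩; exact ⟨h1, by linarith⟩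
  · rintro ⟨h1, h2⟩; exact ⟨h1, by linarith⟩

lemma W2_convex (β : ℝ) : Convex ℝ (W2 β) := by
  intro x hx y hy a b ha hb hab
  rw [W2_eq] at *
  have h := W1_convex β hx hy ha hb hab
  have e : RR (a • x + b • y) = a • RR x + b • RR y := by
    apply Complex.ext
    · simp [RR_apply]; linear_combination (-1 : ℝ) * hab
    · simp [RR_apply, add_comm]
  show RR (a • x + b • y) ∈ W1 β
  rw [e]; exact h

lemma Om_convex (β β' : ℝ) : Convex ℝ (Om β β') := (W1_convex β).inter (W2_convex β')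

lemma sin_pos' {β : ℝ} (h0 : 0 < β) (h : β < Real.pi / 2) : 0 < Real.sin β :=
  Real.sin_pos_of_pos_of_lt_pi h0 (by have := Real.pi_pos; linarith)

lemma cos_pos' {β : ℝ} (h0 : 0 < β) (h : β < Real.pi / 2) : 0 < Real.cos β :=
  Real.cos_pos_of_mem_Ioo ⟨by have := Real.pi_pos; linarith, by have := Real.pi_pos; linarith⟩

lemma Om_nonempty {β β' : ℝ} (h0 : 0 < β) (h : β < Real.pi / 2) (h0' : 0 < β')
    (h' : β' < Real.pi / 2) : (Om β β').Nonempty := by
  have s1 := sin_pos' h0 h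
  have s2 := sin_pos' h0' h'
  have c1 := cos_pos' h0 h
  have c2 := cos_pos' h0' h'
  refine ⟨⟨1 / 2, 1⟩, ⟨?_, ?_⟩, ?_, ?_⟩
  · norm_num
  · show 0 < 1 / 2 * Real.sin β + 1 * Real.cos β
    positivity
  · norm_num
  · show 1 / 2 * Real.sin β' - 1 * Real.cos β' < Real.sin β'
    nlinarith

lemma W1_nonempty {β : ℝ} (h0 : 0 < β) (h : β < Real.pi / 2) : (W1 β).Nonempty :=
  (Om_nonempty h0 h h0 h).mono Set.inter_subset_left

lemma W2_nonempty {β : ℝ} (h0 : 0 < β) (h : β < Real.pi / 2) : (W2 β).Nonempty :=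
  (Om_nonempty h0 h h0 h).mono Set.inter_subset_right

lemma Hh_open : IsOpen Hh := isOpen_lt continuous_const Complex.continuous_im

lemma Hh_convex : Convex ℝ Hh := by
  have : Hh = Complex.imLm ⁻¹' (Set.Ioi 0) := by ext x; simp [Hh]
  rw [this]
  exact (convex_Ioi (0 : ℝ)).linear_preimage _

lemma Hh_nonempty : Hh.Nonempty := ⟨I, by simp [Hh]⟩

lemma W1_sub (β : ℝ) : W1 β ⊆ Hh := fun _ hx => hx.1

lemma W2_sub (β : ℝ) : W2 β ⊆ Hh := fun _ hx => hx.1

lemma dil_mem_W1 {β k : ℝ} (hk : 0 < k) {x : ℂ} : (k : ℂ) * x ∈ W1 β ↔ x ∈ W1 β := by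
  simp only [W1, Set.mem_ofPred_eq, Complex.mul_im, Complex.mul_re, Complex.ofReal_re,
    Complex.ofReal_im, zero_mul, add_zero, sub_zero]
  constructor
  · rintro ⟨h1, h2⟩
    refine ⟨by nlinarith [(mul_pos_iff_of_pos_left hk).1 h1], ?_⟩
    have : 0 < k * (x.re * Real.sin β + x.im * Real.cos β) := by linarith
    exact (mul_pos_iff_of_pos_left hk).1 this
  · rintro ⟨h1, h2⟩
    refine ⟨mul_pos hk h1, ?_⟩
    have := mul_pos hk h2
    linarith

/-- a point of the half-plane outside of `W1` is on the left -/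
lemma re_neg_of_not_W1 {β : ℝ} (h0 : 0 < β) (h : β < Real.pi / 2) {x : ℂ} (hi : 0 < x.im)
    (hx : x ∉ W1 β) : x.re < 0 := by
  have s1 := sin_pos' h0 h
  have c1 := cos_pos' h0 h
  simp only [W1, Set.mem_ofPred_eq, not_and, not_lt] at hx
  have h2 := hx hi
  by_contra h3
  push Not at h3
  nlinarith [mul_nonneg h3 s1.le, mul_pos hi c1]

lemma re_gt_of_not_W2 {β : ℝ} (h0 : 0 < β) (h : β < Real.pi / 2) {x : ℂ} (hi : 0 < x.im)
    (hx : x ∉ W2 β) : 1 < x.re := by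
  have h1 := re_neg_of_not_W1 h0 h (x := RR x) (by rw [RR_im]; exact hi)
    (by rw [W2_eq] at hx; exact hx)
  rw [RR_re] at h1; linarith

/-! ### Test functions -/

lemma test_mono {D D' : Set ℂ} (h : D ⊆ D') {φ : ℂ → ℝ} (hφ : φ ∈ Test D) : φ ∈ Test D' :=
  ⟨hφ.1, hφ.2.1, hφ.2.2.trans h⟩

lemma test_comp {D : Set ℂ} {φ : ℂ → ℝ} (hφ : φ ∈ Test D) (e : ℂ ≃ₜ ℂ) (he : ContDiff ℝ ∞ e) :
    (fun x => φ (e x)) ∈ Test (e ⁻¹' D) := by
  refine ⟨hφ.1.comp he, hφ.2.1.comp_homeomorph e, ?_⟩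
  have h1 : Function.support (fun x => φ (e x)) = e ⁻¹' Function.support φ := rfl
  unfold tsupport
  rw [h1, ← e.preimage_closure]
  exact Set.preimage_mono hφ.2.2

lemma contDiff_RR : ContDiff ℝ ∞ RR := by
  have h : (RR : ℂ → ℂ) = fun x => 1 - Complex.conjCLE x := by ext x; rfl
  rw [h]
  exact contDiff_const.sub Complex.conjCLE.contDiff

/-- dilation -/
noncomputable def DD (k : ℝ) (hk : k ≠ 0) : ℂ ≃ₜ ℂ := Homeomorph.smulOfNeZero k hk

lemma DD_apply (k : ℝ) (hk : k ≠ 0) (x : ℂ) : DD k hk x = k • x := rfl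

lemma contDiff_DD (k : ℝ) (hk : k ≠ 0) : ContDiff ℝ ∞ (DD k hk) := by
  have h : (DD k hk : ℂ → ℂ) = fun x => k • x := rfl
  rw [h]; fun_prop

lemma smooth_dv {φ : ℂ → ℝ} (hφ : ContDiff ℝ ∞ φ) (v : ℂ) :
    ContDiff ℝ ∞ (fun y => fderiv ℝ φ y v) :=
  (hφ.fderiv_right (m := ∞) le_rfl).clm_apply contDiff_const

lemma lap_dil {φ : ℂ → ℝ} (hφ : ContDiff ℝ ∞ φ) (k : ℝ) (x : ℂ) :
    lap (fun y => φ (k • y)) x = k ^ 2 * lap φ (k • x) := by
  have h1 : ∀ v y : ℂ, fderiv ℝ (fun y => φ (k • y)) y v = k * fderiv ℝ φ (k • y) v := by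
    intro v y
    have := fderiv_comp_smul (f := φ) (x := y) k
    rw [this]; simp
  have h2 : ∀ v x : ℂ, fderiv ℝ (fun y => fderiv ℝ (fun y => φ (k • y)) y v) x v
      = k ^ 2 * fderiv ℝ (fun y => fderiv ℝ φ y v) (k • x) v := by
    intro v x
    have e : (fun y => fderiv ℝ (fun y => φ (k • y)) y v)
        = fun y => k * (fun z => fderiv ℝ φ z v) (k • y) := by
      ext y; rw [h1]
    rw [e]
    have hd : DifferentiableAt ℝ (fun y : ℂ => (fun z => fderiv ℝ φ z v) (k • y)) x :=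
      ((smooth_dv hφ v).comp (by fun_prop : ContDiff ℝ ∞ fun y : ℂ => k • y)).differentiable
        (by simp) x
    rw [fderiv_const_mul hd]
    have := fderiv_comp_smul (f := fun z => fderiv ℝ φ z v) (x := x) k
    rw [this]
    simp only [smul_apply, smul_eq_mul]
    ring
  unfold lap
  rw [h2, h2]; ring

lemma lap_RR {φ : ℂ → ℝ} (hφ : ContDiff ℝ ∞ φ) (x : ℂ) :
    lap (fun y => φ (1 - (starRingEnd ℂ) y)) x = lap φ (1 - (starRingEnd ℂ) x) := by
  have hR : ∀ x : ℂ, HasFDerivAt (fun y : ℂ => 1 - (starRingEnd ℂ) y)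
      (-(Complex.conjCLE : ℂ →L[ℝ] ℂ)) x := by
    intro x
    have h := (Complex.conjCLE : ℂ →L[ℝ] ℂ).hasFDerivAt (x := x)
    exact h.const_sub 1
  have h1 : ∀ (ψ : ℂ → ℝ), ContDiff ℝ ∞ ψ → ∀ v y : ℂ,
      fderiv ℝ (fun y => ψ (1 - (starRingEnd ℂ) y)) y v
        = fderiv ℝ ψ (1 - (starRingEnd ℂ) y) (-(starRingEnd ℂ) v) := by
    intro ψ hψ v y
    have hd : HasFDerivAt ψ (fderiv ℝ ψ (1 - (starRingEnd ℂ) y)) (1 - (starRingEnd ℂ) y) :=
      (hψ.differentiable (by simp) _).hasFDerivAt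
    have := (hd.comp y (hR y)).fderiv
    have e : (ψ ∘ fun y : ℂ => 1 - (starRingEnd ℂ) y) = fun y => ψ (1 - (starRingEnd ℂ) y) := rfl
    rw [e] at this
    rw [this]
    simp
  unfold lap
  have e1 : (fun y => fderiv ℝ (fun y => φ (1 - (starRingEnd ℂ) y)) y 1)
      = fun y => (fun z => -fderiv ℝ φ z 1) (1 - (starRingEnd ℂ) y) := by
    ext y
    rw [h1 φ hφ]
    simp
  have e2 : (fun y => fderiv ℝ (fun y => φ (1 - (starRingEnd ℂ) y)) y I)
      = fun y => (fun z => fderiv ℝ φ z I) (1 - (starRingEnd ℂ) y) := by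
    ext y
    rw [h1 φ hφ]
    simp
  rw [e1, e2, h1 _ ((smooth_dv hφ 1).neg), h1 _ (smooth_dv hφ I)]
  have e3 : fderiv ℝ (fun z => -fderiv ℝ φ z 1) (1 - (starRingEnd ℂ) x)
      = -fderiv ℝ (fun z => fderiv ℝ φ z 1) (1 - (starRingEnd ℂ) x) := fderiv_fun_neg
  rw [e3]
  simp

/-! ### The wedge functions -/

section

variable {β : ℝ} {S : ℝ → ℂ → ℝ}

/-- the constants of a wedge function -/
structure WC (S : ℝ → ℂ → ℝ) (g : ℝ → ℂ → ℂ) (C c : ℝ) : Prop where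
  C0 : 0 ≤ C
  c0 : 0 < c
  mS : Measurable (Function.uncurry S)
  mg : Measurable (Function.uncurry g)
  grad : ∀ u, 0 < u → Grad (S u) (g u)
  bS : ∀ u, 0 < u → ∀ x, |S u x| ≤ C * Real.exp (C * u) * Real.exp (-(c * ‖x‖))
  bg : ∀ u, 0 < u → ∀ x, ‖g u x‖ ≤ C * Real.exp (C * u) * Real.exp (-(c * ‖x‖))

lemma bound_mono {C C' c c' u r a : ℝ} (hC : C ≤ C') (hC' : 0 ≤ C') (hc : c' ≤ c)
    (hu : 0 < u) (hr : 0 ≤ r) (h : a ≤ C * Real.exp (C * u) * Real.exp (-(c * r))) :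
    a ≤ C' * Real.exp (C' * u) * Real.exp (-(c' * r)) := by
  refine h.trans ?_
  have h1 : Real.exp (C * u) ≤ Real.exp (C' * u) := Real.exp_le_exp.2 (by nlinarith)
  have h2 : Real.exp (-(c * r)) ≤ Real.exp (-(c' * r)) := Real.exp_le_exp.2 (by nlinarith)
  have h3 : C * Real.exp (C * u) ≤ C' * Real.exp (C' * u) :=
    (mul_le_mul_of_nonneg_right hC (Real.exp_pos _).le).trans
      (mul_le_mul_of_nonneg_left h1 hC')
  exact (mul_le_mul_of_nonneg_right h3 (Real.exp_pos _).le).trans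
    (mul_le_mul_of_nonneg_left h2 (mul_nonneg hC' (Real.exp_pos _).le))

lemma WC.mono {g : ℝ → ℂ → ℂ} {C c C' c' : ℝ} (h : WC S g C c) (hC : C ≤ C') (hc : c' ≤ c)
    (hc' : 0 < c') : WC S g C' c' where
  C0 := h.C0.trans hC
  c0 := hc'
  mS := h.mS
  mg := h.mg
  grad := h.grad
  bS u hu x := bound_mono hC (h.C0.trans hC) hc hu (norm_nonneg _) (h.bS u hu x)
  bg u hu x := bound_mono hC (h.C0.trans hC) hc hu (norm_nonneg _) (h.bg u hu x)

lemma wp_wc (h : WP β S) : ∃ g C c, WC S g C c := by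
  obtain ⟨g, C1, c1, hc1, mg, gr, bg⟩ := h.grad
  obtain ⟨C2, c2, hc2, bS⟩ := h.bound
  have hC : 0 ≤ max (max C1 C2) 0 := le_max_right _ _
  refine ⟨g, max (max C1 C2) 0, min c1 c2, hC, lt_min hc1 hc2, h.meas, mg, gr, ?_, ?_⟩
  · intro u hu x
    exact bound_mono ((le_max_right _ _).trans (le_max_left _ _)) hC (min_le_right _ _) hu
      (norm_nonneg _) (bS u hu x)
  · intro u hu x
    exact bound_mono ((le_max_left _ _).trans (le_max_left _ _)) hC (min_le_left _ _) hu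
      (norm_nonneg _) (bg u hu x)

/-- gradient of `Sl` -/
noncomputable def gl (κ : ℝ) (g : ℝ → ℂ → ℂ) (u : ℝ) (x : ℂ) : ℂ := (κ : ℂ) * g u ((κ : ℂ) * x)

/-- gradient of `Sr` -/
noncomputable def gr (κ : ℝ) (g : ℝ → ℂ → ℂ) (u : ℝ) (x : ℂ) : ℂ :=
  -(starRingEnd ℂ) ((κ : ℂ) * g u ((κ : ℂ) * (1 - (starRingEnd ℂ) x)))

variable {g : ℝ → ℂ → ℂ} {C c : ℝ}

lemma meas_dil (κ : ℝ) : Measurable fun p : ℝ × ℂ => (p.1, (κ : ℂ) * p.2) := by fun_prop

lemma meas_dilR (κ : ℝ) :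
    Measurable fun p : ℝ × ℂ => (p.1, (κ : ℂ) * (1 - (starRingEnd ℂ) p.2)) := by
  have : Measurable fun x : ℂ => (starRingEnd ℂ) x := Complex.continuous_conj.measurable
  exact measurable_fst.prodMk (((measurable_const.sub (this.comp measurable_snd))).const_mul _)

lemma WC.mSl (h : WC S g C c) (κ : ℝ) : Measurable (Function.uncurry (Sl κ S)) :=
  h.mS.comp (meas_dil κ)

lemma WC.mSr (h : WC S g C c) (κ : ℝ) : Measurable (Function.uncurry (Sr κ S)) :=
  h.mS.comp (meas_dilR κ)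

lemma WC.mgl (h : WC S g C c) (κ : ℝ) : Measurable (Function.uncurry (gl κ g)) :=
  (h.mg.comp (meas_dil κ)).const_mul _

lemma WC.mgr (h : WC S g C c) (κ : ℝ) : Measurable (Function.uncurry (gr κ g)) := by
  have h1 : Measurable fun p : ℝ × ℂ => (κ : ℂ) * g p.1 ((κ : ℂ) * (1 - (starRingEnd ℂ) p.2)) :=
    (h.mg.comp (meas_dilR κ)).const_mul _
  exact (Complex.continuous_conj.measurable.comp h1).neg

lemma WC.bSl (h : WC S g C c) {κ : ℝ} (hκ : 0 < κ) {u : ℝ} (hu : 0 < u) (x : ℂ) :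
    |Sl κ S u x| ≤ C * Real.exp (C * u) * Real.exp (-(c * κ * ‖x - 0‖)) := by
  have := h.bS u hu ((κ : ℂ) * x)
  rw [norm_mul, Complex.norm_real, Real.norm_of_nonneg hκ.le, ← mul_assoc c] at this
  rw [sub_zero]
  exact this

lemma WC.bSr (h : WC S g C c) {κ : ℝ} (hκ : 0 < κ) {u : ℝ} (hu : 0 < u) (x : ℂ) :
    |Sr κ S u x| ≤ C * Real.exp (C * u) * Real.exp (-(c * κ * ‖x - 1‖)) := by
  have := h.bS u hu ((κ : ℂ) * (1 - (starRingEnd ℂ) x))
  rw [norm_mul, Complex.norm_real, Real.norm_of_nonneg hκ.le, ← mul_assoc c, ← RR_apply, norm_RR]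
    at this
  exact this

lemma WC.bgl (h : WC S g C c) {κ : ℝ} (hκ : 0 < κ) {u : ℝ} (hu : 0 < u) (x : ℂ) :
    ‖gl κ g u x‖ ≤ κ * (C * Real.exp (C * u)) * Real.exp (-(c * κ * ‖x - 0‖)) := by
  have := h.bg u hu ((κ : ℂ) * x)
  rw [norm_mul, Complex.norm_real, Real.norm_of_nonneg hκ.le, ← mul_assoc c] at this
  unfold gl
  rw [sub_zero, norm_mul, Complex.norm_real, Real.norm_of_nonneg hκ.le, mul_assoc κ]
  exact mul_le_mul_of_nonneg_left this hκ.le

lemma WC.bgr (h : WC S g C c) {κ : ℝ} (hκ : 0 < κ) {u : ℝ} (hu : 0 < u) (x : ℂ) :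
    ‖gr κ g u x‖ ≤ κ * (C * Real.exp (C * u)) * Real.exp (-(c * κ * ‖x - 1‖)) := by
  have := h.bg u hu ((κ : ℂ) * (1 - (starRingEnd ℂ) x))
  rw [norm_mul, Complex.norm_real, Real.norm_of_nonneg hκ.le, ← mul_assoc c, ← RR_apply, norm_RR]
    at this
  unfold gr
  rw [norm_neg, Complex.norm_conj, norm_mul, Complex.norm_real, Real.norm_of_nonneg hκ.le,
    mul_assoc κ]
  exact mul_le_mul_of_nonneg_left this hκ.le

lemma WC.gradl (hG : GrbStatement) (h : WC S g C c) {κ : ℝ} (hκ : 0 < κ) {u : ℝ} (hu : 0 < u) :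
    Grad (Sl κ S u) (gl κ g u) :=
  (hG.2.2.2.2.1 (S u) (g u) κ hκ (h.grad u hu)).1

lemma WC.gradr (hG : GrbStatement) (h : WC S g C c) {κ : ℝ} (hκ : 0 < κ) {u : ℝ} (hu : 0 < u) :
    Grad (Sr κ S u) (gr κ g u) :=
  (hG.2.2.2.2.1 (Sl κ S u) (gl κ g u) κ hκ (h.gradl hG hκ hu)).2

/-- norm of the exponential -/
noncomputable def NN (c : ℝ) : ℝ≥0∞ := eLpNorm (fun x : ℂ => Real.exp (-(c * ‖x‖))) 2 volume

lemma NN_lt {c : ℝ} (hc : 0 < c) : NN c < ⊤ := by
  have := (memLp_exp_norm hc 0).2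
  simpa [NN] using this

lemma nrm_le {E : Type*} [NormedAddCommGroup E] {f : ℂ → E} {A c : ℝ} (hA : 0 ≤ A) (a : ℂ)
    (h : ∀ x, ‖f x‖ ≤ A * Real.exp (-(c * ‖x - a‖))) :
    eLpNorm f 2 volume ≤ ENNReal.ofReal A * NN c := by
  have := eLpNorm_of_bound hA a h
  rwa [eLpNorm_exp_shift] at this

/-- finiteness of superposition norms -/
lemma sup_fin {E F : Type*} [NormedAddCommGroup E] [NormedAddCommGroup F]
    {f : ℝ → ℂ → E} {G : ℝ → ℂ → F} {cc : ℝ → ℝ} {B A A' C c k : ℝ} (hk : 0 < k) (hc : 0 < c)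
    (hB : 0 ≤ B) (hA : 0 ≤ A) (hA' : 0 ≤ A') (a a' : ℂ)
    (hcc : ∀ w, 0 < w → |cc w| ≤ B * ep k w)
    (hf : ∀ w, 0 < w → ∀ x, ‖f w x‖ ≤ A * Real.exp (C * w) * Real.exp (-(c * ‖x - a‖)))
    (hG : ∀ w, 0 < w → ∀ x, ‖G w x‖ ≤ A' * Real.exp (C * w) * Real.exp (-(c * ‖x - a'‖))) :
    ∫⁻ w in Set.Ioi (0 : ℝ), ENNReal.ofReal |cc w| *
      (eLpNorm (f w) 2 volume + eLpNorm (G w) 2 volume) < ⊤ := by
  have h1 : ∀ w ∈ Set.Ioi (0 : ℝ), ENNReal.ofReal |cc w| *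
      (eLpNorm (f w) 2 volume + eLpNorm (G w) 2 volume)
      ≤ (ENNReal.ofReal (B * (A + A')) * NN c) *
        ENNReal.ofReal (Real.exp (C * w) * ep k w) := by
    intro w hw
    have hw' : 0 < w := hw
    have e1 := nrm_le (mul_nonneg hA (Real.exp_pos (C * w)).le) a (hf w hw')
    have e2 := nrm_le (mul_nonneg hA' (Real.exp_pos (C * w)).le) a' (hG w hw')
    calc ENNReal.ofReal |cc w| * (eLpNorm (f w) 2 volume + eLpNorm (G w) 2 volume)
        ≤ ENNReal.ofReal (B * ep k w) * (ENNReal.ofReal (A * Real.exp (C * w)) * NN c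
          + ENNReal.ofReal (A' * Real.exp (C * w)) * NN c) := by
          gcongr
          exact hcc w hw'
      _ = _ := by
          rw [← add_mul, ← ENNReal.ofReal_add (by positivity) (by positivity), ← mul_assoc,
            ← ENNReal.ofReal_mul (mul_nonneg hB (ep_pos k w).le),
            mul_right_comm (ENNReal.ofReal (B * (A + A'))), ← ENNReal.ofReal_mul (by positivity)]
          congr 2
          ring
  refine lt_of_le_of_lt (setLIntegral_mono' measurableSet_Ioi h1) ?_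
  rw [lintegral_const_mul' _ _ (ENNReal.mul_ne_top ENNReal.ofReal_ne_top (NN_lt hc).ne)]
  refine ENNReal.mul_lt_top (ENNReal.mul_lt_top ENNReal.ofReal_lt_top (NN_lt hc)) ?_
  have h2 := (integrable_ep hk C)
  have h3 := h2.2
  refine lt_of_le_of_lt (le_of_eq ?_) h3
  refine lintegral_congr fun w => ?_
  rw [Real.enorm_eq_ofReal (mul_nonneg (Real.exp_pos _).le (ep_pos _ _).le)]

/-! ### The equations -/

lemma wp_harml (h : WP β S) {κ : ℝ} (hκ : 0 < κ) {u : ℝ} (hu : 0 < u) {φ : ℂ → ℝ}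
    (hφ : φ ∈ Test (W1 β)) : ∫ x, Sl κ S u x * (κ ^ 2 * φ x - lap φ x) = 0 := by
  have hi : κ⁻¹ ≠ 0 := inv_ne_zero hκ.ne'
  have hψ : (fun x => φ (κ⁻¹ • x)) ∈ Test (W1 β) := by
    have := test_comp hφ (DD κ⁻¹ hi) (contDiff_DD _ _)
    have e : DD κ⁻¹ hi ⁻¹' W1 β = W1 β := by
      ext x
      rw [Set.mem_preimage, DD_apply, Complex.real_smul]
      exact dil_mem_W1 (inv_pos.2 hκ)
    rw [e] at this
    exact this
  have h1 := h.harm u hu _ hψ
  have h2 := integral_dil (fun x => S u x * ((fun x => φ (κ⁻¹ • x)) x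
    - lap (fun x => φ (κ⁻¹ • x)) x)) hκ
  rw [h1, smul_zero] at h2
  have h3 : ∀ x, Sl κ S u x * (κ ^ 2 * φ x - lap φ x) = κ ^ 2 * (S u ((κ : ℂ) * x) *
      ((fun x => φ (κ⁻¹ • x)) ((κ : ℂ) * x) - lap (fun x => φ (κ⁻¹ • x)) ((κ : ℂ) * x))) := by
    intro x
    rw [lap_dil hφ.1]
    have e : κ⁻¹ • ((κ : ℂ) * x) = x := by
      rw [← Complex.real_smul, smul_smul, inv_mul_cancel₀ hκ.ne', one_smul]
    simp only [e]
    unfold Sl
    field_simp
  calc ∫ x, Sl κ S u x * (κ ^ 2 * φ x - lap φ x) = ∫ x, κ ^ 2 * (S u ((κ : ℂ) * x) *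
      ((fun x => φ (κ⁻¹ • x)) ((κ : ℂ) * x) - lap (fun x => φ (κ⁻¹ • x)) ((κ : ℂ) * x))) :=
        integral_congr_ae (ae_of_all _ h3)
    _ = κ ^ 2 * 0 := by rw [integral_const_mul, h2]
    _ = 0 := mul_zero _

lemma wp_harmr (h : WP β S) {κ : ℝ} (hκ : 0 < κ) {u : ℝ} (hu : 0 < u) {φ : ℂ → ℝ}
    (hφ : φ ∈ Test (W2 β)) : ∫ x, Sr κ S u x * (κ ^ 2 * φ x - lap φ x) = 0 := by
  have hψ : (fun x => φ (1 - (starRingEnd ℂ) x)) ∈ Test (W1 β) := by
    have := test_comp hφ RR contDiff_RR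
    have e : RR ⁻¹' W2 β = W1 β := by
      ext x
      rw [W2_eq, Set.mem_preimage, Set.mem_preimage, RR_RR]
    rw [e] at this
    exact this
  have h1 := wp_harml h hκ hu hψ
  rw [← integral_RR] at h1
  rw [← h1]
  refine integral_congr_ae (ae_of_all _ fun x => ?_)
  simp only
  rw [lap_RR hφ.1]
  have e : (1 : ℂ) - (starRingEnd ℂ) (1 - (starRingEnd ℂ) x) = x := by simp
  rw [e]
  rfl

/-! ### Values outside of the wedges -/

lemma dec_eq (κ w : ℝ) (x : ℂ) :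
    dec w ((κ : ℂ) * (1 - (starRingEnd ℂ) x)) = ep κ w * EE w ((κ : ℂ) * x) := by
  unfold dec ep EE
  rw [← mul_assoc, ← Real.exp_add]
  congr 2
  · simp only [Complex.mul_re, Complex.ofReal_re, Complex.sub_re, Complex.one_re, Complex.conj_re,
      Complex.ofReal_im, Complex.sub_im, Complex.one_im, Complex.conj_im, zero_mul, sub_zero]
    ring
  · simp

lemma dec_eq' (κ w : ℝ) (x : ℂ) :
    dec w ((κ : ℂ) * x) = ep κ w * EE w ((κ : ℂ) * (1 - (starRingEnd ℂ) x)) := by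
  have := dec_eq κ w (1 - (starRingEnd ℂ) x)
  rw [← this]
  simp

lemma wp_sl_out (h : WP β S) {κ : ℝ} (hκ : 0 < κ) {u : ℝ} (hu : 0 < u) {x : ℂ} (hx : x.im ≤ 0) :
    Sl κ S u x = 0 := by
  refine h.out u hu _ ?_
  simp only [Complex.mul_im, Complex.ofReal_re, Complex.ofReal_im, zero_mul, add_zero]
  exact mul_nonpos_of_nonneg_of_nonpos hκ.le hx

lemma wp_sr_out (h : WP β S) {κ : ℝ} (hκ : 0 < κ) {u : ℝ} (hu : 0 < u) {x : ℂ} (hx : x.im ≤ 0) :
    Sr κ S u x = 0 := by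
  refine wp_sl_out h hκ hu (x := 1 - (starRingEnd ℂ) x) ?_
  simpa using hx

lemma wp_sl_beyond (h : WP β S) {κ : ℝ} (hκ : 0 < κ) {u : ℝ} (hu : 0 < u) {x : ℂ}
    (hi : 0 < x.im) (hx : x ∉ W1 β) : Sl κ S u x = EE u ((κ : ℂ) * x) := by
  refine h.beyond u hu _ ?_ ?_
  · simp only [Complex.mul_im, Complex.ofReal_re, Complex.ofReal_im, zero_mul, add_zero]
    positivity
  · rw [dil_mem_W1 hκ]; exact hx

lemma wp_sr_beyond (h : WP β S) {κ : ℝ} (hκ : 0 < κ) {u : ℝ} (hu : 0 < u) {x : ℂ}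
    (hi : 0 < x.im) (hx : x ∉ W2 β) : Sr κ S u x = EE u ((κ : ℂ) * (1 - (starRingEnd ℂ) x)) := by
  refine wp_sl_beyond h hκ hu (x := 1 - (starRingEnd ℂ) x) (by simpa using hi) ?_
  rw [W2_eq] at hx
  exact hx

lemma wp_sl_right (h : WP β S) {κ : ℝ} (hκ : 0 < κ) {u : ℝ} (hu : 0 < u) {x : ℂ}
    (hi : 0 < x.im) (hx : 0 < x.re) :
    Sl κ S u x = ∫ w in Set.Ioi 0, (bb β u w * ep κ w) * EE w ((κ : ℂ) * (1 - (starRingEnd ℂ) x)) := by
  unfold Sl
  rw [h.right u hu _ (by simp; positivity) (by simp; positivity)]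
  refine integral_congr_ae (ae_of_all _ fun w => ?_)
  simp only
  rw [dec_eq', mul_assoc]

lemma wp_sr_left (h : WP β S) {κ : ℝ} (hκ : 0 < κ) {u : ℝ} (hu : 0 < u) {x : ℂ}
    (hi : 0 < x.im) (hx : x.re < 1) :
    Sr κ S u x = ∫ w in Set.Ioi 0, (bb β u w * ep κ w) * EE w ((κ : ℂ) * x) := by
  unfold Sr
  rw [h.right u hu _ (by simp; nlinarith) (by simp; positivity)]
  refine integral_congr_ae (ae_of_all _ fun w => ?_)
  simp only
  rw [dec_eq, mul_assoc]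

end

end Pool.Agent.H16F.B.H51
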